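import Pool.Agent.H20.RG.HullPair

/-!
# Limits of forms of bounded degree
-/

set_option autoImplicit false
set_option linter.unusedSectionVars false

namespace Pool.Agent.H20.RG

open Filter Topology MvPolynomial Pool.Agent.Y129.TA
open Pool.Agent.K7.H6.PT (abs_nat_le ultra_sum' abs_sub_le' lipschitz)

variable {p : ℕ} [hp : Fact p.Prime] {K F : Type} [Field K] [Field F] [CharP F p] [IsAlgClosed F]
  [IsAlgClosed K] {ι : Type} [Fintype ι]

/-- A point in the unit ball where the form is not zero. -/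
theorem exists_ne_point [Nonempty ι] (T : TiltPair p K F) {P : MvPolynomial ι K} {d : ℕ}
    (hP : P.IsHomogeneous d) (hP0 : P ≠ 0) : ∃ x : ι → F, (∀ i, T.absF (x i) ≤ 1) ∧
      eval (fun i => T.sharp (x i)) P ≠ 0 := by
  obtain ⟨v, hv⟩ : ∃ v : ι → K, eval v P ≠ 0 := by
    by_contra hno
    push Not at hno
    exact hP0 (MvPolynomial.funext fun v => by rw [hno v, map_zero])
  choose w hw using fun i => T.surj (v i)
  have hvw : (fun i => T.sharp (w i)) = v := funext hw
  rcases eq_or_ne w 0 with h0 | h0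
  · refine ⟨w, fun i => ?_, by rw [hvw]; exact hv⟩
    rw [h0, Pi.zero_apply, map_zero]
    exact zero_le_one
  · obtain ⟨a, ha, h1, -⟩ := exists_normal T h0
    refine ⟨fun i => a * w i, h1, ?_⟩
    have h2 : (fun i => T.sharp (a * w i)) = fun i => T.sharp a * v i := by
      funext i
      rw [map_mul, hw]
    rw [h2, eval_smul_of_homogeneous hP]
    exact mul_ne_zero (pow_ne_zero _ (T.sharp_ne ha)) hv

/-- The limit of forms of the same degree the zeros of which approach a hypersurface. -/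
theorem exists_limit_form [Nonempty ι] (T : TiltPair p K F) (hA : NearAdd T)
    {P : MvPolynomial ι K} {d : ℕ} (hP : P.IsHomogeneous d) (hP0 : P ≠ 0) {D : ℕ} (hD : 0 < D)
    (h : ∀ ε : ℝ, 0 < ε → ∃ g : MvPolynomial ι F, g.IsHomogeneous D ∧
      ∀ y, eval y g = 0 → T.InTube P d ε y) :
    ∃ g : MvPolynomial ι (Hull T.absF), g ≠ 0 ∧ g.IsHomogeneous D ∧ ∀ y : ι → Hull T.absF,
      eval y g = 0 → eval (fun i => (hullPair T hA).sharp (y i)) (map (emb T.absK) P) = 0 := by
  classical
  obtain ⟨x, hx1, hx0⟩ := exists_ne_point T hP hP0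
  have hxp : 0 < T.absK (eval (fun i => T.sharp (x i)) P) := T.absK.pos hx0
  set c0 := T.absK (eval (fun i => T.sharp (x i)) P) with hc0
  -- the sequence of the forms
  choose g hg hgt using fun m : ℕ => h (min (c0 / 2) (1 / ((m : ℝ) + 1)))
    (lt_min (half_pos hxp) (by positivity))
  have hg0 : ∀ m, g m ≠ 0 := by
    intro m hm
    have h1 := hgt m x (by rw [hm, map_zero]) 1 hx1
    rw [one_pow, mul_one] at h1
    have h2 := h1.trans (min_le_left _ _)
    linarith
  have hmax : ∀ m, ∃ α ∈ (g m).support, ∀ β ∈ (g m).support,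
      T.absF ((g m).coeff β) ≤ T.absF ((g m).coeff α) := fun m =>
    Finset.exists_max_image _ (fun β => T.absF ((g m).coeff β)) (support_nonempty.2 (hg0 m))
  choose α hα hαmax using hmax
  let f : ℕ → MvPolynomial ι F := fun m => C ((g m).coeff (α m))⁻¹ * g m
  have hαne : ∀ m, (g m).coeff (α m) ≠ 0 := fun m => mem_support_iff.1 (hα m)
  have hf : ∀ m, (f m).IsHomogeneous D := fun m => by
    have h1 := (isHomogeneous_C ι ((g m).coeff (α m))⁻¹).mul (hg m)
    rwa [zero_add] at h1
  have hfc : ∀ m β, (f m).coeff β = ((g m).coeff (α m))⁻¹ * (g m).coeff β := fun m β =>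
    coeff_C_mul _ _ _
  have hf1 : ∀ m β, T.absF ((f m).coeff β) ≤ 1 := by
    intro m β
    rw [hfc, map_mul, map_inv₀]
    have h1 : 0 < T.absF ((g m).coeff (α m)) := T.absF.pos (hαne m)
    rw [inv_mul_le_iff₀ h1, mul_one]
    by_cases hβ : β ∈ (g m).support
    · exact hαmax m β hβ
    · rw [notMem_support_iff.1 hβ, map_zero]
      exact h1.le
  have hfα : ∀ m, (f m).coeff (α m) = 1 := fun m => by
    rw [hfc, inv_mul_cancel₀ (hαne m)]
  have hfz : ∀ m y, eval y (f m) = 0 → eval y (g m) = 0 := by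
    intro m y hy
    simp only [f] at hy
    rw [map_mul, eval_C] at hy
    exact (mul_eq_zero.1 hy).resolve_left (inv_ne_zero (hαne m))
  -- the limit
  let S : Finset (ι →₀ ℕ) := Finset.finsuppAntidiag Finset.univ D
  have hS : ∀ β : ι →₀ ℕ, β ∈ S ↔ ∑ i, β i = D := by
    intro β
    simp only [S, Finset.mem_finsuppAntidiag]
    exact ⟨fun h => h.1, fun h => ⟨h, Finset.subset_univ _⟩⟩
  have hfS : ∀ m, (f m).support ⊆ S := fun m β hβ =>
    (hS β).2 (sum_of_homogeneous (hf m) hβ)
  let c : (ι →₀ ℕ) → Bd T.absF := fun β => ⟨fun m => (f m).coeff β, 1, fun m => hf1 m β⟩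
  set G : MvPolynomial ι (Hull T.absF) := ∑ β ∈ S, monomial β (cl T.absF (c β)) with hG
  have hGc : ∀ β ∈ S, G.coeff β = cl T.absF (c β) := by
    intro β hβ
    rw [hG, coeff_sum, Finset.sum_eq_single β]
    · rw [coeff_monomial, if_pos rfl]
    · intro γ _ hγ
      rw [coeff_monomial, if_neg hγ]
    · intro h1
      exact absurd hβ h1
  have hGhom : G.IsHomogeneous D := by
    rw [hG]
    refine IsHomogeneous.sum _ _ _ fun β hβ => isHomogeneous_monomial _ ?_
    rw [Finsupp.degree_apply, ← (hS β).1 hβ]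
    exact Finset.sum_subset (Finset.subset_univ _) (by simp)
  have hG0 : G ≠ 0 := by
    intro h0
    have h1 : ∀ β ∈ S, ∀ᶠ m in (UF : Filter ℕ), T.absF ((f m).coeff β) < 1 / 2 := by
      intro β hβ
      have h2 := hGc β hβ
      rw [h0, coeff_zero] at h2
      have h3 := (cl_eq_zero T.absF).1 h2.symm
      have h4 := lam_spec T.absF (c β)
      rw [h3] at h4
      exact h4.eventually (gt_mem_nhds (by norm_num))
    have h2 : ∀ᶠ m in (UF : Filter ℕ), ∀ β ∈ S, T.absF ((f m).coeff β) < 1 / 2 :=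
      (Filter.eventually_all_finset S).2 h1
    obtain ⟨m, hm⟩ := h2.exists
    have h3 := hm (α m) (hfS m (by
      rw [mem_support_iff, hfα]
      exact one_ne_zero))
    rw [hfα, map_one] at h3
    norm_num at h3
  refine ⟨G, hG0, hGhom, fun y hy => ?_⟩
  have hcl : IsAlgClosed (Hull T.absF) := hull_closed T.ultraF
  obtain ⟨w, hw⟩ : ∃ w, eval w G ≠ 0 := by
    by_contra hno
    push Not at hno
    have : Infinite (Hull T.absF) := IsAlgClosed.instInfinite
    exact hG0 (MvPolynomial.funext fun v => by rw [hno v, map_zero])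
  let y' : ι → Bd T.absF := fun i => rep T.absF (y i)
  let w' : ι → Bd T.absF := fun i => rep T.absF (w i)
  have hy' : ∀ i, cl T.absF (y' i) = y i := fun i => cl_rep _ _
  have hw' : ∀ i, cl T.absF (w' i) = w i := fun i => cl_rep _ _
  obtain ⟨v, hv1, hv2⟩ := eval_cl (a := T.absF) S f hfS c (fun β _ m => rfl) y'
  obtain ⟨u, hu1, hu2⟩ := eval_cl (a := T.absF) S f hfS c (fun β _ m => rfl) w'
  rw [← hG] at hv2 hu2
  have hy'' : (fun i => cl T.absF (y' i)) = y := funext hy'
  have hw'' : (fun i => cl T.absF (w' i)) = w := funext hw'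
  rw [hy'', hy] at hv2
  rw [hw''] at hu2
  have hlv : lam T.absF v = 0 := (cl_eq_zero _).1 hv2
  have hlu : 0 < lam T.absF u := by
    refine lt_of_le_of_ne (lam_nonneg _ _) fun h1 => ?_
    rw [eq_comm, ← cl_eq_zero, hu2] at h1
    exact hw h1
  set μ := lam T.absF u / 2 with hμ
  have hμ0 : 0 < μ := half_pos hlu
  have hev : ∀ᶠ m in (UF : Filter ℕ), μ < T.absF ((u : ℕ → F) m) ∧ T.absF ((v : ℕ → F) m) < μ :=
    ((lam_spec T.absF u).eventually (lt_mem_nhds (half_lt_self hlu))).and
      ((lam_spec T.absF v).eventually (gt_mem_nhds (by rw [hlv]; exact hμ0)))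
  -- the small roots
  have hroot : ∀ m, μ < T.absF ((u : ℕ → F) m) → ∃ s : F,
      eval (fun i => (y' i : ℕ → F) m + (w' i : ℕ → F) m * s) (f m) = 0 ∧
        μ * T.absF s ^ D ≤ T.absF ((v : ℕ → F) m) := by
    intro m hm
    have hum : 0 < T.absF ((u : ℕ → F) m) := hμ0.trans hm
    have hDR : (D : ℝ) ≠ 0 := by exact_mod_cast hD.ne'
    set t : ℝ := T.absF ((v : ℕ → F) m) / T.absF ((u : ℕ → F) m) with ht
    have ht0 : 0 ≤ t := by positivity
    have hρ : (t ^ ((1 : ℝ) / D)) ^ D = t := by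
      rw [← Real.rpow_natCast, ← Real.rpow_mul ht0, one_div, inv_mul_cancel₀ hDR, Real.rpow_one]
    obtain ⟨hc1, hc2⟩ := line_coeff (hf m) (fun i => (y' i : ℕ → F) m) (fun i => (w' i : ℕ → F) m)
    rw [← hu1 m] at hc2
    have hc3 : (line (f m) (fun i => (y' i : ℕ → F) m) (fun i => (w' i : ℕ → F) m)).coeff 0 =
        (v : ℕ → F) m := by
      rw [Polynomial.coeff_zero_eq_eval_zero, line_eval, hv1 m]
      congr 2
      exact funext fun i => by rw [mul_zero, add_zero]
    obtain ⟨s, hs1, hs2⟩ := exists_small_root T.ultraF (ρ := t ^ ((1 : ℝ) / D)) (by positivity)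
      (line (f m) (fun i => (y' i : ℕ → F) m) (fun i => (w' i : ℕ → F) m)) hD
      (by
        rw [hc2]
        intro h1
        rw [h1, map_zero] at hum
        exact lt_irrefl _ hum)
      (by
        rw [hc2, hc3, hρ, ht]
        exact le_of_eq (by field_simp))
    refine ⟨s, by rw [← line_eval]; exact hs1, ?_⟩
    have h1 : T.absF s ^ D ≤ t := by
      rw [← hρ]
      exact pow_le_pow_left₀ (T.absF.nonneg _) hs2 _
    calc μ * T.absF s ^ D ≤ T.absF ((u : ℕ → F) m) * t :=
          mul_le_mul hm.le h1 (by positivity) hum.le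
      _ = T.absF ((v : ℕ → F) m) := by rw [ht]; field_simp
  choose s hs1 hs2 using hroot
  let s₀ : ℕ → F := fun m => if hm : μ < T.absF ((u : ℕ → F) m) ∧ T.absF ((v : ℕ → F) m) < μ then
    s m hm.1 else 0
  have hs₀ : ∀ m, μ * T.absF (s₀ m) ^ D ≤ T.absF ((v : ℕ → F) m) ∧ T.absF (s₀ m) ≤ 1 := by
    intro m
    simp only [s₀]
    split_ifs with hm
    · refine ⟨hs2 m hm.1, ?_⟩
      have h1 := (hs2 m hm.1).trans_lt hm.2
      have h2 : T.absF (s m hm.1) ^ D < 1 := by
        by_contra h3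
        push Not at h3
        have := mul_le_mul_of_nonneg_left h3 hμ0.le
        linarith
      exact ((pow_lt_one_iff_of_nonneg (T.absF.nonneg _) hD.ne').1 h2).le
    · rw [map_zero, zero_pow hD.ne', mul_zero]
      exact ⟨T.absF.nonneg _, zero_le_one⟩
  let s' : Bd T.absF := ⟨s₀, 1, fun m => (hs₀ m).2⟩
  have hs'0 : cl T.absF s' = 0 := by
    rw [cl_eq_zero]
    have h1 : μ * lam T.absF s' ^ D ≤ 0 := by
      have h2 := ((lam_spec T.absF s').pow D).const_mul μ
      have h3 := lam_spec T.absF v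
      rw [hlv] at h3
      exact le_of_tendsto_of_tendsto' h2 h3 fun m => (hs₀ m).1
    have h4 := lam_nonneg T.absF s'
    by_contra h5
    have h6 : 0 < lam T.absF s' := lt_of_le_of_ne h4 (Ne.symm h5)
    have : 0 < μ * lam T.absF s' ^ D := by positivity
    linarith
  let z : ι → Bd T.absF := fun i => y' i + w' i * s'
  have hz : ∀ i, cl T.absF (z i) = y i := by
    intro i
    simp only [z]
    rw [map_add, map_mul, hs'0, mul_zero, add_zero, hy']
  choose B hB using fun i => (z i).2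
  set B' : ℝ := 1 + ∑ i, |B i| with hB'
  have hBB : ∀ i m, T.absF ((z i : ℕ → F) m) ≤ B' := by
    intro i m
    have h1 := Finset.single_le_sum (f := fun i => |B i|) (fun i _ => abs_nonneg _)
      (Finset.mem_univ i)
    have h2 := le_abs_self (B i)
    have h3 := hB i m
    linarith
  obtain ⟨t, ht1, ht2⟩ := eval_emb (a := T.absK) P (fun i => sharpBd T (z i))
  have h1 : (fun i => (hullPair T hA).sharp (y i)) = fun i => cl T.absK (sharpBd T (z i)) := by
    funext i
    rw [← hz i]
    exact hsharp_cl T hA (z i)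
  rw [h1, ← ht2, cl_eq_zero]
  refine lam_eq _ ?_
  have hsq : Tendsto (fun m : ℕ => 1 / ((m : ℝ) + 1) * B' ^ d) (UF : Filter ℕ) (𝓝 0) := by
    have h2 : Tendsto (fun m : ℕ => 1 / ((m : ℝ) + 1) * B' ^ d) atTop (𝓝 (0 * B' ^ d)) :=
      (tendsto_one_div_add_atTop_nhds_zero_nat).mul_const _
    rw [zero_mul] at h2
    refine h2.mono_left ?_
    rw [← Nat.cofinite_eq_atTop]
    exact Filter.hyperfilter_le_cofinite
  refine squeeze_zero' (Filter.Eventually.of_forall fun m => T.absK.nonneg _) ?_ hsq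
  filter_upwards [hev] with m hm
  have h2 : s₀ m = s m hm.1 := by
    simp only [s₀]
    rw [dif_pos hm]
  have h3 : eval (fun i => (z i : ℕ → F) m) (f m) = 0 := by
    have h4 := hs1 m hm.1
    rw [← h2] at h4
    exact h4
  have h4 := hgt m _ (hfz m _ h3) B' (fun i => hBB i m)
  rw [ht1 m]
  have hB'0 : 0 ≤ B' ^ d := by
    have : 0 ≤ ∑ i, |B i| := Finset.sum_nonneg fun i _ => abs_nonneg _
    positivity
  exact h4.trans (mul_le_mul_of_nonneg_right (min_le_right _ _) hB'0)

end Pool.Agent.H20.RG
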