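import Pool.Agent.H20.RG.Hull

/-!
# The hull of a pair
-/

set_option autoImplicit false
set_option linter.unusedSectionVars false

namespace Pool.Agent.H20.RG

open Filter Topology MvPolynomial Pool.Agent.Y129.TA
open Pool.Agent.K7.H6.PT (abs_nat_le ultra_sum' abs_sub_le' lipschitz)

variable {p : ℕ} [hp : Fact p.Prime] {K F : Type} [Field K] [Field F] [CharP F p] [IsAlgClosed F]

/-- The image of a bounded sequence. -/
def sharpBd (T : TiltPair p K F) (x : Bd T.absF) : Bd T.absK :=
  ⟨fun m => T.sharp ((x : ℕ → F) m), by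
    obtain ⟨C, hC⟩ := x.2
    exact ⟨C, fun m => by rw [T.abs_sharp]; exact hC m⟩⟩

theorem sharpBd_congr (T : TiltPair p K F) (hA : NearAdd T) {x y : Bd T.absF}
    (h : cl T.absF x = cl T.absF y) : cl T.absK (sharpBd T x) = cl T.absK (sharpBd T y) := by
  rw [cl_eq] at h ⊢
  rw [mem_Nul] at h ⊢
  obtain ⟨C, hC⟩ := x.2
  obtain ⟨D, hD⟩ := y.2
  refine lam_eq _ ?_
  rw [Metric.tendsto_nhds]
  intro ε hε
  obtain ⟨δ, hδ, hcont⟩ := sharp_cont_ball' T hA (max C D) (half_pos hε)
  have h1 := lam_spec T.absF (x - y)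
  rw [h] at h1
  have h2 : ∀ᶠ m in (UF : Filter ℕ), T.absF (((x - y : Bd T.absF) : ℕ → F) m) < δ :=
    h1.eventually (gt_mem_nhds hδ)
  filter_upwards [h2] with m hm
  have h3 := hcont _ _ ((hC m).trans (le_max_left _ _)) ((hD m).trans (le_max_right _ _)) hm.le
  rw [Real.dist_eq, sub_zero, abs_of_nonneg (T.absK.nonneg _)]
  refine lt_of_le_of_lt ?_ (half_lt_self hε)
  exact h3

/-- The sharp map of the hull. -/
noncomputable def hsharp (T : TiltPair p K F) (hA : NearAdd T) :
    Hull T.absF →* Hull T.absK where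
  toFun z := cl T.absK (sharpBd T (rep T.absF z))
  map_one' := by
    have h1 : cl T.absF (rep T.absF 1) = cl T.absF 1 := by rw [cl_rep, map_one]
    rw [sharpBd_congr T hA h1, ← map_one (cl T.absK)]
    congr 1
    exact Subtype.ext (funext fun m => map_one T.sharp)
  map_mul' z w := by
    have h1 : cl T.absF (rep T.absF (z * w)) = cl T.absF (rep T.absF z * rep T.absF w) := by
      rw [map_mul, cl_rep, cl_rep, cl_rep]
    rw [sharpBd_congr T hA h1, ← map_mul (cl T.absK)]
    congr 1
    exact Subtype.ext (funext fun m => map_mul T.sharp _ _)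

theorem hsharp_cl (T : TiltPair p K F) (hA : NearAdd T) (x : Bd T.absF) :
    hsharp T hA (cl T.absF x) = cl T.absK (sharpBd T x) :=
  sharpBd_congr T hA (cl_rep _ _)

/-- The hull of a pair. -/
noncomputable def hullPair (T : TiltPair p K F) (hA : NearAdd T) :
    TiltPair p (Hull T.absK) (Hull T.absF) where
  absK := habs T.absK
  absF := habs T.absF
  ultraK := habs_ultra T.ultraK
  ultraF := habs_ultra T.ultraF
  p_ne := by
    have h1 : (p : Hull T.absK) = cl T.absK (cst T.absK p) := by
      rw [map_natCast, map_natCast]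
    rw [h1]
    intro h2
    rw [cl_eq_zero] at h2
    have h3 : lam T.absK (cst T.absK (p : K)) = T.absK p := lam_eq _ tendsto_const_nhds
    rw [h3] at h2
    exact T.p_ne (T.absK.eq_zero.1 h2)
  p_lt := by
    have h1 : (p : Hull T.absK) = cl T.absK (cst T.absK p) := by
      rw [map_natCast, map_natCast]
    rw [h1, habs_cl]
    have h3 : lam T.absK (cst T.absK (p : K)) = T.absK p := lam_eq _ tendsto_const_nhds
    rw [h3]
    exact T.p_lt
  sharp := hsharp T hA
  surj := by
    intro z
    obtain ⟨y, rfl⟩ := cl_surj T.absK z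
    choose x hx using fun m => T.surj ((y : ℕ → K) m)
    obtain ⟨C, hC⟩ := y.2
    let x' : Bd T.absF := ⟨x, C, fun m => by rw [← T.abs_sharp, hx]; exact hC m⟩
    refine ⟨cl T.absF x', ?_⟩
    rw [hsharp_cl]
    congr 1
    exact Subtype.ext (funext fun m => hx m)
  abs_sharp := by
    intro z
    obtain ⟨x, rfl⟩ := cl_surj T.absF z
    rw [hsharp_cl, habs_cl, habs_cl]
    refine lam_eq _ ((lam_spec T.absF x).congr fun m => ?_)
    exact (T.abs_sharp _).symm

theorem hull_p (T : TiltPair p K F) : habs T.absK (p : Hull T.absK) = T.absK p := by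
  have h1 : (p : Hull T.absK) = cl T.absK (cst T.absK p) := by
    rw [map_natCast, map_natCast]
  rw [h1, habs_cl]
  exact lam_eq _ tendsto_const_nhds

theorem hull_nearAdd (T : TiltPair p K F) (hA : NearAdd T) : NearAdd (hullPair T hA) := by
  intro z w hz hw
  obtain ⟨x, rfl⟩ := cl_surj T.absF z
  obtain ⟨y, rfl⟩ := cl_surj T.absF w
  change habs T.absK ((hsharp T hA _ - hsharp T hA _) - hsharp T hA _) ≤
    habs T.absK (p : Hull T.absK)
  change habs T.absF _ ≤ 1 at hz hw
  rw [habs_cl] at hz hw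
  rw [hull_p, ← map_sub (cl T.absF), hsharp_cl, hsharp_cl, hsharp_cl, ← map_sub (cl T.absK),
    ← map_sub (cl T.absK), habs_cl]
  have h1 : lam T.absK (sharpBd T x - sharpBd T y - sharpBd T (x - y)) ≤
      T.absK p * max (lam T.absF x) (lam T.absF y) :=
    le_of_tendsto_of_tendsto' (lam_spec _ _)
      (((lam_spec T.absF x).max (lam_spec T.absF y)).const_mul (T.absK p))
      fun m => nearAdd_scaled T hA _ _
  exact h1.trans (mul_le_of_le_one_right (T.absK.nonneg _) (max_le hz hw))

instance hull_char (T : TiltPair p K F) : CharP (Hull T.absF) p := by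
  have h1 : (p : Hull T.absF) = 0 := by
    have h2 : (p : Hull T.absF) = cl T.absF (cst T.absF p) := by
      rw [map_natCast, map_natCast]
    rw [h2, CharP.cast_eq_zero, map_zero, map_zero]
  exact (CharP.charP_iff_prime_eq_zero hp.out).2 h1

section Eval

variable {L : Type} [Field L] {a : AbsoluteValue L ℝ} {ι : Type} [Fintype ι]

/-- The embedding of the field. -/
noncomputable def emb (a : AbsoluteValue L ℝ) : L →+* Hull a := (cl a).comp (cst a)

/-- The value of a polynomial with varying coefficients. -/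
theorem eval_cl (S : Finset (ι →₀ ℕ)) (g : ℕ → MvPolynomial ι L) (hg : ∀ m, (g m).support ⊆ S)
    (c : (ι →₀ ℕ) → Bd a) (hc : ∀ α ∈ S, ∀ m, ((c α : Bd a) : ℕ → L) m = (g m).coeff α)
    (y : ι → Bd a) : ∃ v : Bd a, (∀ m, (v : ℕ → L) m = eval (fun i => (y i : ℕ → L) m) (g m)) ∧
      cl a v = eval (fun i => cl a (y i)) (∑ α ∈ S, monomial α (cl a (c α))) := by
  refine ⟨∑ α ∈ S, c α * ∏ i, y i ^ α i, fun m => ?_, ?_⟩
  · rw [eval_eq']
    have h2 : ((∑ α ∈ S, c α * ∏ i, y i ^ α i : Bd a) : ℕ → L) m =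
        ∑ α ∈ S, (c α : ℕ → L) m * ∏ i, (y i : ℕ → L) m ^ α i := by
      push_cast
      rw [Finset.sum_apply]
      refine Finset.sum_congr rfl fun α _ => ?_
      rw [Pi.mul_apply, Finset.prod_apply]
      rfl
    rw [h2]
    symm
    refine Finset.sum_subset_zero_on_sdiff (hg m) (fun α hα => ?_) fun α hα => ?_
    · rw [Finset.mem_sdiff] at hα
      rw [hc α hα.1, notMem_support_iff.1 hα.2, zero_mul]
    · rw [hc α (hg m hα)]
  · rw [map_sum, map_sum]
    refine Finset.sum_congr rfl fun α _ => ?_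
    rw [eval_monomial, Finsupp.prod_fintype _ _ (fun i => pow_zero _), map_mul, map_prod]
    simp only [map_pow]

/-- The value of a polynomial with constant coefficients. -/
theorem eval_emb (P : MvPolynomial ι L) (y : ι → Bd a) : ∃ v : Bd a,
    (∀ m, (v : ℕ → L) m = eval (fun i => (y i : ℕ → L) m) P) ∧
      cl a v = eval (fun i => cl a (y i)) (map (emb a) P) := by
  obtain ⟨v, h1, h2⟩ := eval_cl (a := a) P.support (fun _ => P) (fun _ => subset_rfl)
    (fun α => cst a (P.coeff α)) (fun α _ m => rfl) y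
  refine ⟨v, h1, ?_⟩
  rw [h2]
  congr 1
  conv_rhs => rw [P.as_sum]
  rw [map_sum]
  refine Finset.sum_congr rfl fun α _ => ?_
  rw [map_monomial]
  rfl

end Eval

end Pool.Agent.H20.RG
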