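import Pool.Agent.H20.RG.Rel
import Pool.Graph.R_seed8.R388.TP.Indep
import Pool.Graph.R_pool_sql_team_seeded_35f281b4.K7.H6.PT.Comp

/-!
# Rigidity: closed sets which lie exactly over a variety of the same dimension
-/

set_option autoImplicit false
set_option linter.unusedSectionVars false

namespace Pool.Agent.H20.RG

open MvPolynomial Pool.Agent.Y129.TA
open Pool.Agent.K7.H6.PT (IsIrr)

section Cone

variable {L : Type} [Field L] {ι τ : Type} [Fintype ι] [Fintype τ]

/-- The exponents with an additional parameter for the scaling. -/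
def coneExp (M : ι → τ → ℤ) : ι → Option τ → ℤ := fun i o => o.elim 1 fun t => M i t

theorem par_cone (x₀ : ι → L) (M : ι → τ → ℤ) (v : Option τ → L) :
    par x₀ (coneExp M) v = v none • par x₀ M (fun t => v (some t)) := by
  funext i
  unfold par coneExp
  rw [Fintype.prod_option, Pi.smul_apply, smul_eq_mul]
  simp only [Option.elim, zpow_one]
  ring

theorem zeroLocus_cone [Infinite L] (x₀ : ι → L) (M : ι → τ → ℤ) (a : L) {y : ι → L}
    (hy : y ∈ zeroLocus L (parIdeal x₀ (coneExp M))) :
    a • y ∈ zeroLocus L (parIdeal x₀ (coneExp M)) := by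
  classical
  rw [mem_zeroLocus_iff]
  intro q hq
  rw [aeval_eq_eval]
  have hne : ∀ a : L, a ≠ 0 → eval (a • y) q = 0 := by
    intro a ha
    have h3 : (aeval (fun i => X i * C a) q : MvPolynomial ι L) ∈ parIdeal x₀ (coneExp M) := by
      intro v hv
      rw [eval_scale q (fun _ => a)]
      have h4 := hq (fun o => o.elim (v none * a) fun t => v (some t)) (by
        intro o
        cases o with
        | none => exact mul_ne_zero (hv none) ha
        | some t => exact hv (some t))
      rw [par_cone] at h4 ⊢
      have h5 : (fun i => (v none • par x₀ M fun t => v (some t)) i * a) =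
          (v none * a) • par x₀ M fun t => v (some t) := by
        funext i
        rw [Pi.smul_apply, Pi.smul_apply, smul_eq_mul, smul_eq_mul]
        ring
      rw [h5]
      exact h4
    have h4 := (mem_zeroLocus_iff.1 hy) _ h3
    rw [aeval_eq_eval, eval_scale q (fun _ => a)] at h4
    have h5 : (fun i => y i * a) = a • y := by
      funext i
      rw [Pi.smul_apply, smul_eq_mul, mul_comm]
    rwa [h5] at h4
  by_cases ha : a = 0
  · -- a polynomial in the scaling factor
    let f : Polynomial L := eval₂ Polynomial.C (fun i => Polynomial.C (y i) * Polynomial.X) q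
    have hf : ∀ b : L, f.eval b = eval (b • y) q := by
      intro b
      simp only [f]
      have h1 : (Polynomial.evalRingHom b).comp (eval₂Hom Polynomial.C
          (fun i => Polynomial.C (y i) * Polynomial.X)) = eval (b • y) := by
        refine MvPolynomial.ringHom_ext (fun c => ?_) fun i => ?_
        · simp
        · simp only [RingHom.comp_apply, coe_eval₂Hom, eval₂_X, Polynomial.coe_evalRingHom,
            Polynomial.eval_mul, Polynomial.eval_C, Polynomial.eval_X, eval_X, Pi.smul_apply,
            smul_eq_mul]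
          ring
      exact congrArg (fun ψ : MvPolynomial ι L →+* L => ψ q) h1
    have hf0 : f = 0 := by
      refine Polynomial.eq_zero_of_infinite_isRoot f ?_
      refine Set.Infinite.mono (s := {b : L | b ≠ 0}) (fun b hb => ?_) ?_
      · change f.eval b = 0
        rw [hf]
        exact hne b hb
      · exact (Set.finite_singleton (0 : L)).infinite_compl
    rw [← hf, hf0, Polynomial.eval_zero]
  · exact hne a ha

end Cone

section Main

variable {L : Type} [Field L] [IsAlgClosed L] {ι : Type} [Fintype ι]

theorem mem_vanishing_zeroLocus (P : Ideal (MvPolynomial ι L)) [hP : P.IsPrime]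
    {f : MvPolynomial ι L} (h : ∀ z ∈ zeroLocus L P, eval z f = 0) : f ∈ P := by
  have h1 : f ∈ P.radical := by
    rw [← vanishingIdeal_zeroLocus_eq_radical (K := L), mem_vanishingIdeal_iff]
    intro z hz
    rw [aeval_eq_eval]
    exact h z hz
  rwa [hP.radical] at h1

/-- On a closed cone of dimension at most `d` any `d + 2` coordinates satisfy a relation. -/
theorem exists_rel {Z : Set (ι → L)} (hZ : IsClosedCone Z) (hne : Z.Nonempty) {d : ℕ}
    (hd : DimLE Z d) {β : Type} [Finite β] (hc : d + 1 < Nat.card β) (e : β → ι) :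
    ∃ R : MvPolynomial β L, R ≠ 0 ∧ ∀ x ∈ Z, eval (fun o => x (e o)) R = 0 := by
  classical
  obtain ⟨r, g, hg, hZg⟩ := Pool.Agent.R388.TP.exists_gens (k := L) (L := L) (X := Z) hZ hne
  obtain ⟨q, hq, hq0⟩ := hd
  obtain ⟨N, hN, u, hu, hu0⟩ := Pool.Agent.X271.TQ.same_degree q hq
  choose D hD hDg using hg
  have hmem : ∀ x, x ∈ Z ↔ ∀ l, eval x (g l) = 0 := by
    intro x
    rw [hZg]
    exact forall_congr' fun l => by rw [aeval_eq_eval]
  obtain ⟨R, hR, hR0⟩ := Pool.Agent.X271.TQ.rel_exists g D hDg u hN hu (fun w hw hwu =>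
    hq0 w ((hmem w).2 hw) fun j => (hu0 w j).1 (hwu j)) (β := β) (by rw [Nat.card_fin]; exact hc)
    fun b => X (e b)
  refine ⟨R, hR, fun x hx => ?_⟩
  have h1 := hR0 x ((hmem x).1 hx)
  simpa only [eval_X] using h1

open Cardinal in
theorem card_basis (P : Ideal (MvPolynomial ι L)) [hP : P.IsPrime] (B : Finset ι)
    (halg : AlgOver P (fun b : B => (b : ι))) {n : ℕ} {z : Fin n → MvPolynomial ι L ⧸ P}
    (hz : AlgebraicIndependent L z) : n ≤ B.card := by
  let x : B → MvPolynomial ι L ⧸ P := fun b => Ideal.Quotient.mk P (X (b : ι))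
  have h1 : Algebra.IsAlgebraic (Algebra.adjoin L (Set.range x)) (MvPolynomial ι L ⧸ P) := by
    constructor
    have h2 := algOver_all halg
    rw [projHom_range] at h2
    exact h2
  have h4 : Algebra.trdeg L (MvPolynomial ι L ⧸ P) ≤ #(Set.range x) :=
    Algebra.IsAlgebraic.trdeg_le_cardinalMk L (Set.range x)
  have h5 := hz.cardinalMk_le_trdeg
  have h6 : #(Set.range x) ≤ #B := Cardinal.mk_range_le
  have h7 := (h5.trans h4).trans h6
  rw [Cardinal.mk_fin, Cardinal.mk_coe_finset, Nat.cast_le] at h7
  exact h7

theorem algOver_of_dep [DecidableEq ι] (P : Ideal (MvPolynomial ι L)) [hP : P.IsPrime]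
    (B : Finset ι) (hind : Indep P (fun b : B => (b : ι)))
    (hdep : ∀ j, j ∉ B → ¬ Indep P (fun o : Option B => o.elim j fun b => (b : ι))) :
    AlgOver P (fun b : B => (b : ι)) := by
  intro j
  rw [projHom_range]
  by_cases hj : j ∈ B
  · exact isAlgebraic_of_mem _ (Algebra.subset_adjoin ⟨⟨j, hj⟩, rfl⟩)
  · by_contra htr
    have h1 := ((indep_iff.1 hind).option_iff_transcendental (Ideal.Quotient.mk P (X j))).2 htr
    apply hdep j hj
    rw [indep_iff]
    convert! h1 using 1
    funext o
    cases o <;> rfl

end Main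

variable {p : ℕ} [hp : Fact p.Prime] {K F : Type} [Field K] [Field F] [CharP F p]
  [IsAlgClosed K] [IsAlgClosed F] {ι : Type} [Fintype ι]

/-- A closed cone of dimension at most `d` whose preimage under `π` contains a closed cone of dimension
at least `d` contains a toric cone of this dimension. -/
theorem forward (T : Tilting p K F) {Z : Set (ι → K)} (hZ : IsClosedCone Z) {d : ℕ}
    (hd : DimLE Z d) {Y : Set (ι → F)} (hY : IsClosedCone Y) (hYd : DimGE Y d)
    (hYZ : ∀ y ∈ Y, (fun i => T.sharp (y i)) ∈ Z) :
    ∃ W ⊆ Z, IsIrr W ∧ IsToric W ∧ DimGE W d ∧ (IsIrr Z → W = Z) := by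
  classical
  have : Infinite K := IsAlgClosed.instInfinite
  obtain ⟨⟨J, hJ⟩, hcone⟩ := hY
  have hYne : Y.Nonempty := Pool.Agent.R388.TP.dimGE_nonempty hYd
  have hZne : Z.Nonempty := by
    obtain ⟨y, hy⟩ := hYne
    exact ⟨_, hYZ y hy⟩
  rw [hJ] at hcone hYd
  obtain ⟨P, hP, hJP, z, hz⟩ := Pool.Agent.R388.TP.exists_algInd hcone hYd
  obtain ⟨B, hind, halg⟩ := exists_basis P
  have hcard : d + 1 ≤ B.card := card_basis P B halg hz
  have hPY : ∀ y : ι → F, (∀ q ∈ P, eval y q = 0) → y ∈ Y := by
    intro y hy
    rw [hJ, mem_zeroLocus_iff]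
    intro q hq
    rw [aeval_eq_eval]
    exact hy q (hJP hq)
  have hrelZ : ∀ e : Option B → ι, ∃ R : MvPolynomial (Option B) K, R ≠ 0 ∧
      ∀ x ∈ Z, eval (fun o => x (e o)) R = 0 := fun e => by
    refine exists_rel hZ hZne hd ?_ e
    rw [Nat.card_eq_fintype_card, Fintype.card_option, Fintype.card_coe]
    omega
  obtain ⟨y₀, k, M, hk, hy₀, hMB, hpar⟩ := exists_par P B hind
    (binomial_rel T P B hind halg hrelZ fun y hy => hYZ y (hPY y hy))
  have hBS : ∀ b : B, y₀ b ≠ 0 := by
    intro b hb
    have h1 := hind (X b) (by rw [rename_X]; exact (hy₀ b).1 hb)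
    exact X_ne_zero b h1
  set x₀ : ι → K := fun i => T.sharp (y₀ i) with hx₀
  set I := parIdeal x₀ (coneExp M) with hI
  have hIpr : I.IsPrime := parIdeal_prime _ _
  -- the coset lies in `Z`
  have hmemZ : ∀ v : Option B → K, (∀ o, v o ≠ 0) → par x₀ (coneExp M) v ∈ Z := by
    intro v hv
    rw [par_cone]
    refine hZ.2 _ _ ?_
    choose u hu using fun t : B => T.surj (v (some t))
    have hu0 : ∀ t, u t ≠ 0 := by
      intro t h
      have h1 := hu t
      rw [h, T.sharp_zero] at h1
      exact hv (some t) h1.symm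
    have h1 := hYZ _ (hPY _ (hpar u hu0))
    have h2 : (fun i => T.sharp (par y₀ M u i)) = par x₀ M fun t => v (some t) := by
      funext i
      unfold par
      rw [map_mul, map_prod]
      congr 1
      refine Finset.prod_congr rfl fun t _ => ?_
      rw [sharp_zpow, hu]
    rw [← h2]
    exact h1
  have hZI : zeroLocus K I ⊆ Z := by
    obtain ⟨⟨J', hJ'⟩, -⟩ := hZ
    intro x hx
    rw [hJ', mem_zeroLocus_iff]
    intro q hq
    refine (mem_zeroLocus_iff.1 hx) q ?_
    intro v hv
    have h1 := hmemZ v hv
    rw [hJ', mem_zeroLocus_iff] at h1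
    have h2 := h1 q hq
    rwa [aeval_eq_eval] at h2
  have hconeW : ∀ a : K, ∀ y ∈ zeroLocus K I, a • y ∈ zeroLocus K I := fun a y hy =>
    zeroLocus_cone x₀ M a hy
  -- independence of the coordinates in `B`
  have hindI : Indep I (fun b : B => (b : ι)) := by
    intro r hr
    have h1 : r * ∏ b, X b = 0 := by
      refine MvPolynomial.funext fun v => ?_
      rw [map_zero, map_mul, map_prod]
      by_cases hv : ∀ b, v b ≠ 0
      · choose u hu using fun b : B => IsAlgClosed.exists_pow_nat_eq (v b / x₀ b) hk
        have hx₀b : ∀ b : B, x₀ b ≠ 0 := fun b => T.sharp_ne (hBS b)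
        have hu0 : ∀ b, u b ≠ 0 := by
          intro b h
          have h2 := hu b
          rw [h, zero_pow hk.ne'] at h2
          exact div_ne_zero (hv b) (hx₀b b) h2.symm
        have h2 := hr (fun o => o.elim 1 u) (by
          intro o
          cases o with
          | none => exact one_ne_zero
          | some t => exact hu0 t)
        rw [par_cone, eval_rename] at h2
        have h3 : ((Option.elim none 1 u • par x₀ M fun t => Option.elim (some t) 1 u) ∘
            fun b : B => (b : ι)) = v := by
          funext b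
          change (1 : K) * par x₀ M u b = v b
          unfold par
          have h4 : ∀ t : B, u t ^ M b t = if b = t then u t ^ k else 1 := by
            intro t
            rw [hMB]
            split_ifs
            · rw [zpow_natCast]
            · rw [zpow_zero]
          rw [Finset.prod_congr rfl fun t _ => h4 t, Finset.prod_ite_eq,
            if_pos (Finset.mem_univ _), hu, one_mul]
          have := hx₀b b
          field_simp
        rw [h3] at h2
        rw [h2, zero_mul]
      · push Not at hv
        obtain ⟨b, hb⟩ := hv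
        rw [Finset.prod_eq_zero (Finset.mem_univ b) (by rw [eval_X, hb]), mul_zero]
    exact (mul_eq_zero.1 h1).resolve_right (Finset.prod_ne_zero_iff.2 fun b _ => X_ne_zero b)
  refine ⟨zeroLocus K I, hZI, ⟨⟨⟨I, rfl⟩, hconeW⟩, ⟨_, par_mem x₀ (coneExp M)
    (u := fun _ => 1) fun _ => one_ne_zero⟩, fun f g hfg => ?_⟩, parIdeal_toric _ _, ?_, fun hirr => ?_⟩
  · rcases hIpr.mem_or_mem (mem_vanishing_zeroLocus I hfg) with h | h
    · exact Or.inl fun z hz => by
        have := (mem_zeroLocus_iff.1 hz) f h
        rwa [aeval_eq_eval] at this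
    · exact Or.inr fun z hz => by
        have := (mem_zeroLocus_iff.1 hz) g h
        rwa [aeval_eq_eval] at this
  · -- the dimension
    have hhom : ∀ f ∈ I, ∀ n, homogeneousComponent n f ∈ I := by
      intro f hf n
      refine mem_vanishing_zeroLocus I fun x hx => ?_
      rw [← aeval_eq_eval]
      exact Pool.Agent.R388.TP.component_zero hconeW (fun x hx => (mem_zeroLocus_iff.1 hx) f hf) n hx
    obtain ⟨emb⟩ : Nonempty (Fin (d + 1) ↪ B) :=
      Function.Embedding.nonempty_of_card_le (by rw [Fintype.card_fin, Fintype.card_coe]; exact hcard)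
    exact Pool.Agent.R388.TP.dimGE_of_algInd hhom _ ((indep_iff.1 hindI).comp emb emb.injective)
  · -- irreducible varieties
    let IZ : Ideal (MvPolynomial ι K) := vanishingIdeal K Z
    have hmemIZ : ∀ f, f ∈ IZ ↔ ∀ x ∈ Z, eval x f = 0 := by
      intro f
      rw [mem_vanishingIdeal_iff]
      exact forall₂_congr fun x _ => by rw [aeval_eq_eval]
    have hIZpr : IZ.IsPrime := by
      refine ⟨?_, fun {f g} hfg => ?_⟩
      · rw [Ideal.ne_top_iff_one, hmemIZ]
        intro h
        obtain ⟨x, hx⟩ := hZne
        have h1 := h x hx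
        rw [map_one] at h1
        exact one_ne_zero h1
      · rw [hmemIZ] at hfg
        rcases hirr.irr f g hfg with h | h
        · exact Or.inl ((hmemIZ f).2 h)
        · exact Or.inr ((hmemIZ g).2 h)
    have hle : IZ ≤ I := by
      intro f hf v hv
      exact (hmemIZ f).1 hf _ (hmemZ v hv)
    have hindZ : Indep IZ (fun b : B => (b : ι)) := fun r hr => hindI r (hle hr)
    have halgZ : AlgOver IZ (fun b : B => (b : ι)) := by
      refine algOver_of_dep IZ B hindZ fun j _ h => ?_
      obtain ⟨R, hR0, hR⟩ := hrelZ fun o => o.elim j fun b => (b : ι)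
      refine hR0 (h R ?_)
      rw [hmemIZ]
      intro x hx
      rw [eval_rename]
      exact hR x hx
    have heq : IZ = I := eq_of_indep halgZ hle hindI
    refine Set.Subset.antisymm hZI fun x hx => ?_
    rw [mem_zeroLocus_iff]
    intro q hq
    rw [← heq] at hq
    rw [aeval_eq_eval]
    exact (hmemIZ q).1 hq x hx

end Pool.Agent.H20.RG
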