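import Pool.Agent.H20.RG.Lift

/-!
# Algebraic relations between the coordinates
-/

set_option autoImplicit false
set_option linter.unusedSectionVars false

namespace Pool.Agent.H20.RG

open MvPolynomial Pool.Agent.Y129.TA

section Alg

variable {L : Type} [Field L] {ι σ : Type}

/-- The variables restricted to `e` are algebraically independent modulo the ideal. -/
def Indep (P : Ideal (MvPolynomial ι L)) (e : σ → ι) : Prop :=
  ∀ r : MvPolynomial σ L, rename e r ∈ P → r = 0

/-- All coordinates are algebraic over the coordinates in `e`. -/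
def AlgOver (P : Ideal (MvPolynomial ι L)) (e : σ → ι) : Prop :=
  ∀ i, IsAlgebraic (projHom P e).range (Ideal.Quotient.mk P (X i))

theorem indep_iff {P : Ideal (MvPolynomial ι L)} {e : σ → ι} :
    Indep P e ↔ AlgebraicIndependent L fun s => Ideal.Quotient.mk P (X (e s)) := by
  rw [algebraicIndependent_iff]
  refine forall_congr' fun r => ?_
  have h1 : aeval (fun s => Ideal.Quotient.mk P (X (e s))) r = projHom P e r := by
    have h2 : (aeval fun s => Ideal.Quotient.mk P (X (e s))) = projHom P e := by
      ext s
      simp [projHom]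
    rw [h2]
  rw [h1, projHom_eq_zero]

theorem isAlgebraic_of_mem {A : Type} [CommRing A] [IsDomain A] [Algebra L A] (R : Subalgebra L A)
    {a : A} (ha : a ∈ R) : IsAlgebraic R a :=
  isAlgebraic_algebraMap (⟨a, ha⟩ : R)

theorem algOver_all {P : Ideal (MvPolynomial ι L)} [hP : P.IsPrime] {e : σ → ι} (h : AlgOver P e)
    (a : MvPolynomial ι L ⧸ P) : IsAlgebraic (projHom P e).range a := by
  obtain ⟨f, rfl⟩ := Ideal.Quotient.mk_surjective a
  induction f using MvPolynomial.induction_on with
  | C c => exact isAlgebraic_of_mem _ (Subalgebra.algebraMap_mem _ c)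
  | add f g hf hg => rw [map_add]; exact hf.add hg
  | mul_X f i hf => rw [map_mul]; exact hf.mul (h i)

/-- An ideal which contains a prime ideal modulo which all is algebraic over independent variables, and
which preserves independence, is equal to the prime ideal. -/
theorem eq_of_indep {P Q : Ideal (MvPolynomial ι L)} [hP : P.IsPrime] {e : σ → ι} (h : AlgOver P e)
    (hPQ : P ≤ Q) (hQ : Indep Q e) : P = Q := by
  refine le_antisymm hPQ fun q hq => ?_
  by_contra hqP
  have h1 : (Ideal.Quotient.mk P q) ≠ 0 := fun h0 => hqP (Ideal.Quotient.eq_zero_iff_mem.1 h0)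
  obtain ⟨r, hr0, a, ha⟩ := (algOver_all h (Ideal.Quotient.mk P q)).exists_nonzero_dvd
    (mem_nonZeroDivisors_of_ne_zero h1)
  obtain ⟨b, rfl⟩ := Ideal.Quotient.mk_surjective a
  obtain ⟨s, hs⟩ := r.2
  have h2 : rename e s - q * b ∈ P := by
    rw [← Ideal.Quotient.eq_zero_iff_mem, map_sub, map_mul, ← ha, sub_eq_zero]
    exact hs
  have h3 : rename e s ∈ Q := by
    have h4 : rename e s = (rename e s - q * b) + q * b := by ring
    rw [h4]
    exact Q.add_mem (hPQ h2) (Q.mul_mem_right _ hq)
  have h4 := hQ s h3
  apply hr0
  apply Subtype.ext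
  rw [← hs, h4]
  exact map_zero _

/-- A maximal set of independent coordinates. -/
theorem exists_basis [Finite ι] (P : Ideal (MvPolynomial ι L)) [hP : P.IsPrime] :
    ∃ B : Finset ι, Indep P (fun b : B => (b : ι)) ∧ AlgOver P (fun b : B => (b : ι)) := by
  classical
  have : Fintype ι := Fintype.ofFinite ι
  obtain ⟨B, hB, hmax⟩ := Finset.exists_max_image
    ((Finset.univ : Finset (Finset ι)).filter fun B : Finset ι => Indep P (fun b : B => (b : ι)))
    (fun B : Finset ι => B.card) ⟨∅, by
      rw [Finset.mem_filter]
      refine ⟨Finset.mem_univ _, fun r hr => ?_⟩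
      obtain ⟨c, rfl⟩ : ∃ c, r = C c := by
        have : IsEmpty (∅ : Finset ι) := by infer_instance
        exact ⟨_, (eq_C_of_isEmpty r)⟩
      rw [rename_C] at hr
      by_contra h0
      have hc : c ≠ 0 := fun h => h0 (by rw [h, map_zero])
      exact hP.ne_top (P.eq_top_of_isUnit_mem hr ((isUnit_iff_ne_zero.2 hc).map C))⟩
  rw [Finset.mem_filter] at hB
  refine ⟨B, hB.2, fun i => ?_⟩
  rw [projHom_range]
  by_cases hi : i ∈ B
  · exact isAlgebraic_of_mem _ (Algebra.subset_adjoin ⟨⟨i, hi⟩, rfl⟩)
  · by_contra htr
    have h1 := ((indep_iff.1 hB.2).option_iff_transcendental (Ideal.Quotient.mk P (X i))).2 htr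
    have h2 : Indep P (fun b : (insert i B : Finset ι) => (b : ι)) := by
      rw [indep_iff]
      let f : {x // x ∈ insert i B} → Option B := fun b =>
        if h : (b : ι) ∈ B then some ⟨b, h⟩ else none
      have hf : Function.Injective f := by
        intro a b hab
        have ha := a.2
        have hb := b.2
        rw [Finset.mem_insert] at ha hb
        apply Subtype.ext
        simp only [f] at hab
        split_ifs at hab with h3 h4 h4
        · simpa using hab
        · rw [ha.resolve_right h3, hb.resolve_right h4]
      have h3 := h1.comp f hf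
      convert! h3 using 1
      funext b
      have hb := b.2
      rw [Finset.mem_insert] at hb
      simp only [Function.comp_apply, f]
      split_ifs with h4
      · rfl
      · rw [hb.resolve_right h4]
        rfl
    have h3 := hmax (insert i B) (Finset.mem_filter.2 ⟨Finset.mem_univ _, h2⟩)
    rw [Finset.card_insert_of_notMem hi] at h3
    omega

theorem algOver_mono {τ : Type} {P : Ideal (MvPolynomial ι L)} {e : σ → ι} {e' : τ → ι}
    (f : σ → τ) (hf : ∀ s, e' (f s) = e s) (h : AlgOver P e) : AlgOver P e' := by
  intro i
  have hle : (projHom P e).range ≤ (projHom P e').range := by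
    rintro _ ⟨r, rfl⟩
    refine ⟨rename f r, ?_⟩
    change projHom P e' (rename f r) = projHom P e r
    unfold projHom
    rw [AlgHom.comp_apply, AlgHom.comp_apply, rename_rename]
    congr 2
    exact congrArg (fun g => rename g) (funext hf)
  obtain ⟨q, hq, hq0⟩ := h i
  refine ⟨q.map (Subalgebra.inclusion hle).toRingHom, ?_, ?_⟩
  · rw [Ne, Polynomial.map_eq_zero_iff]
    · exact hq
    · exact Subalgebra.inclusion_injective hle
  · rw [Polynomial.aeval_def, Polynomial.eval₂_map]
    exact hq0

/-- The relation ideal of one more variable is generated by an irreducible polynomial. -/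
theorem exists_relation (P : Ideal (MvPolynomial ι L)) [hP : P.IsPrime] (e : Option σ → ι)
    (hind : Indep P (e ∘ some)) (hdep : ¬ Indep P e) :
    ∃ g : MvPolynomial (Option σ) L, Irreducible g ∧ ∀ q, rename e q ∈ P ↔ g ∣ q := by
  classical
  set J : Ideal (MvPolynomial (Option σ) L) := P.comap (rename e).toRingHom with hJ
  have hJpr : J.IsPrime := hP.comap _
  have hmemJ : ∀ q, q ∈ J ↔ rename e q ∈ P := fun q => Iff.rfl
  have hJne : J ≠ ⊥ := by
    intro h
    apply hdep
    intro r hr
    have h1 : r ∈ J := hr
    rwa [h, Ideal.mem_bot] at h1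
  obtain ⟨g, hgJ, hg⟩ := hJpr.exists_mem_prime_of_ne_bot hJne
  have hspan : (Ideal.span {g}).IsPrime := (Ideal.span_singleton_prime hg.ne_zero).2 hg
  have hle : Ideal.span {g} ≤ J := by
    rw [Ideal.span_singleton_le_iff_mem]
    exact hgJ
  have hindJ : Indep J (some : σ → Option σ) := by
    intro r hr
    apply hind r
    rw [hmemJ, rename_rename] at hr
    exact hr
  have hindg : Indep (Ideal.span {g}) (some : σ → Option σ) := fun r hr => hindJ r (hle hr)
  have halg : AlgOver (Ideal.span {g}) (some : σ → Option σ) := by
    intro o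
    rw [projHom_range]
    cases o with
    | some s =>
      exact isAlgebraic_of_mem _ (Algebra.subset_adjoin ⟨s, rfl⟩)
    | none =>
      by_contra htr
      have h1 := ((indep_iff.1 hindg).option_iff_transcendental
        (Ideal.Quotient.mk (Ideal.span {g}) (X none))).2 htr
      have h2 : Indep (Ideal.span {g}) (fun o : Option σ => o) := by
        rw [indep_iff]
        convert! h1 using 1
        funext o
        cases o <;> rfl
      have h3 := h2 g (by
        have h4 : (fun o : Option σ => o) = id := rfl
        rw [h4, rename_id_apply]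
        exact Ideal.mem_span_singleton_self g)
      exact hg.ne_zero h3
  have heq := eq_of_indep halg hle hindJ
  refine ⟨g, hg.irreducible, fun q => ?_⟩
  rw [← Ideal.mem_span_singleton, heq]
  exact (hmemJ q).symm

end Alg

end Pool.Agent.H20.RG
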