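import Pool.Agent.H20.RG.Tor

/-!
# Approximations of bounded degree exist only for toric hypersurfaces
-/

set_option autoImplicit false
set_option linter.unusedSectionVars false

namespace Pool.Agent.H20.RG

open MvPolynomial Pool.Agent.Y129.TA

section Prim

variable {σ : Type} [Fintype σ]

/-- A nonzero integral vector is a multiple of a primitive one. -/
theorem exists_prim (v : σ → ℤ) (hv : v ≠ 0) : ∃ (e n : σ → ℤ) (k : ℤ), k ≠ 0 ∧
    (∀ i, v i = k * e i) ∧ ∑ i, n i * e i = 1 := by
  classical
  set k : ℤ := Finset.univ.gcd v with hk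
  have hk0 : k ≠ 0 := by
    intro h
    apply hv
    funext i
    exact (Finset.gcd_eq_zero_iff.1 h) i (Finset.mem_univ i)
  choose e he using fun i => Finset.gcd_dvd (f := v) (Finset.mem_univ i)
  have hspan : k ∈ Ideal.span (Set.range v) := by
    have h1 : Ideal.span {k} = Ideal.span (Set.range v) := by
      refine le_antisymm ?_ ?_
      · obtain ⟨g, hg⟩ : ∃ g, Ideal.span (Set.range v) = Ideal.span {g} :=
          (IsPrincipalIdealRing.principal (Ideal.span (Set.range v))).principal
        rw [Ideal.span_singleton_le_iff_mem, hg, Ideal.mem_span_singleton]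
        refine Finset.dvd_gcd fun i _ => ?_
        rw [← Ideal.mem_span_singleton, ← hg]
        exact Ideal.subset_span ⟨i, rfl⟩
      · rw [Ideal.span_le]
        rintro _ ⟨i, rfl⟩
        rw [SetLike.mem_coe, Ideal.mem_span_singleton]
        exact Finset.gcd_dvd (Finset.mem_univ i)
    rw [← h1]
    exact Ideal.mem_span_singleton_self k
  obtain ⟨n, hn⟩ := (Ideal.mem_span_range_iff_exists_fun).1 hspan
  refine ⟨e, n, k, hk0, he, ?_⟩
  have h1 : k * ∑ i, n i * e i = k * 1 := by
    rw [mul_one, Finset.mul_sum, ← hn]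
    refine Finset.sum_congr rfl fun i _ => ?_
    rw [he i]
    have h2 : (∑ i, n i * v i) = k := hn
    rw [h2]
    ring
  exact mul_left_cancel₀ hk0 h1

theorem dot_eq_of_orth {u v e : σ → ℤ} {a b : σ →₀ ℕ} {k : ℤ}
    (hv : ∀ i, v i = k * e i) (hab : ∀ i, v i = (a i : ℤ) - b i) (hu : ∑ i, u i * e i = 0) :
    dot u a = dot u b := by
  have h1 : dot u a - dot u b = k * ∑ i, u i * e i := by
    unfold dot
    rw [← Finset.sum_sub_distrib, Finset.mul_sum]
    refine Finset.sum_congr rfl fun i _ => ?_
    have h2 := hv i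
    rw [hab i] at h2
    linear_combination u i * h2
  rw [hu, mul_zero] at h1
  linarith

end Prim

section Alg

variable {σ : Type} [Fintype σ] {L : Type} [Field L] [IsAlgClosed L]

/-- A polynomial vanishing on a coordinate hyperplane. -/
theorem X_dvd {P : MvPolynomial σ L} {i : σ} (h : ∀ x : σ → L, x i = 0 → eval x P = 0) : X i ∣ P := by
  have h1 : P ∈ (Ideal.span {(X i : MvPolynomial σ L)}).radical := by
    rw [← vanishingIdeal_zeroLocus_eq_radical (K := L), mem_vanishingIdeal_iff]
    intro z hz
    rw [aeval_eq_eval]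
    refine h z ?_
    have h2 := hz (X i) (Ideal.mem_span_singleton_self _)
    rwa [aeval_eq_eval, eval_X] at h2
  have hpr : (Ideal.span {(X i : MvPolynomial σ L)}).IsPrime :=
    (Ideal.span_singleton_prime (X_ne_zero i)).2 X_prime
  rwa [hpr.radical, Ideal.mem_span_singleton] at h1

end Alg

variable {p : ℕ} [hp : Fact p.Prime] {K F : Type} [Field K] [Field F] [CharP F p]
  [IsAlgClosed K] [IsAlgClosed F] {ι : Type} [Fintype ι]

/-- The hypersurface is a coordinate hyperplane or the closure of a coset of a subtorus. -/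
def IsToricForm {L ι : Type} [Field L] (P : MvPolynomial ι L) : Prop :=
  (∃ i, P ∣ X i) ∨ ∃ (a b : ι →₀ ℕ) (c : L), a ≠ b ∧ c ≠ 0 ∧ P ∣ monomial a 1 - monomial b c

/-- If there are approximations of bounded degree then the hypersurface is toric. -/
theorem toric_of_bounded [Nonempty ι] (T : Tilting p K F) {P : MvPolynomial ι K} {d : ℕ}
    (hP : P.IsHomogeneous d) (hirr : Irreducible P) {D : ℕ} (hD : 0 < D)
    (h : ∀ ε : ℝ, 0 < ε → ∃ g : MvPolynomial ι F, g.IsHomogeneous D ∧
      ∀ y, eval y g = 0 → T.InTube P d ε y) : IsToricForm P := by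
  classical
  by_cases hPX : ∃ i, P ∣ X i
  · exact Or.inl hPX
  push Not at hPX
  have hA := nearAdd T
  obtain ⟨G, hG0, hGh, hGz⟩ := exists_limit_form T.toTiltPair hA hP hirr.ne_zero hD h
  set TH := hullPair T.toTiltPair hA with hTH
  have hAH : NearAdd TH := hull_nearAdd T.toTiltPair hA
  have : IsAlgClosed (Hull T.absF) := hull_closed T.ultraF
  have : IsAlgClosed (Hull T.absK) := hull_closed T.ultraK
  have hGu : ¬ IsUnit G := by
    intro hu
    have h1 : eval (0 : ι → Hull T.absF) G = 0 := by
      have h2 := eval_smul_of_homogeneous hGh (0 : Hull T.absF) (0 : ι → Hull T.absF)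
      rw [zero_pow hD.ne', zero_mul] at h2
      rw [← h2]
      congr 2
      funext i
      rw [Pi.zero_apply, mul_zero]
    exact (hu.map (eval (0 : ι → Hull T.absF))).ne_zero h1
  obtain ⟨g, hg, hgG⟩ := WfDvdMonoid.exists_irreducible_factor hGu hG0
  have hgz : ∀ y : ι → Hull T.absF, eval y g = 0 →
      eval (fun i => TH.sharp (y i)) (map (emb T.absK) P) = 0 := by
    intro y hy
    refine hGz y ?_
    obtain ⟨r, hr⟩ := hgG
    rw [hr, map_mul, hy, zero_mul]
  have hemb : ∀ x : ι → K, eval (fun i => emb T.absK (x i)) (map (emb T.absK) P) =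
      emb T.absK (eval x P) := by
    intro x
    rw [eval_map, eval₂_comp]
    rfl
  by_cases hgX : ∃ i, g ∣ X i
  · -- a coordinate hyperplane
    exfalso
    obtain ⟨i, hi⟩ := hgX
    have hXg : X i ∣ g := (hg.associated_of_dvd (X_prime (i := i)).irreducible hi).symm.dvd
    have hXP : X i ∣ P := by
      refine X_dvd fun x hx => ?_
      choose y hy using fun j => TH.surj (emb T.absK (x j))
      have hyi : y i = 0 := by
        by_contra h1
        have h2 := TH.sharp_ne h1
        rw [hy i, hx, map_zero] at h2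
        exact h2 rfl
      have h1 := hgz y (by
        obtain ⟨r, hr⟩ := hXg
        rw [hr, map_mul, eval_X, hyi, zero_mul])
      have h2 : (fun j => TH.sharp (y j)) = fun j => emb T.absK (x j) := funext hy
      rw [h2, hemb, map_eq_zero] at h1
      exact h1
    exact hPX i ((X_prime (i := i)).irreducible.associated_of_dvd hirr hXP).symm.dvd
  · push Not at hgX
    have hP0' : map (emb T.absK) P ≠ 0 := by
      intro h0
      exact hirr.ne_zero (map_injective _ (emb T.absK).injective (h0.trans (map_zero _).symm))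
    obtain ⟨a, b, c, hab, hc, hdvd⟩ := rigid' TH hAH hg hgX hP0' fun y _ hy => hgz y hy
    obtain ⟨z, hz, hzu⟩ := exists_inv hg hgX hab hdvd
    -- the primitive vector
    obtain ⟨e, n, k, hk, hve, hn⟩ := exists_prim (fun i => (a i : ℤ) - b i) (by
      intro h0
      apply hab
      ext i
      have := congrFun h0 i
      simp only [Pi.zero_apply] at this
      omega)
    have he : e ≠ 0 := by
      rintro rfl
      simp at hn
    have hz' : ∀ i, TH.sharp (z i) ≠ 0 := fun i => TH.sharp_ne (hz i)
    have hfam : ∀ u : ι → ℤ, ∑ i, u i * e i = 0 → ∀ s : Hull T.absK, s ≠ 0 →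
        eval (fun i => TH.sharp (z i) * s ^ u i) (map (emb T.absK) P) = 0 := by
      intro u hu s hs
      obtain ⟨t, ht⟩ := TH.surj s
      have ht0 : t ≠ 0 := by
        rintro rfl
        rw [TH.sharp_zero] at ht
        exact hs ht.symm
      have h1 := hgz _ (hzu u (dot_eq_of_orth hve (fun _ => rfl) hu) t ht0)
      rw [← h1]
      congr 2
      funext i
      rw [map_mul, sharp_zpow, ht]
    obtain ⟨ρ, hρ⟩ := char_mem (emb T.absK) hirr.ne_zero hz' hn hfam
    have hρ0 : ρ ≠ 0 := by
      rintro rfl
      rw [map_zero] at hρ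
      exact Finset.prod_ne_zero_iff.2 (fun i _ => zpow_ne_zero _ (hz' i)) hρ.symm
    have hcos : ∀ x : ι → K, (∀ i, x i ≠ 0) → ∏ i, x i ^ e i = ρ → eval x P = 0 := by
      intro x hx hxρ
      have h1 := coset_zero hz' hn hfam (fun i => emb T.absK (x i))
        (fun i => (map_ne_zero _).2 (hx i)) (by
          rw [← hρ, ← hxρ, map_prod]
          exact Finset.prod_congr rfl fun i _ => (map_zpow₀ _ _ _).symm)
      rw [hemb, map_eq_zero] at h1
      exact h1
    exact Or.inr ⟨_, _, ρ, pos_ne he, hρ0, (dvd_bin hirr he hρ0 hcos).1⟩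

/-- For toric hypersurfaces there are exact approximations. -/
theorem exact_of_toric [Nonempty ι] (T : TiltPair p K F) {P : MvPolynomial ι K} {d : ℕ}
    (hP : P.IsHomogeneous d) (hirr : Irreducible P) (h : IsToricForm P) :
    ∃ (D : ℕ) (g : MvPolynomial ι F), 0 < D ∧ g.IsHomogeneous D ∧
      ∀ y, eval y g = 0 → eval (fun i => T.sharp (y i)) P = 0 := by
  classical
  rcases h with ⟨i, hi⟩ | ⟨a, b, c, hab, hc, hd⟩
  · refine ⟨1, X i, one_pos, isHomogeneous_X _ _, fun y hy => ?_⟩
    rw [eval_X] at hy
    obtain ⟨r, hr⟩ := (hirr.associated_of_dvd (X_prime (i := i)).irreducible hi).symm.dvd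
    rw [hr, map_mul, eval_X, hy, T.sharp_zero, zero_mul]
  · by_cases hPX : ∃ i, P ∣ X i
    · obtain ⟨i, hi⟩ := hPX
      refine ⟨1, X i, one_pos, isHomogeneous_X _ _, fun y hy => ?_⟩
      rw [eval_X] at hy
      obtain ⟨r, hr⟩ := (hirr.associated_of_dvd (X_prime (i := i)).irreducible hi).symm.dvd
      rw [hr, map_mul, eval_X, hy, T.sharp_zero, zero_mul]
    push Not at hPX
    obtain ⟨z, hz, hzu⟩ := exists_inv hirr hPX hab hd
    obtain ⟨e, n, k, hk, hve, hn⟩ := exists_prim (fun i => (a i : ℤ) - b i) (by
      intro h0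
      apply hab
      ext i
      have := congrFun h0 i
      simp only [Pi.zero_apply] at this
      omega)
    have he : e ≠ 0 := by
      rintro rfl
      simp at hn
    set ρ := ∏ i, z i ^ e i with hρ
    have hρ0 : ρ ≠ 0 := Finset.prod_ne_zero_iff.2 fun i _ => zpow_ne_zero _ (hz i)
    have hcos : ∀ x : ι → K, (∀ i, x i ≠ 0) → ∏ i, x i ^ e i = ρ → eval x P = 0 :=
      fun x hx hxρ => coset_zero hz hn
        (fun u hu s hs => hzu u (dot_eq_of_orth hve (fun _ => rfl) hu) s hs) x hx hxρ
    have hbin := (dvd_bin hirr he hρ0 hcos).2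
    -- the sum of the exponents
    have hsum : ∑ i, e i = 0 := by
      by_contra hs
      have hne : (∑ i, e i).natAbs ≠ 0 := by omega
      have h1 : ∀ x : ι → K, (∀ i, x i ≠ 0) → eval x P = 0 := by
        intro x hx
        have hx0 : ∏ i, x i ^ e i ≠ 0 := Finset.prod_ne_zero_iff.2 fun i _ => zpow_ne_zero _ (hx i)
        obtain ⟨l, hl0, hl⟩ : ∃ l : K, l ≠ 0 ∧ l ^ (∑ i, e i) * ∏ i, x i ^ e i = ρ := by
          rcases Int.natAbs_eq (∑ i, e i) with h2 | h2
          · obtain ⟨l, hl⟩ := IsAlgClosed.exists_pow_nat_eq (ρ / ∏ i, x i ^ e i)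
              (Nat.pos_of_ne_zero hne)
            refine ⟨l, ?_, ?_⟩
            · rintro rfl
              rw [zero_pow hne] at hl
              exact div_ne_zero hρ0 hx0 hl.symm
            · rw [h2, zpow_natCast, hl, div_mul_cancel₀ _ hx0]
          · obtain ⟨l, hl⟩ := IsAlgClosed.exists_pow_nat_eq ((∏ i, x i ^ e i) / ρ)
              (Nat.pos_of_ne_zero hne)
            refine ⟨l, ?_, ?_⟩
            · rintro rfl
              rw [zero_pow hne] at hl
              exact div_ne_zero hx0 hρ0 hl.symm
            · rw [h2, zpow_neg, zpow_natCast, hl]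
              field_simp
        have h3 := hcos (fun i => l * x i) (fun i => mul_ne_zero hl0 (hx i)) (by
          rw [← hl]
          simp only [mul_zpow, Finset.prod_mul_distrib]
          rw [prod_zpow_sum hl0])
        rw [eval_smul_of_homogeneous hP] at h3
        exact (mul_eq_zero.1 h3).resolve_left (pow_ne_zero _ hl0)
      have h2 : P * ∏ i, X i = 0 := by
        have : Infinite K := IsAlgClosed.instInfinite
        refine MvPolynomial.funext fun x => ?_
        rw [map_mul, map_prod, map_zero]
        by_cases hx : ∀ i, x i ≠ 0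
        · rw [h1 x hx, zero_mul]
        · push Not at hx
          obtain ⟨i, hi⟩ := hx
          rw [Finset.prod_eq_zero (Finset.mem_univ i) (by rw [eval_X, hi]), mul_zero]
      exact mul_ne_zero hirr.ne_zero (Finset.prod_ne_zero_iff.2 fun i _ => X_ne_zero i) h2
    obtain ⟨σ, hσ⟩ := T.surj ρ
    have hposneg : ∑ i, ((e i).toNat : ℤ) = ∑ i, ((-e i).toNat : ℤ) := by
      rw [← sub_eq_zero, ← Finset.sum_sub_distrib, ← hsum]
      exact Finset.sum_congr rfl fun i _ => by omega
    have hposneg' : ∑ i, (e i).toNat = ∑ i, (-e i).toNat := by exact_mod_cast hposneg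
    refine ⟨∑ i, (e i).toNat, bin e σ, ?_, ?_, fun y hy => hbin _ ?_⟩
    · obtain ⟨i, hi⟩ : ∃ i, e i ≠ 0 := by
        by_contra hno
        push Not at hno
        exact he (funext hno)
      rcases lt_or_gt_of_ne hi with h1 | h1
      · rw [hposneg']
        have h2 := Finset.single_le_sum (f := fun i => (-e i).toNat) (fun _ _ => Nat.zero_le _)
          (Finset.mem_univ i)
        omega
      · have h2 := Finset.single_le_sum (f := fun i => (e i).toNat) (fun _ _ => Nat.zero_le _)
          (Finset.mem_univ i)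
        omega
    · unfold bin
      have hdeg : ∀ f : ι → ℤ, (pos f).degree = ∑ i, (f i).toNat := by
        intro f
        rw [Finsupp.degree_apply]
        exact Finset.sum_subset (Finset.subset_univ _) (by
          intro i _ hi
          exact Finsupp.notMem_support_iff.1 hi)
      refine IsHomogeneous.sub (isHomogeneous_monomial _ (hdeg e))
        (isHomogeneous_monomial _ ?_)
      rw [hdeg, hposneg']
      rfl
    · rw [eval_bin] at hy ⊢
      have h1 : ∏ i, y i ^ (e i).toNat = σ * ∏ i, y i ^ (-e i).toNat := sub_eq_zero.1 hy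
      have h2 := congrArg T.sharp h1
      rw [map_mul, hσ, map_prod, map_prod] at h2
      simp only [map_pow] at h2
      rw [h2, sub_self]

end Pool.Agent.H20.RG
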