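import Pool.Agent.H20.RG.Weight

/-!
# Continuity of the sharp map; generic vanishing
-/

set_option autoImplicit false
set_option linter.unusedSectionVars false

namespace Pool.Agent.H20.RG

open MvPolynomial Pool.Agent.Y129.TA
open Pool.Agent.K7.H6.PT (abs_sub_le')

variable {p : ℕ} [hp : Fact p.Prime] {K F : Type} [Field K] [Field F] [CharP F p] [IsAlgClosed F]

/-- There are elements of small absolute value. -/
theorem exists_small (T : TiltPair p K F) {ε : ℝ} (hε : 0 < ε) : ∃ x : F, x ≠ 0 ∧ T.absF x ≤ ε := by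
  obtain ⟨ϖ, hϖ⟩ := T.surj (p : K)
  have h1 : T.absF ϖ = T.absK p := by rw [← T.abs_sharp, hϖ]
  have hϖ0 : ϖ ≠ 0 := by
    rintro rfl
    rw [T.sharp_zero] at hϖ
    exact T.p_ne hϖ.symm
  obtain ⟨n, hn⟩ := exists_pow_lt_of_lt_one hε T.p_lt
  exact ⟨ϖ ^ n, pow_ne_zero _ hϖ0, by rw [map_pow, h1]; exact hn.le⟩

/-- The sharp map is uniformly continuous on balls. -/
theorem sharp_cont_ball (T : Tilting p K F) (R : ℝ) {ε : ℝ} (hε : 0 < ε) :
    ∃ δ : ℝ, 0 < δ ∧ ∀ x y : F, T.absF x ≤ R → T.absF y ≤ R → T.absF (x - y) ≤ δ →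
      T.absK (T.sharp x - T.sharp y) ≤ ε := by
  obtain ⟨c, hc0, hc⟩ := exists_small T.toTiltPair (ε := 1 / (|R| + 1)) (by positivity)
  have hcpos : 0 < T.absF c := T.absF.pos hc0
  obtain ⟨δ, hδ, h⟩ := Pool.Agent.K7.H6.PT.sharp_cont T (ε := ε * T.absF c) (by positivity)
  have hball : ∀ x, T.absF x ≤ R → T.absF (c * x) ≤ 1 := by
    intro x hx
    rw [map_mul]
    calc T.absF c * T.absF x ≤ (1 / (|R| + 1)) * |R| :=
          mul_le_mul hc (hx.trans (le_abs_self R)) (T.absF.nonneg _) (by positivity)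
      _ ≤ 1 := by
        rw [one_div, inv_mul_le_iff₀ (by positivity)]
        linarith
  refine ⟨δ / T.absF c, by positivity, fun x y hx hy hxy => ?_⟩
  have h1 := h (c * x) (c * y) (hball x hx) (hball y hy) (by
    rw [← mul_sub, map_mul]
    rwa [le_div_iff₀ hcpos, mul_comm] at hxy)
  rw [map_mul, map_mul, ← mul_sub, map_mul, T.abs_sharp, mul_comm ε] at h1
  exact le_of_mul_le_mul_left h1 hcpos

/-- The map `z ↦ P(z♯)` is continuous. -/
theorem eval_sharp_cont {σ : Type} [Fintype σ] (T : Tilting p K F) (P : MvPolynomial σ K)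
    (z₀ : σ → F) {ε : ℝ} (hε : 0 < ε) : ∃ δ : ℝ, 0 < δ ∧ ∀ z : σ → F,
      (∀ i, T.absF (z i - z₀ i) ≤ δ) →
        T.absK (eval (fun i => T.sharp (z i)) P - eval (fun i => T.sharp (z₀ i)) P) ≤ ε := by
  classical
  set R : ℝ := 1 + ∑ i, T.absF (z₀ i) with hR
  have hz₀ : ∀ i, T.absF (z₀ i) ≤ R := fun i => by
    have := Finset.single_le_sum (f := fun i => T.absF (z₀ i)) (fun i _ => T.absF.nonneg _)
      (Finset.mem_univ i)
    linarith
  have hR1 : 1 ≤ R := by
    have : 0 ≤ ∑ i, T.absF (z₀ i) := Finset.sum_nonneg fun i _ => T.absF.nonneg _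
    linarith
  obtain ⟨B, hB, -, hB2⟩ := Pool.Agent.K7.H6.PT.lipschitz T.ultraK (lt_of_lt_of_le one_pos hR1) P
  obtain ⟨δ, hδ, h⟩ := sharp_cont_ball T R (ε := ε / B) (by positivity)
  refine ⟨min 1 δ, by positivity, fun z hz => ?_⟩
  have hzR : ∀ i, T.absF (z i) ≤ R := by
    intro i
    have h1 : z i = (z i - z₀ i) + z₀ i := by ring
    rw [h1]
    exact (T.ultraF _ _).trans (max_le ((hz i).trans ((min_le_left _ _).trans hR1)) (hz₀ i))
  have h1 := hB2 (fun i => T.sharp (z i)) (fun i => T.sharp (z₀ i))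
    (fun i => by rw [T.abs_sharp]; exact hzR i) (fun i => by rw [T.abs_sharp]; exact hz₀ i) (ε / B)
    (by positivity) (fun i => h _ _ (hzR i) (hz₀ i) ((hz i).trans (min_le_right _ _)))
  refine h1.trans (le_of_eq ?_)
  field_simp

/-- If `P(z♯)` vanishes at the points of an irreducible variety outside of a proper closed subset then it
vanishes on the variety. -/
theorem vanish_of_generic {σ : Type} [Fintype σ] (T : Tilting p K F) (P : MvPolynomial σ K)
    (I : Ideal (MvPolynomial σ F)) [I.IsPrime] {f : MvPolynomial σ F} (hf : f ∉ I)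
    (h : ∀ z : σ → F, (∀ q ∈ I, eval z q = 0) → eval z f ≠ 0 →
      eval (fun i => T.sharp (z i)) P = 0) {z : σ → F} (hz : ∀ q ∈ I, eval z q = 0) :
    eval (fun i => T.sharp (z i)) P = 0 := by
  by_contra hne
  have hpos : 0 < T.absK (eval (fun i => T.sharp (z i)) P) := T.absK.pos hne
  obtain ⟨δ, hδ, h1⟩ := eval_sharp_cont T P z (half_pos hpos)
  obtain ⟨t, ht1, ht2, ht3⟩ := Pool.Agent.K7.H6.PT.dense_open T.ultraF
    (fun ε hε => exists_small T.toTiltPair hε) I hf hz hδ
  have h2 := h1 t ht3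
  rw [h t ht1 ht2, zero_sub, AbsoluteValue.map_neg] at h2
  linarith

/-- A polynomial which vanishes on the image of a nonempty open set is zero. -/
theorem eq_zero_of_generic {σ : Type} [Fintype σ] [Infinite K] (T : Tilting p K F)
    (P : MvPolynomial σ K) {f : MvPolynomial σ F} (hf : f ≠ 0)
    (h : ∀ z : σ → F, eval z f ≠ 0 → eval (fun i => T.sharp (z i)) P = 0) : P = 0 := by
  have hpr : (⊥ : Ideal (MvPolynomial σ F)).IsPrime := Ideal.isPrime_bot
  refine MvPolynomial.funext fun x => ?_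
  choose z hz using fun i => T.surj (x i)
  have h1 := vanish_of_generic T P ⊥ (f := f) (by rwa [Ideal.mem_bot])
    (fun z _ hz2 => h z hz2) (z := z) (by
      intro q hq
      rw [Ideal.mem_bot] at hq
      rw [hq, map_zero])
  rw [map_zero, ← h1]
  congr 2
  exact funext fun i => (hz i).symm

end Pool.Agent.H20.RG
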