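import Pool.Agent.H20.RG.Main

/-!
# Toric cones lift to the tilt
-/

set_option autoImplicit false
set_option linter.unusedSectionVars false

namespace Pool.Agent.H20.RG

open MvPolynomial Pool.Agent.Y129.TA
open Pool.Agent.K7.H6.PT (IsIrr)

section Dim

variable {L : Type} [Field L] [IsAlgClosed L] {ι : Type} [Fintype ι]

theorem dimGE_of_torus {Y : Set (ι → L)} (hY : IsClosedCone Y) {d : ℕ} (B : Finset ι)
    (hB : d + 1 ≤ B.card) (h : ∀ v : B → L, (∀ b, v b ≠ 0) → ∃ y ∈ Y, ∀ b : B, y b = v b) :
    DimGE Y d := by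
  classical
  have : Infinite L := IsAlgClosed.instInfinite
  intro q hq
  by_contra hno
  push Not at hno
  have hne : Y.Nonempty := by
    obtain ⟨y, hy, -⟩ := h (fun _ => 1) fun _ => one_ne_zero
    exact ⟨y, hy⟩
  obtain ⟨r, g, hg, hYg⟩ := Pool.Agent.R388.TP.exists_gens (k := L) (L := L) (X := Y) hY hne
  obtain ⟨N, hN, u, hu, hu0⟩ := Pool.Agent.X271.TQ.same_degree q hq
  choose D hD hDg using hg
  have hmem : ∀ x, x ∈ Y ↔ ∀ l, eval x (g l) = 0 := by
    intro x
    rw [hYg]
    exact forall_congr' fun l => by rw [aeval_eq_eval]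
  obtain ⟨R, hR, hR0⟩ := Pool.Agent.X271.TQ.rel_exists g D hDg u hN hu (fun w hw hwu => by
    by_contra hw0
    obtain ⟨j, hj⟩ := hno w ((hmem w).2 hw) hw0
    exact hj ((hu0 w j).1 (hwu j))) (β := B) (by
      rw [Nat.card_fin, Nat.card_eq_fintype_card, Fintype.card_coe]
      omega) fun b => X (b : ι)
  have h1 : R * ∏ b, X b = 0 := by
    refine MvPolynomial.funext fun v => ?_
    rw [map_zero, map_mul, map_prod]
    by_cases hv : ∀ b, v b ≠ 0
    · obtain ⟨y, hy, hyv⟩ := h v hv
      have h2 := hR0 y ((hmem y).1 hy)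
      simp only [eval_X] at h2
      have h3 : (fun b : B => y b) = v := funext hyv
      rw [h3] at h2
      rw [h2, zero_mul]
    · push Not at hv
      obtain ⟨b, hb⟩ := hv
      rw [Finset.prod_eq_zero (Finset.mem_univ b) (by rw [eval_X, hb]), mul_zero]
  exact hR ((mul_eq_zero.1 h1).resolve_right (Finset.prod_ne_zero_iff.2 fun b _ => X_ne_zero b))

end Dim

section Ext

variable {L : Type} [Field L] [IsAlgClosed L] {ι : Type} [Fintype ι]

/-- Characters extend because the multiplicative group of an algebraically closed field is divisible. -/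
theorem exists_char [DecidableEq ι] (A : Submodule ℤ (ι → ℤ)) (B : Finset ι)
    (hAB : ∀ l ∈ A, (∀ i, i ∉ B → l i = 0) → l = 0) (v : B → L) (hv : ∀ b, v b ≠ 0) :
    ∃ c : ι → L, (∀ i, c i ≠ 0) ∧ (∀ b : B, c b = v b) ∧ ∀ l ∈ A, ∏ i, c i ^ l i = 1 := by
  classical
  -- divisibility
  let inst : DivisibleBy (Additive Lˣ) ℤ := divisibleByOfSMulRightSurj _ _ (fun {n} hn x => by
    obtain ⟨w, hw⟩ : ∃ w : L, w ^ n.natAbs = ((Additive.toMul x : Lˣ) : L) :=
      IsAlgClosed.exists_pow_nat_eq _ (Int.natAbs_pos.2 hn)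
    have hw0 : w ≠ 0 := by
      intro h
      rw [h, zero_pow (Int.natAbs_ne_zero.2 hn)] at hw
      exact (Additive.toMul x : Lˣ).ne_zero hw.symm
    have hu : (Units.mk0 w hw0) ^ n.natAbs = (Additive.toMul x : Lˣ) := Units.ext hw
    rcases Int.natAbs_eq n with h | h
    · refine ⟨Additive.ofMul (Units.mk0 w hw0), ?_⟩
      change n • Additive.ofMul (Units.mk0 w hw0) = x
      rw [h, ← ofMul_zpow, zpow_natCast, hu]
      rfl
    · refine ⟨Additive.ofMul (Units.mk0 w hw0)⁻¹, ?_⟩
      change n • Additive.ofMul (Units.mk0 w hw0)⁻¹ = x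
      rw [h, ← ofMul_zpow, zpow_neg, zpow_natCast, inv_pow, inv_inv, hu]
      rfl)
  have hbaer : Module.Baer ℤ (Additive Lˣ) := Module.Baer.of_divisible _
  -- the inclusion of the free group on `B`
  let inc : (B → ℤ) →ₗ[ℤ] (ι → ℤ) :=
    { toFun := fun l i => if h : i ∈ B then l ⟨i, h⟩ else 0
      map_add' := fun l m => by
        funext i
        by_cases h : i ∈ B
        · simp [h]
        · simp [h]
      map_smul' := fun n l => by
        funext i
        by_cases h : i ∈ B
        · simp [h]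
        · simp [h] }
  let f : (B → ℤ) →ₗ[ℤ] ((ι → ℤ) ⧸ A) := A.mkQ.comp inc
  have hf : Function.Injective f := by
    rw [← LinearMap.ker_eq_bot, LinearMap.ker_eq_bot']
    intro l hl
    have h1 : inc l ∈ A := by
      rw [← Submodule.Quotient.mk_eq_zero]
      exact hl
    have h2 := hAB _ h1 (fun i hi => by simp [inc, hi])
    funext b
    have h3 := congrFun h2 b
    simpa [inc] using h3
  let g : (B → ℤ) →ₗ[ℤ] Additive Lˣ :=
    ∑ b : B, (LinearMap.toSpanSingleton ℤ (Additive Lˣ)
      (Additive.ofMul (Units.mk0 (v b) (hv b)))).comp (LinearMap.proj b)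
  obtain ⟨χ, hχ⟩ := hbaer.extension_property f hf g
  let c : ι → L := fun i => ((Additive.toMul (χ (A.mkQ (Pi.single i 1))) : Lˣ) : L)
  refine ⟨c, fun i => Units.ne_zero _, fun b => ?_, fun l hl => ?_⟩
  · have h1 : χ (f (Pi.single b 1)) = g (Pi.single b 1) := congrArg (fun φ => φ (Pi.single b 1)) hχ
    have h2 : inc (Pi.single b 1) = Pi.single (b : ι) 1 := by
      funext i
      simp only [inc]
      change (if h : i ∈ B then (Pi.single b (1 : ℤ) : B → ℤ) ⟨i, h⟩ else 0) = _
      by_cases h : i ∈ B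
      · rw [dif_pos h, Pi.single_apply, Pi.single_apply]
        exact if_congr (by rw [← Subtype.coe_inj]) rfl rfl
      · rw [dif_neg h, Pi.single_apply, if_neg]
        rintro rfl
        exact h b.2
    have h3 : g (Pi.single b 1) = Additive.ofMul (Units.mk0 (v b) (hv b)) := by
      simp only [g, LinearMap.sum_apply, LinearMap.comp_apply, LinearMap.proj_apply,
        LinearMap.toSpanSingleton_apply]
      rw [Finset.sum_eq_single b]
      · rw [Pi.single_eq_same, one_smul]
      · intro b' _ hb'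
        rw [Pi.single_eq_of_ne hb', zero_smul]
      · intro h
        exact absurd (Finset.mem_univ b) h
    have h4 : f (Pi.single b 1) = A.mkQ (Pi.single (b : ι) 1) := by
      change A.mkQ (inc (Pi.single b 1)) = _
      rw [h2]
    rw [h4, h3] at h1
    simp only [c]
    rw [h1]
    rfl
  · have h1 : A.mkQ l = 0 := (Submodule.Quotient.mk_eq_zero A).2 hl
    have h2 : l = ∑ i, l i • (Pi.single i 1 : ι → ℤ) := by
      funext j
      rw [Finset.sum_apply]
      simp only [Pi.smul_apply, Pi.single_apply, smul_eq_mul, mul_ite, mul_one, mul_zero]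
      rw [Finset.sum_ite_eq Finset.univ j, if_pos (Finset.mem_univ j)]
    have h3 : ∑ i, l i • χ (A.mkQ (Pi.single i 1)) = 0 := by
      have h4 : χ (A.mkQ l) = 0 := by rw [h1, map_zero]
      rw [h2] at h4
      simpa only [map_sum, map_smul] using h4
    have h5 : (∏ i, (Additive.toMul (χ (A.mkQ (Pi.single i 1))) : Lˣ) ^ l i) = 1 := by
      have h6 := congrArg Additive.toMul h3
      rw [toMul_sum] at h6
      exact h6
    have h7 := congrArg (Units.val) h5
    rw [Units.coe_prod] at h7
    simpa only [Units.val_zpow_eq_zpow_val, Units.val_one] using h7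

end Ext

end Pool.Agent.H20.RG
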