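import Pool.Agent.H20.RG.Conv

/-!
# Toric cones lift to the tilt: the theorem
-/

set_option autoImplicit false
set_option linter.unusedSectionVars false

namespace Pool.Agent.H20.RG

open MvPolynomial Pool.Agent.Y129.TA
open Pool.Agent.K7.H6.PT (IsIrr)

section

variable {L : Type} [Field L] {ι : Type} [Fintype ι]

/-- the value of the monomial -/
noncomputable def mon (a : ι →₀ ℕ) (x : ι → L) : L := ∏ i, x i ^ a i

theorem mon_mul (a : ι →₀ ℕ) (x y : ι → L) : mon a (fun i => x i * y i) = mon a x * mon a y := by
  unfold mon
  rw [← Finset.prod_mul_distrib]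
  exact Finset.prod_congr rfl fun i _ => mul_pow _ _ _

theorem mon_eq_zero {a : ι →₀ ℕ} {x : ι → L} {i : ι} (ha : a i ≠ 0) (hx : x i = 0) :
    mon a x = 0 :=
  Finset.prod_eq_zero (Finset.mem_univ i) (by rw [hx, zero_pow ha])

theorem mon_ne_zero {a : ι →₀ ℕ} {x : ι → L} (h : ∀ i, a i ≠ 0 → x i ≠ 0) : mon a x ≠ 0 := by
  refine Finset.prod_ne_zero_iff.2 fun i _ => ?_
  by_cases ha : a i = 0
  · rw [ha, pow_zero]
    exact one_ne_zero
  · exact pow_ne_zero _ (h i ha)

theorem mon_eval (q : MvPolynomial ι L) (x : ι → L) :
    eval x q = ∑ a ∈ q.support, q.coeff a * mon a x := eval_eq' _ _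

/-- the character of the monoid of the scalings which preserve the point -/
noncomputable def chi (G : Submonoid (ι → L)) (a : ι →₀ ℕ) : G →* L where
  toFun h := mon a h
  map_one' := by simp [mon]
  map_mul' g h := by
    change mon a (fun i => (g : ι → L) i * (h : ι → L) i) = _
    exact mon_mul a _ _

end

variable {p : ℕ} [hp : Fact p.Prime] {K F : Type} [Field K] [Field F] [CharP F p]
  [IsAlgClosed K] [IsAlgClosed F] {ι : Type} [Fintype ι]

theorem sharp_mon (T : TiltPair p K F) (a : ι →₀ ℕ) (y : ι → F) :
    T.sharp (mon a y) = mon a fun i => T.sharp (y i) := by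
  unfold mon
  rw [map_prod]
  exact Finset.prod_congr rfl fun i _ => map_pow _ _ _

/-- Over a toric irreducible closed cone there is a closed cone of the same dimension. -/
theorem backward (T : Tilting p K F) {W : Set (ι → K)} (hW : IsIrr W) (htor : IsToric W) {d : ℕ}
    (hd : DimGE W d) : ∃ Y : Set (ι → F), IsClosedCone Y ∧ DimGE Y d ∧
      ∀ y ∈ Y, (fun i => T.sharp (y i)) ∈ W := by
  classical
  have : Infinite K := IsAlgClosed.instInfinite
  have : Infinite F := IsAlgClosed.instInfinite
  let IW : Ideal (MvPolynomial ι K) := vanishingIdeal K W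
  have hmemI : ∀ f, f ∈ IW ↔ ∀ x ∈ W, eval x f = 0 := by
    intro f
    rw [mem_vanishingIdeal_iff]
    exact forall₂_congr fun x _ => by rw [aeval_eq_eval]
  have hIpr : IW.IsPrime := by
    refine ⟨?_, fun {f g} hfg => ?_⟩
    · rw [Ideal.ne_top_iff_one, hmemI]
      intro h
      obtain ⟨x, hx⟩ := hW.ne
      have h1 := h x hx
      rw [map_one] at h1
      exact one_ne_zero h1
    · rw [hmemI] at hfg
      rcases hW.irr f g hfg with h | h
      · exact Or.inl ((hmemI f).2 h)
      · exact Or.inr ((hmemI g).2 h)
  let S : Finset ι := Finset.univ.filter fun i => X i ∉ IW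
  have hS : ∀ i, i ∈ S ↔ X i ∉ IW := fun i => by simp [S]
  have hSzero : ∀ i, i ∉ S → ∀ x ∈ W, x i = 0 := by
    intro i hi x hx
    rw [hS, not_not, hmemI] at hi
    have := hi x hx
    rwa [eval_X] at this
  have hprod : ∏ i ∈ S, X i ∉ IW := by
    intro h
    obtain ⟨i, hi, hiP⟩ := (hIpr.prod_mem_iff).1 h
    exact (hS i).1 hi hiP
  obtain ⟨x₀, hx₀W, hx₀S⟩ : ∃ x₀ ∈ W, ∀ i ∈ S, x₀ i ≠ 0 := by
    by_contra hno
    push Not at hno
    apply hprod
    rw [hmemI]
    intro x hx
    obtain ⟨i, hi, hi0⟩ := hno x hx
    rw [map_prod]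
    exact Finset.prod_eq_zero hi (by rw [eval_X, hi0])
  choose y₀ hy₀ using fun i => T.surj (x₀ i)
  have hy₀0 : ∀ i, y₀ i = 0 ↔ x₀ i = 0 := by
    intro i
    constructor
    · intro h
      rw [← hy₀ i, h, T.sharp_zero]
    · intro h
      by_contra h0
      exact T.sharp_ne h0 ((hy₀ i).trans h)
  have hy₀S : ∀ i ∈ S, y₀ i ≠ 0 := fun i hi h => hx₀S i hi ((hy₀0 i).1 h)
  have hy₀off : ∀ i, i ∉ S → y₀ i = 0 := fun i hi => (hy₀0 i).2 (hSzero i hi x₀ hx₀W)
  -- the monoid of scalings
  let G : Submonoid (ι → K) :=
    { carrier := {h | (fun i => x₀ i * h i) ∈ W}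
      one_mem' := by
        change (fun i => x₀ i * (1 : ι → K) i) ∈ W
        simpa using hx₀W
      mul_mem' := fun {g h} hg hh => by
        have h1 := htor _ hg x₀ hx₀W _ hh (fun i hi x hx => by
          by_cases his : i ∈ S
          · exact absurd hi (hx₀S i his)
          · exact hSzero i his x hx)
        change (fun i => x₀ i * (g * h) i) ∈ W
        convert! h1 using 1
        funext i
        rw [Pi.mul_apply]
        by_cases hi : x₀ i = 0
        · rw [hi]
          ring
        · field_simp }
  have hGmem : ∀ h : ι → K, h ∈ G ↔ (fun i => x₀ i * h i) ∈ W := fun h => Iff.rfl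
  let inS : (ι →₀ ℕ) → Prop := fun a => ∀ i, a i ≠ 0 → i ∈ S
  let rel : (ι →₀ ℕ) → (ι →₀ ℕ) → Prop := fun a b => ∀ h ∈ G, mon a h = mon b h
  let Y : Set (ι → F) := {y | (∀ i, i ∉ S → y i = 0) ∧ ∀ a b, inS a → inS b → rel a b →
    mon a y * mon b y₀ = mon b y * mon a y₀}
  have hY : ∀ y, y ∈ Y ↔ (∀ i, i ∉ S → y i = 0) ∧ ∀ a b, inS a → inS b → rel a b →
    mon a y * mon b y₀ = mon b y * mon a y₀ := fun y => Iff.rfl
  -- equal degrees
  have hdeg : ∀ a b, rel a b → ∑ i, a i = ∑ i, b i := by
    intro a b hab
    have h1 := hab (fun _ => (p : K)) (by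
      rw [hGmem]
      have h2 := hW.cone.2 (p : K) x₀ hx₀W
      convert! h2 using 1
      funext i
      rw [Pi.smul_apply, smul_eq_mul, mul_comm])
    unfold mon at h1
    rw [Finset.prod_pow_eq_pow_sum, Finset.prod_pow_eq_pow_sum] at h1
    have h2 := congrArg T.absK h1
    rw [map_pow, map_pow] at h2
    exact pow_right_injective₀ (T.absK.pos T.p_ne) T.p_lt.ne h2
  have hmonsmul : ∀ (a : ι →₀ ℕ) (c : F) (y : ι → F), mon a (c • y) = c ^ (∑ i, a i) * mon a y := by
    intro a c y
    unfold mon
    rw [← Finset.prod_pow_eq_pow_sum, ← Finset.prod_mul_distrib]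
    exact Finset.prod_congr rfl fun i _ => by rw [Pi.smul_apply, smul_eq_mul, mul_pow]
  have hYcone : IsClosedCone Y := by
    constructor
    · refine ⟨Ideal.span ({f | ∃ i, i ∉ S ∧ f = X i} ∪ {f | ∃ a b, inS a ∧ inS b ∧ rel a b ∧
        f = C (mon b y₀) * monomial a 1 - C (mon a y₀) * monomial b 1}), ?_⟩
      have hmono : ∀ (a : ι →₀ ℕ) (y : ι → F), eval y (monomial a (1 : F)) = mon a y := by
        intro a y
        rw [eval_monomial, one_mul, Finsupp.prod_fintype _ _ (fun i => pow_zero _)]
        rfl
      ext y
      rw [mem_zeroLocus_iff, hY]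
      constructor
      · rintro ⟨h1, h2⟩ f hf
        have h3 : Ideal.span ({f | ∃ i, i ∉ S ∧ f = X i} ∪ {f | ∃ a b, inS a ∧ inS b ∧ rel a b ∧
            f = C (mon b y₀) * monomial a 1 - C (mon a y₀) * monomial b 1}) ≤
              RingHom.ker (eval y : MvPolynomial ι F →+* F) := by
          rw [Ideal.span_le]
          rintro f (⟨i, hi, rfl⟩ | ⟨a, b, ha, hb, hab, rfl⟩)
          · change eval y (X i) = 0
            rw [eval_X]
            exact h1 i hi
          · change eval y _ = 0
            rw [map_sub, map_mul, map_mul, eval_C, eval_C, hmono, hmono]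
            have := h2 a b ha hb hab
            linear_combination this
        rw [aeval_eq_eval]
        exact h3 hf
      · intro h
        refine ⟨fun i hi => ?_, fun a b ha hb hab => ?_⟩
        · have h1 := h (X i) (Ideal.subset_span (Or.inl ⟨i, hi, rfl⟩))
          rwa [aeval_X] at h1
        · have h1 := h _ (Ideal.subset_span (Or.inr ⟨a, b, ha, hb, hab, rfl⟩))
          rw [aeval_eq_eval, map_sub, map_mul, map_mul, eval_C, eval_C, hmono, hmono] at h1
          linear_combination h1
    · intro c y hy
      rw [hY] at hy ⊢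
      refine ⟨fun i hi => ?_, fun a b ha hb hab => ?_⟩
      · rw [Pi.smul_apply, hy.1 i hi, smul_zero]
      · rw [hmonsmul, hmonsmul, hdeg a b hab, mul_assoc, mul_assoc, hy.2 a b ha hb hab]
  refine ⟨Y, hYcone, ?_, fun y hy => ?_⟩
  · -- the dimension
    obtain ⟨⟨J', hJ'⟩, hcone'⟩ := hW.cone
    have hcone2 := hcone'
    rw [hJ'] at hcone2
    have hd2 := hd
    rw [hJ'] at hd2
    obtain ⟨P, hP, hJP, z, hz⟩ := Pool.Agent.R388.TP.exists_algInd hcone2 hd2
    obtain ⟨B, hind, halg⟩ := exists_basis P
    have hcard : d + 1 ≤ B.card := card_basis P B halg hz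
    have hIWP : IW ≤ P := by
      intro f hf
      refine mem_vanishing_zeroLocus P fun x hx => ?_
      refine (hmemI f).1 hf x ?_
      rw [hJ', mem_zeroLocus_iff]
      intro q hq
      exact (mem_zeroLocus_iff.1 hx) q (hJP hq)
    have hindW : Indep IW (fun b : B => (b : ι)) := fun r hr => hind r (hIWP hr)
    have hBS : ∀ b : B, (b : ι) ∈ S := by
      intro b
      rw [hS]
      intro hb
      have h1 := hindW (X b) (by rw [rename_X]; exact hb)
      exact X_ne_zero b h1
    let A : Submodule ℤ (ι → ℤ) :=
      { carrier := {l | ∀ h ∈ G, (∀ i, h i ≠ 0) → ∏ i, h i ^ l i = 1}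
        add_mem' := fun {l m} hl hm h hh h0 => by
          have h1 : ∏ i, h i ^ (l + m) i = (∏ i, h i ^ l i) * ∏ i, h i ^ m i := by
            rw [← Finset.prod_mul_distrib]
            exact Finset.prod_congr rfl fun i _ => by rw [Pi.add_apply, zpow_add₀ (h0 i)]
          rw [h1, hl h hh h0, hm h hh h0, one_mul]
        zero_mem' := fun h _ _ => by simp
        smul_mem' := fun n l hl h hh h0 => by
          have h1 : ∏ i, h i ^ (n • l) i = (∏ i, h i ^ l i) ^ n := by
            rw [← Finset.prod_zpow]
            exact Finset.prod_congr rfl fun i _ => by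
              rw [Pi.smul_apply, smul_eq_mul, mul_comm, zpow_mul]
          rw [h1, hl h hh h0, one_zpow] }
    have hAB : ∀ l ∈ A, (∀ i, i ∉ B → l i = 0) → l = 0 := by
      intro l hl hlB
      let lp : B →₀ ℕ := Finsupp.equivFunOnFinite.symm fun b => (l b).toNat
      let lm : B →₀ ℕ := Finsupp.equivFunOnFinite.symm fun b => (-(l b)).toNat
      have hlp : ∀ b, lp b = (l b).toNat := fun b => rfl
      have hlm : ∀ b, lm b = (-(l b)).toNat := fun b => rfl
      let xB : B → K := fun b => x₀ b
      have hxB : ∀ b, xB b ≠ 0 := fun b => hx₀S b (hBS b)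
      let f : MvPolynomial B K := monomial lp (mon lm xB) - monomial lm (mon lp xB)
      have hf : rename (fun b : B => (b : ι)) f ∈ IW := by
        refine (hIpr.mem_or_mem (show rename (fun b : B => (b : ι)) f * ∏ i ∈ S, X i ∈ IW from
          ?_)).resolve_right hprod
        rw [hmemI]
        intro x hx
        rw [map_mul, map_prod]
        by_cases hx0 : ∀ i ∈ S, x i ≠ 0
        · let h : ι → K := fun i => if i ∈ S then x i / x₀ i else 1
          have h0 : ∀ i, h i ≠ 0 := by
            intro i
            simp only [h]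
            split_ifs with hi
            · exact div_ne_zero (hx0 i hi) (hx₀S i hi)
            · exact one_ne_zero
          have hhG : h ∈ G := by
            rw [hGmem]
            convert! hx using 1
            funext i
            simp only [h]
            split_ifs with hi
            · have := hx₀S i hi
              field_simp
            · rw [hSzero i hi x₀ hx₀W, hSzero i hi x hx, zero_mul]
          have h1 := hl h hhG h0
          have h2 : ∏ i, h i ^ l i = ∏ b : B, (x b / x₀ b) ^ l b := by
            have h3 : ∏ i, h i ^ l i = ∏ i ∈ B, h i ^ l i := by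
              symm
              refine Finset.prod_subset (Finset.subset_univ _) fun i _ hi => ?_
              rw [hlB i hi, zpow_zero]
            rw [h3, ← Finset.prod_coe_sort]
            refine Finset.prod_congr rfl fun b _ => ?_
            simp only [h]
            rw [if_pos (hBS b)]
          rw [h2] at h1
          have h4 : eval (fun b : B => x b) f = 0 := by
            have h5 : ∀ b : B, x b ^ (l b).toNat * x₀ b ^ (-(l b)).toNat =
                (x b / x₀ b) ^ l b * (x b ^ (-(l b)).toNat * x₀ b ^ (l b).toNat) := by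
              intro b
              have hb1 : x b ≠ 0 := hx0 b (hBS b)
              have hb2 : x₀ b ≠ 0 := hx₀S b (hBS b)
              have e1 : x b ^ (l b).toNat = x b ^ l b * x b ^ (-(l b)).toNat := by
                rw [← zpow_natCast, ← zpow_natCast (x b) (-(l b)).toNat, ← zpow_add₀ hb1]
                congr 1
                omega
              have e2 : x₀ b ^ (l b).toNat = x₀ b ^ l b * x₀ b ^ (-(l b)).toNat := by
                rw [← zpow_natCast, ← zpow_natCast (x₀ b) (-(l b)).toNat, ← zpow_add₀ hb2]
                congr 1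
                omega
              have e3 : x₀ b ^ l b ≠ 0 := zpow_ne_zero _ hb2
              rw [e1, e2, div_zpow]
              field_simp
            have h6 : (∏ b : B, x b ^ (l b).toNat) * mon lm xB =
                (∏ b : B, x b ^ (-(l b)).toNat) * mon lp xB := by
              unfold mon
              rw [← Finset.prod_mul_distrib, ← Finset.prod_mul_distrib]
              calc ∏ b : B, x b ^ (l b).toNat * xB b ^ lm b
                  = (∏ b : B, (x b / x₀ b) ^ l b) *
                    ∏ b : B, (x b ^ (-(l b)).toNat * x₀ b ^ (l b).toNat) := by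
                    rw [← Finset.prod_mul_distrib]
                    exact Finset.prod_congr rfl fun b _ => h5 b
                _ = _ := by
                    rw [h1, one_mul]
                    rfl
            simp only [f]
            rw [map_sub, eval_monomial, eval_monomial,
              Finsupp.prod_fintype _ _ (fun i => pow_zero _),
              Finsupp.prod_fintype _ _ (fun i => pow_zero _)]
            simp only [hlp, hlm]
            linear_combination h6
          have h7 : eval x (rename (fun b : B => (b : ι)) f) = 0 := by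
            rw [eval_rename]
            exact h4
          rw [h7, zero_mul]
        · push Not at hx0
          obtain ⟨i, hi, hi0⟩ := hx0
          rw [Finset.prod_eq_zero hi (by rw [eval_X, hi0]), mul_zero]
      have hf0 : f = 0 := hindW f hf
      have hpm : lp = lm := by
        by_contra hne
        have h1 := congrArg (coeff lp) hf0
        simp only [f] at h1
        rw [coeff_sub, coeff_monomial, coeff_monomial, if_pos rfl, if_neg fun h => hne h.symm,
          coeff_zero, sub_zero] at h1
        exact mon_ne_zero (fun b _ => hxB b) h1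
      funext i
      by_cases hi : i ∈ B
      · have h1 := DFunLike.congr_fun hpm (⟨i, hi⟩ : B)
        rw [hlp, hlm] at h1
        change l i = 0
        have h2 : (l i).toNat = (-(l i)).toNat := h1
        omega
      · exact hlB i hi
    refine dimGE_of_torus hYcone B hcard fun v hv => ?_
    obtain ⟨c, hc0, hcB, hcA⟩ := exists_char A B hAB (fun b => v b / y₀ b)
      (fun b => div_ne_zero (hv b) (hy₀S b (hBS b)))
    refine ⟨fun i => y₀ i * c i, ⟨fun i hi => by
      change y₀ i * c i = 0
      rw [hy₀off i hi, zero_mul],
      fun a b ha hb hab => ?_⟩, fun b => ?_⟩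
    · have h1 : (fun i => (a i : ℤ) - b i) ∈ A := by
        intro h hh h0
        have h2 : ∏ i, h i ^ ((a i : ℤ) - b i) = mon a h / mon b h := by
          unfold mon
          rw [← Finset.prod_div_distrib]
          exact Finset.prod_congr rfl fun i _ => by
            rw [zpow_sub₀ (h0 i), zpow_natCast, zpow_natCast]
        rw [h2, hab h hh]
        exact div_self (mon_ne_zero fun i _ => h0 i)
      have h2 := hcA _ h1
      have h3 : ∏ i, c i ^ ((a i : ℤ) - b i) = mon a c / mon b c := by
        unfold mon
        rw [← Finset.prod_div_distrib]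
        exact Finset.prod_congr rfl fun i _ => by
          rw [zpow_sub₀ (hc0 i), zpow_natCast, zpow_natCast]
      rw [h3, div_eq_one_iff_eq (mon_ne_zero fun i _ => hc0 i)] at h2
      rw [mon_mul, mon_mul, h2]
      ring
    · change y₀ b * c b = v b
      rw [hcB]
      have := hy₀S b (hBS b)
      field_simp
  · -- the image lies in `W`
    obtain ⟨hy1, hy2⟩ := (hY y).1 hy
    obtain ⟨⟨J', hJ'⟩, -⟩ := hW.cone
    rw [hJ', mem_zeroLocus_iff]
    intro q hq
    rw [aeval_eq_eval]
    have hqW : ∀ x ∈ W, eval x q = 0 := by
      intro x hx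
      rw [hJ'] at hx
      have := (mem_zeroLocus_iff.1 hx) q hq
      rwa [aeval_eq_eval] at this
    -- linear independence of characters
    have hli := linearIndependent_monoidHom G K
    rw [linearIndependent_iff'] at hli
    have hsum : ∑ φ ∈ q.support.image (chi G), (∑ a ∈ q.support with chi G a = φ,
        q.coeff a * mon a x₀) • (φ : G → K) = 0 := by
      funext h
      rw [Finset.sum_apply]
      simp only [Pi.smul_apply, smul_eq_mul, Pi.zero_apply]
      have h1 := hqW _ ((hGmem _).1 h.2)
      rw [mon_eval] at h1
      rw [← h1]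
      simp only [Finset.sum_mul]
      rw [← Finset.sum_fiberwise_of_maps_to (s := q.support) (t := q.support.image (chi G))
        (g := chi G) (fun a ha => Finset.mem_image_of_mem _ ha)]
      refine Finset.sum_congr rfl fun φ _ => Finset.sum_congr rfl fun a ha => ?_
      rw [Finset.mem_filter] at ha
      rw [mon_mul, ← ha.2]
      change q.coeff a * mon a x₀ * mon a (h : ι → K) = _
      ring
    have hzero := hli (q.support.image (chi G)) _ hsum
    rw [mon_eval, ← Finset.sum_fiberwise_of_maps_to (s := q.support) (t := q.support.image (chi G))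
        (g := chi G) (fun a ha => Finset.mem_image_of_mem _ ha)]
    refine Finset.sum_eq_zero fun φ hφ => ?_
    have hz := hzero φ hφ
    set ys : ι → K := fun i => T.sharp (y i) with hys
    have hys0 : ∀ i, i ∉ S → ys i = 0 := fun i hi => by
      simp only [ys]
      rw [hy1 i hi, T.sharp_zero]
    have hsy₀ : (fun i => T.sharp (y₀ i)) = x₀ := funext hy₀
    by_cases hex : ∃ b ∈ q.support.filter (fun a => chi G a = φ), inS b
    · obtain ⟨b, hb, hbS⟩ := hex
      rw [Finset.mem_filter] at hb
      have hb0 : mon b x₀ ≠ 0 := mon_ne_zero fun i hi => hx₀S i (hbS i hi)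
      have hall : ∀ a ∈ q.support.filter (fun a => chi G a = φ),
          mon a ys = mon b ys / mon b x₀ * mon a x₀ := by
        intro a ha
        rw [Finset.mem_filter] at ha
        by_cases haS : inS a
        · have hab : rel a b := by
            intro h hh
            have h1 : chi G a ⟨h, hh⟩ = chi G b ⟨h, hh⟩ := by rw [ha.2, hb.2]
            exact h1
          have h1 := congrArg T.sharp (hy2 a b haS hbS hab)
          rw [map_mul, map_mul, sharp_mon, sharp_mon, sharp_mon, sharp_mon, hsy₀] at h1
          rw [div_mul_eq_mul_div, eq_div_iff hb0]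
          exact h1
        · simp only [inS] at haS
          push Not at haS
          obtain ⟨i, hi, hiS⟩ := haS
          rw [mon_eq_zero hi (hys0 i hiS), mon_eq_zero hi (hSzero i hiS x₀ hx₀W), mul_zero]
      rw [Finset.sum_congr rfl fun a ha => by rw [hall a ha]]
      have h2 : ∑ a ∈ q.support with chi G a = φ, q.coeff a * (mon b ys / mon b x₀ * mon a x₀) =
          (mon b ys / mon b x₀) * ∑ a ∈ q.support with chi G a = φ, q.coeff a * mon a x₀ := by
        rw [Finset.mul_sum]
        exact Finset.sum_congr rfl fun a _ => by ring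
      rw [h2, hz, mul_zero]
    · push Not at hex
      refine Finset.sum_eq_zero fun a ha => ?_
      have h1 := hex a ha
      simp only [inS] at h1
      push Not at h1
      obtain ⟨i, hi, hiS⟩ := h1
      rw [mon_eq_zero hi (hys0 i hiS), mul_zero]

end Pool.Agent.H20.RG
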