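import Pool.Agent.H20.RG.Growth

/-!
# Growth of the degrees of approximating hypersurfaces: the theorem
-/

set_option autoImplicit false
set_option linter.unusedSectionVars false

namespace Pool.Agent.H20.RG

open MvPolynomial Pool.Agent.Y129.TA
open Pool.Agent.K7.H6.PT (abs_sub_le' lipschitz)

variable {p : ℕ} [hp : Fact p.Prime] {K F : Type} [Field K] [Field F] [CharP F p]
  [IsAlgClosed K] [IsAlgClosed F] {ι : Type} [Fintype ι] [DecidableEq ι]

theorem growth (T : Tilting p K F) {P : MvPolynomial ι K} {d : ℕ} (hd : 0 < d)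
    (hP : P.IsHomogeneous d) {i₀ i₁ i₂ : ι} (h01 : i₀ ≠ i₁) (h02 : i₀ ≠ i₂) (h12 : i₁ ≠ i₂)
    (h0 : eval (bas K i₀) P ≠ 0) (h1 : eval (bas K i₁) P ≠ 0) (h2 : eval (bas K i₂) P ≠ 0) :
    ∃ c C : ℝ, 0 < c ∧ 0 < C ∧ ∀ (j D : ℕ) (ε : ℝ) (g : MvPolynomial ι F), 0 ≤ ε →
      ε ≤ c * T.absK p ^ (d * j) → 0 < D → g.IsHomogeneous D →
      (∀ y, eval y g = 0 → T.InTube P d ε y) → (p : ℝ) ^ j ≤ C * (j + 1) * D := by
  classical
  have hq : 0 < T.absK p := T.absK.pos T.p_ne
  have hq1 := T.p_lt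
  set Q : Polynomial K := line P (bas K i₁) (bas K i₂) with hQdef
  have hQc := line_coeff hP (bas K i₁) (bas K i₂)
  rw [← hQdef] at hQc
  have hQd : Q.natDegree = d :=
    le_antisymm hQc.1 (Polynomial.le_natDegree_of_ne_zero (by rw [hQc.2]; exact h2))
  have hQl : Q.leadingCoeff = eval (bas K i₂) P := by rw [Polynomial.leadingCoeff, hQd, hQc.2]
  -- the constants for the roots
  have key : ∀ z : {z // z ∈ Q.roots.toFinset}, ∃ c C : ℝ, 0 < c ∧ 0 < C ∧
      ∀ (j D : ℕ) (ε : ℝ) (g : MvPolynomial ι F), 0 ≤ ε →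
      ε ≤ c * T.absK p ^ (d * j) → 0 < D → g.IsHomogeneous D →
      (∀ y, eval y g = 0 → T.InTube P d ε y) →
      (∃ ζ : F, eval (fun i => bas F i₁ i + bas F i₂ i * ζ) g = 0 ∧
        T.absK (T.sharp ζ - z.1) ≤ c * T.absK p ^ j) → (p : ℝ) ^ j ≤ C * (j + 1) * D := fun z =>
    growth_at T hP h01 h02 h12 h0 h1 h2
      (Polynomial.mem_roots'.1 (Multiset.mem_toFinset.1 z.2)).2
  choose cz Cz hcz hCz hz using key
  obtain ⟨c', hc', hc'2⟩ := exists_pos_le cz hcz
  set C : ℝ := 1 + ∑ z, Cz z with hC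
  have hCsum : 0 ≤ ∑ z, Cz z := Finset.sum_nonneg fun z _ => (hCz z).le
  obtain ⟨R, hR1, hfar⟩ := far T.ultraK hP (bas K i₂) (abs_bas_le i₂) h2
  have hRpos : 0 < R := by linarith
  set A0 := T.absK (eval (bas K i₀) P) with hA0
  set A2 := T.absK (eval (bas K i₂) P) with hA2
  have hA0p : 0 < A0 := T.absK.pos h0
  have hA2p : 0 < A2 := T.absK.pos h2
  refine ⟨min (min (A0 / 2) (A2 / 2)) (min c' (A2 * c' ^ d / R ^ d)), C, by positivity,
    by positivity, ?_⟩
  intro j D ε g hε hεc hD hg htube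
  have hqdj : T.absK p ^ (d * j) ≤ 1 := pow_le_one₀ hq.le hq1.le
  have hqdj0 : 0 < T.absK p ^ (d * j) := by positivity
  have hε2 : ε < A2 := by
    have h3 : ε ≤ A2 / 2 := hεc.trans ((mul_le_of_le_one_right (by positivity) hqdj).trans
      ((min_le_left _ _).trans (min_le_right _ _)))
    linarith
  have hbas : ∀ i : ι, (fun k => T.sharp (bas F i k)) = bas K i := by
    intro i
    funext k
    unfold bas
    split_ifs
    · exact map_one _
    · exact T.sharp_zero
  have hg2 : eval (bas F i₂) g ≠ 0 := by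
    intro h
    have h3 := htube _ h 1 (abs_bas_le i₂)
    rw [hbas, one_pow, mul_one] at h3
    linarith
  have hgc := line_coeff hg (bas F i₁) (bas F i₂)
  obtain ⟨ζ, hζ⟩ : ∃ ζ, (line g (bas F i₁) (bas F i₂)).eval ζ = 0 := by
    refine IsAlgClosed.exists_root _ ?_
    intro h
    have h3 : (line g (bas F i₁) (bas F i₂)).natDegree = 0 :=
      Polynomial.natDegree_eq_of_degree_eq_some h
    have h4 : D ≤ (line g (bas F i₁) (bas F i₂)).natDegree :=
      Polynomial.le_natDegree_of_ne_zero (by rw [hgc.2]; exact hg2)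
    omega
  rw [line_eval] at hζ
  have hpt : (fun i => T.sharp (bas F i₁ i + bas F i₂ i * ζ)) =
      fun i => bas K i₁ i + bas K i₂ i * T.sharp ζ := by
    funext i
    unfold bas
    by_cases hi1 : i = i₁
    · subst hi1
      simp [h12]
    · by_cases hi2 : i = i₂
      · subst hi2
        simp [hi1]
      · simp [hi1, hi2, T.sharp_zero]
  have hnorm : ∀ B : ℝ, 1 ≤ B → T.absF ζ ≤ B → ∀ i,
      T.absF (bas F i₁ i + bas F i₂ i * ζ) ≤ B := by
    intro B hB1 hB2 i
    refine (T.ultraF _ _).trans (max_le ((abs_bas_le _ _).trans hB1) ?_)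
    rw [map_mul]
    exact (mul_le_of_le_one_left (T.absF.nonneg _) (abs_bas_le _ _)).trans hB2
  have hζR : T.absF ζ ≤ R := by
    by_contra hlt
    push Not at hlt
    have h3 := htube _ hζ (T.absF ζ) (hnorm _ (hR1.trans hlt.le) le_rfl)
    rw [hpt, hfar (T.sharp ζ) _ 1 (abs_bas_le i₁) (by rw [T.abs_sharp, mul_one]; exact hlt),
      T.abs_sharp] at h3
    have h5 : 0 < T.absF ζ ^ d := pow_pos (hRpos.trans hlt) d
    have h6 := le_of_mul_le_mul_right h3 h5
    linarith
  have h3 := htube _ hζ R (hnorm _ hR1 hζR)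
  rw [hpt, ← line_eval, ← hQdef] at h3
  have hc'q : 0 ≤ c' * T.absK p ^ j := by positivity
  obtain ⟨z, hzr, hzc⟩ := exists_close_root (a := T.absK) (f := Q) (by rw [hQd]; exact hd)
    (x := T.sharp ζ) hc'q (by
      refine h3.trans ?_
      rw [hQl, hQd, ← hA2, mul_pow, ← pow_mul, mul_comm j d]
      have h4 : ε ≤ A2 * c' ^ d / R ^ d * T.absK p ^ (d * j) :=
        hεc.trans (mul_le_mul_of_nonneg_right ((min_le_right _ _).trans (min_le_right _ _))
          hqdj0.le)
      calc ε * R ^ d ≤ A2 * c' ^ d / R ^ d * T.absK p ^ (d * j) * R ^ d :=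
            mul_le_mul_of_nonneg_right h4 (by positivity)
        _ = A2 * (c' ^ d * T.absK p ^ (d * j)) := by field_simp)
  set zz : {z // z ∈ Q.roots.toFinset} := ⟨z, Multiset.mem_toFinset.2 hzr⟩ with hzz
  have hmain := hz zz j D ε g hε (hεc.trans (mul_le_mul_of_nonneg_right
    ((min_le_right _ _).trans ((min_le_left _ _).trans (hc'2 zz))) hqdj0.le)) hD hg htube
    ⟨ζ, hζ, hzc.trans (mul_le_mul_of_nonneg_right (hc'2 zz) (by positivity))⟩
  refine hmain.trans ?_
  have h4 : Cz zz ≤ C := by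
    have := Finset.single_le_sum (f := Cz) (fun z _ => (hCz z).le) (Finset.mem_univ zz)
    linarith
  have h5 : (0 : ℝ) ≤ (j + 1) * D := by positivity
  calc Cz zz * (j + 1) * D = Cz zz * ((j + 1) * D) := by ring
    _ ≤ C * ((j + 1) * D) := mul_le_mul_of_nonneg_right h4 h5
    _ = C * (j + 1) * D := by ring

/-- The upper bound for the degrees. -/
theorem growth_upper [Nonempty ι] (T : Tilting p K F) {P : MvPolynomial ι K} {d : ℕ} (hd : 0 < d)
    (hP : P.IsHomogeneous d) (hP0 : P ≠ 0) :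
    ∃ C : ℕ, 0 < C ∧ ∀ j : ℕ, ∃ g : MvPolynomial ι F, g ≠ 0 ∧ g.IsHomogeneous (C * p ^ j) ∧
      ∀ y, eval y g = 0 → T.InTube P d (T.absK p ^ j) y := by
  classical
  have hq : 0 < T.absK p := T.absK.pos T.p_ne
  have hq1 := T.p_lt
  -- the coefficients become integral
  obtain ⟨B, hB⟩ : ∃ B : ℝ, ∀ α ∈ P.support, T.absK (coeff α P) ≤ B :=
    ⟨∑ α ∈ P.support, T.absK (coeff α P), fun α hα =>
      Finset.single_le_sum (f := fun α => T.absK (coeff α P)) (fun α _ => T.absK.nonneg _) hα⟩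
  obtain ⟨m, hm⟩ : ∃ m : ℕ, T.absK p ^ m * max B 1 < 1 := by
    obtain ⟨m, hm⟩ := exists_pow_lt_of_lt_one (show (0 : ℝ) < 1 / max B 1 by positivity) T.p_lt
    refine ⟨m, ?_⟩
    rwa [lt_div_iff₀ (by positivity)] at hm
  let h' : MvPolynomial ι K := C ((p : K) ^ m) * P
  have hh' : h'.IsHomogeneous d := by
    have h1 := (isHomogeneous_C ι ((p : K) ^ m)).mul hP
    rwa [zero_add] at h1
  have hint : ∀ α, T.absK (coeff α h') ≤ 1 := by
    intro α
    rw [coeff_C_mul, map_mul, map_pow]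
    by_cases hα : α ∈ P.support
    · refine (mul_le_mul_of_nonneg_left ((hB α hα).trans (le_max_left B 1))
        (pow_nonneg hq.le m)).trans hm.le
    · rw [notMem_support_iff.1 hα, map_zero, mul_zero]
      exact zero_le_one
  -- a point in the unit ball where `P` is not zero
  obtain ⟨x, hx1, hx0⟩ : ∃ x : ι → F, (∀ i, T.absF (x i) ≤ 1) ∧
      eval (fun i => T.sharp (x i)) P ≠ 0 := by
    obtain ⟨v, hv⟩ : ∃ v : ι → K, eval v P ≠ 0 := by
      by_contra hno
      push Not at hno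
      exact hP0 (MvPolynomial.funext fun v => by rw [hno v, map_zero])
    choose w hw using fun i => T.surj (v i)
    have hvw : (fun i => T.sharp (w i)) = v := funext hw
    rcases eq_or_ne w 0 with h0 | h0
    · refine ⟨w, fun i => ?_, by rw [hvw]; exact hv⟩
      rw [h0, Pi.zero_apply, map_zero]
      exact zero_le_one
    · obtain ⟨a, ha, h1, -⟩ := exists_normal T.toTiltPair h0
      refine ⟨fun i => a * w i, h1, ?_⟩
      have h2 : (fun i => T.sharp (a * w i)) = fun i => T.sharp a * v i := by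
        funext i
        rw [map_mul, hw]
      rw [h2, eval_smul_of_homogeneous hP]
      exact mul_ne_zero (pow_ne_zero _ (T.sharp_ne ha)) hv
  have hxp : 0 < T.absK (eval (fun i => T.sharp (x i)) P) := T.absK.pos hx0
  obtain ⟨c0, hc0⟩ := exists_pow_lt_of_lt_one hxp hq1
  refine ⟨d * p ^ (m + c0), Nat.mul_pos hd (pow_pos (Fact.out : p.Prime).pos _), fun j => ?_⟩
  obtain ⟨g, hg, hg2⟩ := approx_degree T hh' hint (m + c0 + j)
  have hval : ∀ y : ι → F, T.absK (eval (fun i => T.sharp (y i)) h') =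
      T.absK p ^ m * T.absK (eval (fun i => T.sharp (y i)) P) := by
    intro y
    simp only [h']
    rw [map_mul, eval_C, map_mul, map_pow]
  have hb : ∀ y : ι → F, (∀ i, T.absF (y i) ≤ 1) → eval y g = 0 →
      T.absK (eval (fun i => T.sharp (y i)) P) ≤ T.absK p ^ (c0 + j) := by
    intro y hy hyg
    have h1 := hg2 y hy hyg
    rw [hval] at h1
    have h2 : T.absK p ^ (m + c0 + j + 1) ≤ T.absK p ^ m * T.absK p ^ (c0 + j) := by
      rw [← pow_add]
      exact pow_le_pow_of_le_one hq.le hq1.le (by omega)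
    exact le_of_mul_le_mul_left (h1.trans h2) (by positivity)
  refine ⟨g, ?_, ?_, fun y hy => ?_⟩
  · rintro rfl
    have h1 := hb x hx1 (map_zero _)
    have h2 : T.absK p ^ (c0 + j) ≤ T.absK p ^ c0 :=
      pow_le_pow_of_le_one hq.le hq1.le (by omega)
    linarith
  · have h1 : d * p ^ (m + c0) * p ^ j = d * p ^ (m + c0 + j) := by rw [mul_assoc, ← pow_add]
    rw [h1]
    exact hg
  · refine tube_of_ball T hP hg (by positivity) hd (fun t ht htg => (hb t ht htg).trans ?_) y hy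
    exact pow_le_pow_of_le_one hq.le hq1.le (by omega)

end Pool.Agent.H20.RG
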