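import Pool.Agent.H20.RG.Growth2

/-!
# Growth of the degrees of approximating hypersurfaces, with multiplicities
-/

set_option autoImplicit false
set_option linter.unusedSectionVars false

namespace Pool.Agent.H20.RG

open MvPolynomial Pool.Agent.Y129.TA
open Pool.Agent.K7.H6.PT (abs_sub_le' lipschitz)

theorem mult_scale {K : Type} [Field K] {f : Polynomial K} {z : K} (hz : z ≠ 0) (hf : f ≠ 0) :
    (f.comp (Polynomial.C z * Polynomial.X)).rootMultiplicity 1 ≤ f.rootMultiplicity z := by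
  rw [Polynomial.le_rootMultiplicity_iff hf]
  obtain ⟨w, hw⟩ := Polynomial.pow_rootMultiplicity_dvd (f.comp (Polynomial.C z * Polynomial.X)) 1
  set m := (f.comp (Polynomial.C z * Polynomial.X)).rootMultiplicity 1
  have h1 : f = (f.comp (Polynomial.C z * Polynomial.X)).comp
      (Polynomial.C z⁻¹ * Polynomial.X) := by
    rw [Polynomial.comp_assoc, Polynomial.mul_comp, Polynomial.C_comp, Polynomial.X_comp,
      ← mul_assoc, ← Polynomial.C_mul, mul_inv_cancel₀ hz, Polynomial.C_1, one_mul,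
      Polynomial.comp_X]
  rw [h1, hw, Polynomial.mul_comp, Polynomial.pow_comp, Polynomial.sub_comp, Polynomial.X_comp,
    Polynomial.C_comp]
  have h2 : Polynomial.X - Polynomial.C z =
      Polynomial.C z * (Polynomial.C z⁻¹ * Polynomial.X - Polynomial.C 1) := by
    rw [mul_sub, ← mul_assoc, ← Polynomial.C_mul, mul_inv_cancel₀ hz, Polynomial.C_1, one_mul,
      mul_one]
  rw [h2, mul_pow]
  have h3 : Polynomial.C z ^ m * (Polynomial.C z⁻¹ * Polynomial.X - Polynomial.C 1) ^ m ∣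
      (Polynomial.C z⁻¹ * Polynomial.X - Polynomial.C 1) ^ m := by
    refine ⟨Polynomial.C z⁻¹ ^ m, ?_⟩
    have : Polynomial.C z ^ m * Polynomial.C z⁻¹ ^ m = 1 := by
      rw [← mul_pow, ← Polynomial.C_mul, mul_inv_cancel₀ hz, Polynomial.C_1, one_pow]
    linear_combination (-(Polynomial.C z⁻¹ * Polynomial.X - Polynomial.C 1) ^ m) * this
  exact h3.trans (Dvd.intro _ rfl)

theorem line_scale {ι : Type} [Fintype ι] {K : Type} [Field K] [Infinite K] {P : MvPolynomial ι K}
    {u v : ι → K} {z : K} : line P u (fun i => z * v i) =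
      (line P u v).comp (Polynomial.C z * Polynomial.X) := by
  apply Polynomial.funext
  intro x
  rw [line_eval, Polynomial.eval_comp, line_eval]
  congr 2
  funext i
  simp
  ring

theorem near_root {L : Type} [Field L] {a : AbsoluteValue L ℝ}
    (ha : ∀ x y, a (x + y) ≤ max (a x) (a y)) {f : Polynomial L} (hf : f ≠ 0) (z : L) :
    ∃ δ κ : ℝ, 0 < δ ∧ 0 < κ ∧ ∀ x : L, a (x - z) ≤ δ →
      a (f.eval x) = κ * a (x - z) ^ f.rootMultiplicity z := by
  obtain ⟨g, hg1, hg2⟩ := Polynomial.exists_eq_pow_rootMultiplicity_mul_and_not_dvd f hf z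
  have hg : g.eval z ≠ 0 := fun h => hg2 (Polynomial.dvd_iff_isRoot.2 h)
  have hg0 : g ≠ 0 := by
    rintro rfl
    exact hg Polynomial.eval_zero
  -- near_one for the translate of `g`
  set g' : Polynomial L := g.comp (Polynomial.X + Polynomial.C (z - 1)) with hg'
  have hg'1 : g'.eval 1 = g.eval z := by
    rw [hg', Polynomial.eval_comp]
    simp
  have hg'0 : g' ≠ 0 := by
    intro h
    rw [h, Polynomial.eval_zero] at hg'1
    exact hg hg'1.symm
  obtain ⟨δ, c, hδ, hc, hn⟩ := near_one ha hg'0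
  have hm : g'.rootMultiplicity 1 = 0 := by
    rw [Polynomial.rootMultiplicity_eq_zero_iff]
    intro h
    rw [Polynomial.IsRoot.def, hg'1] at h
    exact absurd h hg
  refine ⟨δ, c, hδ, hc, fun x hx => ?_⟩
  have h1 := hn (x - z + 1) (by rw [add_sub_cancel_right]; exact hx)
  rw [hm, pow_zero, mul_one, hg', Polynomial.eval_comp] at h1
  have h2 : (Polynomial.X + Polynomial.C (z - 1)).eval (x - z + 1) = x := by
    simp
  rw [h2] at h1
  conv_lhs => rw [hg1]
  rw [Polynomial.eval_mul, Polynomial.eval_pow, Polynomial.eval_sub, Polynomial.eval_X,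
    Polynomial.eval_C, map_mul, map_pow, h1]
  ring

variable {p : ℕ} [hp : Fact p.Prime] {K F : Type} [Field K] [Field F] [CharP F p]
  [IsAlgClosed K] [IsAlgClosed F] {ι : Type} [Fintype ι] [DecidableEq ι]

theorem growth_at_mult (T : Tilting p K F) {P : MvPolynomial ι K} {d μ : ℕ}
    (hP : P.IsHomogeneous d) {i₀ i₁ i₂ : ι} (h01 : i₀ ≠ i₁) (h02 : i₀ ≠ i₂) (h12 : i₁ ≠ i₂)
    (h0 : eval (bas K i₀) P ≠ 0) (h1 : eval (bas K i₁) P ≠ 0) (h2 : eval (bas K i₂) P ≠ 0)
    {z : K} (hz : (line P (bas K i₁) (bas K i₂)).eval z = 0)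
    (hμ : (line P (bas K i₁) (bas K i₂)).rootMultiplicity z ≤ μ) :
    ∃ c C : ℝ, 0 < c ∧ 0 < C ∧ ∀ (j D : ℕ) (ε : ℝ) (g : MvPolynomial ι F), 0 ≤ ε →
      ε ≤ c * T.absK p ^ (μ * j) → 0 < D → g.IsHomogeneous D →
      (∀ y, eval y g = 0 → T.InTube P d ε y) →
      (∃ ζ : F, eval (fun i => bas F i₁ i + bas F i₂ i * ζ) g = 0 ∧
        T.absK (T.sharp ζ - z) ≤ c * T.absK p ^ j) → (p : ℝ) ^ j ≤ C * (j + 1) * D := by
  have hp2 := hp.out.two_le
  obtain ⟨q, hqdef⟩ : ∃ q, q = T.absK p := ⟨_, rfl⟩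
  rw [← hqdef]
  have hq : 0 < q := by rw [hqdef]; exact T.absK.pos T.p_ne
  have hq1 : q < 1 := by rw [hqdef]; exact T.p_lt
  have hz0 : z ≠ 0 := by
    rintro rfl
    rw [line_eval] at hz
    apply h1
    rw [← hz]
    congr 2
    exact funext fun i => by rw [mul_zero, add_zero]
  have hzp : 0 < T.absK z := T.absK.pos hz0
  set ρ : ℝ := max 1 (T.absK z) with hρ
  have hρ1 : 1 ≤ ρ := le_max_left _ _
  obtain ⟨R0, hR0, hfar⟩ := far T.ultraK hP (bas K i₀) (abs_bas_le i₀) h0
  obtain ⟨R, hR⟩ : ∃ R, R = R0 * ρ := ⟨_, rfl⟩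
  have hR1 : 1 ≤ R := by nlinarith
  have hρR : ρ ≤ R := by nlinarith
  have hRpos : 0 < R := by linarith
  set A0 := T.absK (eval (bas K i₀) P) with hA0
  have hA0p : 0 < A0 := T.absK.pos h0
  obtain ⟨B, hB, -, hLip⟩ := lipschitz T.ultraK hRpos P
  -- the polynomial on the face
  set Q : Polynomial K := line P (bas K i₁) (fun i => z * bas K i₂ i) with hQdef
  have hQc := line_coeff hP (bas K i₁) (fun i => z * bas K i₂ i)
  have hQ0 : Q ≠ 0 := by
    intro h
    have h3 := hQc.2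
    rw [← hQdef, h, Polynomial.coeff_zero, eval_smul_of_homogeneous hP] at h3
    exact mul_ne_zero (pow_ne_zero _ hz0) h2 h3.symm
  obtain ⟨δ1, c1, hδ1, hc1, hnear⟩ := near_one T.ultraK hQ0
  set m := Q.rootMultiplicity 1 with hm
  have hmd : m ≤ d := by
    classical
    rw [hm, ← Polynomial.count_roots]
    exact (Multiset.count_le_card _ _).trans ((Polynomial.card_roots' _).trans hQc.1)
  have hmμ : m ≤ μ := by
    refine le_trans ?_ hμ
    rw [hm, hQdef, line_scale]
    exact mult_scale hz0 (by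
      intro h
      apply hQ0
      rw [hQdef, line_scale, h, Polynomial.zero_comp])
  set r := rad q p 0 with hr
  have hr0 : 0 < r := rad_pos hq p 0
  have hr1 : r < 1 := rad_lt_one hq hq1 hp2 0
  set r' := max r q with hr'
  have hr'0 : 0 < r' := lt_max_of_lt_left hr0
  have hr'1 : r' < 1 := max_lt hr1 hq1
  obtain ⟨j0, hj0⟩ := exists_pow_lt_of_lt_one hδ1 hq1
  -- the constants
  set W : ℝ := max 1 (R * B / (c1 * r ^ d)) with hW
  have hW1 : 1 ≤ W := le_max_left _ _
  set Lr := Real.log (1 / r') with hLr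
  set Lq := Real.log (1 / q) with hLq
  have hLr0 : 0 < Lr := Real.log_pos (by rw [one_lt_div hr'0]; exact hr'1)
  have hLq0 : 0 < Lq := Real.log_pos (by rw [one_lt_div hq]; exact hq1)
  have hlW : 0 ≤ Real.log W := Real.log_nonneg hW1
  set C : ℝ := max ((p : ℝ) ^ j0) ((Lq + Real.log W + d * Lq) / Lr) with hC
  have hpR : (1 : ℝ) ≤ p := by exact_mod_cast hp.out.pos
  refine ⟨min (A0 / 2) (min (c1 * r ^ μ / (2 * R ^ d)) (T.absK z * r)), C, by positivity,
    lt_of_lt_of_le (by positivity) (le_max_left _ _), ?_⟩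
  intro j D ε g hε hεc hD hg htube hζ
  obtain ⟨ζ, hζ, hζz⟩ := hζ
  have hDR : (1 : ℝ) ≤ D := by exact_mod_cast hD
  have hqj0 : 0 < q ^ j := by positivity
  have hqj1 : q ^ j ≤ 1 := pow_le_one₀ hq.le hq1.le
  have hqdj : q ^ (μ * j) ≤ 1 := pow_le_one₀ hq.le hq1.le
  -- small `j`
  rcases lt_or_ge j j0 with hjj | hjj
  · have h3 : (p : ℝ) ^ j ≤ (p : ℝ) ^ j0 := pow_le_pow_right₀ hpR hjj.le
    have h4 : (p : ℝ) ^ j0 ≤ C := le_max_left _ _
    have h5 : (1 : ℝ) ≤ (j + 1) * D := by nlinarith [show (0 : ℝ) ≤ j from by positivity]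
    have h6 : 0 ≤ C := le_trans (by positivity) h4
    calc (p : ℝ) ^ j ≤ C := h3.trans h4
      _ ≤ C * ((j + 1) * D) := le_mul_of_one_le_right h6 h5
      _ = C * (j + 1) * D := by ring
  have hc_1 : ε < A0 := by
    have h3 : ε ≤ A0 / 2 := hεc.trans ((mul_le_of_le_one_right (by positivity) hqdj).trans
      (min_le_left _ _))
    linarith
  have hc_2 : ε * R ^ d < c1 * (q ^ j * r) ^ m := by
    have h3 : ε ≤ c1 * r ^ μ / (2 * R ^ d) * q ^ (μ * j) :=
      hεc.trans (mul_le_mul_of_nonneg_right ((min_le_right _ _).trans (min_le_left _ _))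
        (by positivity))
    have h4 : ε * R ^ d ≤ c1 * (q ^ j * r) ^ μ / 2 := by
      calc ε * R ^ d ≤ c1 * r ^ μ / (2 * R ^ d) * q ^ (μ * j) * R ^ d :=
            mul_le_mul_of_nonneg_right h3 (by positivity)
        _ = c1 * (q ^ j * r) ^ μ / 2 := by
            rw [mul_pow, ← pow_mul, mul_comm j μ]
            field_simp
    have h5 : (q ^ j * r) ^ μ ≤ (q ^ j * r) ^ m :=
      pow_le_pow_of_le_one (by positivity) (mul_le_one₀ hqj1 hr0.le hr1.le) hmμ
    have h6 : 0 < c1 * (q ^ j * r) ^ μ := by positivity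
    have h7 : c1 * (q ^ j * r) ^ μ ≤ c1 * (q ^ j * r) ^ m := mul_le_mul_of_nonneg_left h5 hc1.le
    linarith
  have hc_3 : T.absK ((T.sharp ζ - z) / z) ≤ q ^ j * r := by
    rw [map_div₀, div_le_iff₀ hzp]
    refine hζz.trans ?_
    calc _ ≤ (T.absK z * r) * q ^ j :=
          mul_le_mul_of_nonneg_right ((min_le_right _ _).trans (min_le_right _ _)) hqj0.le
      _ = q ^ j * r * T.absK z := by ring
  -- the lift
  obtain ⟨l0, hl0, hl01, hl02⟩ := near_lift T hr0.le hr1.le j (by rw [hqdef] at hc_3; exact hc_3)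
  rw [← hqdef] at hl02
  have hx : 1 + (T.sharp ζ - z) / z = T.sharp ζ / z := by field_simp; ring
  rw [hx] at hl0
  have hζ0 : T.sharp ζ ≠ 0 := by
    intro h
    rw [h, zero_sub, neg_div, div_self hz0, AbsoluteValue.map_neg, map_one] at hc_3
    have h3 : q ^ j * r < 1 := mul_lt_one_of_nonneg_of_lt_one_right hqj1 hr0.le hr1
    linarith
  have hl00 : l0 ≠ 0 := by
    rintro rfl
    rw [T.sharp_zero] at hl0
    exact div_ne_zero hζ0 hz0 hl0.symm
  obtain ⟨ζ1, hζ1⟩ : ∃ ζ1, ζ1 * l0 = ζ := ⟨ζ / l0, div_mul_cancel₀ _ hl00⟩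
  have hζ1z : T.sharp ζ1 = z := by
    have h3 : T.sharp ζ1 * T.sharp l0 = T.sharp ζ := by rw [← map_mul, hζ1]
    rw [hl0] at h3
    field_simp at h3
    exact h3
  have hζ1a : T.absF ζ1 ≤ ρ := by
    rw [← T.abs_sharp, hζ1z]
    exact le_max_right _ _
  -- the points
  have hsharp : ∀ (l s : F) (i : ι), T.sharp (bas F i₁ i + ζ1 * l * bas F i₂ i + bas F i₀ i * s) =
      bas K i₁ i + z * T.sharp l * bas K i₂ i + bas K i₀ i * T.sharp s := by
    intro l s i
    unfold bas
    by_cases hi0 : i = i₀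
    · subst hi0
      simp [h01, h02]
    · by_cases hi1 : i = i₁
      · subst hi1
        simp [hi0, h12]
      · by_cases hi2 : i = i₂
        · subst hi2
          simp [hi0, hi1, hζ1z]
        · simp [hi0, hi1, hi2, T.sharp_zero]
  have hnormF : ∀ (l : F), T.absF l ≤ 1 → ∀ i, T.absF (bas F i₁ i + ζ1 * l * bas F i₂ i) ≤ ρ := by
    intro l hl i
    refine (T.ultraF _ _).trans (max_le ((abs_bas_le _ _).trans hρ1) ?_)
    rw [map_mul, map_mul]
    calc T.absF ζ1 * T.absF l * T.absF (bas F i₂ i) ≤ ρ * 1 * 1 :=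
          mul_le_mul (mul_le_mul hζ1a hl (T.absF.nonneg _) (by positivity)) (abs_bas_le _ _)
            (T.absF.nonneg _) (by positivity)
      _ = ρ := by ring
  have hnormK : ∀ (l : F), T.absF l ≤ 1 → ∀ i,
      T.absK (bas K i₁ i + z * T.sharp l * bas K i₂ i) ≤ ρ := by
    intro l hl i
    refine (T.ultraK _ _).trans (max_le ((abs_bas_le _ _).trans hρ1) ?_)
    rw [map_mul, map_mul, T.abs_sharp]
    calc T.absK z * T.absF l * T.absK (bas K i₂ i) ≤ ρ * 1 * 1 :=
          mul_le_mul (mul_le_mul (le_max_right _ _) hl (T.absF.nonneg _) (by positivity))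
            (abs_bas_le _ _) (T.absK.nonneg _) (by positivity)
      _ = ρ := by ring
  -- the leading coefficient
  have hgE : eval (bas F i₀) g ≠ 0 := by
    intro h
    have h3 := htube _ h 1 (abs_bas_le i₀)
    have h4 : (fun i => T.sharp (bas F i₀ i)) = bas K i₀ := by
      funext i
      unfold bas
      split_ifs
      · exact map_one _
      · exact T.sharp_zero
    rw [h4, one_pow, mul_one] at h3
    linarith
  have hgEp : 0 < T.absF (eval (bas F i₀) g) := T.absF.pos hgE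
  have hlead : ∀ l, (line g (fun i => bas F i₁ i + ζ1 * l * bas F i₂ i) (bas F i₀)).natDegree = D ∧
      (line g (fun i => bas F i₁ i + ζ1 * l * bas F i₂ i) (bas F i₀)).leadingCoeff =
        eval (bas F i₀) g := by
    intro l
    obtain ⟨h3, h4⟩ := line_coeff hg (fun i => bas F i₁ i + ζ1 * l * bas F i₂ i) (bas F i₀)
    have h5 : (line g (fun i => bas F i₁ i + ζ1 * l * bas F i₂ i) (bas F i₀)).natDegree = D :=
      le_antisymm h3 (Polynomial.le_natDegree_of_ne_zero (by rw [h4]; exact hgE))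
    exact ⟨h5, by rw [Polynomial.leadingCoeff, h5, h4]⟩
  have hrootR : ∀ l, T.absF l ≤ 1 → ∀ s,
      (line g (fun i => bas F i₁ i + ζ1 * l * bas F i₂ i) (bas F i₀)).eval s = 0 →
        T.absF s ≤ R := by
    intro l hl s hs
    by_contra hsR
    push Not at hsR
    rw [line_eval] at hs
    have h3 := htube _ hs (T.absF s) (fun i => (T.ultraF _ _).trans (max_le ((hnormF l hl i).trans
      (hρR.trans hsR.le)) (by
        rw [map_mul]
        exact mul_le_of_le_one_left (T.absF.nonneg _) (abs_bas_le _ _))))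
    have h4 : (fun i => T.sharp (bas F i₁ i + ζ1 * l * bas F i₂ i + bas F i₀ i * s)) =
        fun i => (bas K i₁ i + z * T.sharp l * bas K i₂ i) + bas K i₀ i * T.sharp s :=
      funext fun i => hsharp l s i
    rw [h4, hfar (T.sharp s) _ ρ (hnormK l hl) (by rw [T.abs_sharp, ← hR]; exact hsR),
      T.abs_sharp] at h3
    have h5 : 0 < T.absF s ^ d := pow_pos (hRpos.trans hsR) d
    have h6 := le_of_mul_le_mul_right h3 h5
    linarith
  -- the polynomial on the face
  let f : Polynomial F := line g (bas F i₁) (fun i => ζ1 * bas F i₂ i)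
  have hf : ∀ l, f.eval l =
      (line g (fun i => bas F i₁ i + ζ1 * l * bas F i₂ i) (bas F i₀)).eval 0 := by
    intro l
    simp only [f]
    rw [line_eval, line_eval]
    congr 2
    funext i
    ring
  have hfM : ∀ x, T.absF x ≤ 1 → T.absF (f.eval x) ≤ T.absF (eval (bas F i₀) g) * R ^ D := by
    intro x hx
    have h3 := prod_le_of_roots (a := T.absF) hRpos.le (hrootR x hx)
    rwa [(hlead x).1, (hlead x).2, ← hf] at h3
  have hf0 : f.eval l0 = 0 := by
    simp only [f]
    rw [line_eval, ← hζ]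
    congr 2
    funext i
    rw [← hζ1]
    ring
  -- the point `l`
  obtain ⟨x, hx⟩ := exists_rad T.toTiltPair 0
  obtain ⟨l, hl1, hl2, hl3⟩ := exists_point T hr0 hr1 (x := x) (by rw [hx, hr, hqdef])
    (by rw [← hqdef]; exact lt_rad_pow hq hq1 hp2 0)
    (by rw [← hqdef]; exact rad_pow_lt hq hq1 hp2 0) j
  rw [← hqdef] at hl3
  set η : ℝ := (q ^ j * r) ^ m with hη
  have hη0 : 0 < η := by positivity
  have hrootL : ∀ s, (line g (fun i => bas F i₁ i + ζ1 * l * bas F i₂ i) (bas F i₀)).eval s = 0 →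
      c1 * η / B ≤ T.absF s := by
    intro s hs
    have hsR := hrootR l hl1 s hs
    rw [line_eval] at hs
    have h3 := htube _ hs R (fun i => (T.ultraF _ _).trans (max_le ((hnormF l hl1 i).trans
      hρR) (by
        rw [map_mul]
        exact (mul_le_of_le_one_left (T.absF.nonneg _) (abs_bas_le _ _)).trans hsR)))
    have h4 : (fun i => T.sharp (bas F i₁ i + ζ1 * l * bas F i₂ i + bas F i₀ i * s)) =
        fun i => (bas K i₁ i + z * T.sharp l * bas K i₂ i) + bas K i₀ i * T.sharp s :=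
      funext fun i => hsharp l s i
    rw [h4] at h3
    have hs0 : ∀ i, T.absK (bas K i₀ i * T.sharp s) ≤ T.absF s := fun i => by
      rw [map_mul, T.abs_sharp]
      exact mul_le_of_le_one_left (T.absF.nonneg _) (abs_bas_le _ _)
    have h5 := hLip (fun i => (bas K i₁ i + z * T.sharp l * bas K i₂ i) + bas K i₀ i * T.sharp s)
      (fun i => bas K i₁ i + z * T.sharp l * bas K i₂ i)
      (fun i => (T.ultraK _ _).trans (max_le ((hnormK l hl1 i).trans hρR) ((hs0 i).trans hsR)))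
      (fun i => (hnormK l hl1 i).trans hρR) (T.absF s) (T.absF.nonneg _)
      (fun i => by rw [add_sub_cancel_left]; exact hs0 i)
    have h6 : eval (fun i => bas K i₁ i + z * T.sharp l * bas K i₂ i) P = Q.eval (T.sharp l) := by
      rw [hQdef, line_eval]
      congr 2
      funext i
      ring
    have h7 : T.absK (Q.eval (T.sharp l)) = c1 * η := by
      rw [hnear _ (by
        rw [hl3]
        refine le_trans ?_ hj0.le
        calc q ^ j * r ≤ q ^ j := mul_le_of_le_one_right hqj0.le hr1.le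
          _ ≤ q ^ j0 := pow_le_pow_of_le_one hq.le hq1.le hjj), hl3]
    rw [h6] at h5
    have h8 : c1 * η ≤ max (ε * R ^ d) (B * T.absF s) := by
      rw [← h7]
      have h9 : Q.eval (T.sharp l) = eval (fun i => (bas K i₁ i + z * T.sharp l * bas K i₂ i) +
          bas K i₀ i * T.sharp s) P - (eval (fun i => (bas K i₁ i + z * T.sharp l * bas K i₂ i) +
          bas K i₀ i * T.sharp s) P - Q.eval (T.sharp l)) := by ring
      rw [h9]
      exact (abs_sub_le' T.ultraK _ _).trans (max_le_max h3 h5)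
    rw [div_le_iff₀ hB, mul_comm (T.absF s)]
    rcases le_max_iff.1 h8 with h9 | h9
    · exact absurd h9 (not_le.2 hc_2)
    · exact h9
  have hlow := le_prod_of_roots (a := T.absF) (show 0 ≤ c1 * η / B by positivity) hrootL
  rw [(hlead l).1, (hlead l).2, ← hf] at hlow
  obtain ⟨ϖ, hϖ⟩ := T.surj (p : K)
  have hϖa : T.absF ϖ = q := by rw [← T.abs_sharp, hϖ, hqdef]
  have hup := schwarz T.ultraF hfM hl01 hf0 hq hq1 hϖa l hl1
  have hll : T.absF (l - l0) ≤ r' ^ p ^ j := by
    have h3 : l - l0 = (l - 1) - (l0 - 1) := by ring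
    rw [h3]
    refine (abs_sub_le' T.ultraF _ _).trans (max_le ?_ hl02)
    rw [hl2]
    exact pow_le_pow_left₀ hr0.le (le_max_left _ _) _
  -- the inequality
  have hmain : (c1 * η / B) ^ D ≤ r' ^ p ^ j / q * R ^ D := by
    have h3 : T.absF (eval (bas F i₀) g) * (c1 * η / B) ^ D ≤
        T.absF (eval (bas F i₀) g) * (r' ^ p ^ j / q * R ^ D) := by
      refine hlow.trans (hup.trans ?_)
      calc T.absF (l - l0) / q * (T.absF (eval (bas F i₀) g) * R ^ D)
          ≤ r' ^ p ^ j / q * (T.absF (eval (bas F i₀) g) * R ^ D) :=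
            mul_le_mul_of_nonneg_right (div_le_div_of_nonneg_right hll hq.le) (by positivity)
        _ = _ := by ring
    exact le_of_mul_le_mul_left h3 hgEp
  have hmain2 : (1 / r') ^ p ^ j ≤ 1 / q * (W * (1 / q) ^ (d * j)) ^ D := by
    have h3 : R * B / (c1 * η) ≤ W * (1 / q) ^ (d * j) := by
      have h4 : c1 * (q ^ j * r) ^ d ≤ c1 * η :=
        mul_le_mul_of_nonneg_left (pow_le_pow_of_le_one (by positivity)
          (mul_le_one₀ hqj1 hr0.le hr1.le) hmd) hc1.le
      calc R * B / (c1 * η) ≤ R * B / (c1 * (q ^ j * r) ^ d) :=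
            div_le_div_of_nonneg_left (by positivity) (by positivity) h4
        _ = R * B / (c1 * r ^ d) * (1 / q) ^ (d * j) := by
            rw [mul_pow, ← pow_mul, mul_comm j d, one_div, inv_pow]
            field_simp
        _ ≤ W * (1 / q) ^ (d * j) :=
            mul_le_mul_of_nonneg_right (le_max_right _ _) (by positivity)
    have h4 : (1 : ℝ) / r' ^ p ^ j ≤ 1 / q * (R * B / (c1 * η)) ^ D := by
      have h5 : (R * B / (c1 * η)) ^ D = R ^ D / (c1 * η / B) ^ D := by
        rw [← div_pow]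
        congr 1
        field_simp
      rw [h5]
      have h6 : 0 < (c1 * η / B) ^ D := by positivity
      have h7 : 0 < r' ^ p ^ j := by positivity
      rw [div_le_iff₀ h7]
      calc (1 : ℝ) = 1 / (c1 * η / B) ^ D * (c1 * η / B) ^ D := by field_simp
        _ ≤ 1 / (c1 * η / B) ^ D * (r' ^ p ^ j / q * R ^ D) :=
            mul_le_mul_of_nonneg_left hmain (by positivity)
        _ = 1 / q * (R ^ D / (c1 * η / B) ^ D) * r' ^ p ^ j := by ring
    rw [one_div_pow]
    refine h4.trans (mul_le_mul_of_nonneg_left (pow_le_pow_left₀ (by positivity) h3 _)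
      (by positivity))
  have hlog := Real.log_le_log (by positivity) hmain2
  rw [Real.log_pow, Real.log_mul (by positivity) (by positivity), Real.log_pow,
    Real.log_mul (by positivity) (by positivity), Real.log_pow] at hlog
  push_cast at hlog
  have hfin : (p : ℝ) ^ j * Lr ≤ (Lq + Real.log W + d * Lq) * (j + 1) * D := by
    have hj0' : (0 : ℝ) ≤ j := by positivity
    have hjD : (1 : ℝ) ≤ (j + 1) * D := by nlinarith
    have hd0 : (0 : ℝ) ≤ d := by positivity
    have h3 : Lq ≤ Lq * ((j + 1) * D) := le_mul_of_one_le_right hLq0.le hjD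
    have h4 : D * Real.log W ≤ Real.log W * ((j + 1) * D) := by
      have : 0 ≤ Real.log W * (j * D) := by positivity
      nlinarith
    have h5 : D * (d * j * Lq) ≤ d * Lq * ((j + 1) * D) := by
      have : 0 ≤ d * Lq * D := by positivity
      nlinarith
    calc (p : ℝ) ^ j * Lr ≤ Lq + D * (Real.log W + d * j * Lq) := hlog
      _ = Lq + D * Real.log W + D * (d * j * Lq) := by ring
      _ ≤ Lq * ((j + 1) * D) + Real.log W * ((j + 1) * D) + d * Lq * ((j + 1) * D) := by linarith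
      _ = _ := by ring
  have hfin2 : (p : ℝ) ^ j ≤ (Lq + Real.log W + d * Lq) / Lr * (j + 1) * D := by
    rw [div_mul_eq_mul_div, div_mul_eq_mul_div, le_div_iff₀ hLr0]
    exact hfin
  refine hfin2.trans ?_
  have h3 : (Lq + Real.log W + d * Lq) / Lr ≤ C := le_max_right _ _
  have h4 : (0 : ℝ) ≤ (j + 1) * D := by positivity
  calc (Lq + Real.log W + d * Lq) / Lr * (j + 1) * D =
        (Lq + Real.log W + d * Lq) / Lr * ((j + 1) * D) := by ring
    _ ≤ C * ((j + 1) * D) := mul_le_mul_of_nonneg_right h3 h4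
    _ = C * (j + 1) * D := by ring

theorem growth_mult (T : Tilting p K F) {P : MvPolynomial ι K} {d μ : ℕ} (hd : 0 < d)
    (hP : P.IsHomogeneous d) {i₀ i₁ i₂ : ι} (h01 : i₀ ≠ i₁) (h02 : i₀ ≠ i₂) (h12 : i₁ ≠ i₂)
    (h0 : eval (bas K i₀) P ≠ 0) (h1 : eval (bas K i₁) P ≠ 0) (h2 : eval (bas K i₂) P ≠ 0)
    (hμ : ∀ z, (line P (bas K i₁) (bas K i₂)).rootMultiplicity z ≤ μ) :
    ∃ c C : ℝ, 0 < c ∧ 0 < C ∧ ∀ (j D : ℕ) (ε : ℝ) (g : MvPolynomial ι F), 0 ≤ ε →
      ε ≤ c * T.absK p ^ (μ * j) → 0 < D → g.IsHomogeneous D →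
      (∀ y, eval y g = 0 → T.InTube P d ε y) → (p : ℝ) ^ j ≤ C * (j + 1) * D := by
  classical
  have hq : 0 < T.absK p := T.absK.pos T.p_ne
  have hq1 := T.p_lt
  set Q : Polynomial K := line P (bas K i₁) (bas K i₂) with hQdef
  have hQc := line_coeff hP (bas K i₁) (bas K i₂)
  rw [← hQdef] at hQc
  have hQd : Q.natDegree = d :=
    le_antisymm hQc.1 (Polynomial.le_natDegree_of_ne_zero (by rw [hQc.2]; exact h2))
  have hQl : Q.leadingCoeff = eval (bas K i₂) P := by rw [Polynomial.leadingCoeff, hQd, hQc.2]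
  -- the constants for the roots
  have key : ∀ z : {z // z ∈ Q.roots.toFinset}, ∃ c C : ℝ, 0 < c ∧ 0 < C ∧
      ∀ (j D : ℕ) (ε : ℝ) (g : MvPolynomial ι F), 0 ≤ ε →
      ε ≤ c * T.absK p ^ (μ * j) → 0 < D → g.IsHomogeneous D →
      (∀ y, eval y g = 0 → T.InTube P d ε y) →
      (∃ ζ : F, eval (fun i => bas F i₁ i + bas F i₂ i * ζ) g = 0 ∧
        T.absK (T.sharp ζ - z.1) ≤ c * T.absK p ^ j) → (p : ℝ) ^ j ≤ C * (j + 1) * D := fun z =>
    growth_at_mult T hP h01 h02 h12 h0 h1 h2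
      (Polynomial.mem_roots'.1 (Multiset.mem_toFinset.1 z.2)).2 (hμ z.1)
  choose cz Cz hcz hCz hz using key
  obtain ⟨c₀, hc₀, hc₀2⟩ := exists_pos_le cz hcz
  set c' : ℝ := min c₀ 1 with hc'def
  have hc' : 0 < c' := lt_min hc₀ one_pos
  have hc'1 : c' ≤ 1 := min_le_right _ _
  have hc'2 : ∀ z, c' ≤ cz z := fun z => (min_le_left _ _).trans (hc₀2 z)
  have hQne : Q ≠ 0 := by
    rintro h
    rw [h, Polynomial.natDegree_zero] at hQd
    omega
  -- the expansion near the roots
  have near : ∀ z : {z // z ∈ Q.roots.toFinset}, ∃ δ κ : ℝ, 0 < δ ∧ 0 < κ ∧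
      ∀ x : K, T.absK (x - z.1) ≤ δ →
        T.absK (Q.eval x) = κ * T.absK (x - z.1) ^ Q.rootMultiplicity z.1 := by
    intro z
    exact near_root T.ultraK hQne z.1
  choose δz κz hδz hκz hnear using near
  obtain ⟨δ', hδ', hδ'2⟩ := exists_pos_le δz hδz
  obtain ⟨κ', hκ', hκ'2⟩ := exists_pos_le κz hκz
  set C : ℝ := 1 + ∑ z, Cz z with hC
  have hCsum : 0 ≤ ∑ z, Cz z := Finset.sum_nonneg fun z _ => (hCz z).le
  obtain ⟨R, hR1, hfar⟩ := far T.ultraK hP (bas K i₂) (abs_bas_le i₂) h2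
  have hRpos : 0 < R := by linarith
  set A0 := T.absK (eval (bas K i₀) P) with hA0
  set A2 := T.absK (eval (bas K i₂) P) with hA2
  have hA0p : 0 < A0 := T.absK.pos h0
  have hA2p : 0 < A2 := T.absK.pos h2
  refine ⟨min (min (A0 / 2) (A2 / 2)) (min c' (min (A2 * δ' ^ d / R ^ d) (κ' * c' ^ μ / R ^ d))), C,
    by positivity, by positivity, ?_⟩
  intro j D ε g hε hεc hD hg htube
  have hqdj : T.absK p ^ (μ * j) ≤ 1 := pow_le_one₀ hq.le hq1.le
  have hqdj0 : 0 < T.absK p ^ (μ * j) := by positivity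
  have hε2 : ε < A2 := by
    have h3 : ε ≤ A2 / 2 := hεc.trans ((mul_le_of_le_one_right (by positivity) hqdj).trans
      ((min_le_left _ _).trans (min_le_right _ _)))
    linarith
  have hbas : ∀ i : ι, (fun k => T.sharp (bas F i k)) = bas K i := by
    intro i
    funext k
    unfold bas
    split_ifs
    · exact map_one _
    · exact T.sharp_zero
  have hg2 : eval (bas F i₂) g ≠ 0 := by
    intro h
    have h3 := htube _ h 1 (abs_bas_le i₂)
    rw [hbas, one_pow, mul_one] at h3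
    linarith
  have hgc := line_coeff hg (bas F i₁) (bas F i₂)
  obtain ⟨ζ, hζ⟩ : ∃ ζ, (line g (bas F i₁) (bas F i₂)).eval ζ = 0 := by
    refine IsAlgClosed.exists_root _ ?_
    intro h
    have h3 : (line g (bas F i₁) (bas F i₂)).natDegree = 0 :=
      Polynomial.natDegree_eq_of_degree_eq_some h
    have h4 : D ≤ (line g (bas F i₁) (bas F i₂)).natDegree :=
      Polynomial.le_natDegree_of_ne_zero (by rw [hgc.2]; exact hg2)
    omega
  rw [line_eval] at hζ
  have hpt : (fun i => T.sharp (bas F i₁ i + bas F i₂ i * ζ)) =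
      fun i => bas K i₁ i + bas K i₂ i * T.sharp ζ := by
    funext i
    unfold bas
    by_cases hi1 : i = i₁
    · subst hi1
      simp [h12]
    · by_cases hi2 : i = i₂
      · subst hi2
        simp [hi1]
      · simp [hi1, hi2, T.sharp_zero]
  have hnorm : ∀ B : ℝ, 1 ≤ B → T.absF ζ ≤ B → ∀ i,
      T.absF (bas F i₁ i + bas F i₂ i * ζ) ≤ B := by
    intro B hB1 hB2 i
    refine (T.ultraF _ _).trans (max_le ((abs_bas_le _ _).trans hB1) ?_)
    rw [map_mul]
    exact (mul_le_of_le_one_left (T.absF.nonneg _) (abs_bas_le _ _)).trans hB2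
  have hζR : T.absF ζ ≤ R := by
    by_contra hlt
    push Not at hlt
    have h3 := htube _ hζ (T.absF ζ) (hnorm _ (hR1.trans hlt.le) le_rfl)
    rw [hpt, hfar (T.sharp ζ) _ 1 (abs_bas_le i₁) (by rw [T.abs_sharp, mul_one]; exact hlt),
      T.abs_sharp] at h3
    have h5 : 0 < T.absF ζ ^ d := pow_pos (hRpos.trans hlt) d
    have h6 := le_of_mul_le_mul_right h3 h5
    linarith
  have h3 := htube _ hζ R (hnorm _ hR1 hζR)
  rw [hpt, ← line_eval, ← hQdef] at h3
  have hc'q : 0 ≤ c' * T.absK p ^ j := by positivity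
  obtain ⟨z, hzr, hzδ⟩ := exists_close_root (a := T.absK) (f := Q) (by rw [hQd]; exact hd)
    (x := T.sharp ζ) hδ'.le (by
      refine h3.trans ?_
      rw [hQl, hQd, ← hA2]
      have h4 : ε ≤ A2 * δ' ^ d / R ^ d * T.absK p ^ (μ * j) :=
        hεc.trans (mul_le_mul_of_nonneg_right ((min_le_right _ _).trans ((min_le_right _ _).trans
          (min_le_left _ _))) hqdj0.le)
      calc ε * R ^ d ≤ A2 * δ' ^ d / R ^ d * T.absK p ^ (μ * j) * R ^ d :=
            mul_le_mul_of_nonneg_right h4 (by positivity)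
        _ = A2 * δ' ^ d * T.absK p ^ (μ * j) := by field_simp
        _ ≤ A2 * δ' ^ d * 1 := mul_le_mul_of_nonneg_left hqdj (by positivity)
        _ = A2 * δ' ^ d := mul_one _)
  have hzc : T.absK (T.sharp ζ - z) ≤ c' * T.absK p ^ j := by
    have hzf : z ∈ Q.roots.toFinset := Multiset.mem_toFinset.2 hzr
    have h4 := hnear ⟨z, hzf⟩ (T.sharp ζ) (hzδ.trans (hδ'2 ⟨z, hzf⟩))
    have h5 : ε * R ^ d ≤ κ' * (c' * T.absK p ^ j) ^ μ := by
      have h6 : ε ≤ κ' * c' ^ μ / R ^ d * T.absK p ^ (μ * j) :=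
        hεc.trans (mul_le_mul_of_nonneg_right ((min_le_right _ _).trans ((min_le_right _ _).trans
          (min_le_right _ _))) hqdj0.le)
      calc ε * R ^ d ≤ κ' * c' ^ μ / R ^ d * T.absK p ^ (μ * j) * R ^ d :=
            mul_le_mul_of_nonneg_right h6 (by positivity)
        _ = κ' * (c' * T.absK p ^ j) ^ μ := by
            rw [mul_pow, ← pow_mul, mul_comm j μ]
            field_simp
    have hs1 : c' * T.absK p ^ j ≤ 1 := mul_le_one₀ hc'1 (by positivity) (pow_le_one₀ hq.le hq1.le)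
    have h6 : (c' * T.absK p ^ j) ^ μ ≤ (c' * T.absK p ^ j) ^ Q.rootMultiplicity z :=
      pow_le_pow_of_le_one hc'q hs1 (by rw [hQdef]; exact hμ z)
    have h7 : κz ⟨z, hzf⟩ * T.absK (T.sharp ζ - z) ^ Q.rootMultiplicity z ≤
        κz ⟨z, hzf⟩ * (c' * T.absK p ^ j) ^ Q.rootMultiplicity z := by
      rw [← h4]
      refine h3.trans (h5.trans ?_)
      exact (mul_le_mul_of_nonneg_left h6 hκ'.le).trans
        (mul_le_mul_of_nonneg_right (hκ'2 ⟨z, hzf⟩) (by positivity))
    have h8 := le_of_mul_le_mul_left h7 (hκz ⟨z, hzf⟩)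
    have h9 : Q.rootMultiplicity z ≠ 0 :=
      ((Polynomial.rootMultiplicity_pos hQne).2 (Polynomial.mem_roots'.1 hzr).2).ne'
    exact (pow_le_pow_iff_left₀ (T.absK.nonneg _) hc'q h9).1 h8
  set zz : {z // z ∈ Q.roots.toFinset} := ⟨z, Multiset.mem_toFinset.2 hzr⟩ with hzz
  have hmain := hz zz j D ε g hε (hεc.trans (mul_le_mul_of_nonneg_right
    ((min_le_right _ _).trans ((min_le_left _ _).trans (hc'2 zz))) hqdj0.le)) hD hg htube
    ⟨ζ, hζ, hzc.trans (mul_le_mul_of_nonneg_right (hc'2 zz) (by positivity))⟩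
  refine hmain.trans ?_
  have h4 : Cz zz ≤ C := by
    have := Finset.single_le_sum (f := Cz) (fun z _ => (hCz z).le) (Finset.mem_univ zz)
    linarith
  have h5 : (0 : ℝ) ≤ (j + 1) * D := by positivity
  calc Cz zz * (j + 1) * D = Cz zz * ((j + 1) * D) := by ring
    _ ≤ C * ((j + 1) * D) := mul_le_mul_of_nonneg_right h4 h5
    _ = C * (j + 1) * D := by ring

end Pool.Agent.H20.RG
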