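import Pool.Agent.H20.RG.Near

/-!
# The hull of a field with an absolute value

The hull is the field of the bounded sequences modulo the sequences which tend to zero along a fixed
ultrafilter.
-/

set_option autoImplicit false
set_option linter.unusedSectionVars false

namespace Pool.Agent.H20.RG

open Filter Topology

section Hull

variable {L : Type} [Field L]

/-- The ultrafilter. -/
noncomputable def UF : Ultrafilter ℕ := Filter.hyperfilter ℕ

/-- The bounded sequences. -/
def Bd (a : AbsoluteValue L ℝ) : Subring (ℕ → L) where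
  carrier := {x | ∃ C, ∀ m, a (x m) ≤ C}
  mul_mem' := by
    rintro x y ⟨C, hC⟩ ⟨D, hD⟩
    refine ⟨C * D, fun m => ?_⟩
    rw [Pi.mul_apply, map_mul]
    exact mul_le_mul (hC m) (hD m) (a.nonneg _) ((a.nonneg _).trans (hC m))
  one_mem' := ⟨1, fun m => by rw [Pi.one_apply, map_one]⟩
  add_mem' := by
    rintro x y ⟨C, hC⟩ ⟨D, hD⟩
    exact ⟨C + D, fun m => (a.add_le _ _).trans (add_le_add (hC m) (hD m))⟩
  zero_mem' := ⟨0, fun m => by rw [Pi.zero_apply, map_zero]⟩
  neg_mem' := by
    rintro x ⟨C, hC⟩
    exact ⟨C, fun m => by rw [Pi.neg_apply, AbsoluteValue.map_neg]; exact hC m⟩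

variable (a : AbsoluteValue L ℝ)

theorem exists_lim (x : Bd a) : ∃ l : ℝ, Tendsto (fun m => a ((x : ℕ → L) m)) UF (𝓝 l) := by
  obtain ⟨C, hC⟩ := x.2
  have hK : IsCompact (Set.Icc (0 : ℝ) C) := isCompact_Icc
  have h1 : ((UF.map fun m => a ((x : ℕ → L) m) : Ultrafilter ℝ) : Filter ℝ) ≤
      𝓟 (Set.Icc (0 : ℝ) C) := by
    rw [le_principal_iff]
    change ∀ᶠ m in (UF : Filter ℕ), a ((x : ℕ → L) m) ∈ Set.Icc (0 : ℝ) C
    exact Filter.Eventually.of_forall fun m => ⟨a.nonneg _, hC m⟩
  obtain ⟨l, -, hl⟩ := hK.ultrafilter_le_nhds _ h1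
  exact ⟨l, hl⟩

/-- The limit of the absolute values. -/
noncomputable def lam (x : Bd a) : ℝ := Classical.choose (exists_lim a x)

theorem lam_spec (x : Bd a) : Tendsto (fun m => a ((x : ℕ → L) m)) UF (𝓝 (lam a x)) :=
  Classical.choose_spec (exists_lim a x)

theorem lam_eq {x : Bd a} {l : ℝ} (h : Tendsto (fun m => a ((x : ℕ → L) m)) UF (𝓝 l)) :
    lam a x = l := tendsto_nhds_unique (lam_spec a x) h

theorem lam_nonneg (x : Bd a) : 0 ≤ lam a x :=
  ge_of_tendsto' (lam_spec a x) fun _ => a.nonneg _

theorem lam_mul (x y : Bd a) : lam a (x * y) = lam a x * lam a y := by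
  refine lam_eq a (((lam_spec a x).mul (lam_spec a y)).congr fun m => ?_)
  rw [← map_mul]
  rfl

theorem lam_add_le (x y : Bd a) : lam a (x + y) ≤ lam a x + lam a y :=
  le_of_tendsto_of_tendsto' (lam_spec a _) ((lam_spec a x).add (lam_spec a y))
    fun _ => a.add_le _ _

theorem lam_neg (x : Bd a) : lam a (-x) = lam a x := by
  refine lam_eq a ((lam_spec a x).congr fun m => ?_)
  exact (a.map_neg _).symm

theorem lam_zero : lam a 0 = 0 := by
  refine lam_eq a ?_
  have h : (fun m => a (((0 : Bd a) : ℕ → L) m)) = fun _ => 0 := funext fun m => a.map_zero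
  rw [h]
  exact tendsto_const_nhds

/-- The sequences tending to zero. -/
noncomputable def Nul : Ideal (Bd a) where
  carrier := {x | lam a x = 0}
  add_mem' := by
    intro x y hx hy
    have h := lam_add_le a x y
    have hx' : lam a x = 0 := hx
    have hy' : lam a y = 0 := hy
    rw [hx', hy', add_zero] at h
    exact le_antisymm h (lam_nonneg a _)
  zero_mem' := lam_zero a
  smul_mem' := by
    intro c x hx
    change lam a (c * x) = 0
    have hx' : lam a x = 0 := hx
    rw [lam_mul, hx', mul_zero]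

theorem mem_Nul {x : Bd a} : x ∈ Nul a ↔ lam a x = 0 := Iff.rfl

theorem lam_congr {x y : Bd a} (h : x - y ∈ Nul a) : lam a x = lam a y := by
  rw [mem_Nul] at h
  have h1 := lam_add_le a (x - y) y
  have h2 := lam_add_le a (-(x - y)) x
  rw [lam_neg] at h2
  rw [sub_add_cancel, h, zero_add] at h1
  rw [neg_sub, sub_add_cancel, h, zero_add] at h2
  exact le_antisymm h1 h2

instance Nul_max : (Nul a).IsMaximal := by
  rw [Ideal.isMaximal_iff]
  constructor
  · intro h
    rw [mem_Nul] at h
    have h1 : lam a 1 = 1 := by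
      refine lam_eq a ?_
      have h : (fun m => a (((1 : Bd a) : ℕ → L) m)) = fun _ => 1 := funext fun m => a.map_one
      rw [h]
      exact tendsto_const_nhds
    rw [h1] at h
    exact one_ne_zero h
  · intro J x hIJ hx hxJ
    rw [mem_Nul] at hx
    have hpos : 0 < lam a x := lt_of_le_of_ne (lam_nonneg a x) (Ne.symm hx)
    have hev : ∀ᶠ m in (UF : Filter ℕ), lam a x / 2 < a ((x : ℕ → L) m) :=
      (lam_spec a x).eventually (lt_mem_nhds (half_lt_self hpos))
    classical
    let y : ℕ → L := fun m => if lam a x / 2 < a ((x : ℕ → L) m) then ((x : ℕ → L) m)⁻¹ else 0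
    have hy : ∃ C, ∀ m, a (y m) ≤ C := by
      refine ⟨(lam a x / 2)⁻¹, fun m => ?_⟩
      simp only [y]
      split_ifs with h
      · rw [map_inv₀]
        exact inv_anti₀ (half_pos hpos) h.le
      · rw [map_zero]
        have := half_pos hpos
        positivity
    let y' : Bd a := ⟨y, hy⟩
    have h1 : x * y' - 1 ∈ Nul a := by
      rw [mem_Nul]
      refine lam_eq a ?_
      refine (tendsto_const_nhds (x := (0 : ℝ))).congr' ?_
      filter_upwards [hev] with m hm
      have h2 : ((x * y' - 1 : Bd a) : ℕ → L) m = (x : ℕ → L) m * y m - 1 := rfl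
      rw [h2]
      simp only [y]
      rw [if_pos hm, mul_inv_cancel₀, sub_self, map_zero]
      intro h3
      rw [h3, map_zero] at hm
      have := half_pos hpos
      linarith
    have h2 : (1 : Bd a) = x * y' - (x * y' - 1) := by ring
    rw [h2]
    exact J.sub_mem (J.mul_mem_right _ hxJ) (hIJ h1)

/-- The hull. -/
def Hull : Type := Bd a ⧸ Nul a

noncomputable instance : Field (Hull a) := Ideal.Quotient.field (Nul a)

/-- The class of a bounded sequence. -/
noncomputable def cl : Bd a →+* Hull a := Ideal.Quotient.mk (Nul a)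

theorem cl_surj : Function.Surjective (cl a) := Ideal.Quotient.mk_surjective

theorem cl_eq {x y : Bd a} : cl a x = cl a y ↔ x - y ∈ Nul a := Ideal.Quotient.mk_eq_mk_iff_sub_mem x y

theorem cl_eq_zero {x : Bd a} : cl a x = 0 ↔ lam a x = 0 := by
  rw [← map_zero (cl a), cl_eq, sub_zero]
  exact Iff.rfl

/-- A representative. -/
noncomputable def rep (z : Hull a) : Bd a := Classical.choose (cl_surj a z)

theorem cl_rep (z : Hull a) : cl a (rep a z) = z := Classical.choose_spec (cl_surj a z)

/-- The absolute value of the hull. -/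
noncomputable def habs : AbsoluteValue (Hull a) ℝ where
  toFun z := lam a (rep a z)
  map_mul' z w := by
    rw [← lam_mul]
    refine lam_congr a ((cl_eq a).1 ?_)
    rw [map_mul, cl_rep, cl_rep, cl_rep]
  nonneg' z := lam_nonneg a _
  eq_zero' z := by
    rw [← cl_eq_zero, cl_rep]
  add_le' z w := by
    refine le_trans (le_of_eq ?_) (lam_add_le a _ _)
    refine lam_congr a ((cl_eq a).1 ?_)
    rw [map_add, cl_rep, cl_rep, cl_rep]

theorem habs_cl (x : Bd a) : habs a (cl a x) = lam a x :=
  lam_congr a ((cl_eq a).1 (cl_rep a _))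

variable {a}

theorem habs_ultra (ha : ∀ x y, a (x + y) ≤ max (a x) (a y)) (z w : Hull a) :
    habs a (z + w) ≤ max (habs a z) (habs a w) := by
  obtain ⟨x, rfl⟩ := cl_surj a z
  obtain ⟨y, rfl⟩ := cl_surj a w
  rw [← map_add, habs_cl, habs_cl, habs_cl]
  exact le_of_tendsto_of_tendsto' (lam_spec a _) ((lam_spec a x).max (lam_spec a y))
    fun m => ha _ _

/-- The hull of an algebraically closed field is algebraically closed. -/
theorem hull_closed [IsAlgClosed L] (ha : ∀ x y, a (x + y) ≤ max (a x) (a y)) :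
    IsAlgClosed (Hull a) := by
  refine IsAlgClosed.of_exists_root _ fun P hP hirr => ?_
  set n := P.natDegree with hn
  have hn0 : 0 < n := hirr.natDegree_pos
  let c : ℕ → Bd a := fun i => rep a (P.coeff i)
  have hc : ∀ i, cl a (c i) = P.coeff i := fun i => cl_rep a _
  choose B hB using fun i => (c i).2
  -- the polynomials
  let Q : ℕ → Polynomial L := fun m => Polynomial.X ^ n +
    ∑ i ∈ Finset.range n, Polynomial.C ((c i : ℕ → L) m) * Polynomial.X ^ i
  have hdeg : ∀ m, (∑ i ∈ Finset.range n, Polynomial.C ((c i : ℕ → L) m) *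
      (Polynomial.X : Polynomial L) ^ i).degree < n := by
    intro m
    refine (Polynomial.degree_sum_le _ _).trans_lt ?_
    rw [Finset.sup_lt_iff (by exact WithBot.bot_lt_coe n)]
    intro i hi
    rw [Finset.mem_range] at hi
    refine (Polynomial.degree_C_mul_X_pow_le _ _).trans_lt ?_
    exact_mod_cast hi
  have hQdeg : ∀ m, (Q m).degree = n := by
    intro m
    simp only [Q]
    rw [Polynomial.degree_add_eq_left_of_degree_lt]
    · exact Polynomial.degree_X_pow n
    · rw [Polynomial.degree_X_pow]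
      exact hdeg m
  have hroot : ∀ m, ∃ x, (Q m).eval x = 0 := fun m =>
    IsAlgClosed.exists_root _ (by rw [hQdeg]; exact_mod_cast hn0.ne')
  choose x hx using hroot
  have hev : ∀ m, x m ^ n = - ∑ i ∈ Finset.range n, (c i : ℕ → L) m * x m ^ i := by
    intro m
    have h1 := hx m
    simp only [Q] at h1
    rw [Polynomial.eval_add, Polynomial.eval_pow, Polynomial.eval_X, Polynomial.eval_finsetSum] at h1
    simp only [Polynomial.eval_mul, Polynomial.eval_C, Polynomial.eval_pow, Polynomial.eval_X] at h1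
    linear_combination h1
  set C : ℝ := 1 + ∑ i ∈ Finset.range n, |B i| with hC
  have hCs : ∀ i ∈ Finset.range n, B i ≤ C := by
    intro i hi
    have h1 := Finset.single_le_sum (f := fun i => |B i|) (fun i _ => abs_nonneg _) hi
    have h2 := le_abs_self (B i)
    linarith
  have hC1 : 1 ≤ C := by
    have : 0 ≤ ∑ i ∈ Finset.range n, |B i| := Finset.sum_nonneg fun i _ => abs_nonneg _
    linarith
  have hxC : ∀ m, a (x m) ≤ C := by
    intro m
    by_contra h
    push Not at h
    have h1 : a (x m ^ n) ≤ C * a (x m) ^ (n - 1) := by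
      rw [hev m, AbsoluteValue.map_neg]
      refine Pool.Agent.K7.H6.PT.ultra_sum' ha _ _ (by positivity) fun i hi => ?_
      rw [map_mul, map_pow]
      refine mul_le_mul ((hB i m).trans (hCs i hi)) ?_ (by positivity) (by linarith)
      rw [Finset.mem_range] at hi
      exact pow_le_pow_right₀ (hC1.trans h.le) (by omega)
    rw [map_pow] at h1
    have h2 : a (x m) ^ n = a (x m) * a (x m) ^ (n - 1) := by
      rw [← pow_succ']
      congr 1
      omega
    rw [h2] at h1
    have h3 : 0 < a (x m) ^ (n - 1) := pow_pos (by linarith) _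
    exact absurd (le_of_mul_le_mul_right h1 h3) (not_le.2 h)
  let x' : Bd a := ⟨x, C, hxC⟩
  refine ⟨cl a x', ?_⟩
  have h1 : x' ^ n + ∑ i ∈ Finset.range n, c i * x' ^ i = 0 := by
    refine Subtype.ext (funext fun m => ?_)
    have h2 := hev m
    have h3 : ((x' ^ n + ∑ i ∈ Finset.range n, c i * x' ^ i : Bd a) : ℕ → L) m =
        x m ^ n + ∑ i ∈ Finset.range n, (c i : ℕ → L) m * x m ^ i := by
      push_cast
      rw [Pi.add_apply, Pi.pow_apply, Finset.sum_apply]
      rfl
    rw [h3, h2, neg_add_cancel]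
    rfl
  have h2 := congrArg (cl a) h1
  rw [map_add, map_pow, map_sum, map_zero] at h2
  rw [hP.as_sum, Polynomial.eval_add, Polynomial.eval_pow, Polynomial.eval_X,
    Polynomial.eval_finsetSum, ← h2, ← hn]
  congr 1
  refine Finset.sum_congr rfl fun i _ => ?_
  rw [Polynomial.eval_mul, Polynomial.eval_C, Polynomial.eval_pow, Polynomial.eval_X, map_mul,
    map_pow, hc]

/-- The constant sequences. -/
noncomputable def cst (a : AbsoluteValue L ℝ) : L →+* Bd a where
  toFun x := ⟨fun _ => x, a x, fun _ => le_rfl⟩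
  map_one' := rfl
  map_mul' _ _ := rfl
  map_zero' := rfl
  map_add' _ _ := rfl

end Hull

end Pool.Agent.H20.RG
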