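import Pool.Agent.H20.RG.Line

/-!
# Degrees of the hypersurfaces close to a hyperplane: the lower bound
-/

set_option autoImplicit false
set_option linter.unusedSectionVars false

namespace Pool.Agent.H20.RG

open MvPolynomial Pool.Agent.Y129.TA
open Pool.Agent.K7.H6.PT (abs_sub_le')

variable {p : ℕ} [hp : Fact p.Prime] {K F : Type} [Field K] [Field F] [CharP F p]
  [IsAlgClosed K] [IsAlgClosed F] {ι : Type} [Fintype ι]

/-- The linear form. -/
noncomputable def linForm (a : ι → K) : MvPolynomial ι K := ∑ i, C (a i) * X i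

theorem eval_linForm (a x : ι → K) : eval x (linForm a) = ∑ i, a i * x i := by
  unfold linForm
  rw [map_sum]
  exact Finset.sum_congr rfl fun i _ => by rw [map_mul, eval_C, eval_X]

/-- Hypersurfaces in a small tube of a hyperplane have degree divisible by a power of `p`. -/
theorem hyper_lower (T : Tilting p K F) (a : ι → K) {i₀ i₁ i₂ : ι}
    (h01 : i₀ ≠ i₁) (h02 : i₀ ≠ i₂) (h12 : i₁ ≠ i₂) {δ : ℝ} (hδ : 0 < δ)
    (h0 : δ ≤ T.absK (a i₀)) (h1 : δ ≤ T.absK (a i₁)) (h2 : δ ≤ T.absK (a i₂))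
    {g : MvPolynomial ι F} {D : ℕ} (hg : g.IsHomogeneous D) {ε₀ : ℝ} (hε₀ : 0 ≤ ε₀)
    (htube₀ : ∀ y : ι → F, eval y g = 0 → T.InTube (linForm a) 1 ε₀ y) {j : ℕ}
    (hj₀ : (ε₀ / δ) ^ (p - 1) < T.absK p ^ (j * (p - 1) + 1)) : p ^ j ∣ D := by
  classical
  have hp2 := hp.out.two_le
  have hq : 0 < T.absK p := T.absK.pos T.p_ne
  have hq1 := T.p_lt
  obtain ⟨ε, hεdef⟩ : ∃ ε, ε = ε₀ / δ := ⟨_, rfl⟩
  have hj : ε ^ (p - 1) < T.absK p ^ (j * (p - 1) + 1) := by rw [hεdef]; exact hj₀
  have hε : 0 ≤ ε := by rw [hεdef]; positivity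
  have htube : ∀ y : ι → F, eval y g = 0 → ∀ B : ℝ, (∀ i, T.absF (y i) ≤ δ⁻¹ * B) →
      T.absK (eval (fun i => T.sharp (y i)) (linForm a)) ≤ ε * B := by
    intro y hy B hB
    refine (htube₀ y hy _ hB).trans (le_of_eq ?_)
    rw [hεdef, pow_one]
    field_simp
  have hε1 : ε < 1 := by
    by_contra h
    push Not at h
    have h3 : (1 : ℝ) ≤ ε ^ (p - 1) := one_le_pow₀ h
    have h4 : T.absK p ^ (j * (p - 1) + 1) ≤ 1 := pow_le_one₀ hq.le hq1.le
    linarith
  rcases Nat.eq_zero_or_pos D with hD0 | hD0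
  · rw [hD0]
    exact dvd_zero _
  obtain ⟨α₀, hα₀⟩ := T.surj (a i₀)
  obtain ⟨α₁, hα₁⟩ := T.surj (a i₁)
  obtain ⟨α₂, hα₂⟩ := T.surj (a i₂)
  obtain ⟨ω, hω⟩ := T.surj (-1)
  have b0' : δ ≤ T.absF α₀ := by rw [← T.abs_sharp, hα₀]; exact h0
  have b1' : δ ≤ T.absF α₁ := by rw [← T.abs_sharp, hα₁]; exact h1
  have b2' : δ ≤ T.absF α₂ := by rw [← T.abs_sharp, hα₂]; exact h2
  have b0 : (T.absF α₀)⁻¹ ≤ δ⁻¹ := inv_anti₀ hδ b0'
  have b1 : (T.absF α₁)⁻¹ ≤ δ⁻¹ := inv_anti₀ hδ b1'
  have b2 : (T.absF α₂)⁻¹ ≤ δ⁻¹ := inv_anti₀ hδ b2'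
  have bω : T.absF ω = 1 := by rw [← T.abs_sharp, hω, AbsoluteValue.map_neg, map_one]
  have n0 : α₀ ≠ 0 := fun h => by rw [h, map_zero] at b0'; exact absurd hδ (not_lt.2 b0')
  have n1 : α₁ ≠ 0 := fun h => by rw [h, map_zero] at b1'; exact absurd hδ (not_lt.2 b1')
  have n2 : α₂ ≠ 0 := fun h => by rw [h, map_zero] at b2'; exact absurd hδ (not_lt.2 b2')
  have hδi : 0 < δ⁻¹ := by positivity
  let u : F → ι → F := fun l i => if i = i₀ then α₀⁻¹ else if i = i₁ then ω * α₁⁻¹ * l else 0
  let v : ι → F := fun i => if i = i₂ then α₂⁻¹ else 0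
  have sinv : ∀ {x : F}, x ≠ 0 → T.sharp x * T.sharp x⁻¹ = 1 := fun hx => by
    rw [← map_mul, mul_inv_cancel₀ hx, map_one]
  -- the value of the linear form
  have hval : ∀ l s : F, eval (fun i => T.sharp (u l i + v i * s)) (linForm a) =
      1 - T.sharp l + T.sharp s := by
    intro l s
    rw [eval_linForm]
    have hsub : ∑ i, a i * T.sharp (u l i + v i * s) =
        ∑ i ∈ ({i₀, i₁, i₂} : Finset ι), a i * T.sharp (u l i + v i * s) := by
      symm
      apply Finset.sum_subset (Finset.subset_univ _)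
      intro i _ hi
      simp only [Finset.mem_insert, Finset.mem_singleton, not_or] at hi
      simp only [u, v, if_neg hi.1, if_neg hi.2.1, if_neg hi.2.2, zero_mul, add_zero,
        T.sharp_zero, mul_zero]
    rw [hsub, Finset.sum_insert (by simp [h01, h02]), Finset.sum_insert (by simp [h12]),
      Finset.sum_singleton]
    simp only [u, v, if_pos, if_neg h01.symm, if_neg h02.symm, if_neg h12.symm, if_neg h02,
      if_neg h12, zero_mul, add_zero, zero_add, ↓reduceIte]
    rw [map_mul, map_mul, map_mul, hω, ← hα₀, ← hα₁, ← hα₂, sinv n0]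
    linear_combination (-T.sharp l) * sinv n1 + T.sharp s * sinv n2
  have hnorm : ∀ l s : F, T.absF l ≤ 1 → ∀ i,
      T.absF (u l i + v i * s) ≤ δ⁻¹ * max 1 (T.absF s) := by
    intro l s hl i
    have m0 : (0 : ℝ) ≤ max 1 (T.absF s) := zero_le_one.trans (le_max_left _ _)
    by_cases hi2 : i = i₂
    · subst hi2
      simp only [u, v, if_neg h02.symm, if_neg h12.symm, ↓reduceIte, zero_add, map_mul, map_inv₀]
      exact mul_le_mul b2 (le_max_right _ _) (T.absF.nonneg _) hδi.le
    · simp only [v, if_neg hi2, zero_mul, add_zero]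
      by_cases hi0 : i = i₀
      · simp only [u, if_pos hi0, map_inv₀]
        exact b0.trans (le_mul_of_one_le_right hδi.le (le_max_left _ _))
      · by_cases hi1 : i = i₁
        · simp only [u, if_neg hi0, if_pos hi1, map_mul, map_inv₀, bω, one_mul]
          exact mul_le_mul b1 (hl.trans (le_max_left _ _)) (T.absF.nonneg _) hδi.le
        · simp only [u, if_neg hi0, if_neg hi1, map_zero]
          positivity
  -- the leading coefficient
  have hv : eval v g ≠ 0 := by
    intro h
    have h3 := htube v h 1 (fun i => by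
      simp only [v]
      split_ifs
      · rw [map_inv₀, mul_one]; exact b2
      · rw [map_zero]; positivity)
    have h4 : eval (fun i => T.sharp (v i)) (linForm a) = 1 := by
      rw [eval_linForm, Finset.sum_eq_single i₂]
      · simp only [v, if_pos]
        rw [← hα₂, sinv n2]
      · intro i _ hi
        simp only [v, if_neg hi, T.sharp_zero, mul_zero]
      · intro h
        exact absurd (Finset.mem_univ _) h
    rw [h4, map_one, mul_one] at h3
    linarith
  have hlead : ∀ l, (line g (u l) v).natDegree = D ∧ (line g (u l) v).leadingCoeff = eval v g := by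
    intro l
    obtain ⟨h3, h4⟩ := line_coeff hg (u l) v
    have h5 : (line g (u l) v).natDegree = D := by
      refine le_antisymm h3 (Polynomial.le_natDegree_of_ne_zero ?_)
      rw [h4]
      exact hv
    refine ⟨h5, ?_⟩
    rw [Polynomial.leadingCoeff, h5, h4]
  -- the roots
  have hroot : ∀ l, T.absF l ≤ 1 → ε < T.absK (T.sharp l - 1) → ∀ s,
      (line g (u l) v).eval s = 0 → T.absF s = T.absK (T.sharp l - 1) := by
    intro l hl hlε s hs
    rw [line_eval] at hs
    have h3 := htube _ hs _ (hnorm l s hl)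
    rw [hval] at h3
    have hs1 : T.absF s ≤ 1 := by
      by_contra h
      push Not at h
      rw [max_eq_right h.le] at h3
      have h4 : T.absK (T.sharp s + (1 - T.sharp l)) = T.absK (T.sharp s) := by
        refine abs_add_eq T.ultraK ?_
        rw [T.abs_sharp]
        refine lt_of_le_of_lt ((abs_sub_le' T.ultraK _ _).trans (max_le ?_ ?_)) h
        · rw [map_one]
        · rw [T.abs_sharp]
          exact hl
      have h5 : (1 : K) - T.sharp l + T.sharp s = T.sharp s + (1 - T.sharp l) := by ring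
      rw [h5, h4, T.abs_sharp] at h3
      have h6 : ε * T.absF s < 1 * T.absF s := mul_lt_mul_of_pos_right hε1 (by linarith)
      linarith
    rw [max_eq_left hs1, mul_one] at h3
    have h4 : T.sharp s = (T.sharp l - 1) + (1 - T.sharp l + T.sharp s) := by ring
    rw [← T.abs_sharp, h4]
    exact abs_add_eq T.ultraK (lt_of_le_of_lt h3 hlε)
  have hprod : ∀ l, T.absF l ≤ 1 → ε < T.absK (T.sharp l - 1) →
      T.absF (eval (u l) g) = T.absF (eval v g) * T.absK (T.sharp l - 1) ^ D := by
    intro l hl hlε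
    have h3 := roots_prod (hroot l hl hlε)
    rw [(hlead l).1, (hlead l).2, line_eval] at h3
    rw [← h3]
    congr 3
    exact funext fun i => by rw [mul_zero, add_zero]
  -- the polynomial in `t = l - 1`
  let f : Polynomial F := line g (u 1) (fun i => if i = i₁ then ω * α₁⁻¹ else 0)
  have hf : ∀ t, f.eval t = eval (u (1 + t)) g := by
    intro t
    simp only [f]
    rw [line_eval]
    congr 2
    funext i
    simp only [u]
    by_cases hi0 : i = i₀
    · subst hi0
      simp [h01]
    · by_cases hi1 : i = i₁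
      · simp only [if_neg hi0, if_pos hi1]
        ring
      · simp [hi0, hi1]
  -- the points
  obtain ⟨m₀, hm₀⟩ := eventually_rad hq hp2 hε hj
  have hpt : ∀ m, ∃ l : F, T.absF l ≤ 1 ∧ T.absF (l - 1) = rad (T.absK p) p m ^ p ^ j ∧
      T.absK (T.sharp l - 1) = T.absK p ^ j * rad (T.absK p) p m := by
    intro m
    obtain ⟨x, hx⟩ := exists_rad T.toTiltPair m
    exact exists_point T (rad_pos hq p m) (rad_lt_one hq hq1 hp2 m) hx (lt_rad_pow hq hq1 hp2 m)
      (rad_pow_lt hq hq1 hp2 m) j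
  have hvpos : 0 < T.absF (eval v g) := T.absF.pos hv
  have hf0 : f ≠ 0 := by
    intro h
    obtain ⟨l, hl, -, hl2⟩ := hpt m₀
    have h3 := hprod l hl (by rw [hl2]; exact hm₀ m₀ le_rfl)
    have h4 := hf (l - 1)
    rw [h, Polynomial.eval_zero, add_sub_cancel] at h4
    rw [← h4, map_zero, hl2] at h3
    have h5 : 0 < T.absF (eval v g) * (T.absK p ^ j * rad (T.absK p) p m₀) ^ D := by
      have := rad_pos hq p m₀
      positivity
    linarith
  have hs : StrictMono fun m => rad (T.absK p) p m ^ p ^ j := by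
    intro m n hmn
    exact pow_lt_pow_left₀ (rad_strictMono hq hq1 p hmn) (rad_pos hq p m).le
      (pow_pos hp.out.pos j).ne'
  obtain ⟨i, c, m₁, hc, hmono⟩ := eventually_monomial T.ultraF hf0 hs
    (fun m => pow_pos (rad_pos hq p m) _)
  have key : ∀ m, max m₀ m₁ ≤ m → T.absF (eval v g) * T.absK p ^ (j * D) *
      rad (T.absK p) p m ^ D = c * rad (T.absK p) p m ^ (p ^ j * i) := by
    intro m hm
    obtain ⟨l, hl, hl1, hl2⟩ := hpt m
    have h3 := hprod l hl (by rw [hl2]; exact hm₀ m ((le_max_left _ _).trans hm))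
    have h4 := hmono m ((le_max_right _ _).trans hm) (l - 1) hl1
    rw [hf, add_sub_cancel, h3, hl2, mul_pow, ← pow_mul, ← pow_mul, ← mul_assoc] at h4
    exact h4
  -- compare two radii
  set M := max m₀ m₁ with hM
  set r := rad (T.absK p) p M with hr
  set r' := rad (T.absK p) p (M + 1) with hr'
  have e1 : _ = c * r ^ (p ^ j * i) := key M le_rfl
  have e2 : _ = c * r' ^ (p ^ j * i) := key (M + 1) (Nat.le_succ M)
  have hrpos : 0 < r := rad_pos hq p M
  have hr'pos : 0 < r' := rad_pos hq p (M + 1)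
  have hrr : r < r' := rad_strictMono hq hq1 p (Nat.lt_succ_self M)
  set A := T.absF (eval v g) * T.absK p ^ (j * D) with hA
  have hApos : 0 < A := by positivity
  have e3 : (r' / r) ^ D = (r' / r) ^ (p ^ j * i) := by
    have e1' : A * r ^ D = c * r ^ (p ^ j * i) := e1
    have e2' : A * r' ^ D = c * r' ^ (p ^ j * i) := e2
    rw [div_pow, div_pow, div_eq_div_iff (by positivity) (by positivity)]
    have e4 : (A * r' ^ D) * (c * r ^ (p ^ j * i)) = (c * r' ^ (p ^ j * i)) * (A * r ^ D) := by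
      rw [e1', e2']
    have hAc : A * c ≠ 0 := by positivity
    apply mul_left_cancel₀ hAc
    linear_combination e4
  have h3 : (1 : ℝ) < r' / r := by rwa [one_lt_div hrpos]
  have h4 : D = p ^ j * i := (pow_right_strictMono₀ h3).injective e3
  exact ⟨i, h4⟩

end Pool.Agent.H20.RG
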