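import Pool.Agent.H20.RG.Hyper

/-!
# The approximation lemma with degrees
-/

set_option autoImplicit false
set_option linter.unusedSectionVars false

namespace Pool.Agent.H20.RG

open MvPolynomial Pool.Agent.Y129.TA WittVector

section WS

variable {p : ℕ} [hp : Fact p.Prime] {R : Type} [CommRing R]

/-- The Witt vectors with coefficients in a subring. -/
noncomputable def WS (p : ℕ) [Fact p.Prime] (S : Subring R) : Subring (WittVector p R) :=
  (WittVector.map S.subtype).range

theorem mem_WS {S : Subring R} {x : WittVector p R} : x ∈ WS p S ↔ ∀ n, x.coeff n ∈ S := by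
  constructor
  · rintro ⟨y, rfl⟩ n
    rw [WittVector.map_coeff]
    exact (y.coeff n).2
  · intro h
    refine ⟨WittVector.mk p fun n => ⟨x.coeff n, h n⟩, ?_⟩
    ext n
    rw [WittVector.map_coeff]
    rfl

theorem teich_mem_WS {S : Subring R} {r : R} (hr : r ∈ S) : teichmuller p r ∈ WS p S := by
  refine ⟨teichmuller p ⟨r, hr⟩, ?_⟩
  rw [map_teichmuller]
  rfl

theorem Step.mem_WS [CharP R p] {S S' : Subring R} (hS : ∀ a, a ^ p ∈ S → a ∈ S') {ϖ : R}
    (hϖ : ϖ ∈ S') (hSS : S ≤ S') {x y : WittVector p R} (h : Step ϖ x y) (hx : x ∈ WS p S) :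
    y ∈ WS p S' := by
  obtain ⟨x', h1, h2⟩ := h
  have h0 : x.coeff 0 ∈ S := (Pool.Agent.H20.RG.mem_WS.1 hx) 0
  have h3 : x' * p ∈ WS p S := by
    have h4 : x' * p = x - teichmuller p (x.coeff 0) := by
      conv_rhs => rw [h1]
      rw [mul_comm]
      have h5 : (teichmuller p (x.coeff 0) + ↑p * x').coeff 0 = x.coeff 0 := by rw [← h1]
      rw [h5]
      ring
    rw [h4]
    exact Subring.sub_mem _ hx (teich_mem_WS h0)
  have h4 : x' ∈ WS p S' := by
    refine Pool.Agent.H20.RG.mem_WS.2 fun n => hS _ ?_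
    have h5 := Pool.Agent.H20.RG.mem_WS.1 h3 (n + 1)
    rwa [WittVector.mul_charP_coeff_succ] at h5
  rw [h2]
  exact Subring.add_mem _ (teich_mem_WS (hSS h0)) (Subring.mul_mem _ (teich_mem_WS hϖ) h4)

end WS

variable {p : ℕ} [hp : Fact p.Prime] {K F : Type} [Field K] [Field F] [CharP F p]
  {σ : Type}

/-- The functions a fixed power of which is a polynomial. -/
def lvl (T : Tilting p K F) (σ : Type) (M : ℕ) : Subring (polyFun T σ) where
  carrier := {a | ∃ Q : MvPolynomial σ F, ∀ t : σ → T.O,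
    (((a : (σ → T.O) → T.O) t : T.O) : F) ^ p ^ M = eval (fun i => ((t i : T.O) : F)) Q}
  mul_mem' := by
    rintro a b ⟨Q, h⟩ ⟨Q', h'⟩
    refine ⟨Q * Q', fun t => ?_⟩
    rw [map_mul, ← h, ← h', ← mul_pow]
    rfl
  one_mem' := ⟨1, fun t => by simp⟩
  add_mem' := by
    rintro a b ⟨Q, h⟩ ⟨Q', h'⟩
    refine ⟨Q + Q', fun t => ?_⟩
    rw [map_add, ← h, ← h', ← add_pow_char_pow]
    rfl
  zero_mem' := ⟨0, fun t => by
    rw [map_zero]
    exact zero_pow (pow_pos hp.out.pos M).ne'⟩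
  neg_mem' := by
    rintro a ⟨Q, h⟩
    refine ⟨C ((-1) ^ p ^ M) * Q, fun t => ?_⟩
    rw [map_mul, eval_C, ← h, ← neg_pow]
    rfl

theorem lvl_root {T : Tilting p K F} {M : ℕ} (a : polyFun T σ) (ha : a ^ p ∈ lvl T σ M) :
    a ∈ lvl T σ (M + 1) := by
  obtain ⟨Q, h⟩ := ha
  refine ⟨Q, fun t => ?_⟩
  rw [← h t, pow_succ', pow_mul]
  rfl

theorem lvl_le (T : Tilting p K F) (M : ℕ) : lvl T σ M ≤ lvl T σ (M + 1) := by
  rintro a ⟨Q, h⟩
  refine ⟨Q ^ p, fun t => ?_⟩
  rw [map_pow, ← h t, ← pow_mul, pow_succ]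

theorem const_mem_lvl (T : Tilting p K F) (M : ℕ) (c : T.O) : constFun T σ c ∈ lvl T σ M := by
  refine ⟨C ((c : F) ^ p ^ M), fun t => ?_⟩
  rw [eval_C]
  rfl

variable [Fintype σ]

theorem mon_mem_lvl (T : Tilting p K F) (α : σ →₀ ℕ) : monFun T α ∈ lvl T σ 0 := by
  refine ⟨monomial α 1, fun t => ?_⟩
  rw [pow_zero, pow_one, eval_monomial, one_mul, Finsupp.prod_fintype _ _ (by simp)]
  change ((∏ i, t i ^ α i : T.O) : F) = _
  push_cast
  rfl

theorem lift_mem (T : Tilting p K F) (h : MvPolynomial σ K) (H : (σ →₀ ℕ) → WittVector p T.O) :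
    lift T h H ∈ WS p (lvl T σ 0) := by
  unfold Pool.Agent.Y129.TA.lift
  refine Subring.sum_mem _ fun α _ => Subring.mul_mem _ ?_ (teich_mem_WS (mon_mem_lvl T α))
  refine mem_WS.2 fun n => ?_
  rw [WittVector.map_coeff]
  exact const_mem_lvl T 0 _

/-- After `c` steps the first coefficient is not zero, if `|θ(x)| > |p| ^ (c + 1)`. -/
theorem chain_ne' {T : Tilting p K F} [IsAlgClosed F] {ϖ : T.O} (hϖ : T.sharp ϖ = p)
    {Y : ℕ → WittVector p T.O}
    (hY : ∀ j, Step ϖ (Y j) (Y (j + 1))) {c : ℕ} (hc : T.absK p ^ (c + 1) < T.absK (T.θ (Y 0))) :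
    (Y c).coeff 0 ≠ 0 := by
  have hθ : ∀ j, T.θ (Y j) = T.θ (Y 0) := by
    intro j
    induction j with
    | zero => rfl
    | succ j ih => rw [Tilting.θ_step hϖ (hY j), ih]
  obtain ⟨η, hη⟩ := T.surj (T.θ (Y 0))
  have hηa : T.absF η = T.absK (T.θ (Y 0)) := by rw [← T.abs_sharp, hη]
  have hη1 : T.absF η ≤ 1 := by rw [hηa]; exact T.θ_le _
  let η' : T.O := ⟨η, hη1⟩
  have hpp : 0 < T.absK p := T.absK.pos T.p_ne
  have hη0 : 0 < T.absF η := by rw [hηa]; exact (pow_pos hpp _).trans hc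
  have key : ∀ j, ∃ β : T.O, T.absF β = max (T.absF η) (T.absK p ^ j) ∧
      ∃ z, Y j = teichmuller p β * z := by
    intro j
    induction j with
    | zero =>
      refine ⟨1, ?_, Y 0, ?_⟩
      · rw [pow_zero, max_eq_right hη1, Subring.coe_one, map_one]
      · rw [map_one, one_mul]
    | succ j ih =>
      obtain ⟨β, hβ, z, hz⟩ := ih
      have hβp : 0 < T.absF β := by rw [hβ]; exact hη0.trans_le (le_max_left _ _)
      have hβ0 : β ≠ 0 := fun h => by rw [h, Subring.coe_zero, map_zero] at hβp; exact lt_irrefl _ hβp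
      have hγ : ∃ γ : T.O, T.absF γ = max (T.absF η) (T.absK p ^ (j + 1)) := by
        rcases le_total (T.absF η) (T.absK p ^ (j + 1)) with h | h
        · refine ⟨ϖ ^ (j + 1), ?_⟩
          rw [max_eq_right h, Subring.coe_pow, map_pow, Tilting.abs_ϖ hϖ]
        · exact ⟨η', (max_eq_left h).symm⟩
      obtain ⟨γ, hγ⟩ := hγ
      refine ⟨γ, hγ, Tilting.step_gain hϖ hβ0 hz ?_ ?_ ?_ (hY j)⟩
      · rw [hθ j, ← hηa, hγ]
        exact le_max_left _ _
      · rw [hγ, hβ]
        refine max_le_max le_rfl ?_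
        exact pow_le_pow_of_le_one hpp.le T.p_lt.le (Nat.le_succ j)
      · rw [hβ, hγ, Tilting.abs_ϖ hϖ, mul_max_of_nonneg _ _ hpp.le]
        refine max_le_max ?_ ?_
        · exact mul_le_of_le_one_left hη0.le T.p_lt.le
        · rw [pow_succ, mul_comm]
  obtain ⟨β, hβ, z, hz⟩ := key c
  have hβp : 0 < T.absF β := by rw [hβ]; exact hη0.trans_le (le_max_left _ _)
  -- `|θ(z)| > |p|`
  have h1 : T.absK p < T.absK (T.θ z) := by
    have h2 := hθ c
    rw [hz, map_mul, T.θ_teich] at h2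
    have h3 := congrArg T.absK h2
    rw [map_mul, T.abs_sharp] at h3
    by_contra h4
    push Not at h4
    have h5 : T.absK (T.θ (Y 0)) ≤ T.absF β * T.absK p := by
      rw [← h3]
      exact mul_le_mul_of_nonneg_left h4 hβp.le
    rw [hβ, max_mul_of_nonneg _ _ hpp.le] at h5
    rcases le_max_iff.1 h5 with h6 | h6
    · rw [hηa] at h6
      have h7 : T.absK (T.θ (Y 0)) * T.absK p < T.absK (T.θ (Y 0)) * 1 :=
        mul_lt_mul_of_pos_left T.p_lt (by rw [← hηa]; exact hη0)
      linarith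
    · rw [← pow_succ] at h6
      linarith
  have h2 : z.coeff 0 ≠ 0 := by
    intro h0
    have h3 := Tilting.abs_θ_le T z
    rw [h0, Subring.coe_zero, map_zero] at h3
    exact absurd h3 (not_le.2 (max_lt (hpp.trans h1) h1))
  rw [hz, mul_coeff_zero, teichmuller_coeff_zero]
  refine mul_ne_zero ?_ h2
  intro h0
  rw [h0, Subring.coe_zero, map_zero] at hβp
  exact lt_irrefl _ hβp

/-- The approximation lemma with degrees: for an integral form `h` of degree `d` over `K` and every `c`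
there is a form `g` of degree `d p ^ c` over `F` with `|h(t♯)| ≤ |p| ^ (c + 1)` for all zeros `t` of `g` in
the unit ball. -/
theorem approx_degree [IsAlgClosed F] (T : Tilting p K F) {h : MvPolynomial σ K} {d : ℕ}
    (hh : h.IsHomogeneous d) (hint : ∀ α, T.absK (coeff α h) ≤ 1) (c : ℕ) :
    ∃ g : MvPolynomial σ F, g.IsHomogeneous (d * p ^ c) ∧ ∀ t : σ → F,
      (∀ i, T.absF (t i) ≤ 1) → eval t g = 0 →
        T.absK (eval (fun i => T.sharp (t i)) h) ≤ T.absK p ^ (c + 1) := by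
  classical
  have hpp : 0 < T.absK p := T.absK.pos T.p_ne
  choose H hH using fun α => T.θ_surj (coeff α h) (hint α)
  obtain ⟨ϖ₀, hϖ₀⟩ := T.surj (p : K)
  have hϖa : T.absF ϖ₀ = T.absK p := by rw [← T.abs_sharp, hϖ₀]
  let ϖ : T.O := ⟨ϖ₀, by change T.absF ϖ₀ ≤ 1; rw [hϖa]; exact T.p_lt.le⟩
  have hϖ : T.sharp ϖ = p := hϖ₀
  -- the chain
  choose next hnext using fun x : WittVector p (polyFun T σ) => Step.exists (constFun T σ ϖ) x
  let Y : ℕ → WittVector p (polyFun T σ) := fun j => next^[j] (lift T h H)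
  have hY : ∀ j, Step (constFun T σ ϖ) (Y j) (Y (j + 1)) := by
    intro j
    change Step _ (next^[j] _) (next^[j + 1] _)
    rw [Function.iterate_succ_apply']
    exact hnext _
  have hYt : ∀ (t : σ → T.O) j, Step ϖ (WittVector.map (ev T t) (Y j))
      (WittVector.map (ev T t) (Y (j + 1))) := fun t j => (hY j).map (ev T t)
  have hsc : ∀ (a : T.O) (t : σ → T.O) j, WittVector.map (ev T fun i => a * t i) (Y j) =
      teichmuller p (a ^ d) * WittVector.map (ev T t) (Y j) := by
    intro a t j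
    induction j with
    | zero => exact map_lift_smul T hh H a t
    | succ j ih =>
      have h1 := hYt (fun i => a * t i) j
      rw [ih] at h1
      exact h1.unique ((hYt t j).mul (a ^ d))
  have hlev : ∀ j, Y j ∈ WS p (lvl T σ j) := by
    intro j
    induction j with
    | zero => exact lift_mem T h H
    | succ j ih => exact Step.mem_WS (fun a => lvl_root a) (const_mem_lvl T _ ϖ) (lvl_le T j) (hY j) ih
  obtain ⟨Q, hQ⟩ := mem_WS.1 (hlev c) 0
  have hval : ∀ t : σ → T.O, (((WittVector.map (ev T t) (Y c)).coeff 0 : T.O) : F) ^ p ^ c =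
      eval (fun i => ((t i : T.O) : F)) Q := fun t => hQ t
  refine ⟨homogeneousComponent (d * p ^ c) Q,
    homogeneousComponent_isHomogeneous _ _, fun t ht h0 => ?_⟩
  let t' : σ → T.O := fun i => ⟨t i, ht i⟩
  have hcomp : eval t (homogeneousComponent (d * p ^ c) Q) = eval t Q := by
    refine eval_component T.toTiltPair ϖ (Tilting.ϖ_ne hϖ) (by rw [Tilting.abs_ϖ hϖ]; exact T.p_lt)
      fun a => ?_
    have h1 := hval fun i => a * t' i
    have h2 := hval t'
    rw [hsc a t' c, mul_coeff_zero, teichmuller_coeff_zero, Subring.coe_mul, mul_pow, h2,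
      Subring.coe_pow, ← pow_mul] at h1
    exact h1.symm
  rw [hcomp] at h0
  have h1 : (WittVector.map (ev T t') (Y c)).coeff 0 = 0 := by
    have h2 := hval t'
    have h3 : eval (fun i => ((t' i : T.O) : F)) Q = 0 := h0
    rw [h3] at h2
    exact Subtype.ext (pow_eq_zero_iff (pow_pos hp.out.pos c).ne' |>.1 h2)
  have h2 : T.absK (T.θ (WittVector.map (ev T t') (Y 0))) ≤ T.absK p ^ (c + 1) := by
    by_contra hlt
    push Not at hlt
    exact chain_ne' hϖ (Y := fun j => WittVector.map (ev T t') (Y j)) (hYt t') hlt h1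
  have h3 : T.θ (WittVector.map (ev T t') (Y 0)) = eval (fun i => T.sharp (t i)) h :=
    θ_lift T h H hH t'
  rwa [h3] at h2

/-- The same in the form with tubes. -/
theorem tube_of_ball [Nonempty σ] (T : Tilting p K F) {h : MvPolynomial σ K} {d : ℕ}
    (hh : h.IsHomogeneous d) {g : MvPolynomial σ F} {D : ℕ} (hg : g.IsHomogeneous D) {ε : ℝ}
    (hε : 0 ≤ ε) (hd : 0 < d) (hb : ∀ t : σ → F, (∀ i, T.absF (t i) ≤ 1) → eval t g = 0 →
        T.absK (eval (fun i => T.sharp (t i)) h) ≤ ε) (y : σ → F) (hy : eval y g = 0) :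
    T.InTube h d ε y := by
  classical
  intro B hB
  rcases eq_or_ne y 0 with rfl | hy0
  · have h1 : eval (fun i => T.sharp ((0 : σ → F) i)) h = 0 := by
      have h2 : (fun i => T.sharp ((0 : σ → F) i)) = fun i => (0 : K) * (0 : σ → K) i := by
        funext i
        rw [Pi.zero_apply, T.sharp_zero, zero_mul]
      rw [h2, eval_smul_of_homogeneous hh, zero_pow hd.ne', zero_mul]
    rw [h1, map_zero]
    have hB0 : 0 ≤ B := (T.absF.nonneg _).trans (hB (Classical.arbitrary σ))
    positivity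
  · obtain ⟨a, ha, h1, t, ht⟩ := exists_normal T.toTiltPair hy0
    have hapos : 0 < T.absF a := T.absF.pos ha
    have h2 := hb (fun i => a * y i) h1 (by rw [eval_smul_of_homogeneous hg, hy, mul_zero])
    have h3 : (fun i => T.sharp (a * y i)) = fun i => T.sharp a * T.sharp (y i) :=
      funext fun i => map_mul _ _ _
    rw [h3, eval_smul_of_homogeneous hh, map_mul, map_pow, T.abs_sharp] at h2
    have h4 : 1 ≤ T.absF a * B := by
      rw [← ht, map_mul]
      exact mul_le_mul_of_nonneg_left (hB t) hapos.le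
    have h5 : T.absF a ^ d * T.absK (eval (fun i => T.sharp (y i)) h) ≤ T.absF a ^ d * (ε * B ^ d) := by
      refine h2.trans ?_
      calc ε = ε * 1 := (mul_one _).symm
        _ ≤ ε * (T.absF a * B) ^ d := mul_le_mul_of_nonneg_left (one_le_pow₀ h4) hε
        _ = T.absF a ^ d * (ε * B ^ d) := by rw [mul_pow]; ring
    exact le_of_mul_le_mul_left h5 (pow_pos hapos d)

end Pool.Agent.H20.RG
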