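import Pool.Agent.H20.RG.Cont

/-!
# Lifting points of projections
-/

set_option autoImplicit false
set_option linter.unusedSectionVars false

namespace Pool.Agent.H20.RG

open MvPolynomial

section

variable {F : Type} [Field F] {ι σ : Type}

/-- The class of the polynomial. -/
noncomputable def projHom (P : Ideal (MvPolynomial ι F)) (e : σ → ι) :
    MvPolynomial σ F →ₐ[F] (MvPolynomial ι F ⧸ P) :=
  (Ideal.Quotient.mkₐ F P).comp (rename e)

theorem projHom_eq_zero {P : Ideal (MvPolynomial ι F)} {e : σ → ι} {q : MvPolynomial σ F} :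
    projHom P e q = 0 ↔ rename e q ∈ P := Ideal.Quotient.eq_zero_iff_mem

theorem projHom_range (P : Ideal (MvPolynomial ι F)) (e : σ → ι) :
    (projHom P e).range = Algebra.adjoin F (Set.range fun s => Ideal.Quotient.mk P (X (e s))) := by
  rw [Algebra.adjoin_range_eq_range_aeval]
  congr 1
  ext s
  simp [projHom]

end

variable {F : Type} [Field F] [IsAlgClosed F] {ι σ : Type} [Finite ι] [Finite σ]

theorem key1 {L : Type} [Field L] (a b : L) (ha : a ≠ 0) : b = a * b * a⁻¹ := by field_simp

theorem key2 {L : Type} [Field L] (a b c : L) (hc : c ≠ 0) : a * b = b * c * (a * c⁻¹) := by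
  field_simp

theorem lift_generic (P : Ideal (MvPolynomial ι F)) [hP : P.IsPrime] (e : σ → ι)
    (halg : ∀ i, IsAlgebraic (projHom P e).range (Ideal.Quotient.mk P (X i))) :
    ∃ f : MvPolynomial σ F, rename e f ∉ P ∧ ∀ z : σ → F,
      (∀ q, rename e q ∈ P → eval z q = 0) → eval z f ≠ 0 →
        ∃ y : ι → F, (∀ q ∈ P, eval y q = 0) ∧ ∀ s, y (e s) = z s := by
  classical
  have : Fintype ι := Fintype.ofFinite ι
  let A := MvPolynomial ι F ⧸ P
  let R := (projHom P e).range
  let x : ι → A := fun i => Ideal.Quotient.mk P (X i)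
  choose l hl0 hl using fun i => (halg i).exists_integral_multiple
  have hlift : ∀ r : R, ∃ f : MvPolynomial σ F, projHom P e f = r := fun r => r.2
  choose lf hlf using fun i => hlift (l i)
  set f : MvPolynomial σ F := ∏ i, lf i with hf
  have hd : projHom P e f = ((∏ i, l i : R) : A) := by
    rw [hf, map_prod]
    push_cast
    exact Finset.prod_congr rfl fun i _ => hlf i
  have hd0 : projHom P e f ≠ 0 := by
    rw [hd]
    intro h
    have h1 : (∏ i, l i : R) = 0 := by exact_mod_cast h
    exact Finset.prod_ne_zero_iff.2 (fun i _ => hl0 i) h1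
  refine ⟨f, fun h => hd0 (projHom_eq_zero.2 h), fun z hz hzf => ?_⟩
  let L := FractionRing A
  let R0 := MvPolynomial σ F
  let Pl := Polynomial R0
  let ι₀ : A →+* L := algebraMap A L
  have hι₀ : Function.Injective ι₀ := IsFractionRing.injective A L
  let ψ0 : Pl →+* L := Polynomial.eval₂RingHom (ι₀.comp (projHom P e).toRingHom)
    (ι₀ (projHom P e f))⁻¹
  have hdL : ι₀ (projHom P e f) ≠ 0 := by
    intro h
    exact hd0 (hι₀ (by rw [h, map_zero]))
  let iPl : Algebra Pl L := ψ0.toAlgebra
  have hmap : ∀ a : Pl, algebraMap Pl L a = ψ0 a := fun a => rfl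
  have hψC : ∀ r : R0, ψ0 (Polynomial.C r) = ι₀ (projHom P e r) := fun r =>
    Polynomial.eval₂_C _ _
  have hψX : ψ0 Polynomial.X = (ι₀ (projHom P e f))⁻¹ := Polynomial.eval₂_X _ _
  -- the generators are integral
  have hint : ∀ i, IsIntegral Pl (ι₀ (x i)) := by
    intro i
    -- the multiple is integral
    have h1 : IsIntegral Pl (ι₀ ((l i : A) * x i)) := by
      obtain ⟨q, hq, hq0⟩ := hl i
      -- lift the polynomial
      have hsurj : Function.Surjective ((projHom P e).rangeRestrict.toRingHom) :=
        (projHom P e).rangeRestrict_surjective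
      obtain ⟨q', hq', -, hq'm⟩ := Polynomial.lifts_and_natDegree_eq_and_monic
        (f := (projHom P e).rangeRestrict.toRingHom) (p := q) (by
          rw [Polynomial.lifts_iff_coeff_lifts]
          intro n
          exact hsurj _) hq
      refine ⟨q'.map Polynomial.C, hq'm.map _, ?_⟩
      rw [Polynomial.eval₂_map]
      have h2 : (algebraMap Pl L).comp Polynomial.C =
          (ι₀.comp (algebraMap R A)).comp ((projHom P e).rangeRestrict.toRingHom) := by
        refine RingHom.ext fun r => ?_
        exact hψC r
      rw [h2, ← Polynomial.eval₂_map, hq', ← Polynomial.hom_eval₂]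
      have h3 : (l i : A) * x i = l i • x i := rfl
      rw [h3, hq0, map_zero]
    have h2 : ι₀ (x i) = ι₀ ((l i : A) * x i) * ψ0 (Polynomial.C (∏ j ∈ Finset.univ.erase i, lf j) *
        Polynomial.X) := by
      have h3 : ψ0 (Polynomial.C (∏ j ∈ Finset.univ.erase i, lf j) * Polynomial.X) =
          (ι₀ (l i : A))⁻¹ := by
        rw [map_mul, hψC, hψX]
        have h4 : f = lf i * ∏ j ∈ Finset.univ.erase i, lf j :=
          (Finset.mul_prod_erase _ _ (Finset.mem_univ i)).symm
        have h5 : ι₀ (projHom P e f) = ι₀ (l i : A) *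
            ι₀ (projHom P e (∏ j ∈ Finset.univ.erase i, lf j)) := by
          conv_lhs => rw [h4]
          rw [map_mul, map_mul, hlf]
        rw [h5] at hdL ⊢
        rw [mul_inv, mul_comm, mul_assoc, inv_mul_cancel₀ (right_ne_zero_of_mul hdL), mul_one]
      rw [h3, map_mul]
      have h6 : ι₀ (l i : A) ≠ 0 := by
        intro h
        have h7 : (l i : A) = 0 := hι₀ (by rw [h, map_zero])
        exact hl0 i (by exact_mod_cast h7)
      exact key1 _ _ h6
    rw [h2]
    exact h1.mul isIntegral_algebraMap
  -- the point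
  let φ' : Pl →+* F := Polynomial.eval₂RingHom (eval z) (eval z f)⁻¹
  obtain ⟨ψ, hψ⟩ := Pool.Agent.Y129.TB.exists_hom (R := Pl) (S := integralClosure Pl L) (F := F) φ' (by
    intro h hh
    rw [RingHom.mem_ker] at hh ⊢
    have h1 : ψ0 h = 0 := congrArg Subtype.val hh
    set n := h.natDegree
    let r : R0 := ∑ i ∈ Finset.range (n + 1), h.coeff i * f ^ (n - i)
    have h2 : ι₀ (projHom P e r) = ι₀ (projHom P e f) ^ n * ψ0 h := by
      simp only [r, ψ0]
      rw [Polynomial.coe_eval₂RingHom, Polynomial.eval₂_eq_sum_range, Finset.mul_sum, map_sum,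
        map_sum]
      refine Finset.sum_congr rfl fun i hi => ?_
      rw [Finset.mem_range] at hi
      rw [map_mul, map_mul, map_pow, map_pow, RingHom.comp_apply]
      have h3 : ι₀ (projHom P e f) ^ n = ι₀ (projHom P e f) ^ (n - i) * ι₀ (projHom P e f) ^ i := by
        rw [← pow_add]
        congr 1
        omega
      rw [h3, inv_pow]
      have h4 : ι₀ (projHom P e f) ^ i ≠ 0 := pow_ne_zero _ hdL
      exact key2 _ _ _ h4
    rw [h1, mul_zero] at h2
    have h3 : projHom P e r = 0 := hι₀ (by rw [h2, map_zero])
    have h4 := hz r (projHom_eq_zero.1 h3)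
    have h5 : eval z r = eval z f ^ n * φ' h := by
      simp only [r, φ']
      rw [Polynomial.coe_eval₂RingHom, Polynomial.eval₂_eq_sum_range, Finset.mul_sum, map_sum]
      refine Finset.sum_congr rfl fun i hi => ?_
      rw [Finset.mem_range] at hi
      rw [map_mul, map_pow]
      have h3 : eval z f ^ n = eval z f ^ (n - i) * eval z f ^ i := by
        rw [← pow_add]
        congr 1
        omega
      rw [h3, inv_pow]
      have h4 : eval z f ^ i ≠ 0 := pow_ne_zero _ hzf
      field_simp
    rw [h5] at h4
    exact (mul_eq_zero.1 h4).resolve_left (pow_ne_zero _ hzf))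
  have hψ' : ∀ a : Pl, ψ (algebraMap Pl (integralClosure Pl L) a) = φ' a := fun a =>
    congrArg (fun χ : Pl →+* F => χ a) hψ
  let xs : ι → integralClosure Pl L := fun i => ⟨ι₀ (x i), hint i⟩
  let y : ι → F := fun i => ψ (xs i)
  have hconst : ∀ c : F, algebraMap Pl (integralClosure Pl L) (Polynomial.C (C c)) =
      ⟨ι₀ (algebraMap F A c), by
        have h1 : ι₀ (algebraMap F A c) = algebraMap Pl L (Polynomial.C (C c)) := by
          rw [hmap, hψC]
          congr 1
          exact ((projHom P e).commutes c).symm
        rw [h1]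
        exact isIntegral_algebraMap⟩ := by
    intro c
    apply Subtype.ext
    exact (hψC _).trans (congrArg ι₀ ((projHom P e).commutes c))
  refine ⟨y, fun q hq => ?_, fun s => ?_⟩
  · -- evaluation through the integral closure
    let θ : MvPolynomial ι F →+* integralClosure Pl L :=
      eval₂Hom ((algebraMap Pl (integralClosure Pl L)).comp (Polynomial.C.comp C)) xs
    have h1 : ψ.comp θ = eval y := by
      refine MvPolynomial.ringHom_ext (fun c => ?_) fun i => ?_
      · rw [RingHom.comp_apply]
        simp only [θ]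
        rw [coe_eval₂Hom, eval₂_C, eval_C]
        change ψ (algebraMap Pl (integralClosure Pl L) (Polynomial.C (C c))) = c
        rw [hψ']
        simp only [φ']
        rw [Polynomial.coe_eval₂RingHom, Polynomial.eval₂_C, eval_C]
      · rw [RingHom.comp_apply]
        simp only [θ]
        rw [coe_eval₂Hom, eval₂_X, eval_X]
    have h2 : ((algebraMap (integralClosure Pl L) L).comp θ) =
        ι₀.comp (Ideal.Quotient.mk P) := by
      refine MvPolynomial.ringHom_ext (fun c => ?_) fun i => ?_
      · rw [RingHom.comp_apply]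
        simp only [θ]
        rw [coe_eval₂Hom, eval₂_C]
        change algebraMap (integralClosure Pl L) L
          (algebraMap Pl (integralClosure Pl L) (Polynomial.C (C c))) = _
        rw [hconst]
        rfl
      · rw [RingHom.comp_apply]
        simp only [θ]
        rw [coe_eval₂Hom, eval₂_X]
        rfl
    have h3 : θ q = 0 := by
      apply Subtype.ext
      have h4 := congrArg (fun χ : MvPolynomial ι F →+* L => χ q) h2
      change algebraMap (integralClosure Pl L) L (θ q) = ι₀ (Ideal.Quotient.mk P q) at h4
      rw [Ideal.Quotient.eq_zero_iff_mem.2 hq, map_zero] at h4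
      exact h4
    rw [← h1, RingHom.comp_apply, h3, map_zero]
  · have h1 : xs (e s) = algebraMap Pl (integralClosure Pl L) (Polynomial.C (X s)) := by
      apply Subtype.ext
      change ι₀ (x (e s)) = ψ0 _
      rw [hψC]
      congr 1
      simp [projHom, x]
    change ψ (xs (e s)) = z s
    rw [h1, hψ']
    simp only [φ']
    rw [Polynomial.coe_eval₂RingHom, Polynomial.eval₂_C, eval_X]

end Pool.Agent.H20.RG
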