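import Pool.Agent.H20.RG.Seq

/-!
# Restriction of a form to a line
-/

set_option autoImplicit false
set_option linter.unusedSectionVars false

namespace Pool.Agent.H20.RG

open MvPolynomial Pool.Agent.Y129.TA

section

variable {L : Type} [Field L] {ι : Type} [Fintype ι]

/-- the polynomial `g(u + s v)` in `s` -/
noncomputable def line (g : MvPolynomial ι L) (u v : ι → L) : Polynomial L :=
  aeval (fun i => Polynomial.C (u i) + Polynomial.C (v i) * Polynomial.X) g

theorem line_eval (g : MvPolynomial ι L) (u v : ι → L) (s : L) :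
    (line g u v).eval s = eval (fun i => u i + v i * s) g := by
  unfold line
  rw [aeval_def, ← Polynomial.coe_evalRingHom, eval₂_eq', eval_eq', map_sum]
  refine Finset.sum_congr rfl fun a _ => ?_
  rw [map_mul, map_prod, Polynomial.algebraMap_eq, Polynomial.coe_evalRingHom, Polynomial.eval_C]
  congr 1
  refine Finset.prod_congr rfl fun i _ => ?_
  simp

theorem prod_coeff {τ : Type} (t : Finset τ) (f : τ → Polynomial L) (n : τ → ℕ)
    (h : ∀ i ∈ t, (f i).natDegree ≤ n i) :
    (∏ i ∈ t, f i).natDegree ≤ ∑ i ∈ t, n i ∧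
    (∏ i ∈ t, f i).coeff (∑ i ∈ t, n i) = ∏ i ∈ t, (f i).coeff (n i) := by
  classical
  induction t using Finset.induction_on with
  | empty => simp
  | insert i t hi ih =>
    obtain ⟨h1, h2⟩ := ih fun j hj => h j (Finset.mem_insert_of_mem hj)
    have h3 := h i (Finset.mem_insert_self i t)
    rw [Finset.prod_insert hi, Finset.sum_insert hi, Finset.prod_insert hi]
    exact ⟨Polynomial.natDegree_mul_le_of_le h3 h1, by
      rw [Polynomial.coeff_mul_add_eq_of_natDegree_le h3 h1, h2]⟩

theorem line_coeff {g : MvPolynomial ι L} {D : ℕ} (hg : g.IsHomogeneous D) (u v : ι → L) :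
    (line g u v).natDegree ≤ D ∧ (line g u v).coeff D = eval v g := by
  have hlin : ∀ i, (Polynomial.C (u i) + Polynomial.C (v i) * Polynomial.X).natDegree ≤ 1 ∧
      (Polynomial.C (u i) + Polynomial.C (v i) * Polynomial.X).coeff 1 = v i := by
    intro i
    refine ⟨?_, by simp⟩
    refine (Polynomial.natDegree_add_le _ _).trans (max_le (by simp) ?_)
    refine (Polynomial.natDegree_C_mul_le _ _).trans ?_
    simp
  have hmon : ∀ a ∈ g.support,
      (∏ i, (Polynomial.C (u i) + Polynomial.C (v i) * Polynomial.X) ^ a i).natDegree ≤ D ∧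
      (∏ i, (Polynomial.C (u i) + Polynomial.C (v i) * Polynomial.X) ^ a i).coeff D =
        ∏ i, v i ^ a i := by
    intro a ha
    have h1 := sum_of_homogeneous hg ha
    have h2 := prod_coeff Finset.univ
      (fun i => (Polynomial.C (u i) + Polynomial.C (v i) * Polynomial.X) ^ a i) (fun i => a i)
      (fun i _ => (Polynomial.natDegree_pow_le_of_le _ (hlin i).1).trans (by simp))
    rw [h1] at h2
    refine ⟨h2.1, h2.2.trans (Finset.prod_congr rfl fun i _ => ?_)⟩
    have h3 := Polynomial.coeff_pow_of_natDegree_le (m := a i) (hlin i).1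
    rw [mul_one] at h3
    rw [h3, (hlin i).2]
  unfold line
  rw [aeval_def, eval₂_eq']
  constructor
  · refine Polynomial.natDegree_sum_le_of_forall_le _ _ fun a ha => ?_
    rw [Polynomial.algebraMap_eq]
    exact (Polynomial.natDegree_C_mul_le _ _).trans (hmon a ha).1
  · rw [Polynomial.finsetSum_coeff, eval_eq']
    refine Finset.sum_congr rfl fun a ha => ?_
    rw [Polynomial.algebraMap_eq, Polynomial.coeff_C_mul, (hmon a ha).2]

theorem roots_prod [IsAlgClosed L] {a : AbsoluteValue L ℝ} {f : Polynomial L} {ρ : ℝ}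
    (h : ∀ z, f.eval z = 0 → a z = ρ) : a (f.eval 0) = a f.leadingCoeff * ρ ^ f.natDegree := by
  rcases eq_or_ne f 0 with rfl | hf
  · simp
  have hsp : f.Splits := IsAlgClosed.splits f
  have h1 : f.eval 0 = f.leadingCoeff * (f.roots.map fun τ => 0 - τ).prod := by
    conv_lhs => rw [hsp.eq_prod_roots]
    rw [Polynomial.eval_mul, Polynomial.eval_C, Polynomial.eval_multiset_prod, Multiset.map_map]
    simp
  have h2 : ∀ S : Multiset L, (∀ z ∈ S, a z = ρ) →
      a ((S.map fun τ => 0 - τ).prod) = ρ ^ Multiset.card S := by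
    intro S
    induction S using Multiset.induction_on with
    | empty => simp
    | cons τ S ih =>
      intro hS
      rw [Multiset.map_cons, Multiset.prod_cons, map_mul, ih fun z hz => hS z
        (Multiset.mem_cons_of_mem hz), zero_sub, AbsoluteValue.map_neg,
        hS τ (Multiset.mem_cons_self τ S), Multiset.card_cons, pow_succ]
      ring
  rw [h1, map_mul, h2 _ fun z hz => h z (Polynomial.mem_roots'.1 hz).2, hsp.natDegree_eq_card_roots]

end

end Pool.Agent.H20.RG
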