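import Pool.Agent.H20.RG.Growth2

/-!
# Rigidity for pairs with an almost additive sharp map
-/

set_option autoImplicit false
set_option linter.unusedSectionVars false

namespace Pool.Agent.H20.RG

open MvPolynomial Pool.Agent.Y129.TA
open Pool.Agent.K7.H6.PT (abs_nat_le ultra_sum' abs_sub_le' pow_pow_sub_le)

variable {p : ℕ} [hp : Fact p.Prime] {K F : Type} [Field K] [Field F] [CharP F p]

/-- The sharp map is additive modulo `p`. -/
def NearAdd (T : TiltPair p K F) : Prop := ∀ x y : F, T.absF x ≤ 1 → T.absF y ≤ 1 →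
  T.absK ((T.sharp x - T.sharp y) - T.sharp (x - y)) ≤ T.absK p

theorem sub_le_sharp' (T : TiltPair p K F) (hA : NearAdd T) {x y : F} (hx : T.absF x ≤ 1)
    (hy : T.absF y ≤ 1) : T.absF (x - y) ≤ max (T.absK (T.sharp x - T.sharp y)) (T.absK p) := by
  rw [← T.abs_sharp]
  have h4 : T.sharp (x - y) = (T.sharp x - T.sharp y) -
      ((T.sharp x - T.sharp y) - T.sharp (x - y)) := by ring
  rw [h4]
  exact (abs_sub_le' T.ultraK _ _).trans (max_le_max le_rfl (hA x y hx hy))

theorem sharp_sub_le' (T : TiltPair p K F) (hA : NearAdd T) {x y : F} (hx : T.absF x ≤ 1)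
    (hy : T.absF y ≤ 1) : T.absK (T.sharp x - T.sharp y) ≤ max (T.absF (x - y)) (T.absK p) := by
  rw [← T.abs_sharp]
  have h4 : T.sharp x - T.sharp y = T.sharp (x - y) +
      ((T.sharp x - T.sharp y) - T.sharp (x - y)) := by ring
  rw [h4]
  exact (T.ultraK _ _).trans (max_le_max le_rfl (hA x y hx hy))

variable [IsAlgClosed F]

theorem nearAdd (T : Tilting p K F) : NearAdd T.toTiltPair := fun _ _ hx hy =>
  sharp_sub_near T hx hy

/-- The sharp map is continuous on the unit ball. -/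
theorem sharp_cont' (T : TiltPair p K F) (hA : NearAdd T) {ε : ℝ} (hε : 0 < ε) :
    ∃ δ : ℝ, 0 < δ ∧ ∀ x y : F, T.absF x ≤ 1 → T.absF y ≤ 1 → T.absF (x - y) ≤ δ →
      T.absK (T.sharp x - T.sharp y) ≤ ε := by
  have hp0 : 0 < T.absK p := T.absK.pos T.p_ne
  obtain ⟨m, hm⟩ := exists_pow_lt_of_lt_one hε T.p_lt
  refine ⟨T.absK p ^ p ^ m, by positivity, fun x y hx hy hxy => ?_⟩
  have hpm : 0 < p ^ m := pow_pos hp.out.pos m
  obtain ⟨u, hu⟩ := IsAlgClosed.exists_pow_nat_eq x hpm
  obtain ⟨v, hv⟩ := IsAlgClosed.exists_pow_nat_eq y hpm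
  have hu1 : T.absF u ≤ 1 := by
    rw [← hu, map_pow] at hx
    exact (pow_le_one_iff_of_nonneg (T.absF.nonneg _) hpm.ne').1 hx
  have hv1 : T.absF v ≤ 1 := by
    rw [← hv, map_pow] at hy
    exact (pow_le_one_iff_of_nonneg (T.absF.nonneg _) hpm.ne').1 hy
  have huv : T.absF (u - v) ≤ T.absK p := by
    rw [← hu, ← hv, ← sub_pow_char_pow, map_pow] at hxy
    exact le_of_pow_le_pow_left₀ hpm.ne' hp0.le hxy
  have h1 := (sharp_sub_le' T hA hu1 hv1).trans (max_le huv le_rfl)
  have h2 := pow_pow_sub_le T.ultraK hp.out (le_refl (T.absK p)) le_rfl T.p_lt.le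
    (by rw [T.abs_sharp]; exact hu1) (by rw [T.abs_sharp]; exact hv1) h1 m
  rw [← hu, ← hv, map_pow, map_pow]
  refine h2.trans (le_trans ?_ hm.le)
  exact mul_le_of_le_one_right (by positivity) T.p_lt.le

/-- The sharp map is uniformly continuous on balls. -/
theorem sharp_cont_ball' (T : TiltPair p K F) (hA : NearAdd T) (R : ℝ) {ε : ℝ} (hε : 0 < ε) :
    ∃ δ : ℝ, 0 < δ ∧ ∀ x y : F, T.absF x ≤ R → T.absF y ≤ R → T.absF (x - y) ≤ δ →
      T.absK (T.sharp x - T.sharp y) ≤ ε := by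
  obtain ⟨c, hc0, hc⟩ := exists_small T (ε := 1 / (|R| + 1)) (by positivity)
  have hcpos : 0 < T.absF c := T.absF.pos hc0
  obtain ⟨δ, hδ, h⟩ := sharp_cont' T hA (ε := ε * T.absF c) (by positivity)
  have hball : ∀ x, T.absF x ≤ R → T.absF (c * x) ≤ 1 := by
    intro x hx
    rw [map_mul]
    calc T.absF c * T.absF x ≤ (1 / (|R| + 1)) * |R| :=
          mul_le_mul hc (hx.trans (le_abs_self R)) (T.absF.nonneg _) (by positivity)
      _ ≤ 1 := by
        rw [one_div, inv_mul_le_iff₀ (by positivity)]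
        linarith
  refine ⟨δ / T.absF c, by positivity, fun x y hx hy hxy => ?_⟩
  have h1 := h (c * x) (c * y) (hball x hx) (hball y hy) (by
    rw [← mul_sub, map_mul]
    rwa [le_div_iff₀ hcpos, mul_comm] at hxy)
  rw [map_mul, map_mul, ← mul_sub, map_mul, T.abs_sharp, mul_comm ε] at h1
  exact le_of_mul_le_mul_left h1 hcpos

/-- The scaled form of the almost additivity. -/
theorem nearAdd_scaled (T : TiltPair p K F) (hA : NearAdd T) (x y : F) :
    T.absK ((T.sharp x - T.sharp y) - T.sharp (x - y)) ≤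
      T.absK p * max (T.absF x) (T.absF y) := by
  have key : ∀ c : F, c ≠ 0 → T.absF x ≤ T.absF c → T.absF y ≤ T.absF c →
      T.absK ((T.sharp x - T.sharp y) - T.sharp (x - y)) ≤ T.absK p * T.absF c := by
    intro c hc hx hy
    have hcp : 0 < T.absF c := T.absF.pos hc
    have h1 := hA (x / c) (y / c) (by rw [map_div₀]; exact div_le_one_of_le₀ hx hcp.le)
      (by rw [map_div₀]; exact div_le_one_of_le₀ hy hcp.le)
    have ex : T.sharp x = T.sharp c * T.sharp (x / c) := by
      rw [← map_mul, mul_div_cancel₀ _ hc]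
    have ey : T.sharp y = T.sharp c * T.sharp (y / c) := by
      rw [← map_mul, mul_div_cancel₀ _ hc]
    have exy : T.sharp (x - y) = T.sharp c * T.sharp (x / c - y / c) := by
      rw [← map_mul]
      congr 1
      field_simp
    rw [ex, ey, exy, ← mul_sub, ← mul_sub, map_mul, T.abs_sharp, mul_comm (T.absK p)]
    exact mul_le_mul_of_nonneg_left h1 hcp.le
  rcases eq_or_ne x 0 with hx0 | hx0
  · rcases eq_or_ne y 0 with hy0 | hy0
    · simp [hx0, hy0, T.sharp_zero]
    · have hy : T.absF x ≤ T.absF y := by rw [hx0, map_zero]; exact T.absF.nonneg _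
      rw [max_eq_right hy]
      exact key y hy0 hy le_rfl
  · rcases le_total (T.absF x) (T.absF y) with hxy | hxy
    · have hy0 : y ≠ 0 := by
        rintro rfl
        rw [map_zero] at hxy
        exact absurd (T.absF.pos hx0) (not_lt.2 hxy)
      rw [max_eq_right hxy]
      exact key y hy0 hxy le_rfl
    · rw [max_eq_left hxy]
      exact key x hx0 le_rfl hxy

/-- The sharp map is not the restriction of a power series near one: the distance to one of the image is
larger than every power of the distance to one. -/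
theorem exists_near_one' (T : TiltPair p K F) (hA : NearAdd T) (M : ℕ) {C δ : ℝ} (hC : 0 < C) (hδ : 0 < δ)
    (E : Set F) (hE : E.Finite) :
    ∃ l : F, l ∉ E ∧ l ≠ 1 ∧ T.absF (l - 1) ≤ δ ∧
      C * T.absF (l - 1) < T.absK (T.sharp l - 1) ^ M := by
  have hp0 : 0 < T.absK p := T.absK.pos T.p_ne
  -- the starting point
  obtain ⟨l₀, hl₀⟩ := T.surj (1 + (p : K) ^ 2)
  have hw : T.sharp l₀ - 1 = (p : K) ^ 2 := by rw [hl₀]; ring
  have hwa : T.absK (T.sharp l₀ - 1) = T.absK p ^ 2 := by rw [hw, map_pow]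
  have hw1 : T.absK p ^ 2 < 1 := pow_lt_one₀ hp0.le T.p_lt (by norm_num)
  have hl1 : T.sharp l₀ ≠ 1 := by
    intro h
    rw [h, sub_self] at hw
    exact pow_ne_zero 2 T.p_ne hw.symm
  have hnear : T.absK (T.sharp l₀ - 1) ^ (p - 1) < T.absK p := by
    rw [hwa]
    have h2 : 0 < p - 1 := by have := hp.out.two_le; omega
    calc (T.absK p ^ 2) ^ (p - 1) ≤ T.absK p ^ 2 := pow_le_of_le_one (by positivity) hw1.le h2.ne'
      _ < T.absK p := by
        rw [pow_two]
        exact mul_lt_of_lt_one_right hp0 T.p_lt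
  have hl₀ne : l₀ ≠ 1 := by
    rintro rfl
    exact hl1 (map_one _)
  have habs : T.absF l₀ ≤ 1 := by
    rw [← T.abs_sharp, hl₀]
    refine (T.ultraK _ _).trans (max_le (by rw [map_one]) ?_)
    rw [map_pow]
    exact hw1.le
  set r := T.absF (l₀ - 1) with hr
  have hr0 : 0 < r := T.absF.pos (sub_ne_zero.2 hl₀ne)
  have hr1 : r < 1 := by
    have h2 := sub_le_sharp' T hA habs (y := 1) (by rw [map_one])
    rw [map_one, hwa] at h2
    exact lt_of_le_of_lt h2 (max_lt hw1 T.p_lt)
  -- the sequence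
  have hF : ∀ i : ℕ, T.absF (l₀ ^ p ^ i - 1) = r ^ p ^ i := by
    intro i
    have h2 : l₀ ^ p ^ i - 1 = (l₀ - 1) ^ p ^ i := by
      rw [sub_pow_char_pow, one_pow]
    rw [h2, map_pow]
  have hK : ∀ i : ℕ, T.absK (T.sharp (l₀ ^ p ^ i) - 1) = T.absK p ^ i * T.absK p ^ 2 := by
    intro i
    rw [map_pow, pow_near_iter T.ultraK hp.out T.p_ne T.p_lt hl1 hnear, hwa]
  have hinj : Function.Injective fun i : ℕ => l₀ ^ p ^ i := by
    intro i j hij
    have h2 : r ^ p ^ i = r ^ p ^ j := by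
      rw [← hF i, ← hF j]
      exact congrArg (fun x => T.absF (x - 1)) hij
    have h3 := pow_right_injective₀ hr0 hr1.ne h2
    exact Nat.pow_right_injective hp.out.two_le h3
  -- comparison
  set q := T.absK p ^ M with hq
  have hq0 : 0 < q := by positivity
  obtain ⟨N, hN⟩ := exists_pow_lt_of_lt_one (show (0 : ℝ) < q / 2 by positivity) hr1
  have hc0 : 0 < T.absK p ^ (2 * M) / C := by positivity
  obtain ⟨n₁, hn₁⟩ := exists_pow_lt_of_lt_one hc0 (show (1 / 2 : ℝ) < 1 by norm_num)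
  obtain ⟨n₂, hn₂⟩ := exists_pow_lt_of_lt_one hδ hr1
  have hlarge : ∃ n₃ : ℕ, ∀ i, n₃ ≤ i → N * i ≤ p ^ i := by
    refine ⟨2 * N + 2, fun i hi => ?_⟩
    have h2 : N * i ≤ 2 ^ i := by
      have h3 : N ≤ 2 ^ (i / 2 + i / 2) / (i + 1) ∨ True := Or.inr trivial
      clear h3
      -- `2 ^ i ≥ i ^ 2 / 2` for large `i`
      have h4 : ∀ k : ℕ, k * k ≤ 2 ^ (k + 1) := by
        intro k
        induction k with
        | zero => norm_num
        | succ k ih =>
          rcases Nat.lt_or_ge k 3 with h | h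
          · interval_cases k <;> norm_num
          · rw [pow_succ]
            nlinarith
      have h5 := h4 i
      have h6 : 2 * (N * i) ≤ i * i := by nlinarith
      rw [pow_succ] at h5
      omega
    exact h2.trans (Nat.pow_le_pow_left hp.out.two_le i)
  obtain ⟨n₃, hn₃⟩ := hlarge
  have hfin : {i : ℕ | l₀ ^ p ^ i ∈ E}.Finite := hE.preimage hinj.injOn
  obtain ⟨i, hi, hiE⟩ : ∃ i, max n₁ (max n₂ n₃) ≤ i ∧ i ∉ {i : ℕ | l₀ ^ p ^ i ∈ E} := by
    have h2 := (Set.Ici_infinite (max n₁ (max n₂ n₃))).exists_notMem_finset hfin.toFinset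
    obtain ⟨i, hi, hi2⟩ := h2
    exact ⟨i, hi, by rwa [Set.Finite.mem_toFinset] at hi2⟩
  have hi1 : n₁ ≤ i := (le_max_left _ _).trans hi
  have hi2 : n₂ ≤ i := (le_max_left _ _).trans ((le_max_right _ _).trans hi)
  have hi3 : n₃ ≤ i := (le_max_right _ _).trans ((le_max_right _ _).trans hi)
  have hipi : i ≤ p ^ i := (Nat.lt_pow_self hp.out.one_lt).le
  refine ⟨l₀ ^ p ^ i, hiE, ?_, ?_, ?_⟩
  · intro h
    have h2 := hF i
    rw [h, sub_self, map_zero] at h2
    have : 0 < r ^ p ^ i := by positivity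
    linarith
  · rw [hF]
    calc r ^ p ^ i ≤ r ^ n₂ := pow_le_pow_of_le_one hr0.le hr1.le (hi2.trans hipi)
      _ ≤ δ := hn₂.le
  · rw [hF, hK]
    have h2 : r ^ p ^ i ≤ (q / 2) ^ i := by
      calc r ^ p ^ i ≤ r ^ (N * i) := pow_le_pow_of_le_one hr0.le hr1.le (hn₃ i hi3)
        _ = (r ^ N) ^ i := pow_mul _ _ _
        _ ≤ (q / 2) ^ i := pow_le_pow_left₀ (by positivity) hN.le i
    have h3 : (1 / 2 : ℝ) ^ i < T.absK p ^ (2 * M) / C :=
      lt_of_le_of_lt (pow_le_pow_of_le_one (by norm_num) (by norm_num) hi1) hn₁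
    calc C * r ^ p ^ i ≤ C * (q / 2) ^ i := mul_le_mul_of_nonneg_left h2 hC.le
      _ = q ^ i * (C * (1 / 2) ^ i) := by rw [div_pow, one_div, inv_pow]; field_simp
      _ < q ^ i * T.absK p ^ (2 * M) := by
        refine mul_lt_mul_of_pos_left ?_ (by positivity)
        rw [lt_div_iff₀ hC] at h3
        linarith
      _ = (T.absK p ^ i * T.absK p ^ 2) ^ M := by
        rw [hq, mul_pow, ← pow_mul, ← pow_mul, ← pow_mul, mul_comm M i]


section Core

variable {σ : Type} [Fintype σ]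

/-- The key step: a polynomial which vanishes on the image of a hypersurface under the sharp map is zero
if the hypersurface has a suitable point at the boundary. -/
theorem core' (T : TiltPair p K F) (hA : NearAdd T) {g : MvPolynomial σ F} {P : MvPolynomial σ K}
    (hP0 : P ≠ 0)
    (hP : ∀ y : σ → F, (∀ i, y i ≠ 0) → eval y g = 0 → eval (fun i => T.sharp (y i)) P = 0)
    (w : σ → ℤ) (h : ℤ) (hw : ∀ a ∈ g.support, h ≤ dot w a) (z : σ → F) (hz : ∀ i, z i ≠ 0)
    (h0 : (∑ a ∈ g.support, if dot w a = h then g.coeff a * ∏ i, z i ^ a i else 0) = 0)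
    (hne : ∃ a ∈ g.support, dot w a = h) (j : ℤ) (hj : h < j)
    (h1 : (∑ a ∈ g.support, if dot w a = j then g.coeff a * ∏ i, z i ^ a i else 0) ≠ 0) :
    False := by
  classical
  obtain ⟨k, hk⟩ := exists_sep (g.support ∪ P.support)
  have hkg : Set.InjOn (dotN k) (g.support : Set (σ →₀ ℕ)) :=
    hk.mono (by simp)
  have hkP : Set.InjOn (dotN k) (P.support : Set (σ →₀ ℕ)) :=
    hk.mono (by simp)
  set G := slice g z k w h with hG
  -- the constant term
  have hG0 : G.coeff 0 ≠ 0 := by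
    obtain ⟨a, ha, ha2⟩ := hne
    exact slice_coeff_zero_ne hz hkg ha ha2
  have hG01 : (G.coeff 0).eval 1 = 0 := by
    rw [hG, slice_coeff_eval_one]
    refine Eq.trans (Finset.sum_congr rfl fun a ha => ?_) h0
    have := hw a ha
    refine if_congr ?_ rfl rfl
    omega
  -- the higher term
  set n : ℕ := (j - h).toNat with hn
  have hn0 : 0 < n := by omega
  have hGn : (G.coeff n).eval 1 ≠ 0 := by
    rw [hG, slice_coeff_eval_one]
    intro h2
    apply h1
    refine Eq.trans (Finset.sum_congr rfl fun a ha => ?_) h2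
    have := hw a ha
    refine if_congr ?_ rfl rfl
    omega
  have hGn0 : G.coeff n ≠ 0 := by
    intro h2
    rw [h2, Polynomial.eval_zero] at hGn
    exact hGn rfl
  obtain ⟨δ₁, c₁, hδ₁, hc₁, hn1⟩ := near_one T.ultraF hGn0
  have hmul : (G.coeff n).rootMultiplicity 1 = 0 :=
    Polynomial.rootMultiplicity_eq_zero hGn
  obtain ⟨q, hq⟩ : (Polynomial.X - Polynomial.C (1 : F)) ∣ G.coeff 0 :=
    Polynomial.dvd_iff_isRoot.2 hG01
  obtain ⟨B, hB, hB2⟩ := eval_le T.ultraF q
  -- the polynomial over `K`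
  obtain ⟨a₁, ha₁, hmin⟩ := Finset.exists_min_image P.support (dot w)
    (MvPolynomial.support_nonempty.2 hP0)
  set h' := dot w a₁ with hh'
  set Q := slice P (fun i => T.sharp (z i)) k w h' with hQ
  have hQ0 : Q.coeff 0 ≠ 0 := slice_coeff_zero_ne (fun i => T.sharp_ne (hz i)) hkP ha₁ rfl
  obtain ⟨δ₂, c₂, hδ₂, hc₂, hn2⟩ := near_one T.ultraK hQ0
  set m := (Q.coeff 0).rootMultiplicity 1 with hm
  -- bound for the other coefficients of `Q`
  choose BQ hBQ hBQ2 using fun i => eval_le T.ultraK (Q.coeff i)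
  set B' : ℝ := ∑ i ∈ Finset.range (Q.natDegree + 1), BQ i with hB'
  have hB'0 : 0 < B' := Finset.sum_pos (fun i _ => hBQ i) ⟨0, by simp⟩
  -- the constants
  set δ : ℝ := min (min 1 δ₁) (min 1 (c₁ / B)) with hδdef
  have hδ : 0 < δ := by positivity
  obtain ⟨δ₃, hδ₃, hcont⟩ := sharp_cont' T hA (ε := δ₂) hδ₂
  obtain ⟨l, hlE, hl1, hlδ, hlt⟩ := exists_near_one' T hA (m * n)
    (C := (B' / c₂) ^ n * (B / c₁)) (δ := min δ δ₃) (by positivity) (by positivity)
    ({x | (G.coeff 0).eval x = 0} ∪ {0})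
    ((Polynomial.finite_setOfPred_isRoot hG0).union (Set.finite_singleton 0))
  have hlE' : (G.coeff 0).eval l ≠ 0 := fun h2 => hlE (Or.inl h2)
  have hl0 : l ≠ 0 := fun h2 => hlE (Or.inr h2)
  have hlδ' : T.absF (l - 1) ≤ δ := hlδ.trans (min_le_left _ _)
  have hl1' : T.absF (l - 1) ≤ 1 :=
    hlδ'.trans ((min_le_left _ _).trans (min_le_left _ _))
  have habsl : T.absF l ≤ 1 := by
    have h2 : l = (l - 1) + 1 := by ring
    rw [h2]
    exact (T.ultraF _ _).trans (max_le hl1' (by rw [map_one]))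
  have hpos : 0 < T.absF (l - 1) := T.absF.pos (sub_ne_zero.2 hl1)
  -- the small root
  set ρ : ℝ := ((B / c₁) * T.absF (l - 1)) ^ ((1 : ℝ) / n) with hρ
  have hρn : ρ ^ n = (B / c₁) * T.absF (l - 1) := by
    rw [hρ, ← Real.rpow_natCast, ← Real.rpow_mul (by positivity)]
    rw [one_div, inv_mul_cancel₀ (by exact_mod_cast hn0.ne'), Real.rpow_one]
  have hρ0 : 0 ≤ ρ := by positivity
  have hcoef : ∀ i, ((G.map (Polynomial.evalRingHom l)).coeff i) = (G.coeff i).eval l := by
    intro i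
    rw [Polynomial.coeff_map]
    rfl
  have hGnl : T.absF ((G.coeff n).eval l) = c₁ := by
    rw [hn1 l (hlδ'.trans ((min_le_left _ _).trans (min_le_right _ _))), hmul, pow_zero, mul_one]
  obtain ⟨s, hs1, hs2⟩ := exists_small_root T.ultraF hρ0 (G.map (Polynomial.evalRingHom l)) hn0
    (by
      rw [hcoef]
      intro h2
      rw [h2, map_zero] at hGnl
      exact hc₁.ne hGnl)
    (by
      rw [hcoef, hcoef, hGnl, hρn, hq, Polynomial.eval_mul, Polynomial.eval_sub, Polynomial.eval_X,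
        Polynomial.eval_C, map_mul]
      calc T.absF (l - 1) * T.absF (q.eval l) ≤ T.absF (l - 1) * B :=
            mul_le_mul_of_nonneg_left (hB2 l habsl) hpos.le
        _ = c₁ * (B / c₁ * T.absF (l - 1)) := by field_simp)
  have hs0 : s ≠ 0 := by
    rintro rfl
    rw [← Polynomial.coeff_zero_eq_eval_zero, hcoef] at hs1
    exact hlE' hs1
  have hsn : T.absF s ^ n ≤ (B / c₁) * T.absF (l - 1) := by
    rw [← hρn]
    exact pow_le_pow_left₀ (T.absF.nonneg _) hs2 n
  have hs1' : T.absF s ≤ 1 := by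
    have h2 : T.absF s ^ n ≤ 1 := by
      refine hsn.trans ?_
      calc (B / c₁) * T.absF (l - 1) ≤ (B / c₁) * (c₁ / B) :=
            mul_le_mul_of_nonneg_left (hlδ'.trans ((min_le_right _ _).trans (min_le_right _ _)))
              (by positivity)
        _ = 1 := by field_simp
    exact (pow_le_one_iff_of_nonneg (T.absF.nonneg _) hn0.ne').1 h2
  -- the point
  have hy := hP (fun i => z i * l ^ k i * s ^ w i) (fun i => mul_ne_zero (mul_ne_zero (hz i)
    (pow_ne_zero _ hl0)) (zpow_ne_zero _ hs0)) (by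
      rw [← slice_eval hw l hs0, ← hG, hs1, mul_zero])
  have hS0 : T.sharp s ≠ 0 := T.sharp_ne hs0
  have hy2 : ((Q.map (Polynomial.evalRingHom (T.sharp l))).eval (T.sharp s)) = 0 := by
    have h2 := slice_eval (g := P) (z := fun i => T.sharp (z i)) (k := k) (w := w) hmin (T.sharp l) hS0
    have h3 : eval (fun i => T.sharp (z i) * T.sharp l ^ k i * T.sharp s ^ w i) P = 0 := by
      rw [← hy]
      congr 2
      ext i
      rw [map_mul, map_mul, map_pow, sharp_zpow]
    rw [h3] at h2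
    exact (mul_eq_zero.1 h2).resolve_left (zpow_ne_zero _ hS0)
  have habsL : T.absK (T.sharp l) ≤ 1 := by rw [T.abs_sharp]; exact habsl
  have habsS : T.absK (T.sharp s) ≤ 1 := by rw [T.abs_sharp]; exact hs1'
  -- the estimate over `K`
  have hest : T.absK ((Q.coeff 0).eval (T.sharp l)) ≤ B' * T.absK (T.sharp s) := by
    have h2 : (Q.coeff 0).eval (T.sharp l) = - ∑ i ∈ Finset.range Q.natDegree,
        (Q.coeff (i + 1)).eval (T.sharp l) * T.sharp s ^ (i + 1) := by
      have h3 := hy2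
      rw [Polynomial.eval_eq_sum_range' (n := Q.natDegree + 1)
        (Nat.lt_succ_of_le Polynomial.natDegree_map_le), Finset.sum_range_succ'] at h3
      simp only [Polynomial.coeff_map, Polynomial.coe_evalRingHom, pow_zero, mul_one] at h3
      linear_combination h3
    rw [h2, AbsoluteValue.map_neg]
    refine ultra_sum' T.ultraK _ _ (by positivity) fun i hi => ?_
    rw [map_mul, map_pow]
    have h3 : BQ (i + 1) ≤ B' := Finset.single_le_sum (f := BQ) (fun i _ => (hBQ i).le)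
      (by rw [Finset.mem_range] at hi ⊢; omega)
    calc T.absK ((Q.coeff (i + 1)).eval (T.sharp l)) * T.absK (T.sharp s) ^ (i + 1)
        ≤ BQ (i + 1) * T.absK (T.sharp s) := by
          refine mul_le_mul (hBQ2 _ _ habsL) ?_ (by positivity) (hBQ _).le
          exact pow_le_of_le_one (T.absK.nonneg _) habsS (Nat.succ_ne_zero i)
      _ ≤ B' * T.absK (T.sharp s) := mul_le_mul_of_nonneg_right h3 (T.absK.nonneg _)
  have hclose : T.absK (T.sharp l - 1) ≤ δ₂ := by
    have h2 := hcont l 1 habsl (by rw [map_one]) (hlδ.trans (min_le_right _ _))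
    rwa [map_one] at h2
  rw [hn2 _ hclose] at hest
  have hfin : T.absK (T.sharp l - 1) ^ (m * n) ≤ (B' / c₂) ^ n * (B / c₁) * T.absF (l - 1) := by
    have h2 : T.absK (T.sharp l - 1) ^ m ≤ (B' / c₂) * T.absF s := by
      rw [T.abs_sharp] at hest
      rw [div_mul_eq_mul_div, le_div_iff₀ hc₂]
      linarith
    calc T.absK (T.sharp l - 1) ^ (m * n) = (T.absK (T.sharp l - 1) ^ m) ^ n := pow_mul _ _ _
      _ ≤ ((B' / c₂) * T.absF s) ^ n := pow_le_pow_left₀ (by positivity) h2 n
      _ = (B' / c₂) ^ n * T.absF s ^ n := mul_pow _ _ _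
      _ ≤ (B' / c₂) ^ n * ((B / c₁) * T.absF (l - 1)) :=
          mul_le_mul_of_nonneg_left hsn (by positivity)
      _ = _ := by ring
  exact absurd hlt (not_lt.2 hfin)

/-- Rigidity of hypersurfaces: if a nonzero polynomial vanishes on the image of an irreducible
hypersurface under the sharp map then the hypersurface is contained in a coset of a proper subtorus. -/
theorem rigid' (T : TiltPair p K F) (hA : NearAdd T) {g : MvPolynomial σ F} (hg : Irreducible g)
    (hX : ∀ i, ¬ g ∣ X i) {P : MvPolynomial σ K} (hP0 : P ≠ 0)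
    (hP : ∀ y : σ → F, (∀ i, y i ≠ 0) → eval y g = 0 → eval (fun i => T.sharp (y i)) P = 0) :
    ∃ (a b : σ →₀ ℕ) (c : F), a ≠ b ∧ c ≠ 0 ∧ g ∣ monomial a 1 - monomial b c := by
  rcases weight_dichotomy g.support (one_lt_card hg hX) with ⟨w, h, h1, h2, h3⟩ | h1
  · exfalso
    obtain ⟨z, hz, hz0, j, hj, hzj⟩ := exists_boundary hg w h h1 h2 h3
    rw [eval_part] at hz0 hzj
    refine core' T hA hP0 hP w h h1 z hz hz0 ?_ j hj hzj
    obtain ⟨a, ha, -, -, -, haw, -⟩ := h2
    exact ⟨a, ha, haw⟩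
  · obtain ⟨v, hv, q₀, hq₀, j, hj, hq⟩ := h1
    obtain ⟨c, hc, hc2⟩ := dvd_binomial hg hX hj hv hq
    refine ⟨q₀, v, c, ?_, hc, hc2⟩
    rintro rfl
    exact lt_irrefl _ hj


end Core

end Pool.Agent.H20.RG
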