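import Pool.Agent.H20.RG.Alg

/-!
# Closures of cosets of tori
-/

set_option autoImplicit false
set_option linter.unusedSectionVars false

namespace Pool.Agent.H20.RG

open MvPolynomial Pool.Agent.Y129.TA

section Par

variable {L : Type} [Field L] {ι τ : Type} [Fintype ι] [Fintype τ]

/-- The point `x₀ · u ^ M`. -/
noncomputable def par (x₀ : ι → L) (M : ι → τ → ℤ) (u : τ → L) : ι → L :=
  fun i => x₀ i * ∏ t, u t ^ M i t

/-- The ideal of the polynomials which vanish at all points `x₀ · u ^ M`. -/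
def parIdeal (x₀ : ι → L) (M : ι → τ → ℤ) : Ideal (MvPolynomial ι L) where
  carrier := {q | ∀ u : τ → L, (∀ t, u t ≠ 0) → eval (par x₀ M u) q = 0}
  add_mem' {a b} ha hb u hu := by rw [map_add, ha u hu, hb u hu, add_zero]
  zero_mem' u _ := map_zero _
  smul_mem' a b hb u hu := by rw [smul_eq_mul, map_mul, hb u hu, mul_zero]

theorem mem_parIdeal {x₀ : ι → L} {M : ι → τ → ℤ} {q : MvPolynomial ι L} :
    q ∈ parIdeal x₀ M ↔ ∀ u : τ → L, (∀ t, u t ≠ 0) → eval (par x₀ M u) q = 0 := Iff.rfl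

/-- After multiplication by a monomial the values at `x₀ · u ^ M` are polynomial in `u`. -/
theorem par_poly (x₀ : ι → L) (M : ι → τ → ℤ) (q : MvPolynomial ι L) :
    ∃ (N : ℕ) (f : MvPolynomial τ L), ∀ u : τ → L, (∀ t, u t ≠ 0) →
      eval u f = (∏ t, u t) ^ N * eval (par x₀ M u) q := by
  classical
  let E : (ι →₀ ℕ) → τ → ℤ := fun a t => ∑ i, (a i : ℤ) * M i t
  let N : ℕ := ∑ a ∈ q.support, ∑ t, (E a t).natAbs
  have hN : ∀ a ∈ q.support, ∀ t, 0 ≤ (N : ℤ) + E a t := by
    intro a ha t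
    have h1 : (E a t).natAbs ≤ N :=
      (Finset.single_le_sum (f := fun t => (E a t).natAbs) (fun _ _ => Nat.zero_le _)
        (Finset.mem_univ t)).trans
        (Finset.single_le_sum (f := fun a => ∑ t, (E a t).natAbs) (fun _ _ => Nat.zero_le _) ha)
    omega
  refine ⟨N, ∑ a ∈ q.support, monomial (Finsupp.equivFunOnFinite.symm fun t =>
    ((N : ℤ) + E a t).toNat) (q.coeff a * ∏ i, x₀ i ^ a i), fun u hu => ?_⟩
  rw [map_sum, eval_eq' _ q, Finset.mul_sum]
  refine Finset.sum_congr rfl fun a ha => ?_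
  rw [eval_monomial, Finsupp.prod_fintype _ _ (fun t => pow_zero _)]
  have h1 : ∀ t, u t ^ ((N : ℤ) + E a t).toNat = u t ^ N * u t ^ E a t := by
    intro t
    rw [← zpow_natCast, ← zpow_natCast (u t) N, ← zpow_add₀ (hu t)]
    congr 1
    have := hN a ha t
    omega
  have h2 : ∏ i, par x₀ M u i ^ a i = (∏ i, x₀ i ^ a i) * ∏ t, u t ^ E a t := by
    unfold par
    simp only [mul_pow, Finset.prod_mul_distrib]
    congr 1
    simp only [← Finset.prod_pow]
    rw [Finset.prod_comm]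
    refine Finset.prod_congr rfl fun t _ => ?_
    simp only [E]
    rw [← prod_zpow_sum (hu t)]
    exact Finset.prod_congr rfl fun i _ => by rw [mul_comm (a i : ℤ), zpow_mul, zpow_natCast]
  have h3 : ∏ t, u t ^ ((N : ℤ) + E a t).toNat = (∏ t, u t) ^ N * ∏ t, u t ^ E a t := by
    rw [← Finset.prod_pow, ← Finset.prod_mul_distrib]
    exact Finset.prod_congr rfl fun t _ => h1 t
  rw [h2]
  have h4 : ∏ t, u t ^ (Finsupp.equivFunOnFinite.symm fun t => ((N : ℤ) + E a t).toNat) t =
      ∏ t, u t ^ ((N : ℤ) + E a t).toNat := rfl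
  rw [h4, h3]
  ring

theorem parIdeal_prime [Infinite L] (x₀ : ι → L) (M : ι → τ → ℤ) : (parIdeal x₀ M).IsPrime := by
  classical
  refine ⟨?_, ?_⟩
  · rw [Ideal.ne_top_iff_one]
    intro h
    have h1 := h (fun _ => 1) fun _ => one_ne_zero
    rw [map_one] at h1
    exact one_ne_zero h1
  · intro a b hab
    obtain ⟨N, f, hf⟩ := par_poly x₀ M a
    obtain ⟨N', g, hg⟩ := par_poly x₀ M b
    have h1 : f * g * ∏ t, X t = 0 := by
      refine MvPolynomial.funext fun u => ?_
      rw [map_zero, map_mul, map_mul, map_prod]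
      by_cases hu : ∀ t, u t ≠ 0
      · have h2 := hab u hu
        rw [map_mul] at h2
        rw [hf u hu, hg u hu]
        linear_combination (∏ t, u t) ^ N * (∏ t, u t) ^ N' * (∏ t, eval u (X t)) * h2
      · push Not at hu
        obtain ⟨t, ht⟩ := hu
        rw [Finset.prod_eq_zero (Finset.mem_univ t) (by rw [eval_X, ht]), mul_zero]
    have h2 : (∏ t, (X t : MvPolynomial τ L)) ≠ 0 := Finset.prod_ne_zero_iff.2 fun t _ => X_ne_zero t
    have hfin : ∀ (c : MvPolynomial ι L) (n : ℕ) (h : MvPolynomial τ L), (∀ u : τ → L,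
        (∀ t, u t ≠ 0) → eval u h = (∏ t, u t) ^ n * eval (par x₀ M u) c) → h = 0 →
          c ∈ parIdeal x₀ M := by
      intro c n h hh h0 u hu
      have h3 := hh u hu
      rw [h0, map_zero] at h3
      exact (mul_eq_zero.1 h3.symm).resolve_left (pow_ne_zero _ (Finset.prod_ne_zero_iff.2
        fun t _ => hu t))
    rcases mul_eq_zero.1 ((mul_eq_zero.1 h1).resolve_right h2) with h | h
    · exact Or.inl (hfin a N f hf h)
    · exact Or.inr (hfin b N' g hg h)

/-- The closed cone is toric: it is the closure of a coset of a subgroup of a coordinate torus. -/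
def IsToric (Z : Set (ι → L)) : Prop :=
  ∀ a ∈ Z, ∀ b ∈ Z, ∀ c ∈ Z, (∀ i, b i = 0 → ∀ x ∈ Z, x i = 0) →
    (fun i => a i * (b i)⁻¹ * c i) ∈ Z

theorem par_mem (x₀ : ι → L) (M : ι → τ → ℤ) {u : τ → L} (hu : ∀ t, u t ≠ 0) :
    par x₀ M u ∈ zeroLocus L (parIdeal x₀ M) := by
  rw [mem_zeroLocus_iff]
  intro q hq
  rw [aeval_eq_eval]
  exact hq u hu

theorem eval_scale (q : MvPolynomial ι L) (s x : ι → L) :
    eval x (aeval (fun i => X i * C (s i)) q : MvPolynomial ι L) = eval (fun i => x i * s i) q := by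
  have h1 : (eval x).comp (aeval (fun i => X i * C (s i)) :
      MvPolynomial ι L →ₐ[L] MvPolynomial ι L).toRingHom = eval fun i => x i * s i := by
    refine MvPolynomial.ringHom_ext (fun c => ?_) fun i => ?_
    · simp
    · simp
  exact congrArg (fun ψ : MvPolynomial ι L →+* L => ψ q) h1

theorem parIdeal_toric (x₀ : ι → L) (M : ι → τ → ℤ) :
    IsToric (zeroLocus L (parIdeal x₀ M)) := by
  classical
  -- the case of three points of the torus
  have h1 : ∀ u v w : τ → L, (∀ t, u t ≠ 0) → (∀ t, v t ≠ 0) → (∀ t, w t ≠ 0) →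
      (fun i => par x₀ M u i * (par x₀ M v i)⁻¹ * par x₀ M w i) =
        par x₀ M (fun t => u t * (v t)⁻¹ * w t) := by
    intro u v w hu hv hw
    funext i
    unfold par
    by_cases hi : x₀ i = 0
    · rw [hi]
      ring
    · have h2 : ∏ t, (u t * (v t)⁻¹ * w t) ^ M i t =
          (∏ t, u t ^ M i t) * (∏ t, v t ^ M i t)⁻¹ * ∏ t, w t ^ M i t := by
        simp only [mul_zpow, Finset.prod_mul_distrib, inv_zpow, Finset.prod_inv_distrib]
      rw [h2, mul_inv]
      field_simp
  -- the first variable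
  have h2 : ∀ a ∈ zeroLocus L (parIdeal x₀ M), ∀ v w : τ → L, (∀ t, v t ≠ 0) → (∀ t, w t ≠ 0) →
      ∀ q ∈ parIdeal x₀ M, eval (fun i => a i * (par x₀ M v i)⁻¹ * par x₀ M w i) q = 0 := by
    intro a ha v w hv hw q hq
    have h3 : (aeval (fun i => X i * C ((par x₀ M v i)⁻¹ * par x₀ M w i)) q : MvPolynomial ι L) ∈
        parIdeal x₀ M := by
      intro u hu
      rw [eval_scale]
      have h4 := hq (fun t => u t * (v t)⁻¹ * w t) fun t =>
        mul_ne_zero (mul_ne_zero (hu t) (inv_ne_zero (hv t))) (hw t)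
      rw [← h1 u v w hu hv hw] at h4
      simpa only [mul_assoc] using h4
    have h4 := (mem_zeroLocus_iff.1 ha) _ h3
    rw [aeval_eq_eval, eval_scale] at h4
    simpa only [mul_assoc] using h4
  -- the third variable
  have h3 : ∀ a ∈ zeroLocus L (parIdeal x₀ M), ∀ v : τ → L, (∀ t, v t ≠ 0) →
      ∀ c ∈ zeroLocus L (parIdeal x₀ M),
      ∀ q ∈ parIdeal x₀ M, eval (fun i => a i * (par x₀ M v i)⁻¹ * c i) q = 0 := by
    intro a ha v hv c hc q hq
    have h4 : (aeval (fun i => X i * C (a i * (par x₀ M v i)⁻¹)) q : MvPolynomial ι L) ∈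
        parIdeal x₀ M := by
      intro w hw
      rw [eval_scale]
      have h5 := h2 a ha v w hv hw q hq
      have h6 : (fun i => par x₀ M w i * (a i * (par x₀ M v i)⁻¹)) =
          fun i => a i * (par x₀ M v i)⁻¹ * par x₀ M w i := funext fun i => mul_comm _ _
      rw [h6]
      exact h5
    have h5 := (mem_zeroLocus_iff.1 hc) _ h4
    rw [aeval_eq_eval, eval_scale] at h5
    have h6 : (fun i => c i * (a i * (par x₀ M v i)⁻¹)) =
        fun i => a i * (par x₀ M v i)⁻¹ * c i := funext fun i => mul_comm _ _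
    rwa [h6] at h5
  -- the second variable
  intro a ha b hb c hc hbz
  rw [mem_zeroLocus_iff]
  intro q hq
  rw [aeval_eq_eval]
  have hzero : ∀ i, x₀ i = 0 → ∀ x ∈ zeroLocus L (parIdeal x₀ M), x i = 0 := by
    intro i hi x hx
    have h4 : (X i : MvPolynomial ι L) ∈ parIdeal x₀ M := by
      intro u _
      rw [eval_X]
      unfold par
      rw [hi, zero_mul]
    have h5 := (mem_zeroLocus_iff.1 hx) _ h4
    rwa [aeval_X] at h5
  have hone : x₀ ∈ zeroLocus L (parIdeal x₀ M) := by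
    have h4 := par_mem x₀ M (u := fun _ => 1) fun _ => one_ne_zero
    have h5 : par x₀ M (fun _ => 1) = x₀ := by
      funext i
      unfold par
      simp
    rwa [h5] at h4
  have hb0 : ∀ i, x₀ i ≠ 0 → b i ≠ 0 := fun i hi h => hi (hbz i h x₀ hone)
  let N : ℕ := ∑ m ∈ q.support, ∑ i, m i
  have hN : ∀ m ∈ q.support, ∀ i, m i ≤ N := fun m hm i =>
    (Finset.single_le_sum (f := fun i => m i) (fun _ _ => Nat.zero_le _) (Finset.mem_univ i)).trans
      (Finset.single_le_sum (f := fun m : ι →₀ ℕ => ∑ i, m i) (fun _ _ => Nat.zero_le _) hm)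
  let S : Finset ι := Finset.univ.filter fun i => x₀ i ≠ 0
  let Q : MvPolynomial ι L := ∑ m ∈ q.support, C (q.coeff m * ∏ i, (a i * c i) ^ m i) *
    ∏ i ∈ S, X i ^ (N - m i)
  have hQ : ∀ y : ι → L, (∀ i, x₀ i ≠ 0 → y i ≠ 0) →
      eval y Q = (∏ i ∈ S, y i ^ N) * eval (fun i => a i * (y i)⁻¹ * c i) q := by
    intro y hy
    simp only [Q]
    rw [map_sum, eval_eq' _ q, Finset.mul_sum]
    refine Finset.sum_congr rfl fun m hm => ?_
    rw [map_mul, eval_C, map_prod]
    simp only [map_pow, eval_X]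
    by_cases hms : ∀ i, m i ≠ 0 → x₀ i ≠ 0
    · have h4 : ∏ i ∈ S, y i ^ (N - m i) = (∏ i ∈ S, y i ^ N) * ∏ i ∈ S, ((y i)⁻¹) ^ m i := by
        rw [← Finset.prod_mul_distrib]
        refine Finset.prod_congr rfl fun i hi => ?_
        have h5 : y i ≠ 0 := hy i (Finset.mem_filter.1 hi).2
        rw [inv_pow, eq_mul_inv_iff_mul_eq₀ (pow_ne_zero _ h5), ← pow_add]
        congr 1
        have := hN m hm i
        omega
      have h5 : ∏ i ∈ S, ((y i)⁻¹) ^ m i = ∏ i, ((y i)⁻¹) ^ m i := by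
        refine Finset.prod_subset (Finset.subset_univ _) fun i _ hi => ?_
        have h6 : m i = 0 := by
          by_contra h7
          exact hi (Finset.mem_filter.2 ⟨Finset.mem_univ _, hms i h7⟩)
        rw [h6, pow_zero]
      rw [h4, h5]
      have h6 : ∏ i, (a i * (y i)⁻¹ * c i) ^ m i =
          (∏ i, (a i * c i) ^ m i) * ∏ i, ((y i)⁻¹) ^ m i := by
        rw [← Finset.prod_mul_distrib]
        exact Finset.prod_congr rfl fun i _ => by rw [← mul_pow]; congr 1; ring
      rw [h6]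
      ring
    · push Not at hms
      obtain ⟨i, hi, hi0⟩ := hms
      have h4 : a i = 0 := hzero i hi0 a ha
      rw [Finset.prod_eq_zero (Finset.mem_univ i) (by rw [h4, zero_mul, zero_pow hi]),
        Finset.prod_eq_zero (f := fun i => (a i * (y i)⁻¹ * c i) ^ m i) (Finset.mem_univ i)
          (by rw [h4, zero_mul, zero_mul, zero_pow hi])]
      ring
  have hQm : Q ∈ parIdeal x₀ M := by
    intro v hv
    have h4 : ∀ i, x₀ i ≠ 0 → par x₀ M v i ≠ 0 := fun i hi =>
      mul_ne_zero hi (Finset.prod_ne_zero_iff.2 fun t _ => zpow_ne_zero _ (hv t))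
    rw [hQ _ h4, h3 a ha v hv c hc q hq, mul_zero]
  have h4 := (mem_zeroLocus_iff.1 hb) _ hQm
  rw [aeval_eq_eval, hQ b hb0] at h4
  refine (mul_eq_zero.1 h4).resolve_left (Finset.prod_ne_zero_iff.2 fun i hi => ?_)
  exact pow_ne_zero _ (hb0 i (Finset.mem_filter.1 hi).2)

end Par

end Pool.Agent.H20.RG
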