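import Pool.Agent.H20.RG.Cont

/-!
# The radii of the points near one
-/

set_option autoImplicit false
set_option linter.unusedSectionVars false

namespace Pool.Agent.H20.RG

open Pool.Agent.Y129.TA WittVector
open Pool.Agent.K7.H6.PT (abs_nat_le ultra_sum' abs_sub_le')

section Val

variable {L : Type} [Field L] {a : AbsoluteValue L ℝ}

/-- The difference of the `p`-th powers. -/
theorem pow_sub_one_eq {p : ℕ} (hp : p.Prime) (u : L) :
    ∃ b : L, ((∀ x y, a (x + y) ≤ max (a x) (a y)) → a (u - 1) ≤ 1 → a b ≤ a (u - 1)) ∧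
      u ^ p - 1 = (u - 1) ^ p + (p : L) * b := by
  set w := u - 1 with hw
  refine ⟨∑ k ∈ Finset.Ioo 0 p, w ^ k * ((p.choose k / p : ℕ) : L), fun ha hw1 => ?_, ?_⟩
  · refine ultra_sum' ha _ _ (a.nonneg _) fun k hk => ?_
    rw [Finset.mem_Ioo] at hk
    rw [map_mul, map_pow]
    calc a w ^ k * a ((p.choose k / p : ℕ) : L) ≤ a w * 1 :=
          mul_le_mul (pow_le_of_le_one (a.nonneg _) hw1 (by omega)) (abs_nat_le ha _)
            (a.nonneg _) (a.nonneg _)
      _ = a w := mul_one _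
  · have h2 : u = w + 1 := by rw [hw]; ring
    have h3 := add_pow_prime_eq' hp w (1 : L)
    rw [h2, h3, one_pow]
    simp only [one_pow, mul_one]
    ring

/-- If `|v ^ p - 1|` is large enough then it is `|v - 1| ^ p`. -/
theorem pow_far (ha : ∀ x y, a (x + y) ≤ max (a x) (a y)) {p : ℕ} (hp : p.Prime) {v : L}
    (hp0 : (p : L) ≠ 0) (hv : a v ≤ 1) (h1 : a (p : L) ^ p < a (v ^ p - 1) ^ (p - 1)) :
    a (v ^ p - 1) = a (v - 1) ^ p := by
  have hppos : 0 < a (p : L) := a.pos hp0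
  have hw1 : a (v - 1) ≤ 1 := (abs_sub_le' ha _ _).trans (max_le hv (by rw [map_one]))
  obtain ⟨b, hb, hb2⟩ := pow_sub_one_eq (a := a) hp v
  have hb' := hb ha hw1
  have hp1 : p - 1 ≠ 0 := by have := hp.two_le; omega
  have hpow : ∀ x : ℝ, x ^ p = x ^ (p - 1) * x := by
    intro x
    rw [← pow_succ]
    congr 1
    have := hp.pos
    omega
  have hle : a (v ^ p - 1) ≤ max (a (v - 1) ^ p) (a (p : L) * a (v - 1)) := by
    rw [hb2]
    refine (ha _ _).trans (max_le_max (by rw [map_pow]) ?_)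
    rw [map_mul]
    exact mul_le_mul_of_nonneg_left hb' hppos.le
  rcases lt_or_ge (a (p : L)) (a (v - 1) ^ (p - 1)) with h2 | h2
  · -- the `p`-th power dominates
    have hwpos : 0 < a (v - 1) := by
      by_contra h
      have h3 : a (v - 1) = 0 := le_antisymm (not_lt.1 h) (a.nonneg _)
      rw [h3, zero_pow hp1] at h2
      linarith
    rw [hb2, abs_add_eq ha, map_pow]
    rw [map_mul, map_pow, hpow]
    calc a (p : L) * a b ≤ a (p : L) * a (v - 1) := mul_le_mul_of_nonneg_left hb' hppos.le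
      _ < a (v - 1) ^ (p - 1) * a (v - 1) := mul_lt_mul_of_pos_right h2 hwpos
  · exfalso
    have h3 : a (v - 1) ^ p ≤ a (p : L) * a (v - 1) := by
      rw [hpow]
      exact mul_le_mul_of_nonneg_right h2 (a.nonneg _)
    have h4 : a (v ^ p - 1) ≤ a (p : L) * a (v - 1) := hle.trans (max_le h3 le_rfl)
    have h5 : a (v ^ p - 1) ^ (p - 1) ≤ a (p : L) ^ p := by
      calc a (v ^ p - 1) ^ (p - 1) ≤ (a (p : L) * a (v - 1)) ^ (p - 1) :=
            pow_le_pow_left₀ (a.nonneg _) h4 _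
        _ = a (p : L) ^ (p - 1) * a (v - 1) ^ (p - 1) := mul_pow _ _ _
        _ ≤ a (p : L) ^ (p - 1) * a (p : L) := mul_le_mul_of_nonneg_left h2 (by positivity)
        _ = a (p : L) ^ p := (hpow _).symm
    linarith

theorem pow_far_iter (ha : ∀ x y, a (x + y) ≤ max (a x) (a y)) {p : ℕ} (hp : p.Prime) {v : L}
    (hp0 : (p : L) ≠ 0) (hv : a v ≤ 1) (k : ℕ) (h0 : a (v ^ p ^ k - 1) ≤ 1)
    (h1 : a (p : L) ^ p < a (v ^ p ^ k - 1) ^ (p - 1)) :
    a (v ^ p ^ k - 1) = a (v - 1) ^ p ^ k := by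
  induction k with
  | zero => simp
  | succ k ih =>
    have e : v ^ p ^ (k + 1) = (v ^ p ^ k) ^ p := by rw [pow_succ, pow_mul]
    rw [e] at h0 h1 ⊢
    have hvk : a (v ^ p ^ k) ≤ 1 := by rw [map_pow]; exact pow_le_one₀ (a.nonneg _) hv
    have h2 := pow_far ha hp hp0 hvk h1
    have hw1 : a (v ^ p ^ k - 1) ≤ 1 := (abs_sub_le' ha _ _).trans (max_le hvk (by rw [map_one]))
    have h3 : a ((v ^ p ^ k) ^ p - 1) ≤ a (v ^ p ^ k - 1) := by
      rw [h2]
      exact pow_le_of_le_one (a.nonneg _) hw1 hp.ne_zero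
    rw [h2, ih hw1 (h1.trans_le (pow_le_pow_left₀ (a.nonneg _) h3 _)), ← pow_mul, pow_succ]

end Val

variable {p : ℕ} [hp : Fact p.Prime] {K F : Type} [Field K] [Field F] [CharP F p] [IsAlgClosed F]

/-- The sharp map is additive modulo `p`. -/
theorem sharp_sub_near (T : Tilting p K F) {x y : F} (hx : T.absF x ≤ 1) (hy : T.absF y ≤ 1) :
    T.absK ((T.sharp x - T.sharp y) - T.sharp (x - y)) ≤ T.absK p := by
  let z : WittVector p T.O := teichmuller p (⟨x, hx⟩ : T.O) - teichmuller p (⟨y, hy⟩ : T.O)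
  have h1 : T.θ z = T.sharp x - T.sharp y := by
    rw [map_sub, T.θ_teich, T.θ_teich]
  have h2 : ((z.coeff 0 : T.O) : F) = x - y := by
    have h3 : z.coeff 0 = (⟨x, hx⟩ : T.O) - ⟨y, hy⟩ := by
      have h4 := map_sub (WittVector.constantCoeff (p := p) (R := T.O))
        (teichmuller p (⟨x, hx⟩ : T.O)) (teichmuller p (⟨y, hy⟩ : T.O))
      change z.coeff 0 = (teichmuller p (⟨x, hx⟩ : T.O)).coeff 0 -
        (teichmuller p (⟨y, hy⟩ : T.O)).coeff 0 at h4
      rw [teichmuller_coeff_zero, teichmuller_coeff_zero] at h4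
      exact h4
    rw [h3]
    rfl
  rw [← h1, ← h2]
  exact Tilting.abs_sub_le T z

/-- Not too close to one the sharp map preserves the distance to one. -/
theorem dist_eq (T : Tilting p K F) {l : F} (hl : T.absF l ≤ 1)
    (h0 : T.absK (T.sharp l - 1) < 1)
    (h1 : T.absK p ^ p < T.absK (T.sharp l - 1) ^ (p - 1)) :
    T.absF (l - 1) = T.absK (T.sharp l - 1) := by
  have hppos : 0 < T.absK p := T.absK.pos T.p_ne
  set s := T.absK (T.sharp l - 1) with hs
  have hp1 : p - 1 ≠ 0 := by have := hp.out.two_le; omega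
  have hs0 : 0 < s := by
    by_contra h
    have h3 : s = 0 := le_antisymm (not_lt.1 h) (T.absK.nonneg _)
    rw [h3, zero_pow hp1] at h1
    have : 0 < T.absK p ^ p := by positivity
    linarith
  obtain ⟨k, hk⟩ : ∃ k : ℕ, T.absK p ^ p ^ k < s := by
    obtain ⟨n, hn⟩ := exists_pow_lt_of_lt_one hs0 T.p_lt
    refine ⟨n, lt_of_le_of_lt (pow_le_pow_of_le_one hppos.le T.p_lt.le ?_) hn⟩
    exact (Nat.lt_pow_self hp.out.one_lt).le
  have hpk : 0 < p ^ k := pow_pos hp.out.pos k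
  obtain ⟨m, hm⟩ := IsAlgClosed.exists_pow_nat_eq l hpk
  have hm1 : T.absF m ≤ 1 := by
    rw [← hm, map_pow] at hl
    exact (pow_le_one_iff_of_nonneg (T.absF.nonneg _) hpk.ne').1 hl
  have hmK : T.absK (T.sharp m) ≤ 1 := by rw [T.abs_sharp]; exact hm1
  have e1 : T.sharp m ^ p ^ k = T.sharp l := by rw [← map_pow, hm]
  have h2 := pow_far_iter T.ultraK hp.out T.p_ne hmK k (by rw [e1]; exact h0.le)
    (by rw [e1]; exact h1)
  rw [e1] at h2
  have h3 : T.absK p < T.absK (T.sharp m - 1) := by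
    rw [← hs] at h2
    rw [h2] at hk
    exact lt_of_pow_lt_pow_left₀ _ (T.absK.nonneg _) hk
  have h4 : T.absF (m - 1) = T.absK (T.sharp m - 1) := by
    have h5 := sharp_sub_near T hm1 (y := 1) (by rw [map_one])
    rw [map_one] at h5
    rw [← T.abs_sharp]
    have h6 : T.sharp (m - 1) = (T.sharp m - 1) + -((T.sharp m - 1) - T.sharp (m - 1)) := by ring
    rw [h6]
    refine abs_add_eq T.ultraK ?_
    rw [AbsoluteValue.map_neg]
    exact lt_of_le_of_lt h5 h3
  have h5 : l - 1 = (m - 1) ^ p ^ k := by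
    rw [sub_pow_char_pow, one_pow, hm]
  rw [h5, map_pow, h4]
  exact h2.symm

/-- There are points with prescribed radius. -/
theorem exists_point [IsAlgClosed K] (T : Tilting p K F) {r : ℝ} (hr0 : 0 < r) (hr1 : r < 1)
    {x : K} (hx : T.absK x = r) (h1 : T.absK p ^ p < r ^ (p - 1)) (h2 : r ^ (p - 1) < T.absK p)
    (j : ℕ) : ∃ l : F, T.absF l ≤ 1 ∧ T.absF (l - 1) = r ^ p ^ j ∧
      T.absK (T.sharp l - 1) = T.absK p ^ j * r := by
  obtain ⟨l₀, hl₀⟩ := T.surj (1 + x)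
  have hd : T.sharp l₀ - 1 = x := by rw [hl₀]; ring
  have habs : T.absF l₀ ≤ 1 := by
    rw [← T.abs_sharp, hl₀]
    refine (T.ultraK _ _).trans (max_le (by rw [map_one]) ?_)
    rw [hx]
    exact hr1.le
  have hne : T.sharp l₀ ≠ 1 := by
    intro h
    rw [h, sub_self] at hd
    rw [← hd, map_zero] at hx
    exact hr0.ne hx
  have h3 := dist_eq T habs (by rw [hd, hx]; exact hr1) (by rw [hd, hx]; exact h1)
  rw [hd, hx] at h3
  refine ⟨l₀ ^ p ^ j, ?_, ?_, ?_⟩
  · rw [map_pow]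
    exact pow_le_one₀ (T.absF.nonneg _) habs
  · have h4 : l₀ ^ p ^ j - 1 = (l₀ - 1) ^ p ^ j := by
      rw [sub_pow_char_pow, one_pow]
    rw [h4, map_pow, h3]
  · rw [map_pow, pow_near_iter T.ultraK hp.out T.p_ne T.p_lt hne (by rw [hd, hx]; exact h2), hd, hx]

end Pool.Agent.H20.RG
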