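import Pool.Agent.H20.RG.Sharp1

/-!
# Small roots of polynomials
-/

set_option autoImplicit false
set_option linter.unusedSectionVars false

namespace Pool.Agent.H20.RG

open Pool.Agent.K7.H6.PT (abs_sub_le')

section

variable {L : Type} [Field L] {a : AbsoluteValue L ℝ}

/-- If all roots are large then the constant coefficient dominates. -/
theorem coeff_lt_of_roots (ha : ∀ x y, a (x + y) ≤ max (a x) (a y)) {ρ : ℝ} (hρ : 0 ≤ ρ)
    (S : Multiset L) (hS : ∀ s ∈ S, ρ < a s) :
    0 < a ((S.map fun s => Polynomial.X - Polynomial.C s).prod.coeff 0) ∧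
    (∀ k, a ((S.map fun s => Polynomial.X - Polynomial.C s).prod.coeff k) * ρ ^ k ≤
      a ((S.map fun s => Polynomial.X - Polynomial.C s).prod.coeff 0)) ∧
    ∀ k, 0 < k → a ((S.map fun s => Polynomial.X - Polynomial.C s).prod.coeff k) * ρ ^ k <
      a ((S.map fun s => Polynomial.X - Polynomial.C s).prod.coeff 0) := by
  induction S using Multiset.induction_on with
  | empty =>
    simp only [Multiset.map_zero, Multiset.prod_zero, Polynomial.coeff_one]
    refine ⟨by simp, fun k => ?_, fun k hk => ?_⟩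
    · split_ifs with h
      · subst h
        simp
      · simp
    · rw [if_neg hk.ne']
      simp
  | cons s S ih =>
    obtain ⟨h0, h1, h2⟩ := ih fun x hx => hS x (Multiset.mem_cons_of_mem hx)
    have hs := hS s (Multiset.mem_cons_self s S)
    have hs0 : 0 < a s := lt_of_le_of_lt hρ hs
    simp only [Multiset.map_cons, Multiset.prod_cons]
    set f := (S.map fun s => Polynomial.X - Polynomial.C s).prod with hf
    have e0 : ((Polynomial.X - Polynomial.C s) * f).coeff 0 = - (s * f.coeff 0) := by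
      rw [sub_mul, Polynomial.coeff_sub, Polynomial.coeff_X_mul_zero, Polynomial.coeff_C_mul]
      ring
    have e0' : a (((Polynomial.X - Polynomial.C s) * f).coeff 0) = a s * a (f.coeff 0) := by
      rw [e0, AbsoluteValue.map_neg, map_mul]
    have hstrict : ∀ k, 0 < k → a (((Polynomial.X - Polynomial.C s) * f).coeff k) * ρ ^ k <
        a s * a (f.coeff 0) := by
      intro k hk
      obtain ⟨j, rfl⟩ := Nat.exists_eq_succ_of_ne_zero hk.ne'
      have e1 : ((Polynomial.X - Polynomial.C s) * f).coeff (j + 1) =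
          f.coeff j - s * f.coeff (j + 1) := by
        rw [sub_mul, Polynomial.coeff_sub, Polynomial.coeff_X_mul, Polynomial.coeff_C_mul]
      rw [Nat.succ_eq_add_one, e1]
      refine lt_of_le_of_lt (mul_le_mul_of_nonneg_right (abs_sub_le' ha _ _) (by positivity)) ?_
      rw [max_mul_of_nonneg _ _ (by positivity)]
      refine max_lt ?_ ?_
      · calc a (f.coeff j) * ρ ^ (j + 1) = ρ * (a (f.coeff j) * ρ ^ j) := by ring
          _ ≤ ρ * a (f.coeff 0) := mul_le_mul_of_nonneg_left (h1 j) hρ
          _ < a s * a (f.coeff 0) := mul_lt_mul_of_pos_right hs h0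
      · rw [map_mul]
        calc a s * a (f.coeff (j + 1)) * ρ ^ (j + 1) = a s * (a (f.coeff (j + 1)) * ρ ^ (j + 1)) := by
              ring
          _ < a s * a (f.coeff 0) := mul_lt_mul_of_pos_left (h2 (j + 1) (Nat.succ_pos j)) hs0
    refine ⟨?_, fun k => ?_, fun k hk => ?_⟩
    · rw [e0']
      positivity
    · rcases Nat.eq_zero_or_pos k with rfl | hk
      · rw [pow_zero, mul_one]
      · rw [e0']
        exact (hstrict k hk).le
    · rw [e0']
      exact hstrict k hk

/-- A polynomial with small constant coefficient has a small root. -/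
theorem exists_small_root [IsAlgClosed L] (ha : ∀ x y, a (x + y) ≤ max (a x) (a y)) {ρ : ℝ}
    (hρ : 0 ≤ ρ) (f : Polynomial L) {k : ℕ} (hk : 0 < k) (hf : f.coeff k ≠ 0)
    (h : a (f.coeff 0) ≤ a (f.coeff k) * ρ ^ k) : ∃ s, f.eval s = 0 ∧ a s ≤ ρ := by
  by_contra hno
  push Not at hno
  have hf0 : f ≠ 0 := by
    rintro rfl
    exact hf (Polynomial.coeff_zero k)
  have hs : f.Splits := IsAlgClosed.splits f
  have h1 := coeff_lt_of_roots ha hρ f.roots (fun s hs => hno s (Polynomial.mem_roots'.1 hs).2)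
  have h2 : f = Polynomial.C f.leadingCoeff *
      (f.roots.map fun s => Polynomial.X - Polynomial.C s).prod := hs.eq_prod_roots
  have h3 := h1.2.2 k hk
  have hc : 0 < a f.leadingCoeff := a.pos (Polynomial.leadingCoeff_ne_zero.2 hf0)
  have h4 : ∀ j, f.coeff j = f.leadingCoeff *
      (f.roots.map fun s => Polynomial.X - Polynomial.C s).prod.coeff j := by
    intro j
    conv_lhs => rw [h2]
    rw [Polynomial.coeff_C_mul]
  rw [h4 0, h4 k, map_mul, map_mul, mul_assoc] at h
  exact absurd h (not_le.2 (mul_lt_mul_of_pos_left h3 hc))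

/-- A polynomial is bounded on the unit ball. -/
theorem eval_le (ha : ∀ x y, a (x + y) ≤ max (a x) (a y)) (f : Polynomial L) :
    ∃ B : ℝ, 0 < B ∧ ∀ x, a x ≤ 1 → a (f.eval x) ≤ B := by
  refine ⟨1 + ∑ i ∈ f.support, a (f.coeff i), ?_, fun x hx => ?_⟩
  · have : 0 ≤ ∑ i ∈ f.support, a (f.coeff i) := Finset.sum_nonneg fun i _ => a.nonneg _
    linarith
  · rw [Polynomial.eval_eq_sum, Polynomial.sum]
    refine Pool.Agent.K7.H6.PT.ultra_sum' ha _ _ ?_ fun i hi => ?_
    · have : 0 ≤ ∑ i ∈ f.support, a (f.coeff i) := Finset.sum_nonneg fun i _ => a.nonneg _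
      linarith
    · rw [map_mul, map_pow]
      have h1 := Finset.single_le_sum (f := fun i => a (f.coeff i)) (fun i _ => a.nonneg _) hi
      have h2 : a (f.coeff i) * a x ^ i ≤ a (f.coeff i) * 1 :=
        mul_le_mul_of_nonneg_left (pow_le_one₀ (a.nonneg _) hx) (a.nonneg _)
      linarith

/-- Near one a polynomial is comparable to a power of the distance to one. -/
theorem near_one (ha : ∀ x y, a (x + y) ≤ max (a x) (a y)) {f : Polynomial L} (hf : f ≠ 0) :
    ∃ δ c : ℝ, 0 < δ ∧ 0 < c ∧ ∀ x, a (x - 1) ≤ δ →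
      a (f.eval x) = c * a (x - 1) ^ f.rootMultiplicity 1 := by
  obtain ⟨g, hg1, hg2⟩ := Polynomial.exists_eq_pow_rootMultiplicity_mul_and_not_dvd f hf 1
  set m := f.rootMultiplicity 1
  have hg : g.eval 1 ≠ 0 := fun h => hg2 (Polynomial.dvd_iff_isRoot.2 h)
  have hgpos : 0 < a (g.eval 1) := a.pos hg
  obtain ⟨h, hh⟩ : (Polynomial.X - Polynomial.C (1 : L)) ∣ g - Polynomial.C (g.eval 1) := by
    rw [Polynomial.dvd_iff_isRoot]
    simp
  obtain ⟨B, hB, hB2⟩ := eval_le ha h
  refine ⟨min 1 (a (g.eval 1) / (2 * B)), a (g.eval 1), by positivity, hgpos, fun x hx => ?_⟩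
  have hx1 : a x ≤ 1 := by
    have h1 : x = (x - 1) + 1 := by ring
    rw [h1]
    exact (ha _ _).trans (max_le (hx.trans (min_le_left _ _)) (by rw [map_one]))
  have h1 : g.eval x = g.eval 1 + (x - 1) * h.eval x := by
    have h2 := congrArg (Polynomial.eval x) hh
    simp only [Polynomial.eval_sub, Polynomial.eval_mul, Polynomial.eval_X, Polynomial.eval_C] at h2
    linear_combination h2
  have h2 : a (g.eval x) = a (g.eval 1) := by
    rw [h1]
    refine abs_add_eq ha ?_
    rw [map_mul]
    calc a (x - 1) * a (h.eval x) ≤ (a (g.eval 1) / (2 * B)) * B :=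
          mul_le_mul (hx.trans (min_le_right _ _)) (hB2 x hx1) (a.nonneg _) (by positivity)
      _ = a (g.eval 1) / 2 := by field_simp
      _ < a (g.eval 1) := by linarith
  rw [hg1, Polynomial.eval_mul, Polynomial.eval_pow, Polynomial.eval_sub, Polynomial.eval_X,
    Polynomial.eval_C, map_mul, map_pow, h2, mul_comm]

end

end Pool.Agent.H20.RG
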