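import Pool.Agent.H20.RG.Level

/-!
# The lemma of Schwarz and other estimates
-/

set_option autoImplicit false
set_option linter.unusedSectionVars false

namespace Pool.Agent.H20.RG

open MvPolynomial Pool.Agent.Y129.TA
open Pool.Agent.K7.H6.PT (abs_sub_le' lipschitz)

section Val

variable {L : Type} [Field L] {a : AbsoluteValue L ℝ}

theorem prod_le_of_roots [IsAlgClosed L] {f : Polynomial L} {ρ : ℝ} (hρ : 0 ≤ ρ)
    (h : ∀ z, f.eval z = 0 → a z ≤ ρ) :
    a (f.eval 0) ≤ a f.leadingCoeff * ρ ^ f.natDegree := by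
  have hsp : f.Splits := IsAlgClosed.splits f
  rcases eq_or_ne f 0 with rfl | hf
  · simp
  have h1 : f.eval 0 = f.leadingCoeff * (f.roots.map fun τ => 0 - τ).prod := by
    conv_lhs => rw [hsp.eq_prod_roots]
    rw [Polynomial.eval_mul, Polynomial.eval_C, Polynomial.eval_multiset_prod, Multiset.map_map]
    simp
  have h2 : ∀ S : Multiset L, (∀ z ∈ S, a z ≤ ρ) →
      a ((S.map fun τ => 0 - τ).prod) ≤ ρ ^ Multiset.card S := by
    intro S
    induction S using Multiset.induction_on with
    | empty => simp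
    | cons τ S ih =>
      intro hS
      rw [Multiset.map_cons, Multiset.prod_cons, map_mul, zero_sub, AbsoluteValue.map_neg,
        Multiset.card_cons, pow_succ, mul_comm (ρ ^ _)]
      exact mul_le_mul (hS τ (Multiset.mem_cons_self τ S)) (ih fun z hz => hS z
        (Multiset.mem_cons_of_mem hz)) (a.nonneg _) hρ
  rw [h1, map_mul, hsp.natDegree_eq_card_roots]
  exact mul_le_mul_of_nonneg_left (h2 _ fun z hz => h z (Polynomial.mem_roots'.1 hz).2) (a.nonneg _)

theorem le_prod_of_roots [IsAlgClosed L] {f : Polynomial L} {ρ : ℝ} (hρ : 0 ≤ ρ)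
    (h : ∀ z, f.eval z = 0 → ρ ≤ a z) :
    a f.leadingCoeff * ρ ^ f.natDegree ≤ a (f.eval 0) := by
  have hsp : f.Splits := IsAlgClosed.splits f
  rcases eq_or_ne f 0 with rfl | hf
  · simp
  have h1 : f.eval 0 = f.leadingCoeff * (f.roots.map fun τ => 0 - τ).prod := by
    conv_lhs => rw [hsp.eq_prod_roots]
    rw [Polynomial.eval_mul, Polynomial.eval_C, Polynomial.eval_multiset_prod, Multiset.map_map]
    simp
  have h2 : ∀ S : Multiset L, (∀ z ∈ S, ρ ≤ a z) →
      ρ ^ Multiset.card S ≤ a ((S.map fun τ => 0 - τ).prod) := by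
    intro S
    induction S using Multiset.induction_on with
    | empty => simp
    | cons τ S ih =>
      intro hS
      rw [Multiset.map_cons, Multiset.prod_cons, map_mul, zero_sub, AbsoluteValue.map_neg,
        Multiset.card_cons, pow_succ, mul_comm (ρ ^ _)]
      exact mul_le_mul (hS τ (Multiset.mem_cons_self τ S)) (ih fun z hz => hS z
        (Multiset.mem_cons_of_mem hz)) (by positivity) (a.nonneg _)
  rw [h1, map_mul, hsp.natDegree_eq_card_roots]
  exact mul_le_mul_of_nonneg_left (h2 _ fun z hz => h z (Polynomial.mem_roots'.1 hz).2) (a.nonneg _)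

/-- One of the roots is close. -/
theorem exists_close_root [IsAlgClosed L] {f : Polynomial L} (hf : 0 < f.natDegree) {x : L} {t : ℝ}
    (ht : 0 ≤ t) (h : a (f.eval x) ≤ a f.leadingCoeff * t ^ f.natDegree) :
    ∃ z ∈ f.roots, a (x - z) ≤ t := by
  have hsp : f.Splits := IsAlgClosed.splits f
  have hf0 : f ≠ 0 := by
    rintro rfl
    simp at hf
  by_contra hno
  push Not at hno
  have h1 : f.eval x = f.leadingCoeff * (f.roots.map fun τ => x - τ).prod := by
    conv_lhs => rw [hsp.eq_prod_roots]
    rw [Polynomial.eval_mul, Polynomial.eval_C, Polynomial.eval_multiset_prod, Multiset.map_map]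
    simp
  have h2 : ∀ S : Multiset L, (∀ z ∈ S, t < a (x - z)) →
      t ^ Multiset.card S ≤ a ((S.map fun τ => x - τ).prod) ∧ (S ≠ 0 →
      t ^ Multiset.card S < a ((S.map fun τ => x - τ).prod)) := by
    intro S
    induction S using Multiset.induction_on with
    | empty => simp
    | cons τ S ih =>
      intro hS
      obtain ⟨h3, -⟩ := ih fun z hz => hS z (Multiset.mem_cons_of_mem hz)
      have h4 := hS τ (Multiset.mem_cons_self τ S)
      rw [Multiset.map_cons, Multiset.prod_cons, map_mul, Multiset.card_cons, pow_succ,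
        mul_comm (t ^ _)]
      have h5 : t * t ^ Multiset.card S < a (x - τ) * a ((S.map fun τ => x - τ).prod) := by
        rcases ht.eq_or_lt with h6 | h6
        · rw [← h6, zero_mul]
          rw [← h6] at h4
          refine mul_pos h4 ?_
          rcases eq_or_ne S 0 with rfl | hS0
          · simp
          · have hpos : ∀ S : Multiset L, (∀ z ∈ S, 0 < a (x - z)) →
                0 < a ((S.map fun τ => x - τ).prod) := by
              intro S
              induction S using Multiset.induction_on with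
              | empty => simp
              | cons τ S ih =>
                intro hS
                rw [Multiset.map_cons, Multiset.prod_cons, map_mul]
                exact mul_pos (hS τ (Multiset.mem_cons_self τ S)) (ih fun z hz => hS z
                  (Multiset.mem_cons_of_mem hz))
            exact hpos S fun z hz => by
              have := hS z (Multiset.mem_cons_of_mem hz)
              linarith
        · calc t * t ^ Multiset.card S < a (x - τ) * t ^ Multiset.card S :=
                mul_lt_mul_of_pos_right h4 (by positivity)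
            _ ≤ _ := mul_le_mul_of_nonneg_left h3 (a.nonneg _)
      exact ⟨h5.le, fun _ => h5⟩
  have hne : f.roots ≠ 0 := by
    intro h3
    rw [hsp.natDegree_eq_card_roots, h3] at hf
    simp at hf
  have h3 := (h2 f.roots hno).2 hne
  rw [h1, map_mul, hsp.natDegree_eq_card_roots] at h
  have h4 : 0 < a f.leadingCoeff := a.pos (Polynomial.leadingCoeff_ne_zero.2 hf0)
  exact absurd (le_of_mul_le_mul_left h h4) (not_le.2 h3)

/-- The lemma of Schwarz. -/
theorem schwarz [IsAlgClosed L] (ha : ∀ x y, a (x + y) ≤ max (a x) (a y)) {f : Polynomial L} {M : ℝ}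
    (hM : ∀ x, a x ≤ 1 → a (f.eval x) ≤ M) {x₀ : L} (hx₀ : a x₀ ≤ 1) (h0 : f.eval x₀ = 0) {q : ℝ}
    (hq : 0 < q) (hq1 : q < 1) {ϖ : L} (hϖ : a ϖ = q) (x : L) (hx : a x ≤ 1) :
    a (f.eval x) ≤ a (x - x₀) / q * M := by
  have hM0 : 0 ≤ M := (a.nonneg _).trans (hM x hx)
  rcases eq_or_ne f 0 with rfl | hf
  · rw [Polynomial.eval_zero, map_zero]
    positivity
  rcases le_or_gt (a (x - x₀)) q with hxq | hxq
  swap
  · refine (hM x hx).trans ?_
    have h1 : 1 ≤ a (x - x₀) / q := by rw [one_le_div hq]; exact hxq.le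
    exact le_mul_of_one_le_left hM0 h1
  obtain ⟨h, hh⟩ : (Polynomial.X - Polynomial.C x₀) ∣ f := Polynomial.dvd_iff_isRoot.2 h0
  have hh0 : h ≠ 0 := by
    rintro rfl
    rw [mul_zero] at hh
    exact hf hh
  -- a generic radius
  have hw : ∀ k : ℕ, ∃ w : L, w ^ (k + 1) = ϖ := fun k =>
    IsAlgClosed.exists_pow_nat_eq ϖ (Nat.succ_pos k)
  choose w hw using hw
  have hwa : ∀ k, a (w k) ^ (k + 1) = q := fun k => by rw [← map_pow, hw, hϖ]
  have hw0 : ∀ k, 0 < a (w k) := fun k => by
    rcases (a.nonneg (w k)).eq_or_lt with h1 | h1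
    · have h2 := hwa k
      rw [← h1, zero_pow (Nat.succ_ne_zero k)] at h2
      exact absurd h2 hq.ne
    · exact h1
  have hw1 : ∀ k, a (w k) < 1 := fun k => by
    by_contra h1
    push Not at h1
    have h2 := one_le_pow₀ h1 (n := k + 1)
    rw [hwa k] at h2
    linarith
  have hinj : Function.Injective fun k => a (w k) := by
    intro k l hkl
    have h1 := hwa k
    have h2 := hwa l
    have h3 : a (w k) = a (w l) := hkl
    rw [← h3] at h2
    have h4 : a (w k) ^ (k + 1) = a (w k) ^ (l + 1) := h1.trans h2.symm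
    have h5 := pow_right_injective₀ (hw0 k) (hw1 k).ne h4
    omega
  obtain ⟨k, hk⟩ : ∃ k, a (w k) ∉ (h.roots.map fun τ => a (τ - x₀)).toFinset := by
    by_contra hno
    push Not at hno
    exact (Set.infinite_range_of_injective hinj) ((Finset.finite_toSet _).subset
      (by rintro _ ⟨k, rfl⟩; exact hno k))
  have hk' : ∀ τ ∈ h.roots, a (w k) ≠ a (τ - x₀) := by
    intro τ hτ h1
    exact hk (Multiset.mem_toFinset.2 (Multiset.mem_map.2 ⟨τ, hτ, h1.symm⟩))
  have hqw : q ≤ a (w k) := by
    rw [← hwa k]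
    exact pow_le_of_le_one (hw0 k).le (hw1 k).le (Nat.succ_ne_zero k)
  -- comparison of the factors
  have hsp : h.Splits := IsAlgClosed.splits h
  have hev : ∀ y, h.eval y = h.leadingCoeff * (h.roots.map fun τ => y - τ).prod := by
    intro y
    conv_lhs => rw [hsp.eq_prod_roots]
    rw [Polynomial.eval_mul, Polynomial.eval_C, Polynomial.eval_multiset_prod, Multiset.map_map]
    simp
  have hcmp : ∀ S : Multiset L, (∀ τ ∈ S, a (w k) ≠ a (τ - x₀)) →
      a ((S.map fun τ => x - τ).prod) ≤ a ((S.map fun τ => (x₀ + w k) - τ).prod) := by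
    intro S
    induction S using Multiset.induction_on with
    | empty => simp
    | cons τ S ih =>
      intro hS
      rw [Multiset.map_cons, Multiset.prod_cons, map_mul, Multiset.map_cons, Multiset.prod_cons,
        map_mul]
      refine mul_le_mul ?_ (ih fun z hz => hS z (Multiset.mem_cons_of_mem hz)) (a.nonneg _)
        (a.nonneg _)
      have h1 := hS τ (Multiset.mem_cons_self τ S)
      have h2 : a (x - τ) ≤ max (a (w k)) (a (τ - x₀)) := by
        have h3 : x - τ = (x - x₀) - (τ - x₀) := by ring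
        rw [h3]
        exact (abs_sub_le' ha _ _).trans (max_le_max (hxq.trans hqw) le_rfl)
      refine h2.trans (le_of_eq ?_)
      rcases lt_or_gt_of_ne h1 with h3 | h3
      · rw [max_eq_right h3.le]
        have h4 : x₀ + w k - τ = -(τ - x₀) + w k := by ring
        rw [h4, abs_add_eq ha, AbsoluteValue.map_neg]
        rwa [AbsoluteValue.map_neg]
      · rw [max_eq_left h3.le]
        have h4 : x₀ + w k - τ = w k + -(τ - x₀) := by ring
        rw [h4, abs_add_eq ha]
        rwa [AbsoluteValue.map_neg]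
  have h1 : a (h.eval x) ≤ a (h.eval (x₀ + w k)) := by
    rw [hev, hev, map_mul, map_mul]
    exact mul_le_mul_of_nonneg_left (hcmp h.roots hk') (a.nonneg _)
  have h2 : a (f.eval (x₀ + w k)) = a (w k) * a (h.eval (x₀ + w k)) := by
    rw [hh, Polynomial.eval_mul, Polynomial.eval_sub, Polynomial.eval_X, Polynomial.eval_C, map_mul,
      add_sub_cancel_left]
  have h3 : a (f.eval (x₀ + w k)) ≤ M :=
    hM _ ((ha _ _).trans (max_le hx₀ (hw1 k).le))
  have h4 : q * a (h.eval (x₀ + w k)) ≤ M := by
    rw [h2] at h3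
    exact (mul_le_mul_of_nonneg_right hqw (a.nonneg _)).trans h3
  rw [hh, Polynomial.eval_mul, Polynomial.eval_sub, Polynomial.eval_X, Polynomial.eval_C, map_mul]
  calc a (x - x₀) * a (h.eval x) ≤ a (x - x₀) * a (h.eval (x₀ + w k)) :=
        mul_le_mul_of_nonneg_left h1 (a.nonneg _)
    _ = a (x - x₀) / q * (q * a (h.eval (x₀ + w k))) := by field_simp
    _ ≤ a (x - x₀) / q * M := mul_le_mul_of_nonneg_left h4 (by positivity)

variable {ι : Type} [Fintype ι]

/-- Far from the other coordinates the form is dominated by one coordinate. -/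
theorem far (ha : ∀ x y, a (x + y) ≤ max (a x) (a y)) {P : MvPolynomial ι L} {d : ℕ}
    (hP : P.IsHomogeneous d) (v : ι → L) (hv1 : ∀ i, a (v i) ≤ 1) (hv : eval v P ≠ 0) :
    ∃ R : ℝ, 1 ≤ R ∧ ∀ (s : L) (u : ι → L) (ρ : ℝ), (∀ i, a (u i) ≤ ρ) → R * ρ < a s →
      a (eval (fun i => u i + v i * s) P) = a (eval v P) * a s ^ d := by
  obtain ⟨B, hB, -, hB2⟩ := lipschitz ha one_pos P
  have hvp : 0 < a (eval v P) := a.pos hv
  refine ⟨1 + B / a (eval v P), by linarith [show 0 < B / a (eval v P) by positivity],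
    fun s u ρ hu hs => ?_⟩
  rcases isEmpty_or_nonempty ι with hι | hι
  · have h1 : (fun i => u i + v i * s) = fun i => s * v i := funext fun i => (hι.elim i)
    rw [h1, eval_smul_of_homogeneous hP, map_mul, map_pow, mul_comm]
  have hρ : 0 ≤ ρ := (a.nonneg _).trans (hu (Classical.arbitrary ι))
  have hBv : 0 < B / a (eval v P) := by positivity
  have hs0 : 0 < a s := lt_of_le_of_lt (by positivity) hs
  have hsne : s ≠ 0 := by
    rintro rfl
    rw [map_zero] at hs0
    exact lt_irrefl _ hs0
  have h1 : (fun i => u i + v i * s) = fun i => s * (u i / s + v i) := by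
    funext i
    field_simp
  rw [h1, eval_smul_of_homogeneous hP, map_mul, map_pow, mul_comm]
  congr 1
  have hρs : ρ / a s < 1 / (1 + B / a (eval v P)) := by
    rw [div_lt_div_iff₀ hs0 (by positivity)]
    linarith
  have hus : ∀ i, a (u i / s) ≤ ρ / a s := fun i => by
    rw [map_div₀]
    exact div_le_div_of_nonneg_right (hu i) hs0.le
  have hρs1 : ρ / a s ≤ 1 := by
    refine hρs.le.trans ?_
    rw [div_le_one (by positivity)]
    linarith
  have h2 := hB2 (fun i => u i / s + v i) v (fun i => (ha _ _).trans (max_le ((hus i).trans hρs1)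
    (hv1 i))) hv1 (ρ / a s) (by positivity) (fun i => by rw [add_sub_cancel_right]; exact hus i)
  have h3 : B * (ρ / a s) < a (eval v P) := by
    have h4 : B * (ρ / a s) < B * (1 / (1 + B / a (eval v P))) := mul_lt_mul_of_pos_left hρs hB
    refine h4.trans ?_
    rw [mul_one_div, div_lt_iff₀ (by positivity)]
    have h5 : a (eval v P) * (1 + B / a (eval v P)) = a (eval v P) + B := by field_simp
    rw [h5]
    linarith
  have h4 : eval (fun i => u i / s + v i) P = eval v P +
      (eval (fun i => u i / s + v i) P - eval v P) := by ring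
  rw [h4]
  exact abs_add_eq ha (lt_of_le_of_lt h2 h3)

end Val

variable {p : ℕ} [hp : Fact p.Prime] {K F : Type} [Field K] [Field F] [CharP F p]
  [IsAlgClosed K] [IsAlgClosed F]

/-- Elements very close to one lift to elements close to one. -/
theorem near_lift (T : Tilting p K F) {r : ℝ} (hr : 0 ≤ r) (hr1 : r ≤ 1) (j : ℕ) {x : K}
    (hx : T.absK x ≤ T.absK p ^ j * r) :
    ∃ l : F, T.sharp l = 1 + x ∧ T.absF l ≤ 1 ∧ T.absF (l - 1) ≤ max r (T.absK p) ^ p ^ j := by
  have hpj : 0 < p ^ j := pow_pos hp.out.pos j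
  let f : Polynomial K := (1 + Polynomial.X) ^ p ^ j - Polynomial.C (1 + x)
  have hf0 : f.coeff 0 = -x := by
    simp only [f]
    rw [Polynomial.coeff_sub, Polynomial.coeff_zero_eq_eval_zero, Polynomial.coeff_C_zero]
    simp
  have hf1 : f.coeff 1 = (p : K) ^ j := by
    simp only [f]
    rw [Polynomial.coeff_sub, Polynomial.coeff_one_add_X_pow, Polynomial.coeff_C,
      if_neg one_ne_zero, sub_zero, Nat.choose_one_right]
    push_cast
    rfl
  obtain ⟨y, hy, hyr⟩ := exists_small_root T.ultraK hr f one_pos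
    (by rw [hf1]; exact pow_ne_zero _ T.p_ne) (by
      rw [hf0, hf1, AbsoluteValue.map_neg, map_pow, pow_one]
      exact hx)
  have hy' : (1 + y) ^ p ^ j = 1 + x := by
    simp only [f] at hy
    rw [Polynomial.eval_sub, Polynomial.eval_pow, Polynomial.eval_add, Polynomial.eval_one,
      Polynomial.eval_X, Polynomial.eval_C, sub_eq_zero] at hy
    exact hy
  obtain ⟨m, hm⟩ := T.surj (1 + y)
  have hm1 : T.absF m ≤ 1 := by
    rw [← T.abs_sharp, hm]
    exact (T.ultraK _ _).trans (max_le (by rw [map_one]) (hyr.trans hr1))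
  have h1 := sub_le_sharp T hm1 (y := 1) (by rw [map_one])
  have h2 : T.sharp m - T.sharp 1 = y := by rw [hm, map_one]; ring
  rw [h2] at h1
  refine ⟨m ^ p ^ j, ?_, ?_, ?_⟩
  · rw [map_pow, hm, hy']
  · rw [map_pow]
    exact pow_le_one₀ (T.absF.nonneg _) hm1
  · have h3 : m ^ p ^ j - 1 = (m - 1) ^ p ^ j := by
      rw [sub_pow_char_pow, one_pow]
    rw [h3, map_pow]
    exact pow_le_pow_left₀ (T.absF.nonneg _) (h1.trans (max_le_max hyr le_rfl)) _

end Pool.Agent.H20.RG
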