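import Pool.Agent.H20.RG.Radius

/-!
# Polynomials along sequences of radii
-/

set_option autoImplicit false
set_option linter.unusedSectionVars false

namespace Pool.Agent.H20.RG

open Pool.Agent.Y129.TA WittVector
open Pool.Agent.K7.H6.PT (abs_nat_le ultra_sum' abs_sub_le')

section Val

variable {L : Type} [Field L] [IsAlgClosed L] {a : AbsoluteValue L ℝ}

/-- Along an increasing sequence of radii the absolute value of a polynomial is finally monomial. -/
theorem eventually_monomial (ha : ∀ x y, a (x + y) ≤ max (a x) (a y)) {f : Polynomial L}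
    (hf : f ≠ 0) {s : ℕ → ℝ} (hs : StrictMono s) (hs0 : ∀ m, 0 < s m) :
    ∃ (i : ℕ) (C : ℝ) (m₀ : ℕ), 0 < C ∧ ∀ m, m₀ ≤ m → ∀ t, a t = s m →
      a (f.eval t) = C * s m ^ i := by
  have key : ∀ S : Multiset L, ∃ (i : ℕ) (C : ℝ) (m₀ : ℕ), 0 < C ∧ ∀ m, m₀ ≤ m → ∀ t, a t = s m →
      a ((S.map fun τ => t - τ).prod) = C * s m ^ i := by
    intro S
    induction S using Multiset.induction_on with
    | empty => exact ⟨0, 1, 0, one_pos, fun m _ t _ => by simp⟩
    | cons τ S ih =>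
      obtain ⟨i, C, m₀, hC, h⟩ := ih
      by_cases hτ : ∃ m, a τ < s m
      · obtain ⟨m₁, hm₁⟩ := hτ
        refine ⟨i + 1, C, max m₀ m₁, hC, fun m hm t ht => ?_⟩
        rw [Multiset.map_cons, Multiset.prod_cons, map_mul, h m ((le_max_left _ _).trans hm) t ht]
        have h1 : a τ < a t := by
          rw [ht]
          exact hm₁.trans_le (hs.monotone ((le_max_right _ _).trans hm))
        have h2 : a (t - τ) = s m := by
          rw [sub_eq_add_neg, abs_add_eq ha (by rw [AbsoluteValue.map_neg]; exact h1), ht]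
        rw [h2, pow_succ]
        ring
      · push Not at hτ
        have h1 : ∀ m, s m < a τ := fun m => (hs (Nat.lt_succ_self m)).trans_le (hτ _)
        refine ⟨i, a τ * C, m₀, mul_pos ((hs0 0).trans (h1 0)) hC, fun m hm t ht => ?_⟩
        rw [Multiset.map_cons, Multiset.prod_cons, map_mul, h m hm t ht]
        have h2 : a (t - τ) = a τ := by
          have h3 : t - τ = -τ + t := by ring
          rw [h3, abs_add_eq ha, AbsoluteValue.map_neg]
          rw [AbsoluteValue.map_neg, ht]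
          exact h1 m
        rw [h2]
        ring
  obtain ⟨i, C, m₀, hC, h⟩ := key f.roots
  have hc : 0 < a f.leadingCoeff := a.pos (Polynomial.leadingCoeff_ne_zero.2 hf)
  refine ⟨i, a f.leadingCoeff * C, m₀, mul_pos hc hC, fun m hm t ht => ?_⟩
  have hsp : f.Splits := IsAlgClosed.splits f
  have h1 : f.eval t = f.leadingCoeff * (f.roots.map fun τ => t - τ).prod := by
    conv_lhs => rw [hsp.eq_prod_roots]
    rw [Polynomial.eval_mul, Polynomial.eval_C, Polynomial.eval_multiset_prod, Multiset.map_map]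
    simp
  rw [h1, map_mul, h m hm t ht, mul_assoc]

end Val

section Radii

/-- the exponents `1/(p-1) + 1/(m+2)` -/
noncomputable def expo (p m : ℕ) : ℝ := 1 / ((p : ℝ) - 1) + 1 / ((m : ℝ) + 2)

/-- the radii -/
noncomputable def rad (q : ℝ) (p m : ℕ) : ℝ := q ^ expo p m

theorem rad_pos {q : ℝ} (hq : 0 < q) (p m : ℕ) : 0 < rad q p m := Real.rpow_pos_of_pos hq _

theorem expo_strictAnti (p : ℕ) : StrictAnti (expo p) := by
  refine strictAnti_nat_of_succ_lt fun m => ?_
  unfold expo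
  push_cast
  have h1 : (0 : ℝ) < (m : ℝ) + 2 := by positivity
  have h2 : 1 / ((m : ℝ) + 1 + 2) < 1 / ((m : ℝ) + 2) := by
    apply one_div_lt_one_div_of_lt h1
    linarith
  linarith

theorem rad_strictMono {q : ℝ} (hq : 0 < q) (hq1 : q < 1) (p : ℕ) : StrictMono (rad q p) := by
  intro m n hmn
  exact Real.rpow_lt_rpow_of_exponent_gt hq hq1 (expo_strictAnti p hmn)

theorem rad_pow {q : ℝ} (hq : 0 < q) {p : ℕ} (hp : 2 ≤ p) (m : ℕ) :
    rad q p m ^ (p - 1) = q ^ (1 + ((p : ℝ) - 1) / ((m : ℝ) + 2)) := by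
  unfold rad expo
  rw [← Real.rpow_natCast, ← Real.rpow_mul hq.le]
  congr 1
  have h1 : ((p - 1 : ℕ) : ℝ) = (p : ℝ) - 1 := by
    rw [Nat.cast_sub (by omega), Nat.cast_one]
  rw [h1]
  have h2 : (p : ℝ) - 1 ≠ 0 := by
    have : (2 : ℝ) ≤ p := by exact_mod_cast hp
    linarith
  field_simp

theorem rad_pow_lt {q : ℝ} (hq : 0 < q) (hq1 : q < 1) {p : ℕ} (hp : 2 ≤ p) (m : ℕ) :
    rad q p m ^ (p - 1) < q := by
  rw [rad_pow hq hp]
  conv_rhs => rw [← Real.rpow_one q]
  apply Real.rpow_lt_rpow_of_exponent_gt hq hq1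
  have h1 : (2 : ℝ) ≤ p := by exact_mod_cast hp
  have h2 : 0 < ((p : ℝ) - 1) / ((m : ℝ) + 2) := by
    apply div_pos <;> [linarith; positivity]
  linarith

theorem lt_rad_pow {q : ℝ} (hq : 0 < q) (hq1 : q < 1) {p : ℕ} (hp : 2 ≤ p) (m : ℕ) :
    q ^ p < rad q p m ^ (p - 1) := by
  rw [rad_pow hq hp, ← Real.rpow_natCast]
  apply Real.rpow_lt_rpow_of_exponent_gt hq hq1
  have h1 : (2 : ℝ) ≤ p := by exact_mod_cast hp
  have h2 : ((p : ℝ) - 1) / ((m : ℝ) + 2) < (p : ℝ) - 1 := by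
    rw [div_lt_iff₀ (by positivity)]
    have : (0 : ℝ) ≤ m := by positivity
    nlinarith
  linarith

theorem rad_lt_one {q : ℝ} (hq : 0 < q) (hq1 : q < 1) {p : ℕ} (hp : 2 ≤ p) (m : ℕ) :
    rad q p m < 1 := by
  have h1 := (rad_pow_lt hq hq1 hp m).trans hq1
  by_contra h
  push Not at h
  exact absurd (one_le_pow₀ h (n := p - 1)) (not_le.2 h1)

theorem rad_tendsto {q : ℝ} (hq : 0 < q) (p : ℕ) :
    Filter.Tendsto (rad q p) Filter.atTop (nhds (q ^ (1 / ((p : ℝ) - 1)))) := by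
  have h1 : Filter.Tendsto (expo p) Filter.atTop (nhds (1 / ((p : ℝ) - 1) + 0)) := by
    refine tendsto_const_nhds.add ?_
    have h2 : Filter.Tendsto (fun m : ℕ => (1 : ℝ) / ((m : ℝ) + 1)) Filter.atTop (nhds 0) :=
      tendsto_one_div_add_atTop_nhds_zero_nat
    have h3 := h2.comp (Filter.tendsto_add_atTop_nat 1)
    refine h3.congr fun m => ?_
    simp only [Function.comp_apply]
    push_cast
    ring_nf
  rw [add_zero] at h1
  exact (Real.continuous_const_rpow hq.ne').tendsto _ |>.comp h1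

/-- The radii are eventually large enough. -/
theorem eventually_rad {q : ℝ} (hq : 0 < q) {p : ℕ} (hp : 2 ≤ p) {ε : ℝ} (hε : 0 ≤ ε) {j : ℕ}
    (h : ε ^ (p - 1) < q ^ (j * (p - 1) + 1)) : ∃ m₀, ∀ m, m₀ ≤ m → ε < q ^ j * rad q p m := by
  have hp1 : p - 1 ≠ 0 := by omega
  have h1 : ε < q ^ j * q ^ (1 / ((p : ℝ) - 1)) := by
    refine lt_of_pow_lt_pow_left₀ (p - 1) (by positivity) ?_
    refine h.trans_le (le_of_eq ?_)
    rw [mul_pow, ← pow_mul, pow_succ]
    congr 1
    rw [← Real.rpow_natCast, ← Real.rpow_mul hq.le]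
    have h2 : ((p - 1 : ℕ) : ℝ) = (p : ℝ) - 1 := by
      rw [Nat.cast_sub (by omega), Nat.cast_one]
    have h3 : (p : ℝ) - 1 ≠ 0 := by
      have : (2 : ℝ) ≤ p := by exact_mod_cast hp
      linarith
    rw [h2, one_div, inv_mul_cancel₀ h3, Real.rpow_one]
  have h2 := ((rad_tendsto hq p).const_mul (q ^ j)).eventually (lt_mem_nhds h1)
  obtain ⟨m₀, hm₀⟩ := Filter.eventually_atTop.1 h2
  exact ⟨m₀, hm₀⟩

end Radii

variable {p : ℕ} [hp : Fact p.Prime] {K F : Type} [Field K] [Field F] [CharP F p]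
  [IsAlgClosed K] [IsAlgClosed F]

/-- There are elements with these radii. -/
theorem exists_rad (T : TiltPair p K F) (m : ℕ) : ∃ x : K, T.absK x = rad (T.absK p) p m := by
  have hq : 0 < T.absK p := T.absK.pos T.p_ne
  have hp2 := hp.out.two_le
  have hN : 0 < (p - 1) * (m + 2) := Nat.mul_pos (by omega) (by omega)
  obtain ⟨x, hx⟩ := IsAlgClosed.exists_pow_nat_eq ((p : K) ^ ((m + 2) + (p - 1))) hN
  refine ⟨x, ?_⟩
  have h1 := congrArg T.absK hx
  rw [map_pow, map_pow] at h1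
  refine (pow_left_inj₀ (T.absK.nonneg _) (rad_pos hq p m).le hN.ne').1 ?_
  rw [h1]
  unfold rad expo
  rw [← Real.rpow_natCast, ← Real.rpow_natCast, ← Real.rpow_mul hq.le]
  congr 1
  push_cast [Nat.cast_sub (show 1 ≤ p by omega)]
  have h3 : (p : ℝ) - 1 ≠ 0 := by
    have : (2 : ℝ) ≤ p := by exact_mod_cast hp2
    linarith
  field_simp

end Pool.Agent.H20.RG
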