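import Pool.Graph.R_pool_sql_team_seeded_35f281b4.K7.H6.PT.Tube
import Pool.Graph.R_pool_sql_team_seeded_35f281b4.K7.H6.PT.Sharp

/-!
# The sharp map near the point one
-/

set_option autoImplicit false
set_option linter.unusedSectionVars false

namespace Pool.Agent.H20.RG

open MvPolynomial Pool.Agent.Y129.TA WittVector
open Pool.Agent.K7.H6.PT (abs_nat_le ultra_sum' abs_sub_le' pow_sub_le sharp_sub_le sharp_cont)

section Val

variable {L : Type} [Field L] {a : AbsoluteValue L ℝ}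

theorem abs_add_eq (ha : ∀ x y, a (x + y) ≤ max (a x) (a y)) {x y : L} (h : a y < a x) :
    a (x + y) = a x := by
  refine le_antisymm ((ha x y).trans (max_le le_rfl h.le)) ?_
  by_contra hlt
  push Not at hlt
  have h1 : x = (x + y) - y := by ring
  have h2 := abs_sub_le' ha (x + y) y
  rw [← h1] at h2
  exact absurd h2 (not_le.2 (max_lt hlt h))

/-- `|u ^ p - 1| = |p| |u - 1|` close to one. -/
theorem pow_near (ha : ∀ x y, a (x + y) ≤ max (a x) (a y)) {p : ℕ} (hp : p.Prime) {u : L}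
    (hp0 : (p : L) ≠ 0) (hp1 : a (p : L) < 1) (h1 : u ≠ 1) (hu : a (u - 1) ^ (p - 1) < a (p : L)) :
    a (u ^ p - 1) = a (p : L) * a (u - 1) := by
  set w := u - 1 with hw
  have hw0 : w ≠ 0 := sub_ne_zero.2 h1
  have hwpos : 0 < a w := a.pos hw0
  have hw1 : a w < 1 := by
    by_contra h
    push Not at h
    have h2 : 1 ≤ a w ^ (p - 1) := one_le_pow₀ h
    linarith
  have hppos : 0 < a (p : L) := a.pos hp0
  have e : u ^ p - 1 = (p : L) * w + ((p : L) * (w * ∑ k ∈ Finset.Ioo 0 (p - 1),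
      w ^ k * ((p.choose (k + 1) / p : ℕ) : L)) + w ^ p) := by
    have h2 : u = w + 1 := by rw [hw]; ring
    have h3 := add_pow_prime_eq' hp w (1 : L)
    rw [h2, h3, one_pow]
    have h4 : (Finset.Ioo 0 p) = insert 1 ((Finset.Ioo 0 (p - 1)).image (· + 1)) := by
      have := hp.two_le
      ext x
      simp only [Finset.mem_Ioo, Finset.mem_insert, Finset.mem_image]
      constructor
      · intro hx
        by_cases h5 : x = 1
        · exact Or.inl h5
        · refine Or.inr ⟨x - 1, by omega, by omega⟩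
      · rintro (rfl | ⟨y, hy, rfl⟩) <;> omega
    rw [h4, Finset.sum_insert (by
      simp only [Finset.mem_image, Finset.mem_Ioo]
      rintro ⟨x, hx, hx2⟩
      omega), Finset.sum_image (by intro x _ y _ h; simpa using h)]
    have h5 : p.choose 1 / p = 1 := by
      rw [Nat.choose_one_right]
      exact Nat.div_self hp.pos
    rw [h5]
    simp only [one_pow, mul_one, Nat.cast_one, pow_one, Finset.mul_sum, mul_add]
    have h6 : ∀ k : ℕ, w * (w ^ k * ((p.choose (k + 1) / p : ℕ) : L)) =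
        w ^ (k + 1) * ((p.choose (k + 1) / p : ℕ) : L) := fun k => by ring
    simp only [h6]
    ring
  rw [e, abs_add_eq ha, map_mul]
  rw [map_mul]
  refine lt_of_le_of_lt (ha _ _) (max_lt ?_ ?_)
  · rw [map_mul]
    refine mul_lt_mul_of_pos_left ?_ hppos
    rw [map_mul]
    refine lt_of_le_of_lt (mul_le_mul_of_nonneg_left (ultra_sum' ha _ _ hwpos.le
      fun k hk => ?_) hwpos.le) ?_
    · rw [Finset.mem_Ioo] at hk
      rw [map_mul, map_pow]
      calc a w ^ k * a ((p.choose (k + 1) / p : ℕ) : L) ≤ a w * 1 :=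
            mul_le_mul (pow_le_of_le_one hwpos.le hw1.le (by omega)) (abs_nat_le ha _)
              (a.nonneg _) hwpos.le
        _ = a w := mul_one _
    · exact mul_lt_of_lt_one_right hwpos hw1
  · rw [map_pow]
    have h2 : a w ^ p = a w ^ (p - 1) * a w := by
      rw [← pow_succ]
      congr 1
      have := hp.pos
      omega
    rw [h2]
    exact mul_lt_mul_of_pos_right hu hwpos

/-- Iterated powers close to one. -/
theorem pow_near_iter (ha : ∀ x y, a (x + y) ≤ max (a x) (a y)) {p : ℕ} (hp : p.Prime) {u : L}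
    (hp0 : (p : L) ≠ 0) (hp1 : a (p : L) < 1) (h1 : u ≠ 1) (hu : a (u - 1) ^ (p - 1) < a (p : L))
    (i : ℕ) : a (u ^ p ^ i - 1) = a (p : L) ^ i * a (u - 1) := by
  have hpos : 0 < a (u - 1) := a.pos (sub_ne_zero.2 h1)
  have hppos : 0 < a (p : L) := a.pos hp0
  induction i with
  | zero => simp
  | succ i ih =>
    have h2 : u ^ p ^ (i + 1) = (u ^ p ^ i) ^ p := by rw [pow_succ, pow_mul]
    rw [h2, pow_near ha hp hp0 hp1 ?_ ?_, ih, pow_succ]
    · ring
    · intro h3
      rw [h3, sub_self, map_zero] at ih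
      have : 0 < a (p : L) ^ i * a (u - 1) := by positivity
      linarith
    · rw [ih, mul_pow]
      refine lt_of_le_of_lt ?_ hu
      exact mul_le_of_le_one_left (by positivity) (pow_le_one₀ (by positivity)
        (pow_le_one₀ hppos.le hp1.le))

end Val

variable {p : ℕ} [hp : Fact p.Prime] {K F : Type} [Field K] [Field F] [CharP F p] [IsAlgClosed F]

/-- If the images under the sharp map are close then the points are close. -/
theorem sub_le_sharp (T : Tilting p K F) {x y : F} (hx : T.absF x ≤ 1) (hy : T.absF y ≤ 1) :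
    T.absF (x - y) ≤ max (T.absK (T.sharp x - T.sharp y)) (T.absK p) := by
  let z : WittVector p T.O := teichmuller p (⟨x, hx⟩ : T.O) - teichmuller p (⟨y, hy⟩ : T.O)
  have h1 : T.θ z = T.sharp x - T.sharp y := by
    rw [map_sub, T.θ_teich, T.θ_teich]
  have h2 : ((z.coeff 0 : T.O) : F) = x - y := by
    have h3 : z.coeff 0 = (⟨x, hx⟩ : T.O) - ⟨y, hy⟩ := by
      have h4 := map_sub (WittVector.constantCoeff (p := p) (R := T.O))
        (teichmuller p (⟨x, hx⟩ : T.O)) (teichmuller p (⟨y, hy⟩ : T.O))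
      change z.coeff 0 = (teichmuller p (⟨x, hx⟩ : T.O)).coeff 0 -
        (teichmuller p (⟨y, hy⟩ : T.O)).coeff 0 at h4
      rw [teichmuller_coeff_zero, teichmuller_coeff_zero] at h4
      exact h4
    rw [h3]
    rfl
  have h3 := Tilting.abs_sub_le T z
  rw [← h1, ← h2, ← T.abs_sharp]
  have h4 : T.sharp ((z.coeff 0 : T.O) : F) = T.θ z - (T.θ z - T.sharp ((z.coeff 0 : T.O) : F)) := by
    ring
  rw [h4]
  exact (abs_sub_le' T.ultraK _ _).trans (max_le_max le_rfl h3)

/-- The sharp map is not the restriction of a power series near one: the distance to one of the image is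
larger than every power of the distance to one. -/
theorem exists_near_one (T : Tilting p K F) (M : ℕ) {C δ : ℝ} (hC : 0 < C) (hδ : 0 < δ)
    (E : Set F) (hE : E.Finite) :
    ∃ l : F, l ∉ E ∧ l ≠ 1 ∧ T.absF (l - 1) ≤ δ ∧
      C * T.absF (l - 1) < T.absK (T.sharp l - 1) ^ M := by
  have hp0 : 0 < T.absK p := T.absK.pos T.p_ne
  -- the starting point
  obtain ⟨l₀, hl₀⟩ := T.surj (1 + (p : K) ^ 2)
  have hw : T.sharp l₀ - 1 = (p : K) ^ 2 := by rw [hl₀]; ring
  have hwa : T.absK (T.sharp l₀ - 1) = T.absK p ^ 2 := by rw [hw, map_pow]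
  have hw1 : T.absK p ^ 2 < 1 := pow_lt_one₀ hp0.le T.p_lt (by norm_num)
  have hl1 : T.sharp l₀ ≠ 1 := by
    intro h
    rw [h, sub_self] at hw
    exact pow_ne_zero 2 T.p_ne hw.symm
  have hnear : T.absK (T.sharp l₀ - 1) ^ (p - 1) < T.absK p := by
    rw [hwa]
    have h2 : 0 < p - 1 := by have := hp.out.two_le; omega
    calc (T.absK p ^ 2) ^ (p - 1) ≤ T.absK p ^ 2 := pow_le_of_le_one (by positivity) hw1.le h2.ne'
      _ < T.absK p := by
        rw [pow_two]
        exact mul_lt_of_lt_one_right hp0 T.p_lt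
  have hl₀ne : l₀ ≠ 1 := by
    rintro rfl
    exact hl1 (map_one _)
  have habs : T.absF l₀ ≤ 1 := by
    rw [← T.abs_sharp, hl₀]
    refine (T.ultraK _ _).trans (max_le (by rw [map_one]) ?_)
    rw [map_pow]
    exact hw1.le
  set r := T.absF (l₀ - 1) with hr
  have hr0 : 0 < r := T.absF.pos (sub_ne_zero.2 hl₀ne)
  have hr1 : r < 1 := by
    have h2 := sub_le_sharp T habs (y := 1) (by rw [map_one])
    rw [map_one, hwa] at h2
    exact lt_of_le_of_lt h2 (max_lt hw1 T.p_lt)
  -- the sequence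
  have hF : ∀ i : ℕ, T.absF (l₀ ^ p ^ i - 1) = r ^ p ^ i := by
    intro i
    have h2 : l₀ ^ p ^ i - 1 = (l₀ - 1) ^ p ^ i := by
      rw [sub_pow_char_pow, one_pow]
    rw [h2, map_pow]
  have hK : ∀ i : ℕ, T.absK (T.sharp (l₀ ^ p ^ i) - 1) = T.absK p ^ i * T.absK p ^ 2 := by
    intro i
    rw [map_pow, pow_near_iter T.ultraK hp.out T.p_ne T.p_lt hl1 hnear, hwa]
  have hinj : Function.Injective fun i : ℕ => l₀ ^ p ^ i := by
    intro i j hij
    have h2 : r ^ p ^ i = r ^ p ^ j := by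
      rw [← hF i, ← hF j]
      exact congrArg (fun x => T.absF (x - 1)) hij
    have h3 := pow_right_injective₀ hr0 hr1.ne h2
    exact Nat.pow_right_injective hp.out.two_le h3
  -- comparison
  set q := T.absK p ^ M with hq
  have hq0 : 0 < q := by positivity
  obtain ⟨N, hN⟩ := exists_pow_lt_of_lt_one (show (0 : ℝ) < q / 2 by positivity) hr1
  have hc0 : 0 < T.absK p ^ (2 * M) / C := by positivity
  obtain ⟨n₁, hn₁⟩ := exists_pow_lt_of_lt_one hc0 (show (1 / 2 : ℝ) < 1 by norm_num)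
  obtain ⟨n₂, hn₂⟩ := exists_pow_lt_of_lt_one hδ hr1
  have hlarge : ∃ n₃ : ℕ, ∀ i, n₃ ≤ i → N * i ≤ p ^ i := by
    refine ⟨2 * N + 2, fun i hi => ?_⟩
    have h2 : N * i ≤ 2 ^ i := by
      have h3 : N ≤ 2 ^ (i / 2 + i / 2) / (i + 1) ∨ True := Or.inr trivial
      clear h3
      -- `2 ^ i ≥ i ^ 2 / 2` for large `i`
      have h4 : ∀ k : ℕ, k * k ≤ 2 ^ (k + 1) := by
        intro k
        induction k with
        | zero => norm_num
        | succ k ih =>
          rcases Nat.lt_or_ge k 3 with h | h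
          · interval_cases k <;> norm_num
          · rw [pow_succ]
            nlinarith
      have h5 := h4 i
      have h6 : 2 * (N * i) ≤ i * i := by nlinarith
      rw [pow_succ] at h5
      omega
    exact h2.trans (Nat.pow_le_pow_left hp.out.two_le i)
  obtain ⟨n₃, hn₃⟩ := hlarge
  have hfin : {i : ℕ | l₀ ^ p ^ i ∈ E}.Finite := hE.preimage hinj.injOn
  obtain ⟨i, hi, hiE⟩ : ∃ i, max n₁ (max n₂ n₃) ≤ i ∧ i ∉ {i : ℕ | l₀ ^ p ^ i ∈ E} := by
    have h2 := (Set.Ici_infinite (max n₁ (max n₂ n₃))).exists_notMem_finset hfin.toFinset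
    obtain ⟨i, hi, hi2⟩ := h2
    exact ⟨i, hi, by rwa [Set.Finite.mem_toFinset] at hi2⟩
  have hi1 : n₁ ≤ i := (le_max_left _ _).trans hi
  have hi2 : n₂ ≤ i := (le_max_left _ _).trans ((le_max_right _ _).trans hi)
  have hi3 : n₃ ≤ i := (le_max_right _ _).trans ((le_max_right _ _).trans hi)
  have hipi : i ≤ p ^ i := (Nat.lt_pow_self hp.out.one_lt).le
  refine ⟨l₀ ^ p ^ i, hiE, ?_, ?_, ?_⟩
  · intro h
    have h2 := hF i
    rw [h, sub_self, map_zero] at h2
    have : 0 < r ^ p ^ i := by positivity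
    linarith
  · rw [hF]
    calc r ^ p ^ i ≤ r ^ n₂ := pow_le_pow_of_le_one hr0.le hr1.le (hi2.trans hipi)
      _ ≤ δ := hn₂.le
  · rw [hF, hK]
    have h2 : r ^ p ^ i ≤ (q / 2) ^ i := by
      calc r ^ p ^ i ≤ r ^ (N * i) := pow_le_pow_of_le_one hr0.le hr1.le (hn₃ i hi3)
        _ = (r ^ N) ^ i := pow_mul _ _ _
        _ ≤ (q / 2) ^ i := pow_le_pow_left₀ (by positivity) hN.le i
    have h3 : (1 / 2 : ℝ) ^ i < T.absK p ^ (2 * M) / C :=
      lt_of_le_of_lt (pow_le_pow_of_le_one (by norm_num) (by norm_num) hi1) hn₁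
    calc C * r ^ p ^ i ≤ C * (q / 2) ^ i := mul_le_mul_of_nonneg_left h2 hC.le
      _ = q ^ i * (C * (1 / 2) ^ i) := by rw [div_pow, one_div, inv_pow]; field_simp
      _ < q ^ i * T.absK p ^ (2 * M) := by
        refine mul_lt_mul_of_pos_left ?_ (by positivity)
        rw [lt_div_iff₀ hC] at h3
        linarith
      _ = (T.absK p ^ i * T.absK p ^ 2) ^ M := by
        rw [hq, mul_pow, ← pow_mul, ← pow_mul, ← pow_mul, mul_comm M i]

end Pool.Agent.H20.RG
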