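import Pool.Agent.H20.RG.Root

/-!
# Slices by one-parameter subgroups
-/

set_option autoImplicit false
set_option linter.unusedSectionVars false

namespace Pool.Agent.H20.RG

open MvPolynomial Pool.Agent.Y129.TA
open Pool.Agent.K7.H6.PT (abs_nat_le ultra_sum' abs_sub_le')

section

variable {σ : Type} [Fintype σ]

/-- the weight of a monomial -/
def dot (w : σ → ℤ) (a : σ →₀ ℕ) : ℤ := ∑ i, w i * (a i : ℤ)

/-- the weight of a monomial, nonnegative weights -/
def dotN (k : σ → ℕ) (a : σ →₀ ℕ) : ℕ := ∑ i, k i * a i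

/-- There are weights which separate finitely many monomials. -/
theorem exists_sep (S : Finset (σ →₀ ℕ)) : ∃ k : σ → ℕ, Set.InjOn (dotN k) (S : Set (σ →₀ ℕ)) := by
  classical
  let Φ : MvPolynomial σ ℤ := ∏ x ∈ (S ×ˢ S).filter (fun x => x.1 ≠ x.2),
    ∑ i, C ((x.1 i : ℤ) - (x.2 i : ℤ)) * X i
  have hΦ : Φ ≠ 0 := by
    rw [Finset.prod_ne_zero_iff]
    rintro ⟨a, b⟩ hab h0
    rw [Finset.mem_filter] at hab
    obtain ⟨i, hi⟩ : ∃ i, a i ≠ b i := by
      by_contra h
      push Not at h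
      exact hab.2 (Finsupp.ext h)
    have h1 := congrArg (eval (Pi.single i (1 : ℤ))) h0
    rw [map_sum, map_zero] at h1
    simp only [map_mul, eval_C, eval_X, Pi.single_apply, mul_ite, mul_one, mul_zero] at h1
    rw [Finset.sum_ite_eq' Finset.univ i] at h1
    simp only [Finset.mem_univ, if_true, sub_eq_zero] at h1
    exact hi (by exact_mod_cast h1)
  have hinf : ∀ _ : σ, (Set.range (Nat.cast : ℕ → ℤ)).Infinite := fun _ =>
    Set.infinite_range_of_injective Nat.cast_injective
  have h2 : ∃ x ∈ Set.pi Set.univ (fun _ : σ => Set.range (Nat.cast : ℕ → ℤ)), eval x Φ ≠ 0 := by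
    by_contra hno
    push Not at hno
    exact hΦ (MvPolynomial.funext_set (fun _ : σ => Set.range (Nat.cast : ℕ → ℤ)) hinf
      fun x hx => by rw [hno x hx, map_zero])
  obtain ⟨x, hx, hx0⟩ := h2
  choose k hk using fun i => hx i (Set.mem_univ i)
  refine ⟨k, fun a ha b hb hab => ?_⟩
  by_contra hne
  apply hx0
  simp only [Φ]
  rw [map_prod]
  refine Finset.prod_eq_zero (i := (a, b)) (Finset.mem_filter.2 ⟨Finset.mem_product.2 ⟨ha, hb⟩, hne⟩) ?_
  rw [map_sum]
  simp only [map_mul, eval_C, eval_X]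
  have h3 : ((dotN k a : ℕ) : ℤ) = ((dotN k b : ℕ) : ℤ) := congrArg _ hab
  unfold dotN at h3
  push_cast at h3
  have h4 : ∀ i, ((a i : ℤ) - (b i : ℤ)) * x i = (k i : ℤ) * a i - (k i : ℤ) * b i := by
    intro i
    rw [← hk i]
    ring
  rw [Finset.sum_congr rfl fun i _ => h4 i, Finset.sum_sub_distrib, h3, sub_self]

variable {L : Type} [Field L]

/-- the polynomial on the surface `z λ ^ k s ^ w` -/
noncomputable def slice (g : MvPolynomial σ L) (z : σ → L) (k : σ → ℕ) (w : σ → ℤ) (h : ℤ) :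
    Polynomial (Polynomial L) :=
  ∑ a ∈ g.support, Polynomial.monomial (dot w a - h).toNat
    (Polynomial.monomial (dotN k a) (g.coeff a * ∏ i, z i ^ a i))

theorem slice_coeff (g : MvPolynomial σ L) (z : σ → L) (k : σ → ℕ) (w : σ → ℤ) (h : ℤ) (j : ℕ) :
    (slice g z k w h).coeff j = ∑ a ∈ g.support, if (dot w a - h).toNat = j then
      Polynomial.monomial (dotN k a) (g.coeff a * ∏ i, z i ^ a i) else 0 := by
  unfold slice
  rw [Polynomial.finsetSum_coeff]
  refine Finset.sum_congr rfl fun a _ => ?_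
  rw [Polynomial.coeff_monomial]

theorem slice_coeff_eval_one (g : MvPolynomial σ L) (z : σ → L) (k : σ → ℕ) (w : σ → ℤ) (h : ℤ)
    (j : ℕ) : ((slice g z k w h).coeff j).eval 1 =
      ∑ a ∈ g.support, if (dot w a - h).toNat = j then g.coeff a * ∏ i, z i ^ a i else 0 := by
  rw [slice_coeff, Polynomial.eval_finsetSum]
  refine Finset.sum_congr rfl fun a _ => ?_
  split_ifs
  · rw [Polynomial.eval_monomial, one_pow, mul_one]
  · rw [Polynomial.eval_zero]

theorem slice_coeff_zero_ne {g : MvPolynomial σ L} {z : σ → L} (hz : ∀ i, z i ≠ 0) {k : σ → ℕ}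
    (hk : Set.InjOn (dotN k) (g.support : Set (σ →₀ ℕ))) {w : σ → ℤ} {h : ℤ} {a₀ : σ →₀ ℕ}
    (ha₀ : a₀ ∈ g.support) (h0 : dot w a₀ = h) : (slice g z k w h).coeff 0 ≠ 0 := by
  intro h1
  have h2 := congrArg (fun f => Polynomial.coeff f (dotN k a₀)) h1
  simp only [slice_coeff, Polynomial.finsetSum_coeff, Polynomial.coeff_zero] at h2
  rw [Finset.sum_eq_single a₀] at h2
  · rw [if_pos (by rw [h0, sub_self]; rfl), Polynomial.coeff_monomial, if_pos rfl] at h2
    exact mul_ne_zero (mem_support_iff.1 ha₀) (Finset.prod_ne_zero_iff.2 fun i _ =>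
      pow_ne_zero _ (hz i)) h2
  · intro b hb hba
    split_ifs
    · rw [Polynomial.coeff_monomial, if_neg]
      intro h3
      exact hba (hk hb ha₀ h3)
    · exact Polynomial.coeff_zero _
  · intro h3
    exact absurd ha₀ h3

theorem prod_zpow_sum {s : L} (hs : s ≠ 0) {τ : Type} (t : Finset τ) (e : τ → ℤ) :
    ∏ i ∈ t, s ^ e i = s ^ ∑ i ∈ t, e i := by
  classical
  induction t using Finset.induction_on with
  | empty => simp
  | insert i t hi ih => rw [Finset.prod_insert hi, Finset.sum_insert hi, zpow_add₀ hs, ih]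

theorem slice_eval {g : MvPolynomial σ L} {z : σ → L} {k : σ → ℕ} {w : σ → ℤ} {h : ℤ}
    (hw : ∀ a ∈ g.support, h ≤ dot w a) (l : L) {s : L} (hs : s ≠ 0) :
    s ^ h * ((slice g z k w h).map (Polynomial.evalRingHom l)).eval s =
      eval (fun i => z i * l ^ k i * s ^ w i) g := by
  unfold slice
  rw [eval_eq', Polynomial.map_sum, Polynomial.eval_finsetSum, Finset.mul_sum]
  refine Finset.sum_congr rfl fun a ha => ?_
  rw [Polynomial.map_monomial, Polynomial.eval_monomial]
  simp only [Polynomial.coe_evalRingHom, Polynomial.eval_monomial]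
  have h1 : s ^ h * s ^ (dot w a - h).toNat = s ^ dot w a := by
    rw [← zpow_natCast, ← zpow_add₀ hs]
    congr 1
    have := hw a ha
    omega
  have h2 : (∏ i, (z i * l ^ k i * s ^ w i) ^ a i) =
      (∏ i, z i ^ a i) * l ^ dotN k a * s ^ dot w a := by
    simp only [mul_pow, Finset.prod_mul_distrib]
    congr 1
    · congr 1
      unfold dotN
      rw [← Finset.prod_pow_eq_pow_sum]
      exact Finset.prod_congr rfl fun i _ => (pow_mul _ _ _).symm
    · unfold dot
      rw [← prod_zpow_sum hs]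
      exact Finset.prod_congr rfl fun i _ => by rw [zpow_mul, zpow_natCast]
  rw [h2, ← h1]
  ring

end

section Core

variable {σ : Type} [Fintype σ]
variable {p : ℕ} [hp : Fact p.Prime] {K F : Type} [Field K] [Field F] [CharP F p] [IsAlgClosed F]

theorem sharp_zpow (T : TiltPair p K F) (x : F) (n : ℤ) : T.sharp (x ^ n) = T.sharp x ^ n := by
  rcases eq_or_ne x 0 with rfl | hx
  · rcases eq_or_ne n 0 with rfl | hn
    · simp
    · rw [zero_zpow n hn, T.sharp_zero, zero_zpow n hn]
  · have h1 : ∀ y : F, y ≠ 0 → T.sharp y⁻¹ = (T.sharp y)⁻¹ := by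
      intro y hy
      refine eq_inv_of_mul_eq_one_left ?_
      rw [← map_mul, inv_mul_cancel₀ hy, map_one]
    cases n with
    | ofNat n => simp
    | negSucc n => rw [zpow_negSucc, zpow_negSucc, h1 _ (pow_ne_zero _ hx), map_pow]

/-- The key step: a polynomial which vanishes on the image of a hypersurface under the sharp map is zero
if the hypersurface has a suitable point at the boundary. -/
theorem core (T : Tilting p K F) {g : MvPolynomial σ F} {P : MvPolynomial σ K}
    (hP0 : P ≠ 0)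
    (hP : ∀ y : σ → F, (∀ i, y i ≠ 0) → eval y g = 0 → eval (fun i => T.sharp (y i)) P = 0)
    (w : σ → ℤ) (h : ℤ) (hw : ∀ a ∈ g.support, h ≤ dot w a) (z : σ → F) (hz : ∀ i, z i ≠ 0)
    (h0 : (∑ a ∈ g.support, if dot w a = h then g.coeff a * ∏ i, z i ^ a i else 0) = 0)
    (hne : ∃ a ∈ g.support, dot w a = h) (j : ℤ) (hj : h < j)
    (h1 : (∑ a ∈ g.support, if dot w a = j then g.coeff a * ∏ i, z i ^ a i else 0) ≠ 0) :
    False := by
  classical
  obtain ⟨k, hk⟩ := exists_sep (g.support ∪ P.support)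
  have hkg : Set.InjOn (dotN k) (g.support : Set (σ →₀ ℕ)) :=
    hk.mono (by simp)
  have hkP : Set.InjOn (dotN k) (P.support : Set (σ →₀ ℕ)) :=
    hk.mono (by simp)
  set G := slice g z k w h with hG
  -- the constant term
  have hG0 : G.coeff 0 ≠ 0 := by
    obtain ⟨a, ha, ha2⟩ := hne
    exact slice_coeff_zero_ne hz hkg ha ha2
  have hG01 : (G.coeff 0).eval 1 = 0 := by
    rw [hG, slice_coeff_eval_one]
    refine Eq.trans (Finset.sum_congr rfl fun a ha => ?_) h0
    have := hw a ha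
    refine if_congr ?_ rfl rfl
    omega
  -- the higher term
  set n : ℕ := (j - h).toNat with hn
  have hn0 : 0 < n := by omega
  have hGn : (G.coeff n).eval 1 ≠ 0 := by
    rw [hG, slice_coeff_eval_one]
    intro h2
    apply h1
    refine Eq.trans (Finset.sum_congr rfl fun a ha => ?_) h2
    have := hw a ha
    refine if_congr ?_ rfl rfl
    omega
  have hGn0 : G.coeff n ≠ 0 := by
    intro h2
    rw [h2, Polynomial.eval_zero] at hGn
    exact hGn rfl
  obtain ⟨δ₁, c₁, hδ₁, hc₁, hn1⟩ := near_one T.ultraF hGn0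
  have hmul : (G.coeff n).rootMultiplicity 1 = 0 :=
    Polynomial.rootMultiplicity_eq_zero hGn
  obtain ⟨q, hq⟩ : (Polynomial.X - Polynomial.C (1 : F)) ∣ G.coeff 0 :=
    Polynomial.dvd_iff_isRoot.2 hG01
  obtain ⟨B, hB, hB2⟩ := eval_le T.ultraF q
  -- the polynomial over `K`
  obtain ⟨a₁, ha₁, hmin⟩ := Finset.exists_min_image P.support (dot w)
    (MvPolynomial.support_nonempty.2 hP0)
  set h' := dot w a₁ with hh'
  set Q := slice P (fun i => T.sharp (z i)) k w h' with hQ
  have hQ0 : Q.coeff 0 ≠ 0 := slice_coeff_zero_ne (fun i => T.sharp_ne (hz i)) hkP ha₁ rfl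
  obtain ⟨δ₂, c₂, hδ₂, hc₂, hn2⟩ := near_one T.ultraK hQ0
  set m := (Q.coeff 0).rootMultiplicity 1 with hm
  -- bound for the other coefficients of `Q`
  choose BQ hBQ hBQ2 using fun i => eval_le T.ultraK (Q.coeff i)
  set B' : ℝ := ∑ i ∈ Finset.range (Q.natDegree + 1), BQ i with hB'
  have hB'0 : 0 < B' := Finset.sum_pos (fun i _ => hBQ i) ⟨0, by simp⟩
  -- the constants
  set δ : ℝ := min (min 1 δ₁) (min 1 (c₁ / B)) with hδdef
  have hδ : 0 < δ := by positivity
  obtain ⟨δ₃, hδ₃, hcont⟩ := Pool.Agent.K7.H6.PT.sharp_cont T (ε := δ₂) hδ₂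
  obtain ⟨l, hlE, hl1, hlδ, hlt⟩ := exists_near_one T (m * n)
    (C := (B' / c₂) ^ n * (B / c₁)) (δ := min δ δ₃) (by positivity) (by positivity)
    ({x | (G.coeff 0).eval x = 0} ∪ {0})
    ((Polynomial.finite_setOfPred_isRoot hG0).union (Set.finite_singleton 0))
  have hlE' : (G.coeff 0).eval l ≠ 0 := fun h2 => hlE (Or.inl h2)
  have hl0 : l ≠ 0 := fun h2 => hlE (Or.inr h2)
  have hlδ' : T.absF (l - 1) ≤ δ := hlδ.trans (min_le_left _ _)
  have hl1' : T.absF (l - 1) ≤ 1 :=
    hlδ'.trans ((min_le_left _ _).trans (min_le_left _ _))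
  have habsl : T.absF l ≤ 1 := by
    have h2 : l = (l - 1) + 1 := by ring
    rw [h2]
    exact (T.ultraF _ _).trans (max_le hl1' (by rw [map_one]))
  have hpos : 0 < T.absF (l - 1) := T.absF.pos (sub_ne_zero.2 hl1)
  -- the small root
  set ρ : ℝ := ((B / c₁) * T.absF (l - 1)) ^ ((1 : ℝ) / n) with hρ
  have hρn : ρ ^ n = (B / c₁) * T.absF (l - 1) := by
    rw [hρ, ← Real.rpow_natCast, ← Real.rpow_mul (by positivity)]
    rw [one_div, inv_mul_cancel₀ (by exact_mod_cast hn0.ne'), Real.rpow_one]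
  have hρ0 : 0 ≤ ρ := by positivity
  have hcoef : ∀ i, ((G.map (Polynomial.evalRingHom l)).coeff i) = (G.coeff i).eval l := by
    intro i
    rw [Polynomial.coeff_map]
    rfl
  have hGnl : T.absF ((G.coeff n).eval l) = c₁ := by
    rw [hn1 l (hlδ'.trans ((min_le_left _ _).trans (min_le_right _ _))), hmul, pow_zero, mul_one]
  obtain ⟨s, hs1, hs2⟩ := exists_small_root T.ultraF hρ0 (G.map (Polynomial.evalRingHom l)) hn0
    (by
      rw [hcoef]
      intro h2
      rw [h2, map_zero] at hGnl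
      exact hc₁.ne hGnl)
    (by
      rw [hcoef, hcoef, hGnl, hρn, hq, Polynomial.eval_mul, Polynomial.eval_sub, Polynomial.eval_X,
        Polynomial.eval_C, map_mul]
      calc T.absF (l - 1) * T.absF (q.eval l) ≤ T.absF (l - 1) * B :=
            mul_le_mul_of_nonneg_left (hB2 l habsl) hpos.le
        _ = c₁ * (B / c₁ * T.absF (l - 1)) := by field_simp)
  have hs0 : s ≠ 0 := by
    rintro rfl
    rw [← Polynomial.coeff_zero_eq_eval_zero, hcoef] at hs1
    exact hlE' hs1
  have hsn : T.absF s ^ n ≤ (B / c₁) * T.absF (l - 1) := by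
    rw [← hρn]
    exact pow_le_pow_left₀ (T.absF.nonneg _) hs2 n
  have hs1' : T.absF s ≤ 1 := by
    have h2 : T.absF s ^ n ≤ 1 := by
      refine hsn.trans ?_
      calc (B / c₁) * T.absF (l - 1) ≤ (B / c₁) * (c₁ / B) :=
            mul_le_mul_of_nonneg_left (hlδ'.trans ((min_le_right _ _).trans (min_le_right _ _)))
              (by positivity)
        _ = 1 := by field_simp
    exact (pow_le_one_iff_of_nonneg (T.absF.nonneg _) hn0.ne').1 h2
  -- the point
  have hy := hP (fun i => z i * l ^ k i * s ^ w i) (fun i => mul_ne_zero (mul_ne_zero (hz i)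
    (pow_ne_zero _ hl0)) (zpow_ne_zero _ hs0)) (by
      rw [← slice_eval hw l hs0, ← hG, hs1, mul_zero])
  have hS0 : T.sharp s ≠ 0 := T.sharp_ne hs0
  have hy2 : ((Q.map (Polynomial.evalRingHom (T.sharp l))).eval (T.sharp s)) = 0 := by
    have h2 := slice_eval (g := P) (z := fun i => T.sharp (z i)) (k := k) (w := w) hmin (T.sharp l) hS0
    have h3 : eval (fun i => T.sharp (z i) * T.sharp l ^ k i * T.sharp s ^ w i) P = 0 := by
      rw [← hy]
      congr 2
      ext i
      rw [map_mul, map_mul, map_pow, sharp_zpow]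
    rw [h3] at h2
    exact (mul_eq_zero.1 h2).resolve_left (zpow_ne_zero _ hS0)
  have habsL : T.absK (T.sharp l) ≤ 1 := by rw [T.abs_sharp]; exact habsl
  have habsS : T.absK (T.sharp s) ≤ 1 := by rw [T.abs_sharp]; exact hs1'
  -- the estimate over `K`
  have hest : T.absK ((Q.coeff 0).eval (T.sharp l)) ≤ B' * T.absK (T.sharp s) := by
    have h2 : (Q.coeff 0).eval (T.sharp l) = - ∑ i ∈ Finset.range Q.natDegree,
        (Q.coeff (i + 1)).eval (T.sharp l) * T.sharp s ^ (i + 1) := by
      have h3 := hy2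
      rw [Polynomial.eval_eq_sum_range' (n := Q.natDegree + 1)
        (Nat.lt_succ_of_le Polynomial.natDegree_map_le), Finset.sum_range_succ'] at h3
      simp only [Polynomial.coeff_map, Polynomial.coe_evalRingHom, pow_zero, mul_one] at h3
      linear_combination h3
    rw [h2, AbsoluteValue.map_neg]
    refine ultra_sum' T.ultraK _ _ (by positivity) fun i hi => ?_
    rw [map_mul, map_pow]
    have h3 : BQ (i + 1) ≤ B' := Finset.single_le_sum (f := BQ) (fun i _ => (hBQ i).le)
      (by rw [Finset.mem_range] at hi ⊢; omega)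
    calc T.absK ((Q.coeff (i + 1)).eval (T.sharp l)) * T.absK (T.sharp s) ^ (i + 1)
        ≤ BQ (i + 1) * T.absK (T.sharp s) := by
          refine mul_le_mul (hBQ2 _ _ habsL) ?_ (by positivity) (hBQ _).le
          exact pow_le_of_le_one (T.absK.nonneg _) habsS (Nat.succ_ne_zero i)
      _ ≤ B' * T.absK (T.sharp s) := mul_le_mul_of_nonneg_right h3 (T.absK.nonneg _)
  have hclose : T.absK (T.sharp l - 1) ≤ δ₂ := by
    have h2 := hcont l 1 habsl (by rw [map_one]) (hlδ.trans (min_le_right _ _))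
    rwa [map_one] at h2
  rw [hn2 _ hclose] at hest
  have hfin : T.absK (T.sharp l - 1) ^ (m * n) ≤ (B' / c₂) ^ n * (B / c₁) * T.absF (l - 1) := by
    have h2 : T.absK (T.sharp l - 1) ^ m ≤ (B' / c₂) * T.absF s := by
      rw [T.abs_sharp] at hest
      rw [div_mul_eq_mul_div, le_div_iff₀ hc₂]
      linarith
    calc T.absK (T.sharp l - 1) ^ (m * n) = (T.absK (T.sharp l - 1) ^ m) ^ n := pow_mul _ _ _
      _ ≤ ((B' / c₂) * T.absF s) ^ n := pow_le_pow_left₀ (by positivity) h2 n
      _ = (B' / c₂) ^ n * T.absF s ^ n := mul_pow _ _ _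
      _ ≤ (B' / c₂) ^ n * ((B / c₁) * T.absF (l - 1)) :=
          mul_le_mul_of_nonneg_left hsn (by positivity)
      _ = _ := by ring
  exact absurd hlt (not_lt.2 hfin)

end Core

end Pool.Agent.H20.RG
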