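import Pool.Agent.H20.RG.Par

/-!
# Varieties with binomial relations
-/

set_option autoImplicit false
set_option linter.unusedSectionVars false

namespace Pool.Agent.H20.RG

open MvPolynomial Pool.Agent.Y129.TA

section Struct

variable {L : Type} [Field L] [IsAlgClosed L] {ι : Type} [Fintype ι]

theorem prod_zpow_distrib {τ κ : Type} [Fintype τ] [Fintype κ] (u : τ → L) (hu : ∀ t, u t ≠ 0)
    (A : κ → τ → ℤ) (m : κ → ℤ) :
    ∏ k, (∏ t, u t ^ A k t) ^ m k = ∏ t, u t ^ ∑ k, A k t * m k := by
  have h1 : ∀ k, (∏ t, u t ^ A k t) ^ m k = ∏ t, u t ^ (A k t * m k) := by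
    intro k
    rw [← Finset.prod_zpow]
    exact Finset.prod_congr rfl fun t _ => (zpow_mul _ _ _).symm
  simp only [h1]
  rw [Finset.prod_comm]
  exact Finset.prod_congr rfl fun t _ => prod_zpow_sum (hu t) _ _

/-- A variety all of whose nonzero coordinates satisfy binomial relations over independent coordinates
contains a coset of a torus of full dimension. -/
theorem exists_par [DecidableEq ι] (P : Ideal (MvPolynomial ι L)) [hP : P.IsPrime] (B : Finset ι)
    (hind : Indep P (fun b : B => (b : ι)))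
    (hrel : ∀ j, X j ∉ P → ∃ (k : ℕ) (m : B → ℤ) (c : L), 0 < k ∧ c ≠ 0 ∧
      ∀ y : ι → L, (∀ q ∈ P, eval y q = 0) → (∀ i, X i ∉ P → y i ≠ 0) →
        y j ^ k = c * ∏ b : B, y b ^ m b) :
    ∃ (y₀ : ι → L) (k : ℕ) (M : ι → B → ℤ), 0 < k ∧ (∀ i, y₀ i = 0 ↔ X i ∈ P) ∧
      (∀ b b' : B, M b b' = if b = b' then (k : ℤ) else 0) ∧
      ∀ u : B → L, (∀ t, u t ≠ 0) → ∀ q ∈ P, eval (par y₀ M u) q = 0 := by
  classical
  have hinf : Infinite L := IsAlgClosed.instInfinite
  -- the coordinates which do not vanish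
  let S : Finset ι := Finset.univ.filter fun i => X i ∉ P
  have hS : ∀ i, i ∈ S ↔ X i ∉ P := fun i => by simp [S]
  have hBS : ∀ b : B, X (b : ι) ∉ P := by
    intro b hb
    have h1 := hind (X b) (by rw [rename_X]; exact hb)
    exact X_ne_zero b h1
  have hprodS : ∏ i ∈ S, X i ∉ P := by
    intro h
    obtain ⟨i, hi, hiP⟩ := (hP.prod_mem_iff).1 h
    exact (hS i).1 hi hiP
  -- a common exponent
  let kk : ι → ℕ := fun j => if h : X j ∈ P then 1 else (hrel j h).choose
  have hkk : ∀ j, 0 < kk j := by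
    intro j
    simp only [kk]
    split_ifs with h
    · exact one_pos
    · exact (hrel j h).choose_spec.choose_spec.choose_spec.1
  let k : ℕ := ∏ j, kk j
  have hk : 0 < k := Finset.prod_pos fun j _ => hkk j
  have hkdvd : ∀ j, kk j ∣ k := fun j => Finset.dvd_prod_of_mem _ (Finset.mem_univ j)
  have hrel2 : ∀ j, X j ∉ P → ∃ (m : B → ℤ) (c : L), c ≠ 0 ∧
      ∀ y : ι → L, (∀ q ∈ P, eval y q = 0) → (∀ i, X i ∉ P → y i ≠ 0) →
        y j ^ k = c * ∏ b : B, y b ^ m b := by
    intro j hj
    have h1 : kk j = (hrel j hj).choose := by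
      simp only [kk]
      rw [dif_neg hj]
    obtain ⟨m, c, -, hc, h2⟩ := (hrel j hj).choose_spec
    rw [← h1] at h2
    obtain ⟨n, hn⟩ := hkdvd j
    refine ⟨fun b => m b * n, c ^ n, pow_ne_zero _ hc, fun y hy hy0 => ?_⟩
    rw [hn, pow_mul, h2 y hy hy0, mul_pow, ← Finset.prod_pow]
    congr 1
    exact Finset.prod_congr rfl fun b _ => by rw [zpow_mul, zpow_natCast]
  let M : ι → B → ℤ := fun j => if h : j ∈ B then fun b' => if (⟨j, h⟩ : B) = b' then (k : ℤ) else 0
    else if h' : X j ∈ P then fun _ => 0 else (hrel2 j h').choose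
  have hMB : ∀ b b' : B, M b b' = if b = b' then (k : ℤ) else 0 := by
    intro b b'
    simp only [M]
    rw [dif_pos b.2]
  have hM : ∀ j, X j ∉ P → ∃ c : L, c ≠ 0 ∧
      ∀ y : ι → L, (∀ q ∈ P, eval y q = 0) → (∀ i, X i ∉ P → y i ≠ 0) →
        y j ^ k = c * ∏ b : B, y b ^ M j b := by
    intro j hj
    by_cases hjB : j ∈ B
    · refine ⟨1, one_ne_zero, fun y _ _ => ?_⟩
      have h1 : ∀ b : B, y b ^ M j b = if (⟨j, hjB⟩ : B) = b then y b ^ k else 1 := by
        intro b
        rw [show M j b = M (⟨j, hjB⟩ : B) b from rfl, hMB]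
        split_ifs
        · rw [zpow_natCast]
        · rw [zpow_zero]
      rw [Finset.prod_congr rfl fun b _ => h1 b, Finset.prod_ite_eq, if_pos (Finset.mem_univ _),
        one_mul]
    · obtain ⟨c, hc, h1⟩ := (hrel2 j hj).choose_spec
      refine ⟨c, hc, fun y hy hy0 => ?_⟩
      rw [h1 y hy hy0]
      simp only [M]
      rw [dif_neg hjB, dif_neg hj]
  -- a point of the open part
  obtain ⟨y₁, hy₁, hy₁S⟩ : ∃ y₁ : ι → L, (∀ q ∈ P, eval y₁ q = 0) ∧ ∀ i, X i ∉ P → y₁ i ≠ 0 := by
    by_contra hno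
    push Not at hno
    apply hprodS
    have h1 : ∏ i ∈ S, X i ∈ P.radical := by
      rw [← vanishingIdeal_zeroLocus_eq_radical (K := L), mem_vanishingIdeal_iff]
      intro z hz
      obtain ⟨i, hi, hi0⟩ := hno z fun q hq => by
        have := hz q hq
        rwa [aeval_eq_eval] at this
      rw [aeval_eq_eval, map_prod]
      exact Finset.prod_eq_zero ((hS i).2 hi) (by rw [eval_X, hi0])
    rwa [hP.radical] at h1
  have hy₁0 : ∀ i, X i ∈ P → y₁ i = 0 := fun i hi => by
    have := hy₁ _ hi
    rwa [eval_X] at this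
  -- the cosets
  let Zk : Finset (ι → L) := Fintype.piFinset fun _ => Polynomial.nthRootsFinset k (1 : L)
  have hZk : ∀ ζ : ι → L, ζ ∈ Zk ↔ ∀ i, ζ i ^ k = 1 := by
    intro ζ
    simp only [Zk]
    rw [Fintype.mem_piFinset]
    exact forall_congr' fun i => Polynomial.mem_nthRootsFinset hk 1
  have hcover : ∀ y : ι → L, (∀ q ∈ P, eval y q = 0) → (∀ i, X i ∉ P → y i ≠ 0) →
      ∃ ζ ∈ Zk, ∃ u : B → L, (∀ t, u t ≠ 0) ∧ y = par (fun i => y₁ i * ζ i) M u := by
    intro y hy hy0
    choose u hu using fun b : B => IsAlgClosed.exists_pow_nat_eq (y b / y₁ b) hk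
    have hu0 : ∀ b, u b ≠ 0 := by
      intro b h1
      have h2 := hu b
      rw [h1, zero_pow hk.ne'] at h2
      exact div_ne_zero (hy0 b (hBS b)) (hy₁S b (hBS b)) h2.symm
    have hpu : ∀ i, (∏ t, u t ^ M i t) ≠ 0 := fun i =>
      Finset.prod_ne_zero_iff.2 fun t _ => zpow_ne_zero _ (hu0 t)
    let ζ : ι → L := fun i => if X i ∈ P then 1 else (y i / y₁ i) / ∏ t, u t ^ M i t
    refine ⟨ζ, (hZk ζ).2 fun i => ?_, u, hu0, ?_⟩
    · simp only [ζ]
      split_ifs with hi
      · exact one_pow _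
      · obtain ⟨c, hc, h1⟩ := hM i hi
        rw [div_pow, div_pow, h1 y hy hy0, h1 y₁ hy₁ hy₁S, mul_div_mul_left _ _ hc,
          ← Finset.prod_div_distrib, ← Finset.prod_pow]
        have h2 : ∀ b : B, y b ^ M i b / y₁ b ^ M i b = (u b ^ M i b) ^ k := by
          intro b
          rw [← div_zpow, ← hu b, ← zpow_natCast (u b), ← zpow_natCast (u b ^ M i b), ← zpow_mul,
            ← zpow_mul, mul_comm]
        rw [Finset.prod_congr rfl fun b _ => h2 b]
        refine div_self (Finset.prod_ne_zero_iff.2 fun b _ => pow_ne_zero _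
          (zpow_ne_zero _ (hu0 b)))
    · funext i
      unfold par
      simp only [ζ]
      split_ifs with hi
      · rw [hy₁0 i hi, zero_mul, zero_mul]
        have := hy _ hi
        rwa [eval_X] at this
      · have h1 := hy₁S i hi
        have h2 := hpu i
        field_simp
  -- one of the cosets is dense
  obtain ⟨ζ, hζ, hle⟩ : ∃ ζ ∈ Zk, parIdeal (fun i => y₁ i * ζ i) M ≤ P := by
    by_contra hno
    push Not at hno
    have h1 : ∀ ζ ∈ Zk, ∃ q ∈ parIdeal (fun i => y₁ i * ζ i) M, q ∉ P := fun ζ hζ =>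
      SetLike.not_le_iff_exists.1 (hno ζ hζ)
    choose! q hq hqP using h1
    have h2 : (∏ ζ ∈ Zk, q ζ) * ∏ i ∈ S, X i ∈ P.radical := by
      rw [← vanishingIdeal_zeroLocus_eq_radical (K := L), mem_vanishingIdeal_iff]
      intro z hz
      rw [aeval_eq_eval, map_mul, map_prod, map_prod]
      have hz' : ∀ q ∈ P, eval z q = 0 := fun q hq => by
        have := hz q hq
        rwa [aeval_eq_eval] at this
      by_cases h3 : ∀ i, X i ∉ P → z i ≠ 0
      · obtain ⟨ζ, hζ, u, hu, hzu⟩ := hcover z hz' h3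
        rw [Finset.prod_eq_zero hζ, zero_mul]
        rw [hzu]
        exact hq ζ hζ u hu
      · push Not at h3
        obtain ⟨i, hi, hi0⟩ := h3
        rw [Finset.prod_eq_zero (f := fun i => eval z (X i)) ((hS i).2 hi)
          (by rw [eval_X, hi0]), mul_zero]
    rw [hP.radical] at h2
    rcases hP.mem_or_mem h2 with h3 | h3
    · obtain ⟨ζ, hζ, h4⟩ := (hP.prod_mem_iff).1 h3
      exact hqP ζ hζ h4
    · exact hprodS h3
  have hζ0 : ∀ i, ζ i ≠ 0 := by
    intro i h
    have h1 := (hZk ζ).1 hζ i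
    rw [h, zero_pow hk.ne'] at h1
    exact zero_ne_one h1
  set y₀ : ι → L := fun i => y₁ i * ζ i with hy₀
  have hy₀0 : ∀ i, y₀ i = 0 ↔ X i ∈ P := by
    intro i
    constructor
    · intro h
      by_contra hi
      exact mul_ne_zero (hy₁S i hi) (hζ0 i) h
    · intro h
      simp only [y₀]
      rw [hy₁0 i h, zero_mul]
  have hpr : (parIdeal y₀ M).IsPrime := parIdeal_prime y₀ M
  have hXpar : ∀ i, X i ∉ P → X i ∉ parIdeal y₀ M := fun i hi h => hi (hle h)
  -- algebraicity
  have halg : AlgOver (parIdeal y₀ M) (fun b : B => (b : ι)) := by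
    intro i
    by_cases hi : X i ∈ P
    · have h1 : (X i : MvPolynomial ι L) ∈ parIdeal y₀ M := by
        intro u _
        rw [eval_X]
        unfold par
        rw [(hy₀0 i).2 hi, zero_mul]
      rw [Ideal.Quotient.eq_zero_iff_mem.2 h1]
      exact isAlgebraic_zero
    · -- the relation
      let C₀ : L := y₀ i ^ k / ∏ b : B, y₀ b ^ M i b
      have hrelpar : ∀ u : B → L, (∀ t, u t ≠ 0) →
          par y₀ M u i ^ k * ∏ b : B, par y₀ M u b ^ (-(M i b)).toNat =
            C₀ * ∏ b : B, par y₀ M u b ^ (M i b).toNat := by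
        intro u hu
        have hb : ∀ b : B, par y₀ M u b = y₀ b * u b ^ k := by
          intro b
          unfold par
          congr 1
          have h1 : ∀ t : B, u t ^ M b t = if b = t then u t ^ k else 1 := by
            intro t
            rw [hMB]
            split_ifs
            · rw [zpow_natCast]
            · rw [zpow_zero]
          rw [Finset.prod_congr rfl fun t _ => h1 t, Finset.prod_ite_eq, if_pos (Finset.mem_univ _)]
        have hb0 : ∀ b : B, y₀ b ≠ 0 := fun b h => hBS b ((hy₀0 b).1 h)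
        have hpb0 : ∀ b : B, par y₀ M u b ≠ 0 := fun b => by
          rw [hb]
          exact mul_ne_zero (hb0 b) (pow_ne_zero _ (hu b))
        have h1 : par y₀ M u i ^ k = C₀ * ∏ b : B, par y₀ M u b ^ M i b := by
          have h2 : ∏ b : B, par y₀ M u b ^ M i b =
              (∏ b : B, y₀ b ^ M i b) * (∏ t, u t ^ M i t) ^ k := by
            rw [← Finset.prod_pow, ← Finset.prod_mul_distrib]
            refine Finset.prod_congr rfl fun b _ => ?_
            rw [hb, mul_zpow, ← zpow_natCast (u b), ← zpow_natCast (u b ^ M i b), ← zpow_mul,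
              ← zpow_mul, mul_comm (k : ℤ)]
          have h3 : (∏ b : B, y₀ b ^ M i b) ≠ 0 :=
            Finset.prod_ne_zero_iff.2 fun b _ => zpow_ne_zero _ (hb0 b)
          rw [h2]
          simp only [C₀]
          unfold par
          rw [mul_pow]
          field_simp
        have h2 : ∏ b : B, par y₀ M u b ^ (M i b).toNat =
            (∏ b : B, par y₀ M u b ^ M i b) * ∏ b : B, par y₀ M u b ^ (-(M i b)).toNat := by
          rw [← Finset.prod_mul_distrib]
          refine Finset.prod_congr rfl fun b _ => ?_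
          rw [← zpow_natCast, ← zpow_natCast (par y₀ M u b) (-(M i b)).toNat,
            ← zpow_add₀ (hpb0 b)]
          congr 1
          omega
        rw [h1, h2]
        ring
      let R := (projHom (parIdeal y₀ M) (fun b : B => (b : ι))).range
      let A : R := ⟨projHom (parIdeal y₀ M) (fun b : B => (b : ι)) (∏ b, X b ^ (-(M i b)).toNat),
        ⟨_, rfl⟩⟩
      let D : R := ⟨projHom (parIdeal y₀ M) (fun b : B => (b : ι)) (C C₀ * ∏ b, X b ^ (M i b).toNat),
        ⟨_, rfl⟩⟩
      have hA : A ≠ 0 := by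
        intro h
        have h1 : projHom (parIdeal y₀ M) (fun b : B => (b : ι)) (∏ b, X b ^ (-(M i b)).toNat) = 0 :=
          congrArg Subtype.val h
        rw [projHom_eq_zero, map_prod] at h1
        obtain ⟨b, -, hb⟩ := (hpr.prod_mem_iff).1 h1
        rw [map_pow, rename_X] at hb
        exact hXpar b (hBS b) (hpr.mem_of_pow_mem _ hb)
      refine ⟨Polynomial.C A * Polynomial.X ^ k - Polynomial.C D, ?_, ?_⟩
      · intro h
        have h1 := congrArg (fun f => Polynomial.coeff f k) h
        simp only [Polynomial.coeff_sub, Polynomial.coeff_C_mul, Polynomial.coeff_X_pow,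
          Polynomial.coeff_C, if_pos, hk.ne', if_false, mul_one, sub_zero,
          Polynomial.coeff_zero] at h1
        exact hA h1
      · rw [map_sub, map_mul, map_pow, Polynomial.aeval_C, Polynomial.aeval_C, Polynomial.aeval_X]
        change projHom (parIdeal y₀ M) (fun b : B => (b : ι)) (∏ b, X b ^ (-(M i b)).toNat) *
          (Ideal.Quotient.mk (parIdeal y₀ M) (X i)) ^ k -
          projHom (parIdeal y₀ M) (fun b : B => (b : ι)) (C C₀ * ∏ b, X b ^ (M i b).toNat) = 0
        change Ideal.Quotient.mk (parIdeal y₀ M) (rename (fun b : B => (b : ι))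
            (∏ b, X b ^ (-(M i b)).toNat)) * (Ideal.Quotient.mk (parIdeal y₀ M) (X i)) ^ k -
          Ideal.Quotient.mk (parIdeal y₀ M) (rename (fun b : B => (b : ι))
            (C C₀ * ∏ b, X b ^ (M i b).toNat)) = 0
        rw [← map_pow, ← map_mul, ← map_sub, Ideal.Quotient.eq_zero_iff_mem]
        intro u hu
        have h1 := hrelpar u hu
        simp only [map_sub, map_mul, map_pow, map_prod, rename_X, rename_C, eval_X, eval_C]
        rw [← h1]
        ring
  have heq := eq_of_indep halg hle hind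
  exact ⟨y₀, k, M, hk, hy₀0, hMB, fun u hu q hq => by
    rw [← heq] at hq
    exact hq u hu⟩

end Struct

end Pool.Agent.H20.RG
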