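import Pool.Agent.H20.RG.HullLim

/-!
# Hypersurfaces which are invariant under a subtorus
-/

set_option autoImplicit false
set_option linter.unusedSectionVars false

namespace Pool.Agent.H20.RG

open MvPolynomial

section Dir

variable {σ : Type} [Fintype σ]

/-- There are directions orthogonal to `e` which separate finitely many monomials modulo `e`. -/
theorem exists_dir (e : σ → ℤ) (he : e ≠ 0) (S : Finset (σ →₀ ℕ)) :
    ∃ u : σ → ℤ, ∑ i, u i * e i = 0 ∧ ∀ q ∈ S, ∀ q' ∈ S, dot u q = dot u q' →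
      ∀ i j, ((q i : ℤ) - q' i) * e j = ((q j : ℤ) - q' j) * e i := by
  classical
  set E : ℤ := ∑ i, e i * e i with hE
  have hE0 : E ≠ 0 := by
    intro h
    apply he
    funext i
    have h1 := (Finset.sum_eq_zero_iff_of_nonneg (fun i _ => mul_self_nonneg (e i))).1 h i
      (Finset.mem_univ i)
    exact mul_self_eq_zero.1 h1
  -- the projected differences
  let δ : (σ →₀ ℕ) × (σ →₀ ℕ) → σ → ℤ := fun x i =>
    E * ((x.1 i : ℤ) - x.2 i) - (∑ k, e k * ((x.1 k : ℤ) - x.2 k)) * e i
  let Φ : MvPolynomial σ ℤ := ∏ x ∈ (S ×ˢ S).filter (fun x => δ x ≠ 0), ∑ i, C (δ x i) * X i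
  have hΦ : Φ ≠ 0 := by
    rw [Finset.prod_ne_zero_iff]
    rintro x hx h0
    rw [Finset.mem_filter] at hx
    apply hx.2
    funext i
    have h1 := congrArg (eval (Pi.single i (1 : ℤ))) h0
    rw [map_sum, map_zero] at h1
    simp only [map_mul, eval_C, eval_X, Pi.single_apply, mul_ite, mul_one, mul_zero] at h1
    rw [Finset.sum_ite_eq' Finset.univ i] at h1
    simpa using h1
  obtain ⟨k, hk⟩ : ∃ k : σ → ℤ, eval k Φ ≠ 0 := by
    by_contra hno
    push Not at hno
    exact hΦ (MvPolynomial.funext fun x => by rw [hno x, map_zero])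
  set ke : ℤ := ∑ i, k i * e i with hke
  refine ⟨fun i => E * k i - ke * e i, ?_, fun q hq q' hq' hqq => ?_⟩
  · have h1 : ∑ i, (E * k i - ke * e i) * e i = E * (∑ i, k i * e i) - ke * ∑ i, e i * e i := by
      rw [Finset.mul_sum, Finset.mul_sum, ← Finset.sum_sub_distrib]
      exact Finset.sum_congr rfl fun i _ => by ring
    rw [h1, ← hke, ← hE]
    ring
  · have hδ : δ (q, q') = 0 := by
      by_contra hne
      apply hk
      simp only [Φ]
      rw [map_prod]
      refine Finset.prod_eq_zero (i := (q, q'))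
        (Finset.mem_filter.2 ⟨Finset.mem_product.2 ⟨hq, hq'⟩, hne⟩) ?_
      rw [map_sum]
      simp only [map_mul, eval_C, eval_X]
      unfold dot at hqq
      have h1 : ∑ i, (E * k i - ke * e i) * ((q i : ℤ) - q' i) = 0 := by
        have h2 : ∑ i, (E * k i - ke * e i) * ((q i : ℤ) - q' i) =
            ∑ i, (E * k i - ke * e i) * (q i : ℤ) - ∑ i, (E * k i - ke * e i) * (q' i : ℤ) := by
          rw [← Finset.sum_sub_distrib]
          exact Finset.sum_congr rfl fun i _ => by ring
        rw [h2, hqq, sub_self]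
      have h3 : ∑ i, δ (q, q') i * k i = ∑ i, (E * k i - ke * e i) * ((q i : ℤ) - q' i) := by
        have h4 : ∑ i, δ (q, q') i * k i = E * (∑ i, k i * ((q i : ℤ) - q' i)) -
            (∑ j, e j * ((q j : ℤ) - q' j)) * ke := by
          rw [hke, Finset.mul_sum, Finset.mul_sum, ← Finset.sum_sub_distrib]
          refine Finset.sum_congr rfl fun i _ => ?_
          simp only [δ]
          ring
        have h5 : ∑ i, (E * k i - ke * e i) * ((q i : ℤ) - q' i) =
            E * (∑ i, k i * ((q i : ℤ) - q' i)) - ke * (∑ j, e j * ((q j : ℤ) - q' j)) := by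
          rw [Finset.mul_sum, Finset.mul_sum, ← Finset.sum_sub_distrib]
          exact Finset.sum_congr rfl fun i _ => by ring
        rw [h4, h5]
        ring
      rw [h3, h1]
    intro i j
    have h1 := congrFun hδ i
    have h2 := congrFun hδ j
    simp only [δ, Pi.zero_apply] at h1 h2
    have h3 : E * (((q i : ℤ) - q' i) * e j - ((q j : ℤ) - q' j) * e i) = 0 := by
      linear_combination e j * h1 - e i * h2
    have h4 := (mul_eq_zero.1 h3).resolve_left hE0
    linarith

variable {L : Type} [Field L]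

theorem slice_line (P : MvPolynomial σ L) (z : σ → L) (u : σ → ℤ) (h : ℤ)
    (hu : ∀ a ∈ P.support, h ≤ dot u a) {s : L} (hs : s ≠ 0) :
    s ^ h * ((slice P z (fun _ => 0) u h).map (Polynomial.evalRingHom 1)).eval s =
      eval (fun i => z i * s ^ u i) P := by
  rw [slice_eval hu 1 hs]
  congr 2
  funext i
  rw [pow_zero, mul_one]

theorem exists_low (P : MvPolynomial σ L) (u : σ → ℤ) (j : ℤ) :
    ∃ h : ℤ, h ≤ j ∧ ∀ a ∈ P.support, h ≤ dot u a := by
  refine ⟨-(|j| + ∑ a ∈ P.support, |dot u a|), ?_, fun a ha => ?_⟩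
  · have h1 : 0 ≤ ∑ a ∈ P.support, |dot u a| := Finset.sum_nonneg fun a _ => abs_nonneg _
    have h2 := neg_abs_le j
    linarith
  · have h1 := Finset.single_le_sum (f := fun a => |dot u a|) (fun a _ => abs_nonneg _) ha
    have h2 := neg_abs_le (dot u a)
    have h3 := abs_nonneg j
    linarith

/-- If a polynomial vanishes along a one-parameter family then so do its parts. -/
theorem parts_zero [IsAlgClosed L] {P : MvPolynomial σ L} {z : σ → L} {u : σ → ℤ}
    (h : ∀ s : L, s ≠ 0 → eval (fun i => z i * s ^ u i) P = 0) (j : ℤ) :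
    eval z (part P u j) = 0 := by
  obtain ⟨l, hlj, hl⟩ := exists_low P u j
  set f := (slice P z (fun _ => 0) u l).map (Polynomial.evalRingHom 1) with hf
  have hf0 : f = 0 := by
    have : Infinite L := IsAlgClosed.instInfinite
    refine Polynomial.eq_zero_of_infinite_isRoot f ?_
    refine Set.Infinite.mono (s := {0}ᶜ) ?_ (Set.finite_singleton (0 : L)).infinite_compl
    intro s hs
    have h1 := slice_line P z u l hl (s := s) hs
    rw [h s hs] at h1
    exact (mul_eq_zero.1 h1).resolve_left (zpow_ne_zero _ hs)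
  have h1 : f.coeff (j - l).toNat = 0 := by rw [hf0, Polynomial.coeff_zero]
  rw [hf, Polynomial.coeff_map, Polynomial.coe_evalRingHom, slice_coeff_eval_one] at h1
  rw [eval_part]
  refine Eq.trans (Finset.sum_congr rfl fun a ha => ?_) h1
  have := hl a ha
  refine if_congr ?_ rfl rfl
  omega

/-- Hypersurfaces which divide a binomial are invariant. -/
theorem exists_inv [IsAlgClosed L] {g : MvPolynomial σ L} (hg : Irreducible g)
    (hX : ∀ i, ¬ g ∣ X i) {a b : σ →₀ ℕ} {c : L} (hab : a ≠ b)
    (hd : g ∣ monomial a 1 - monomial b c) :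
    ∃ z : σ → L, (∀ i, z i ≠ 0) ∧ ∀ u : σ → ℤ, dot u a = dot u b → ∀ s : L, s ≠ 0 →
      eval (fun i => z i * s ^ u i) g = 0 := by
  classical
  have hβ0 : (monomial a 1 - monomial b c : MvPolynomial σ L) ≠ 0 := by
    intro h
    have h1 := congrArg (coeff a) h
    rw [coeff_sub, coeff_monomial, coeff_monomial, if_pos rfl, if_neg (Ne.symm hab), coeff_zero,
      sub_zero] at h1
    exact one_ne_zero h1
  obtain ⟨k, q, hq, hβ⟩ : ∃ (k : ℕ) (q : MvPolynomial σ L), ¬ g ∣ q ∧
      monomial a 1 - monomial b c = g ^ k * q := by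
    obtain ⟨q, h1, h2⟩ := (FiniteMultiplicity.of_not_isUnit hg.not_isUnit
      hβ0).exists_eq_pow_mul_and_not_dvd
    exact ⟨_, q, h2, h1⟩
  obtain ⟨z, hz, hgz, hqz⟩ : ∃ z : σ → L, (∀ i, z i ≠ 0) ∧ eval z g = 0 ∧ eval z q ≠ 0 := by
    by_contra hno
    push Not at hno
    exact hq (prime_dvd hg.prime hX fun z hz h0 => hno z hz h0)
  refine ⟨z, hz, fun u hu s hs => ?_⟩
  have hβz : eval z (monomial a 1 - monomial b c) = 0 := by
    obtain ⟨r, hr⟩ := hd
    rw [hr, map_mul, hgz, zero_mul]
  have hmon : ∀ (a : σ →₀ ℕ) (s : L), s ≠ 0 →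
      ∏ i, (z i * s ^ u i) ^ a i = (∏ i, z i ^ a i) * s ^ dot u a := by
    intro a s hs
    simp only [mul_pow, Finset.prod_mul_distrib]
    congr 1
    unfold dot
    rw [← prod_zpow_sum hs]
    exact Finset.prod_congr rfl fun i _ => by rw [zpow_mul, zpow_natCast]
  have hβs : ∀ s : L, s ≠ 0 → eval (fun i => z i * s ^ u i) (monomial a 1 - monomial b c) = 0 := by
    intro s hs
    rw [map_sub, eval_monomial, eval_monomial, Finsupp.prod_fintype _ _ (fun i => pow_zero _),
      Finsupp.prod_fintype _ _ (fun i => pow_zero _)] at hβz ⊢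
    rw [hmon a s hs, hmon b s hs, hu]
    linear_combination s ^ dot u b * hβz
  obtain ⟨lg, -, hlg⟩ := exists_low g u 0
  obtain ⟨lq, -, hlq⟩ := exists_low q u 0
  set G := (slice g z (fun _ => 0) u lg).map (Polynomial.evalRingHom 1) with hG
  set Q := (slice q z (fun _ => 0) u lq).map (Polynomial.evalRingHom 1) with hQ
  have hprod : G ^ k * Q = 0 := by
    have : Infinite L := IsAlgClosed.instInfinite
    refine Polynomial.eq_zero_of_infinite_isRoot _ ?_
    refine Set.Infinite.mono (s := {0}ᶜ) ?_ (Set.finite_singleton (0 : L)).infinite_compl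
    intro t ht
    have h1 := hβs t ht
    rw [hβ, map_mul, map_pow, ← slice_line g z u lg hlg ht, ← slice_line q z u lq hlq ht,
      ← hG, ← hQ, mul_pow] at h1
    have h2 : (t ^ lg) ^ k * t ^ lq * ((G ^ k * Q).eval t) = 0 := by
      rw [Polynomial.eval_mul, Polynomial.eval_pow]
      linear_combination h1
    exact (mul_eq_zero.1 h2).resolve_left
      (mul_ne_zero (pow_ne_zero _ (zpow_ne_zero _ ht)) (zpow_ne_zero _ ht))
  have hQ0 : Q ≠ 0 := by
    intro h1
    have h2 := slice_line q z u lq hlq (one_ne_zero (α := L))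
    rw [← hQ, h1, Polynomial.eval_zero, mul_zero] at h2
    apply hqz
    rw [h2]
    congr 2
    funext i
    rw [one_zpow, mul_one]
  have hG0 : G = 0 := by
    rcases mul_eq_zero.1 hprod with h1 | h1
    · refine (pow_eq_zero_iff ?_).1 h1
      rintro rfl
      rw [pow_zero] at h1
      exact one_ne_zero h1
    · exact absurd h1 hQ0
  rw [← slice_line g z u lg hlg hs, ← hG, hG0, Polynomial.eval_zero, mul_zero]

/-- Monomials in a class. -/
theorem mon_class {x : σ → L} (hx : ∀ i, x i ≠ 0) {e n : σ → ℤ} (hn : ∑ i, n i * e i = 1)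
    {q q' : σ →₀ ℕ} (h : ∀ i j, ((q i : ℤ) - q' i) * e j = ((q j : ℤ) - q' j) * e i) :
    (∀ i, ((q i : ℤ) - q' i) = (∑ j, n j * ((q j : ℤ) - q' j)) * e i) ∧
    ∏ i, x i ^ q i = (∏ i, x i ^ q' i) *
      (∏ i, x i ^ e i) ^ (∑ i, n i * ((q i : ℤ) - q' i)) := by
  have h1 : ∀ i, ((q i : ℤ) - q' i) = (∑ j, n j * ((q j : ℤ) - q' j)) * e i := by
    intro i
    calc ((q i : ℤ) - q' i) = (∑ j, n j * e j) * ((q i : ℤ) - q' i) := by rw [hn, one_mul]
      _ = (∑ j, n j * ((q j : ℤ) - q' j)) * e i := by
        rw [Finset.sum_mul, Finset.sum_mul]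
        refine Finset.sum_congr rfl fun j _ => ?_
        linear_combination n j * h i j
  refine ⟨h1, ?_⟩
  rw [← Finset.prod_zpow, ← Finset.prod_mul_distrib]
  refine Finset.prod_congr rfl fun i _ => ?_
  rw [← zpow_natCast (x i) (q i), ← zpow_natCast (x i) (q' i), ← zpow_mul, ← zpow_add₀ (hx i)]
  congr 1
  have h2 := h1 i
  linear_combination h2

/-- A polynomial which vanishes on the one-parameter families vanishes on the coset. -/
theorem coset_zero [IsAlgClosed L] {P : MvPolynomial σ L} {z : σ → L} (hz : ∀ i, z i ≠ 0)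
    {e n : σ → ℤ} (hn : ∑ i, n i * e i = 1)
    (h : ∀ u : σ → ℤ, ∑ i, u i * e i = 0 → ∀ s : L, s ≠ 0 →
      eval (fun i => z i * s ^ u i) P = 0) (x : σ → L) (hx : ∀ i, x i ≠ 0)
    (hxz : ∏ i, x i ^ e i = ∏ i, z i ^ e i) : eval x P = 0 := by
  classical
  have he : e ≠ 0 := by
    rintro rfl
    simp at hn
  obtain ⟨u, hu, hdir⟩ := exists_dir e he P.support
  have hpart := parts_zero (h u hu)
  rw [eval_eq_sum_parts P u x]
  refine Finset.sum_eq_zero fun j hj => ?_
  obtain ⟨q', hq', hj'⟩ := Finset.mem_image.1 hj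
  have hzq : ∏ i, z i ^ q' i ≠ 0 := Finset.prod_ne_zero_iff.2 fun i _ => pow_ne_zero _ (hz i)
  have h1 : eval x (part P u j) = (∏ i, x i ^ q' i) / (∏ i, z i ^ q' i) *
      eval z (part P u j) := by
    rw [eval_part, eval_part, Finset.mul_sum]
    refine Finset.sum_congr rfl fun q hq => ?_
    split_ifs with hqj
    · have h2 := hdir q hq q' hq' (hqj.trans hj'.symm)
      rw [(mon_class hx hn h2).2, (mon_class hz hn h2).2, hxz]
      field_simp
    · rw [mul_zero]
  rw [h1, hpart j, mul_zero]

/-- The value of the character lies in the small field. -/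
theorem char_mem {K' : Type} [Field K'] [IsAlgClosed K'] [IsAlgClosed L] (φ : K' →+* L)
    {P : MvPolynomial σ K'} (hP : P ≠ 0) {z : σ → L} (hz : ∀ i, z i ≠ 0)
    {e n : σ → ℤ} (hn : ∑ i, n i * e i = 1)
    (h : ∀ u : σ → ℤ, ∑ i, u i * e i = 0 → ∀ s : L, s ≠ 0 →
      eval (fun i => z i * s ^ u i) (map φ P) = 0) : ∃ ρ : K', φ ρ = ∏ i, z i ^ e i := by
  classical
  have he : e ≠ 0 := by
    rintro rfl
    simp at hn
  obtain ⟨u, hu, hdir⟩ := exists_dir e he P.support
  obtain ⟨q', hq'⟩ := support_nonempty.2 hP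
  have hpart := parts_zero (h u hu) (dot u q')
  rw [eval_part] at hpart
  have hsupp : (map φ P).support = P.support := support_map_of_injective _ φ.injective
  rw [hsupp] at hpart
  simp only [coeff_map] at hpart
  set E := ∏ i, z i ^ e i with hE
  have hE0 : E ≠ 0 := Finset.prod_ne_zero_iff.2 fun i _ => zpow_ne_zero _ (hz i)
  let k : (σ →₀ ℕ) → ℤ := fun q => ∑ i, n i * ((q i : ℤ) - q' i)
  set N : ℕ := ∑ q ∈ P.support, (k q).natAbs with hN
  have hkN : ∀ q ∈ P.support, 0 ≤ k q + N := by
    intro q hq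
    have h1 := Finset.single_le_sum (f := fun q => (k q).natAbs) (fun q _ => Nat.zero_le _) hq
    have h2 : ((k q).natAbs : ℤ) ≤ N := by exact_mod_cast h1
    omega
  set f : Polynomial K' := ∑ q ∈ P.support, if dot u q = dot u q' then
    Polynomial.monomial (k q + N).toNat (P.coeff q) else 0 with hf
  have hzq : ∏ i, z i ^ q' i ≠ 0 := Finset.prod_ne_zero_iff.2 fun i _ => pow_ne_zero _ (hz i)
  have hfE : (f.map φ).eval E = 0 := by
    have h1 : (∏ i, z i ^ q' i) * (f.map φ).eval E = E ^ N * ∑ q ∈ P.support,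
        if dot u q = dot u q' then φ (P.coeff q) * ∏ i, z i ^ q i else 0 := by
      rw [hf, Polynomial.map_sum, Polynomial.eval_finsetSum, Finset.mul_sum, Finset.mul_sum]
      refine Finset.sum_congr rfl fun q hq => ?_
      split_ifs with hqq
      · rw [Polynomial.map_monomial, Polynomial.eval_monomial,
          (mon_class hz hn (hdir q hq q' hq' hqq)).2, ← hE]
        have h2 : E ^ (k q + N).toNat = E ^ (k q) * E ^ N := by
          rw [← zpow_natCast E (k q + N).toNat, Int.toNat_of_nonneg (hkN q hq), zpow_add₀ hE0,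
            zpow_natCast]
        rw [h2]
        ring
      · rw [Polynomial.map_zero, Polynomial.eval_zero, mul_zero, mul_zero]
    rw [hpart, mul_zero] at h1
    exact (mul_eq_zero.1 h1).resolve_left hzq
  have hf0 : f ≠ 0 := by
    intro h0
    have h1 := congrArg (fun f => Polynomial.coeff f N) h0
    simp only [hf, Polynomial.finsetSum_coeff, Polynomial.coeff_zero] at h1
    rw [Finset.sum_eq_single q'] at h1
    · rw [if_pos rfl, Polynomial.coeff_monomial] at h1
      have h2 : (k q' + N).toNat = N := by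
        have h3 : k q' = 0 := by
          simp only [k, sub_self, mul_zero, Finset.sum_const_zero]
        rw [h3]
        simp
      rw [if_pos h2] at h1
      exact mem_support_iff.1 hq' h1
    · intro q hq hqq'
      split_ifs with hqq
      · rw [Polynomial.coeff_monomial, if_neg]
        intro h2
        have h3 := hkN q hq
        have h4 : k q = 0 := by omega
        have h5 := (mon_class hz hn (hdir q hq q' hq' hqq)).1
        apply hqq'
        ext i
        have h6 := h5 i
        have h7 : (∑ j, n j * ((q j : ℤ) - q' j)) = 0 := h4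
        rw [h7, zero_mul] at h6
        omega
      · exact Polynomial.coeff_zero _
    · intro h2
      exact absurd hq' h2
  -- the root lies in the small field
  have hsp : f.Splits := IsAlgClosed.splits f
  have h1 : (f.map φ).eval E = φ f.leadingCoeff * (f.roots.map fun r => E - φ r).prod := by
    conv_lhs => rw [hsp.eq_prod_roots]
    rw [Polynomial.map_mul, Polynomial.map_C, Polynomial.eval_mul, Polynomial.eval_C,
      Polynomial.map_multiset_prod, Multiset.map_map, Polynomial.eval_multiset_prod,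
      Multiset.map_map]
    simp
  rw [hfE, eq_comm, mul_eq_zero] at h1
  rcases h1 with h1 | h1
  · rw [map_eq_zero, Polynomial.leadingCoeff_eq_zero] at h1
    exact absurd h1 hf0
  · rw [Multiset.prod_eq_zero_iff, Multiset.mem_map] at h1
    obtain ⟨r, -, hr⟩ := h1
    exact ⟨r, (sub_eq_zero.1 hr).symm⟩

end Dir

section Bin

variable {σ : Type} [Fintype σ] {L : Type} [Field L] [IsAlgClosed L]

/-- positive part -/
noncomputable def pos (e : σ → ℤ) : σ →₀ ℕ := Finsupp.equivFunOnFinite.symm fun i => (e i).toNat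

/-- The binomial with exponent `e`. -/
noncomputable def bin (e : σ → ℤ) (ρ : L) : MvPolynomial σ L :=
  monomial (pos e) 1 - monomial (pos (-e)) ρ

theorem pos_apply (e : σ → ℤ) (i : σ) : pos e i = (e i).toNat := rfl

theorem eval_bin (e : σ → ℤ) (ρ : L) (x : σ → L) :
    eval x (bin e ρ) = ∏ i, x i ^ (e i).toNat - ρ * ∏ i, x i ^ (-e i).toNat := by
  unfold bin
  rw [map_sub, eval_monomial, eval_monomial, Finsupp.prod_fintype _ _ (fun i => pow_zero _),
    Finsupp.prod_fintype _ _ (fun i => pow_zero _), one_mul]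
  rfl

theorem eval_bin_torus (e : σ → ℤ) (ρ : L) {x : σ → L} (hx : ∀ i, x i ≠ 0) :
    eval x (bin e ρ) = 0 ↔ ∏ i, x i ^ e i = ρ := by
  rw [eval_bin]
  have h1 : ∏ i, x i ^ (e i).toNat = (∏ i, x i ^ e i) * ∏ i, x i ^ (-e i).toNat := by
    rw [← Finset.prod_mul_distrib]
    refine Finset.prod_congr rfl fun i _ => ?_
    rw [← zpow_natCast, ← zpow_natCast, ← zpow_add₀ (hx i)]
    congr 1
    omega
  have h2 : ∏ i, x i ^ (-e i).toNat ≠ 0 := Finset.prod_ne_zero_iff.2 fun i _ => pow_ne_zero _ (hx i)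
  rw [h1, ← sub_mul, mul_eq_zero, sub_eq_zero]
  exact ⟨fun h => h.resolve_right h2, fun h => Or.inl h⟩

theorem pos_ne {e : σ → ℤ} (he : e ≠ 0) : pos e ≠ pos (-e) := by
  intro h
  apply he
  funext i
  have h1 := DFunLike.congr_fun h i
  rw [pos_apply, pos_apply] at h1
  simp only [Pi.neg_apply] at h1
  simp only [Pi.zero_apply]
  omega

/-- The hypersurface of an irreducible polynomial which vanishes on a coset of a subtorus. -/
theorem dvd_bin {P : MvPolynomial σ L} (hP : Irreducible P) {e : σ → ℤ} (he : e ≠ 0) {ρ : L}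
    (hρ : ρ ≠ 0) (h : ∀ x : σ → L, (∀ i, x i ≠ 0) → ∏ i, x i ^ e i = ρ → eval x P = 0) :
    P ∣ bin e ρ ∧ ∀ x, eval x (bin e ρ) = 0 → eval x P = 0 := by
  classical
  have hb0 : bin e ρ ≠ 0 := by
    intro h0
    have h1 := congrArg (coeff (pos e)) h0
    unfold bin at h1
    rw [coeff_sub, coeff_monomial, coeff_monomial, if_pos rfl, if_neg (Ne.symm (pos_ne he)),
      coeff_zero, sub_zero] at h1
    exact one_ne_zero h1
  have hXb : ∀ i, ¬ X i ∣ bin e ρ := by
    rintro i ⟨r, hr⟩
    have h1 : ∀ x : σ → L, x i = 0 → eval x (bin e ρ) = 0 := by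
      intro x hx
      rw [hr, map_mul, eval_X, hx, zero_mul]
    have h3 : ∀ (A : Finset σ) (f : σ → ℕ), ∏ j, (if j ∈ A then (0 : L) else 1) ^ f j =
        if ∀ j ∈ A, f j = 0 then 1 else 0 := by
      intro A f
      split_ifs with hf
      · refine Finset.prod_eq_one fun j _ => ?_
        by_cases hj : j ∈ A
        · rw [if_pos hj, hf j hj, pow_zero]
        · rw [if_neg hj, one_pow]
      · push Not at hf
        obtain ⟨j, hj, hfj⟩ := hf
        exact Finset.prod_eq_zero (Finset.mem_univ j) (by rw [if_pos hj, zero_pow hfj])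
    obtain ⟨j, hj, hij⟩ : ∃ j, e j ≠ 0 ∧ (e i ≠ 0 → j = i) := by
      by_cases hi : e i = 0
      · obtain ⟨j, hj⟩ : ∃ j, e j ≠ 0 := by
          by_contra hno
          push Not at hno
          exact he (funext hno)
        exact ⟨j, hj, fun h => absurd hi h⟩
      · exact ⟨i, hi, fun _ => rfl⟩
    have h2 := h1 (fun k => if k ∈ ({i, j} : Finset σ) then 0 else 1) (by simp)
    rw [eval_bin, h3, h3] at h2
    have h4 : e i = 0 ∨ e i = e j := by
      by_cases hi : e i = 0
      · exact Or.inl hi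
      · exact Or.inr (by rw [hij hi])
    simp only [Finset.mem_insert, Finset.mem_singleton, forall_eq_or_imp, forall_eq] at h2
    rcases lt_or_gt_of_ne hj with h5 | h5
    · rw [if_pos (by omega), if_neg (by omega)] at h2
      simp at h2
    · rw [if_neg (by omega), if_pos (by omega)] at h2
      simp only [mul_one, zero_sub, neg_eq_zero] at h2
      exact hρ h2
  have hfac : ∀ Q, Irreducible Q → Q ∣ bin e ρ → Q ∣ P := by
    intro Q hQ hQb
    refine prime_dvd hQ.prime (fun i hi => ?_) fun x hx hQx => ?_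
    · have h1 : X i ∣ Q := (hQ.associated_of_dvd (X_prime (i := i)).irreducible hi).symm.dvd
      exact hXb i (h1.trans hQb)
    · refine h x hx ((eval_bin_torus e ρ hx).1 ?_)
      obtain ⟨r, hr⟩ := hQb
      rw [hr, map_mul, hQx, zero_mul]
  constructor
  · have hnu : ¬ IsUnit (bin e ρ) := by
      intro hu
      obtain ⟨x, hx, hx0⟩ := exists_torus_zero (g := bin e ρ) (pos_ne he)
        (by
          unfold bin
          rw [mem_support_iff, coeff_sub, coeff_monomial, coeff_monomial, if_pos rfl,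
            if_neg (Ne.symm (pos_ne he)), sub_zero]
          exact one_ne_zero)
        (by
          unfold bin
          rw [mem_support_iff, coeff_sub, coeff_monomial, coeff_monomial, if_pos rfl,
            if_neg (pos_ne he), zero_sub]
          exact neg_ne_zero.2 hρ)
      exact (hu.map (eval x)).ne_zero hx0
    obtain ⟨Q, hQ, hQb⟩ := WfDvdMonoid.exists_irreducible_factor hnu hb0
    exact ((hQ.associated_of_dvd hP (hfac Q hQ hQb)).symm.dvd).trans hQb
  · intro x hx
    obtain ⟨u, hu⟩ := UniqueFactorizationMonoid.factors_prod hb0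
    have h5 : eval x (UniqueFactorizationMonoid.factors (bin e ρ)).prod = 0 := by
      have h6 := congrArg (eval x) hu
      rw [map_mul, hx] at h6
      exact (mul_eq_zero.1 h6).resolve_right (u.isUnit.map (eval x)).ne_zero
    rw [map_multiset_prod, Multiset.prod_eq_zero_iff, Multiset.mem_map] at h5
    obtain ⟨q, hq, hq0⟩ := h5
    obtain ⟨r, hr⟩ := hfac q (UniqueFactorizationMonoid.irreducible_of_factor q hq)
      (UniqueFactorizationMonoid.dvd_of_mem_factors hq)
    rw [hr, map_mul, hq0, zero_mul]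

end Bin

end Pool.Agent.H20.RG
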