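import Pool.Agent.H20.RG.Slice

/-!
# Rigidity of hypersurfaces
-/

set_option autoImplicit false
set_option linter.unusedSectionVars false

namespace Pool.Agent.H20.RG

open MvPolynomial Pool.Agent.Y129.TA

section Weight

variable {σ : Type} [Fintype σ]

theorem weight_dichotomy (S : Finset (σ →₀ ℕ)) (hS : 1 < S.card) :
    (∃ (w : σ → ℤ) (h : ℤ), (∀ a ∈ S, h ≤ dot w a) ∧
      (∃ a ∈ S, ∃ b ∈ S, a ≠ b ∧ dot w a = h ∧ dot w b = h) ∧ ∃ c ∈ S, h < dot w c) ∨
    (∃ v ∈ S, ∃ q₀ ∈ S, ∃ j, v j < q₀ j ∧ ∀ q ∈ S, v j ≤ q j ∧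
      ∀ i, ((q i : ℤ) - v i) * ((q₀ j : ℤ) - v j) = ((q₀ i : ℤ) - v i) * ((q j : ℤ) - v j)) := by
  classical
  obtain ⟨a₁, ha₁, b₁, hb₁, hab⟩ := Finset.one_lt_card.1 hS
  obtain ⟨j, hj⟩ : ∃ j, a₁ j ≠ b₁ j := by
    by_contra h
    push Not at h
    exact hab (Finsupp.ext h)
  obtain ⟨v, hv, hvmin⟩ := Finset.exists_min_image S (fun a => a j) ⟨a₁, ha₁⟩
  have hdot1 : ∀ (i : σ) (D : ℤ) (a : σ →₀ ℕ), dot (fun x => if x = i then D else 0) a = D * a i := by
    intro i D a
    unfold dot
    simp
  by_cases hu : ∃ a ∈ S, a ≠ v ∧ a j = v j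
  · obtain ⟨a, ha, hav, haj⟩ := hu
    refine Or.inl ⟨fun x => if x = j then 1 else 0, v j, fun b hb => ?_, ⟨a, ha, v, hv, hav, ?_, ?_⟩, ?_⟩
    · rw [hdot1, one_mul]
      exact_mod_cast hvmin b hb
    · rw [hdot1, one_mul, haj]
    · rw [hdot1, one_mul]
    · have h1 := hvmin a₁ ha₁
      have h2 := hvmin b₁ hb₁
      rcases lt_or_ge (v j) (a₁ j) with h3 | h3
      · exact ⟨a₁, ha₁, by rw [hdot1, one_mul]; exact_mod_cast h3⟩
      · refine ⟨b₁, hb₁, ?_⟩
        rw [hdot1, one_mul]
        have : v j < b₁ j := by omega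
        exact_mod_cast this
  · push Not at hu
    have hlt : ∀ q ∈ S, q ≠ v → v j < q j := fun q hq hqv =>
      lt_of_le_of_ne (hvmin q hq) fun h => hu q hq hqv h.symm
    obtain ⟨q₁, hq₁, hq₁v⟩ : ∃ q ∈ S, q ≠ v := by
      by_cases h : a₁ = v
      · exact ⟨b₁, hb₁, fun h2 => hab (h.trans h2.symm)⟩
      · exact ⟨a₁, ha₁, h⟩
    by_cases hline : ∀ q ∈ S, ∀ i, ((q i : ℤ) - v i) * ((q₁ j : ℤ) - v j) =
        ((q₁ i : ℤ) - v i) * ((q j : ℤ) - v j)
    · exact Or.inr ⟨v, hv, q₁, hq₁, j, hlt q₁ hq₁ hq₁v, fun q hq => ⟨hvmin q hq, hline q hq⟩⟩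
    · left
      push Not at hline
      obtain ⟨q₂, hq₂, i, hi⟩ := hline
      -- the slopes
      let μ : (σ →₀ ℕ) → ℚ := fun q => ((q i : ℚ) - v i) / ((q j : ℚ) - v j)
      obtain ⟨q₀, hq₀, hmin⟩ := Finset.exists_min_image (S.erase v) μ
        ⟨q₁, Finset.mem_erase.2 ⟨hq₁v, hq₁⟩⟩
      rw [Finset.mem_erase] at hq₀
      have hpos : ∀ q ∈ S, q ≠ v → (0 : ℤ) < (q j : ℤ) - v j := fun q hq hqv => by
        have := hlt q hq hqv
        omega
      have hcross : ∀ q ∈ S, q ≠ v →
          ((q₀ i : ℤ) - v i) * ((q j : ℤ) - v j) ≤ ((q i : ℤ) - v i) * ((q₀ j : ℤ) - v j) := by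
        intro q hq hqv
        have h1 := hmin q (Finset.mem_erase.2 ⟨hqv, hq⟩)
        simp only [μ] at h1
        have h2 : (0 : ℚ) < (q j : ℚ) - v j := by exact_mod_cast hpos q hq hqv
        have h3 : (0 : ℚ) < (q₀ j : ℚ) - v j := by exact_mod_cast hpos q₀ hq₀.2 hq₀.1
        rw [div_le_div_iff₀ h3 h2] at h1
        exact_mod_cast h1
      set D : ℤ := (q₀ j : ℤ) - v j with hD
      set N : ℤ := (q₀ i : ℤ) - v i with hN
      have hD0 : 0 < D := hpos q₀ hq₀.2 hq₀.1
      let w : σ → ℤ := fun x => (if x = i then D else 0) - (if x = j then N else 0)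
      have hw : ∀ a : σ →₀ ℕ, dot w a = D * a i - N * a j := by
        intro a
        rw [← hdot1 i D a, ← hdot1 j N a]
        unfold dot
        rw [← Finset.sum_sub_distrib]
        exact Finset.sum_congr rfl fun x _ => sub_mul _ _ _
      refine ⟨w, dot w v, fun a ha => ?_, ⟨v, hv, q₀, hq₀.2, fun h => hq₀.1 h.symm, rfl, ?_⟩, ?_⟩
      · by_cases hav : a = v
        · rw [hav]
        · have := hcross a ha hav
          rw [hw, hw]
          linarith
      · rw [hw, hw, hD, hN]
        ring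
      · by_contra hno
        push Not at hno
        have heq : ∀ q ∈ S, N * ((q j : ℤ) - v j) = ((q i : ℤ) - v i) * D := by
          intro q hq
          by_cases hqv : q = v
          · rw [hqv]
            ring
          · have h1 := hcross q hq hqv
            have h2 := hno q hq
            rw [hw, hw] at h2
            linarith
        apply hi
        have h1 := heq q₁ hq₁
        have h2 := heq q₂ hq₂
        have h3 : D * (((q₂ i : ℤ) - v i) * ((q₁ j : ℤ) - v j)) =
            D * (((q₁ i : ℤ) - v i) * ((q₂ j : ℤ) - v j)) := by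
          linear_combination ((q₂ j : ℤ) - v j) * h1 - ((q₁ j : ℤ) - v j) * h2
        exact mul_left_cancel₀ hD0.ne' h3

end Weight

section Zero

variable {σ : Type} [Fintype σ] {L : Type} [Field L] [IsAlgClosed L]

/-- A univariate polynomial with two terms has a nonzero root. -/
theorem exists_root_ne_zero {f : Polynomial L} {m n : ℕ} (hmn : m ≠ n) (hm : f.coeff m ≠ 0)
    (hn : f.coeff n ≠ 0) : ∃ x, x ≠ 0 ∧ f.eval x = 0 := by
  by_contra hno
  push Not at hno
  have hf0 : f ≠ 0 := by
    rintro rfl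
    exact hm (Polynomial.coeff_zero m)
  have hs : f.Splits := IsAlgClosed.splits f
  have h1 : f.roots = Multiset.replicate (Multiset.card f.roots) 0 := by
    rw [Multiset.eq_replicate]
    refine ⟨rfl, fun x hx => ?_⟩
    by_contra hx0
    exact hno x hx0 (Polynomial.mem_roots'.1 hx).2
  have h2 : f = Polynomial.C f.leadingCoeff * Polynomial.X ^ (Multiset.card f.roots) := by
    conv_lhs => rw [hs.eq_prod_roots]
    rw [h1, Multiset.map_replicate, Multiset.prod_replicate, map_zero, sub_zero,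
      Multiset.card_replicate]
  rw [h2, Polynomial.coeff_C_mul, Polynomial.coeff_X_pow] at hm hn
  apply hmn
  have h3 : m = Multiset.card f.roots := by
    by_contra h
    rw [if_neg h, mul_zero] at hm
    exact hm rfl
  have h4 : n = Multiset.card f.roots := by
    by_contra h
    rw [if_neg h, mul_zero] at hn
    exact hn rfl
  rw [h3, h4]

/-- A polynomial with two terms has a zero with nonzero coordinates. -/
theorem exists_torus_zero {g : MvPolynomial σ L} {a b : σ →₀ ℕ} (hab : a ≠ b)
    (ha : a ∈ g.support) (hb : b ∈ g.support) :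
    ∃ z : σ → L, (∀ i, z i ≠ 0) ∧ eval z g = 0 := by
  classical
  obtain ⟨k, hk⟩ := exists_sep g.support
  let f : Polynomial L := ∑ a ∈ g.support, Polynomial.monomial (dotN k a) (g.coeff a)
  have hf : ∀ c ∈ g.support, f.coeff (dotN k c) = g.coeff c := by
    intro c hc
    simp only [f]
    rw [Polynomial.finsetSum_coeff, Finset.sum_eq_single c]
    · rw [Polynomial.coeff_monomial, if_pos rfl]
    · intro d hd hdc
      rw [Polynomial.coeff_monomial, if_neg]
      intro h
      exact hdc (hk hd hc h)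
    · intro h
      exact absurd hc h
  obtain ⟨x, hx, hx0⟩ := exists_root_ne_zero (f := f) (m := dotN k a) (n := dotN k b)
    (fun h => hab (hk ha hb h)) (by rw [hf a ha]; exact mem_support_iff.1 ha)
    (by rw [hf b hb]; exact mem_support_iff.1 hb)
  refine ⟨fun i => x ^ k i, fun i => pow_ne_zero _ hx, ?_⟩
  rw [← hx0]
  simp only [f]
  rw [eval_eq', Polynomial.eval_finsetSum]
  refine Finset.sum_congr rfl fun c _ => ?_
  rw [Polynomial.eval_monomial]
  congr 1
  unfold dotN
  rw [← Finset.prod_pow_eq_pow_sum]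
  exact Finset.prod_congr rfl fun i _ => (pow_mul _ _ _).symm

/-- A prime polynomial which is no variable divides every polynomial vanishing on its zeros with
nonzero coordinates. -/
theorem prime_dvd {q f : MvPolynomial σ L} (hq : Prime q) (hX : ∀ i, ¬ q ∣ X i)
    (h : ∀ z : σ → L, (∀ i, z i ≠ 0) → eval z q = 0 → eval z f = 0) : q ∣ f := by
  classical
  have h1 : f * ∏ i, X i ∈ (Ideal.span {q}).radical := by
    rw [← vanishingIdeal_zeroLocus_eq_radical (K := L), mem_vanishingIdeal_iff]
    intro z hz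
    rw [aeval_eq_eval, map_mul, map_prod]
    by_cases hz0 : ∀ i, z i ≠ 0
    · rw [h z hz0 ?_, zero_mul]
      have h2 := hz q (Ideal.mem_span_singleton_self q)
      rwa [aeval_eq_eval] at h2
    · push Not at hz0
      obtain ⟨i, hi⟩ := hz0
      rw [Finset.prod_eq_zero (Finset.mem_univ i) (by rw [eval_X, hi]), mul_zero]
  have hpr : (Ideal.span {q}).IsPrime := (Ideal.span_singleton_prime hq.ne_zero).2 hq
  rw [hpr.radical, Ideal.mem_span_singleton] at h1
  rcases hq.dvd_or_dvd h1 with h2 | h2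
  · exact h2
  · obtain ⟨i, -, hi⟩ := hq.exists_mem_finset_dvd h2
    exact absurd hi (hX i)

/-- the part of weight `j` -/
noncomputable def part (g : MvPolynomial σ L) (w : σ → ℤ) (j : ℤ) : MvPolynomial σ L :=
  ∑ a ∈ g.support, if dot w a = j then monomial a (g.coeff a) else 0

theorem eval_part (g : MvPolynomial σ L) (w : σ → ℤ) (j : ℤ) (z : σ → L) :
    eval z (part g w j) = ∑ a ∈ g.support, if dot w a = j then g.coeff a * ∏ i, z i ^ a i else 0 := by
  unfold part
  rw [map_sum]
  refine Finset.sum_congr rfl fun a _ => ?_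
  split_ifs
  · rw [eval_monomial, Finsupp.prod_fintype _ _ (fun i => pow_zero _)]
  · exact map_zero _

theorem coeff_part (g : MvPolynomial σ L) (w : σ → ℤ) (j : ℤ) {b : σ →₀ ℕ} (hb : dot w b = j) :
    (part g w j).coeff b = g.coeff b := by
  classical
  unfold part
  rw [coeff_sum]
  by_cases h : b ∈ g.support
  · rw [Finset.sum_eq_single b]
    · rw [if_pos hb, coeff_monomial, if_pos rfl]
    · intro d _ hdb
      split_ifs
      · rw [coeff_monomial, if_neg hdb]
      · exact coeff_zero _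
    · intro h2
      exact absurd h h2
  · rw [notMem_support_iff.1 h]
    refine Finset.sum_eq_zero fun d hd => ?_
    split_ifs
    · rw [coeff_monomial, if_neg]
      rintro rfl
      exact h hd
    · exact coeff_zero _

theorem eval_eq_sum_parts (g : MvPolynomial σ L) (w : σ → ℤ) (z : σ → L) :
    eval z g = ∑ j ∈ g.support.image (dot w), eval z (part g w j) := by
  classical
  simp only [eval_part]
  rw [Finset.sum_comm, eval_eq']
  refine Finset.sum_congr rfl fun a ha => ?_
  rw [Finset.sum_ite_eq (g.support.image (dot w)) (dot w a)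
    (fun _ => g.coeff a * ∏ i, z i ^ a i), if_pos (Finset.mem_image_of_mem _ ha)]

/-- An irreducible polynomial which is not homogeneous for the weight has a torus point for which the
initial form vanishes and another part does not. -/
theorem exists_boundary {g : MvPolynomial σ L} (hg : Irreducible g) (w : σ → ℤ) (h : ℤ)
    (hw : ∀ a ∈ g.support, h ≤ dot w a)
    (h2 : ∃ a ∈ g.support, ∃ b ∈ g.support, a ≠ b ∧ dot w a = h ∧ dot w b = h)
    (h3 : ∃ c ∈ g.support, h < dot w c) :
    ∃ z : σ → L, (∀ i, z i ≠ 0) ∧ eval z (part g w h) = 0 ∧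
      ∃ j, h < j ∧ eval z (part g w j) ≠ 0 := by
  classical
  by_contra hno
  push Not at hno
  obtain ⟨a, ha, b, hb, hab, haw, hbw⟩ := h2
  obtain ⟨c, hc, hcw⟩ := h3
  set g₀ := part g w h with hg₀
  have ha0 : a ∈ g₀.support := by
    rw [mem_support_iff, coeff_part g w h haw]
    exact mem_support_iff.1 ha
  have hb0 : b ∈ g₀.support := by
    rw [mem_support_iff, coeff_part g w h hbw]
    exact mem_support_iff.1 hb
  have hg₀0 : g₀ ≠ 0 := by
    intro h4
    rw [h4] at ha0
    simp at ha0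
  obtain ⟨z₁, hz₁, hz₁0⟩ := exists_torus_zero hab ha0 hb0
  -- an irreducible factor
  obtain ⟨q, hq, hqg, hqz⟩ : ∃ q, Irreducible q ∧ q ∣ g₀ ∧ eval z₁ q = 0 := by
    have h4 := UniqueFactorizationMonoid.factors_prod hg₀0
    obtain ⟨u, hu⟩ := h4
    have h5 : eval z₁ (UniqueFactorizationMonoid.factors g₀).prod = 0 := by
      have h6 := congrArg (eval z₁) hu
      rw [map_mul, hz₁0] at h6
      exact (mul_eq_zero.1 h6).resolve_right (u.isUnit.map (eval z₁)).ne_zero
    rw [map_multiset_prod, Multiset.prod_eq_zero_iff, Multiset.mem_map] at h5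
    obtain ⟨q, hq, hq0⟩ := h5
    exact ⟨q, UniqueFactorizationMonoid.irreducible_of_factor q hq,
      UniqueFactorizationMonoid.dvd_of_mem_factors hq, hq0⟩
  have hqX : ∀ i, ¬ q ∣ X i := by
    rintro i ⟨r, hr⟩
    have h4 := congrArg (eval z₁) hr
    rw [eval_X, map_mul, hqz, zero_mul] at h4
    exact hz₁ i h4
  have hqg' : q ∣ g := by
    refine prime_dvd hq.prime hqX fun z hz hqz' => ?_
    have h4 : eval z g₀ = 0 := by
      obtain ⟨r, hr⟩ := hqg
      rw [hr, map_mul, hqz', zero_mul]
    rw [eval_eq_sum_parts g w z]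
    refine Finset.sum_eq_zero fun j hj => ?_
    obtain ⟨d, hd, rfl⟩ := Finset.mem_image.1 hj
    rcases (hw d hd).lt_or_eq with h5 | h5
    · exact hno z hz h4 _ h5
    · rw [← h5]
      exact h4
  have hgq : g ∣ q := (hq.associated_of_dvd hg hqg').symm.dvd
  have hgg₀ : g ∣ g₀ := hgq.trans hqg
  -- a point
  set j := dot w c with hj
  have hpj : part g w j ≠ 0 := by
    intro h4
    have h5 := coeff_part g w j hj.symm
    rw [h4, coeff_zero] at h5
    exact mem_support_iff.1 hc h5.symm
  obtain ⟨x, hx⟩ : ∃ x, eval x (g₀ * part g w j * ∏ i, X i) ≠ 0 := by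
    by_contra h4
    push Not at h4
    have h5 : g₀ * part g w j * ∏ i, (X i : MvPolynomial σ L) = 0 :=
      MvPolynomial.funext fun x => by rw [h4 x, map_zero]
    exact mul_ne_zero (mul_ne_zero hg₀0 hpj) (Finset.prod_ne_zero_iff.2 fun i _ => X_ne_zero i) h5
  rw [map_mul, map_mul, map_prod] at hx
  have hx1 : eval x g₀ ≠ 0 := left_ne_zero_of_mul (left_ne_zero_of_mul hx)
  have hx2 : eval x (part g w j) ≠ 0 := right_ne_zero_of_mul (left_ne_zero_of_mul hx)
  have hx3 : ∀ i, x i ≠ 0 := fun i => by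
    have h4 := Finset.prod_ne_zero_iff.1 (right_ne_zero_of_mul hx) i (Finset.mem_univ i)
    rwa [eval_X] at h4
  let f : Polynomial L := (slice g x (fun _ => 0) w h).map (Polynomial.evalRingHom 1)
  have hf : ∀ n : ℕ, f.coeff n = eval x (part g w (h + n)) := by
    intro n
    simp only [f]
    rw [Polynomial.coeff_map, Polynomial.coe_evalRingHom, slice_coeff_eval_one, eval_part]
    refine Finset.sum_congr rfl fun d hd => ?_
    have := hw d hd
    refine if_congr ?_ rfl rfl
    omega
  obtain ⟨s, hs, hs0⟩ := exists_root_ne_zero (f := f) (m := 0) (n := (j - h).toNat) (by omega)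
    (by rw [hf, Nat.cast_zero, add_zero]; exact hx1) (by
      rw [hf]
      have h4 : h + ((j - h).toNat : ℤ) = j := by omega
      rw [h4]
      exact hx2)
  have h4 := slice_eval (z := x) (k := fun _ => 0) hw 1 hs
  change s ^ h * f.eval s = _ at h4
  rw [hs0, mul_zero] at h4
  obtain ⟨r, hr⟩ := hgg₀
  have h5 : eval (fun i => x i * 1 ^ 0 * s ^ w i) g₀ = 0 := by
    rw [hr, map_mul, ← h4, zero_mul]
  have h6 : eval (fun i => x i * 1 ^ 0 * s ^ w i) g₀ = s ^ h * eval x g₀ := by
    rw [hg₀, eval_part, eval_part, Finset.mul_sum]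
    refine Finset.sum_congr rfl fun d _ => ?_
    split_ifs with h7
    · have h8 : ∏ i, (x i * 1 ^ 0 * s ^ w i) ^ d i = (∏ i, x i ^ d i) * s ^ h := by
        simp only [pow_zero, mul_one, mul_pow, Finset.prod_mul_distrib]
        congr 1
        rw [← h7]
        unfold dot
        rw [← prod_zpow_sum hs]
        exact Finset.prod_congr rfl fun i _ => by rw [zpow_mul, zpow_natCast]
      rw [h8]
      ring
    · rw [mul_zero]
  rw [h6] at h5
  exact mul_ne_zero (zpow_ne_zero _ hs) hx1 h5

/-- An irreducible polynomial which divides no variable has at least two terms. -/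
theorem one_lt_card {g : MvPolynomial σ L} (hg : Irreducible g) (hX : ∀ i, ¬ g ∣ X i) :
    1 < g.support.card := by
  classical
  by_contra hno
  push Not at hno
  rcases Nat.lt_or_ge g.support.card 1 with h | h
  · have h1 : g.support = ∅ := Finset.card_eq_zero.1 (by omega)
    exact hg.ne_zero (support_eq_empty.1 h1)
  · obtain ⟨a, ha⟩ := Finset.card_eq_one.1 (le_antisymm hno h)
    have h1 : g = monomial a (g.coeff a) := by
      conv_lhs => rw [g.as_sum, ha, Finset.sum_singleton]
    have hc : g.coeff a ≠ 0 := by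
      intro h2
      rw [h2, map_zero] at h1
      exact hg.ne_zero h1
    have h2 : g ∣ monomial a 1 := by
      have h9 : ∀ c : L, c ≠ 0 → g = monomial a c → g ∣ monomial a 1 := by
        intro c hc' hgc
        refine ⟨C c⁻¹, ?_⟩
        rw [hgc, mul_comm, C_mul_monomial, inv_mul_cancel₀ hc']
      exact h9 _ hc h1
    rw [monomial_eq, C_1, one_mul, Finsupp.prod] at h2
    obtain ⟨i, -, hi⟩ := hg.prime.exists_mem_finset_dvd h2
    exact hX i (hg.prime.dvd_of_dvd_pow hi)

/-- An irreducible polynomial whose exponents lie on a line divides a binomial. -/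
theorem dvd_binomial {g : MvPolynomial σ L} (hg : Irreducible g) (hX : ∀ i, ¬ g ∣ X i)
    {v q₀ : σ →₀ ℕ} {j : σ} (hj : v j < q₀ j) (hv : v ∈ g.support)
    (hq : ∀ q ∈ g.support, v j ≤ q j ∧
      ∀ i, ((q i : ℤ) - v i) * ((q₀ j : ℤ) - v j) = ((q₀ i : ℤ) - v i) * ((q j : ℤ) - v j)) :
    ∃ c, c ≠ 0 ∧ g ∣ monomial q₀ 1 - monomial v c := by
  classical
  set D : ℕ := q₀ j - v j with hD
  have hD0 : 0 < D := by omega
  have hDz : (q₀ j : ℤ) - v j = D := by omega
  let f : Polynomial L := ∑ q ∈ g.support, Polynomial.monomial (q j - v j) (g.coeff q)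
  have hf0 : f ≠ 0 := by
    intro h1
    have h2 := congrArg (fun x => Polynomial.coeff x 0) h1
    simp only [f, Polynomial.finsetSum_coeff, Polynomial.coeff_zero] at h2
    rw [Finset.sum_eq_single v] at h2
    · rw [Polynomial.coeff_monomial, if_pos (Nat.sub_self _)] at h2
      exact mem_support_iff.1 hv h2
    · intro q hq1 hqv
      rw [Polynomial.coeff_monomial, if_neg]
      intro h3
      apply hqv
      ext i
      obtain ⟨h4, h5⟩ := hq q hq1
      have h6 := h5 i
      have h7 : (q j : ℤ) - v j = 0 := by omega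
      rw [h7, mul_zero, hDz] at h6
      have h8 := (mul_eq_zero.1 h6).resolve_right (by exact_mod_cast hD0.ne')
      omega
    · intro h3
      exact absurd hv h3
  let Ψ : MvPolynomial σ L := ∏ ρ ∈ f.roots.toFinset, (monomial q₀ 1 - monomial v (ρ ^ D))
  have hΨ : g ∣ Ψ := by
    refine prime_dvd hg.prime hX fun y hy hgy => ?_
    choose x hx using fun i => IsAlgClosed.exists_pow_nat_eq (y i) hD0
    have hx0 : ∀ i, x i ≠ 0 := by
      intro i h1
      have h2 := hx i
      rw [h1, zero_pow hD0.ne'] at h2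
      exact hy i h2.symm
    set U : L := ∏ i, x i ^ ((q₀ i : ℤ) - v i) with hU
    have hU0 : U ≠ 0 := Finset.prod_ne_zero_iff.2 fun i _ => zpow_ne_zero _ (hx0 i)
    have hmon : ∀ q ∈ g.support, ∏ i, y i ^ q i = (∏ i, y i ^ v i) * U ^ (q j - v j) := by
      intro q hq1
      obtain ⟨h4, h5⟩ := hq q hq1
      rw [hU, ← Finset.prod_pow, ← Finset.prod_mul_distrib]
      refine Finset.prod_congr rfl fun i _ => ?_
      rw [← hx i, ← pow_mul, ← pow_mul, ← zpow_natCast (x i), ← zpow_natCast (x i),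
        ← zpow_natCast (x i ^ _), ← zpow_mul, ← zpow_add₀ (hx0 i)]
      congr 1
      have h6 := h5 i
      rw [hDz] at h6
      push_cast [Nat.cast_sub h4]
      linear_combination h6
    have hroot : f.eval U = 0 := by
      have h1 : (∏ i, y i ^ v i) * f.eval U = eval y g := by
        rw [eval_eq']
        simp only [f]
        rw [Polynomial.eval_finsetSum, Finset.mul_sum]
        refine Finset.sum_congr rfl fun q hq1 => ?_
        rw [Polynomial.eval_monomial, hmon q hq1]
        ring
      rw [hgy] at h1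
      exact (mul_eq_zero.1 h1).resolve_left (Finset.prod_ne_zero_iff.2 fun i _ =>
        pow_ne_zero _ (hy i))
    simp only [Ψ]
    rw [map_prod]
    refine Finset.prod_eq_zero (i := U) (Multiset.mem_toFinset.2
      ((Polynomial.mem_roots hf0).2 hroot)) ?_
    rw [map_sub, eval_monomial, eval_monomial, one_mul,
      Finsupp.prod_fintype _ _ (fun i => pow_zero _), Finsupp.prod_fintype _ _ (fun i => pow_zero _)]
    have h2 : ∏ i, y i ^ q₀ i = (∏ i, y i ^ v i) * U ^ D := by
      rw [hU, ← Finset.prod_pow, ← Finset.prod_mul_distrib]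
      refine Finset.prod_congr rfl fun i _ => ?_
      rw [← hx i, ← pow_mul, ← pow_mul, ← zpow_natCast (x i), ← zpow_natCast (x i),
        ← zpow_natCast (x i ^ _), ← zpow_mul, ← zpow_add₀ (hx0 i)]
      congr 1
      push_cast
      ring
    rw [h2]
    ring
  obtain ⟨ρ, hρ, hρ2⟩ := hg.prime.exists_mem_finset_dvd hΨ
  by_cases hρ0 : ρ ^ D = 0
  · exfalso
    rw [hρ0, map_zero, sub_zero, monomial_eq, C_1, one_mul, Finsupp.prod] at hρ2
    obtain ⟨i, -, hi⟩ := hg.prime.exists_mem_finset_dvd hρ2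
    exact hX i (hg.prime.dvd_of_dvd_pow hi)
  · exact ⟨_, hρ0, hρ2⟩

end Zero

section Rigid

variable {σ : Type} [Fintype σ]
variable {p : ℕ} [hp : Fact p.Prime] {K F : Type} [Field K] [Field F] [CharP F p] [IsAlgClosed F]

/-- Rigidity of hypersurfaces: if a nonzero polynomial vanishes on the image of an irreducible
hypersurface under the sharp map then the hypersurface is contained in a coset of a proper subtorus. -/
theorem rigid (T : Tilting p K F) {g : MvPolynomial σ F} (hg : Irreducible g)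
    (hX : ∀ i, ¬ g ∣ X i) {P : MvPolynomial σ K} (hP0 : P ≠ 0)
    (hP : ∀ y : σ → F, (∀ i, y i ≠ 0) → eval y g = 0 → eval (fun i => T.sharp (y i)) P = 0) :
    ∃ (a b : σ →₀ ℕ) (c : F), a ≠ b ∧ c ≠ 0 ∧ g ∣ monomial a 1 - monomial b c := by
  rcases weight_dichotomy g.support (one_lt_card hg hX) with ⟨w, h, h1, h2, h3⟩ | h1
  · exfalso
    obtain ⟨z, hz, hz0, j, hj, hzj⟩ := exists_boundary hg w h h1 h2 h3
    rw [eval_part] at hz0 hzj
    refine core T hP0 hP w h h1 z hz hz0 ?_ j hj hzj
    obtain ⟨a, ha, -, -, -, haw, -⟩ := h2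
    exact ⟨a, ha, haw⟩
  · obtain ⟨v, hv, q₀, hq₀, j, hj, hq⟩ := h1
    obtain ⟨c, hc, hc2⟩ := dvd_binomial hg hX hj hv hq
    refine ⟨q₀, v, c, ?_, hc, hc2⟩
    rintro rfl
    exact lt_irrefl _ hj

end Rigid

end Pool.Agent.H20.RG
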